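import Pool.Agent.H250.MR.AFa

set_option autoImplicit false

/-!
# All points close to 1 (board task AF, MP_172a45_an)
-/

open MeasureTheory Polynomial

namespace Pool.Agent.H250.MR.AFf

open Pool.Agent.H250.MR Pool.Agent.H565.Pm

/-- `(N + 1) (17 s / 4)^N ≤ s²` -/
lemma small_pow {N : ℕ} {s : ℝ} (hs : 0 ≤ s) (hs1 : s ≤ 1 / 100) (hN : 10 ≤ N) :
    ((N : ℝ) + 1) * (17 / 4 * s) ^ N ≤ s ^ 2 := by
  obtain ⟨M, rfl⟩ : ∃ M, N = M + 2 := ⟨N - 2, by omega⟩
  have h1 : 17 / 4 * s ≤ 1 / 20 := by linarith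
  have h2 : (17 / 4 * s) ^ M ≤ (1 / 20) ^ M := pow_le_pow_left₀ (by positivity) h1 M
  have h3 : ((M + 2 : ℕ) : ℝ) + 1 ≤ 2 ^ (M + 3) := by
    have h := Nat.lt_two_pow_self (n := M + 3)
    have : ((M + 3 : ℕ) : ℝ) ≤ 2 ^ (M + 3) := by exact_mod_cast h.le
    push_cast at this ⊢
    linarith
  have h4 : (1 / 10 : ℝ) ^ M ≤ (1 / 10) ^ 8 :=
    pow_le_pow_of_le_one (by norm_num) (by norm_num) (by omega)
  have h5 : (2 : ℝ) ^ (M + 3) * (1 / 20) ^ M = 8 * (1 / 10) ^ M := by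
    rw [pow_add, mul_right_comm, ← mul_pow, mul_comm]
    norm_num
  have h6 : (((M + 2 : ℕ) : ℝ) + 1) * (17 / 4 * s) ^ M ≤ 8 * (1 / 10) ^ 8 :=
    calc (((M + 2 : ℕ) : ℝ) + 1) * (17 / 4 * s) ^ M ≤ 2 ^ (M + 3) * (1 / 20) ^ M :=
          mul_le_mul h3 h2 (by positivity) (by positivity)
      _ = 8 * (1 / 10) ^ M := h5
      _ ≤ _ := by linarith
  have h7 : (((M + 2 : ℕ) : ℝ) + 1) * (17 / 4 * s) ^ (M + 2) =
      ((((M + 2 : ℕ) : ℝ) + 1) * (17 / 4 * s) ^ M) * (289 / 16 * s ^ 2) := by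
    rw [pow_add]; ring
  rw [h7]
  have h8 := mul_le_mul_of_nonneg_right h6 (show 0 ≤ 289 / 16 * s ^ 2 by positivity)
  have h9 := sq_nonneg s
  linarith

/-- the final numerical contradiction -/
lemma final_num {N s Y Pz : ℝ} (hN : 10 ^ 6 ≤ N) (hs : 0 < s) (hs1 : s ≤ 1 / 100)
    (hY : Y = s ^ 2 * N) (h1 : 1 - 24 / 10 * s ^ 2 ≤ Pz)
    (h2 : Pz ≤ (1 + s ^ 2) * Real.exp (-(Y / 20)) + s ^ 2) : False := by
  have hY0 : 0 < Y := by rw [hY]; positivity
  have hs2 : s ^ 2 ≤ 1 / 10 ^ 4 := by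
    have := pow_le_pow_left₀ hs.le hs1 2
    linarith
  have hs0 : 0 < s ^ 2 := by positivity
  have h3 : Real.exp (-(Y / 20)) * (1 + Y / 20) ≤ 1 := by
    have h4 : 1 + Y / 20 ≤ Real.exp (Y / 20) := by
      have := Real.add_one_le_exp (Y / 20)
      linarith
    calc Real.exp (-(Y / 20)) * (1 + Y / 20) ≤ Real.exp (-(Y / 20)) * Real.exp (Y / 20) :=
          mul_le_mul_of_nonneg_left h4 (Real.exp_pos _).le
      _ = 1 := by rw [← Real.exp_add, neg_add_cancel, Real.exp_zero]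
  have h5 : 1 - 34 / 10 * s ^ 2 ≤ (1 + s ^ 2) * Real.exp (-(Y / 20)) := by linarith
  have h6 : (1 - 34 / 10 * s ^ 2) * (1 + Y / 20) ≤ 1 + s ^ 2 := by
    have h7 : 0 ≤ 1 + Y / 20 := by linarith
    calc (1 - 34 / 10 * s ^ 2) * (1 + Y / 20) ≤
          ((1 + s ^ 2) * Real.exp (-(Y / 20))) * (1 + Y / 20) :=
          mul_le_mul_of_nonneg_right h5 h7
      _ = (1 + s ^ 2) * (Real.exp (-(Y / 20)) * (1 + Y / 20)) := by ring
      _ ≤ (1 + s ^ 2) * 1 := mul_le_mul_of_nonneg_left h3 (by positivity)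
      _ = _ := mul_one _
  -- `Y/20 (1 - 3.4 s²) ≤ 4.4 s²`
  have h8 : Y / 20 * (1 / 2) ≤ Y / 20 * (1 - 34 / 10 * s ^ 2) :=
    mul_le_mul_of_nonneg_left (by linarith) (by linarith)
  have h9 : Y / 40 ≤ 44 / 10 * s ^ 2 := by linarith
  have h10 : s ^ 2 * 10 ^ 6 ≤ s ^ 2 * N := mul_le_mul_of_nonneg_left hN hs0.le
  rw [hY] at h9
  linarith

/-- (AF) -/
theorem AF : S_AF := by
  intro hE N a l x z w h hz hw hne hxw hD hU
  have ha1 := h.ha1
  have hε1 := h.eps1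
  have hεN := h.eps
  have hl := h.l0
  have hN1 := h.N1
  have hN0 := h.N0
  have hNbig := h.Nbig
  have ha0 : 99 / 100 ≤ a := h.a0
  have ha00 : 0 < a := by linarith
  obtain ⟨ε, hε⟩ : ∃ ε, ε = 1 - a := ⟨_, rfl⟩
  have haε : a = 1 - ε := by rw [hε]; ring
  have hε0 : 0 < ε := by rw [hε]; linarith
  rw [← hε] at hε1 hεN
  -- `l / N` is small
  have hlN : l / N ≤ 1 / 10 ^ 200 := by
    rw [div_le_div_iff₀ hN0 (by positivity)]
    linarith
  have hlN0 : 0 ≤ l / N := div_nonneg hl.le hN0.le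
  have hD0 : 0 ≤ DD x := DD_nonneg ha00 h.hx
  obtain ⟨D, hDdef⟩ : ∃ D, D = DD x := ⟨_, rfl⟩
  rw [← hDdef] at hD hD0
  have hD1 : D ≤ 10 ^ 15 * (l / N) := by
    rw [← mul_div_assoc]; exact hD
  have hDs : D ≤ 1 / 10 ^ 6 := by
    have : 10 ^ 15 * (l / N) ≤ 10 ^ 15 * (1 / 10 ^ 200) :=
      mul_le_mul_of_nonneg_left hlN (by positivity)
    refine hD1.trans (this.trans ?_)
    norm_num
  -- pointwise
  have hrpos : ∀ k, 0 < ‖x k‖ := fun k => by have := h.rlow k; linarith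
  have hDk : ∀ k, ‖x k‖ - 1 - Real.log ‖x k‖ ≤ D := by
    intro k
    rw [hDdef]
    exact Finset.single_le_sum (f := fun k => ‖x k‖ - 1 - Real.log ‖x k‖)
      (fun j _ => d0 (hrpos j)) (Finset.mem_univ k)
  have hpt : ∀ k, (‖x k‖ - 1) ^ 2 ≤ 4 * (‖x k‖ - 1 - Real.log ‖x k‖) ∧ 99 / 100 ≤ ‖x k‖ ∧
      ‖x k‖ ≤ 101 / 100 := fun k => af_r (hrpos k) ((hDk k).trans hDs)
  -- the points `u_k`
  obtain ⟨u, hu⟩ : ∃ u : Fin N → ℂ, u = fun k => -((a : ℂ) * x k) := ⟨_, rfl⟩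
  have huk : ∀ k, u k = -((a : ℂ) * x k) := fun k => by rw [hu]
  have hun : ∀ k, ‖u k‖ = a * ‖x k‖ := fun k => by rw [huk, u_norm ha00]
  have hU' : N - 10 ^ 16 * l ≤ (∑ k, u k).re := by
    simp only [huk]; exact hU
  obtain ⟨X, hX⟩ : ∃ X, X = ∑ k, (‖u k‖ - 1) ^ 2 := ⟨_, rfl⟩
  obtain ⟨Y, hY⟩ : ∃ Y, Y = ∑ k, (‖u k‖ - (u k).re) := ⟨_, rfl⟩
  have hX0 : 0 ≤ X := by rw [hX]; exact Finset.sum_nonneg fun _ _ => sq_nonneg _
  have hY0 : 0 ≤ Y := by
    rw [hY]; exact Finset.sum_nonneg fun k _ => sub_nonneg.2 (Complex.re_le_norm _)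
  have hXle : X ≤ 8 * D + 2 * ε ^ 2 * N := by
    have h1 : ∀ k, (‖u k‖ - 1) ^ 2 ≤ 8 * (‖x k‖ - 1 - Real.log ‖x k‖) + 2 * ε ^ 2 := by
      intro k
      have h2 := (hpt k).1
      have h3 : (‖u k‖ - 1) ^ 2 ≤ 2 * (a * (‖x k‖ - 1)) ^ 2 + 2 * ε ^ 2 := by
        rw [hun, hε]
        have := sq_nonneg (a * (‖x k‖ - 1) + (1 - a))
        linarith
      have h4 : (a * (‖x k‖ - 1)) ^ 2 ≤ (‖x k‖ - 1) ^ 2 := by
        rw [mul_pow]
        refine mul_le_of_le_one_left (sq_nonneg _) ?_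
        exact pow_le_one₀ ha00.le ha1.le
      linarith
    have h5 := Finset.sum_le_sum fun k (_ : k ∈ Finset.univ) => h1 k
    rw [Finset.sum_add_distrib, ← Finset.mul_sum, Finset.sum_const, Finset.card_univ,
      Fintype.card_fin, nsmul_eq_mul] at h5
    rw [hX, hDdef]
    unfold DD
    linarith
  obtain ⟨R, hR⟩ : ∃ R, R = ∑ k, ‖x k‖ := ⟨_, rfl⟩
  have hRN : R ≤ N := by rw [hR]; exact h.hS
  have hsumn : ∑ k, ‖u k‖ = a * R := by
    rw [hR, Finset.mul_sum]; exact Finset.sum_congr rfl fun k _ => hun k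
  have hYeq : Y = a * R - (∑ k, u k).re := by
    rw [hY, Finset.sum_sub_distrib, hsumn, Complex.re_sum]
  have haR : a * R ≤ a * N := mul_le_mul_of_nonneg_left hRN ha00.le
  have hYle : Y ≤ 10 ^ 16 * l := by
    have : a * N ≤ 1 * N := mul_le_mul_of_nonneg_right ha1.le hN0.le
    linarith
  -- `δ`
  obtain ⟨δ, hδ⟩ : ∃ δ : Fin N → ℂ, δ = fun k => u k - 1 := ⟨_, rfl⟩
  have hδk : ∀ k, δ k = u k - 1 := fun k => by rw [hδ]
  have hδ2 : ∑ k, ‖δ k‖ ^ 2 = X + 2 * Y := by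
    rw [hX, hY, Finset.mul_sum, ← Finset.sum_add_distrib]
    refine Finset.sum_congr rfl fun k _ => ?_
    have h1 : ‖u k - 1‖ ^ 2 = ‖u k‖ ^ 2 - 2 * (u k).re + 1 := by
      rw [Complex.sq_norm, Complex.sq_norm, Complex.normSq_apply, Complex.normSq_apply]
      simp
      ring
    rw [hδk, h1]
    ring
  obtain ⟨q, hq⟩ : ∃ q, q = Real.sqrt ((X + 2 * Y) / N) := ⟨_, rfl⟩
  have hXY : 0 ≤ (X + 2 * Y) / N := by positivity
  have hq0 : 0 ≤ q := by rw [hq]; exact Real.sqrt_nonneg _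
  have hqsq : q ^ 2 = (X + 2 * Y) / N := by rw [hq]; exact Real.sq_sqrt hXY
  have hqN : q ^ 2 * N = X + 2 * Y := by rw [hqsq]; field_simp
  have hδ1 : ∑ k, ‖δ k‖ ≤ q * N := by
    have h1 := sq_sum_le_card_mul_sum_sq (s := (Finset.univ : Finset (Fin N)))
      (f := fun k => ‖δ k‖)
    rw [hδ2, Finset.card_univ, Fintype.card_fin, ← hqN] at h1
    refine (sq_le_sq₀ (Finset.sum_nonneg fun _ _ => norm_nonneg _) (by positivity)).1 ?_
    refine h1.trans (le_of_eq ?_)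
    ring
  -- `q² ≤ 8 (D + ε + Y/N)`
  obtain ⟨v, hv⟩ : ∃ v, v = Y / N := ⟨_, rfl⟩
  have hv0 : 0 ≤ v := by rw [hv]; exact div_nonneg hY0 hN0.le
  have hvle : v ≤ 10 ^ 16 * (l / N) := by
    rw [hv, ← mul_div_assoc]; exact div_le_div_of_nonneg_right hYle hN0.le
  have hvs : v ≤ 1 / 10 ^ 100 := by
    have : 10 ^ 16 * (l / N) ≤ 10 ^ 16 * (1 / 10 ^ 200) :=
      mul_le_mul_of_nonneg_left hlN (by positivity)
    refine hvle.trans (this.trans ?_)
    norm_num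
  have hvN : v * N = Y := by rw [hv]; field_simp
  have hε2 : ε ^ 2 ≤ ε := by
    have h1 : ε ≤ 1 := hε1.trans (by norm_num)
    calc ε ^ 2 = ε * ε := sq ε
      _ ≤ 1 * ε := mul_le_mul_of_nonneg_right h1 hε0.le
      _ = ε := one_mul _
  have hN1' : (1 : ℝ) ≤ N := le_trans (by norm_num) hNbig
  have hqle : q ^ 2 ≤ 8 * (D + ε + v) := by
    have h1 : q ^ 2 * N ≤ 8 * D + 2 * ε ^ 2 * N + 2 * (v * N) := by rw [hqN, hvN]; linarith
    have h2 : 8 * D ≤ 8 * D * N := le_mul_of_one_le_right (by linarith) hN1'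
    have h3 : ε ^ 2 * N ≤ ε * N := mul_le_mul_of_nonneg_right hε2 hN0.le
    have h4 : 0 ≤ v * N := by positivity
    have h5 : 0 ≤ ε * N := by positivity
    have h6 : q ^ 2 * N ≤ 8 * (D + ε + v) * N := by linarith
    exact le_of_mul_le_mul_right h6 hN0
  have hDs' : D ≤ 1 / 10 ^ 100 := by
    have : 10 ^ 15 * (l / N) ≤ 10 ^ 15 * (1 / 10 ^ 200) :=
      mul_le_mul_of_nonneg_left hlN (by positivity)
    refine hD1.trans (this.trans ?_)
    norm_num
  have hq8 : q ≤ 1 / 10 ^ 8 := by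
    refine (sq_le_sq₀ hq0 (by positivity)).1 (hqle.trans ?_)
    have : 8 * (D + ε + v) ≤ 8 * (1 / 10 ^ 100 + 1 / 10 ^ 100 + 1 / 10 ^ 100) := by linarith
    exact this.trans (by norm_num)
  have hNnat : 10 ^ 6 ≤ N := by
    have : (10 : ℝ) ^ 6 ≤ N := le_trans (by norm_num) hNbig
    exact_mod_cast this
  have hNr : (10 : ℝ) ^ 6 ≤ N := by exact_mod_cast hNnat
  -- error terms
  have herr : 10000 * q ^ 3 + 3 * (q ^ 2 / N) ≤ 1 / 100 * (D + ε + v) := by
    have h1 : 10000 * q ^ 3 + 3 * (q ^ 2 / N) = q ^ 2 * (10000 * q + 3 / N) := by ring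
    have h2 : 3 / (N : ℝ) ≤ 3 / 10 ^ 6 := div_le_div_of_nonneg_left (by norm_num) (by norm_num) hNr
    have h3 : 10000 * q + 3 / N ≤ 1 / 800 := by
      have : 10000 * q + 3 / N ≤ 10000 * (1 / 10 ^ 8) + 3 / 10 ^ 6 := by linarith
      exact this.trans (by norm_num)
    have h4 : 0 ≤ 10000 * q + 3 / N := by positivity
    rw [h1]
    calc q ^ 2 * (10000 * q + 3 / N) ≤ (8 * (D + ε + v)) * (1 / 800) :=
          mul_le_mul hqle h3 h4 (by linarith)
      _ = _ := by ring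
  -- the expansion
  have hlow := esym_lower hE δ hNnat hq0 (hq8.trans (by norm_num)) hδ1 (by rw [hδ2, hqN])
  have hint : ∫ t in (0:ℝ)..1, ∏ k, (1 - (t : ℂ) * (1 + δ k)) =
      ∫ t in (0:ℝ)..1, ∏ k, (1 - (t : ℂ) * u k) := by
    have : ∀ k, 1 + δ k = u k := fun k => by rw [hδk]; ring
    simp only [this]
  rw [hint] at hlow
  have hδre : (∑ k, δ k).re = (∑ k, u k).re - N := by
    have : ∑ k, δ k = ∑ k, u k - N := by
      simp only [hδk]
      rw [Finset.sum_sub_distrib]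
      simp
    rw [this, Complex.sub_re, Complex.natCast_re]
  obtain ⟨J, hJ⟩ : ∃ J, J = (∑ k, δ k).im := ⟨_, rfl⟩
  rw [← hJ] at hlow
  have hJu : J = ∑ k, (u k).im := by
    rw [hJ, Complex.im_sum]
    refine Finset.sum_congr rfl fun k _ => ?_
    rw [hδk, Complex.sub_im, Complex.one_im, sub_zero]
  have hre : ε + v ≤ -((∑ k, δ k).re / N) := by
    rw [hδre, ← neg_div, le_div_iff₀ hN0, add_mul, hvN, hYeq, haε]
    rw [haε] at haR
    linarith
  -- the test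
  have htest : (N + 1 : ℝ) * ‖∫ t in (0:ℝ)..1, ∏ k, (1 - (t : ℂ) * u k)‖ =
      (∏ k, ‖x k‖) * ∏ j, ‖z j‖ := by
    have h1 := test_y ha00 z w 1 zero_le_one hw hne u (by
      intro k
      rw [huk, hxw, ← neg_sub (w k) (a : ℂ), inv_neg, mul_neg])
    rw [h1, one_mul, sub_self, mul_zero, Complex.ofReal_zero]
    congr 1
    · exact Finset.prod_congr rfl fun k _ => by rw [hxw, norm_inv]
    · exact Finset.prod_congr rfl fun j _ => by rw [zero_sub, norm_neg]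
  obtain ⟨Pz, hPz⟩ : ∃ Pz, Pz = ∏ j, ‖z j‖ := ⟨_, rfl⟩
  have hPz0 : 0 ≤ Pz := by rw [hPz]; exact Finset.prod_nonneg fun _ _ => norm_nonneg _
  have hPz1 : Pz ≤ 1 := by
    rw [hPz]; exact Finset.prod_le_one (fun _ _ => norm_nonneg _) fun j _ => hz j
  have hprod : ∏ k, ‖x k‖ ≤ 1 - D / 2 := by
    have h1 : ∏ k, ‖x k‖ ≤ Real.exp (-D) := by rw [hDdef]; exact F9 ha00 h.hx h.hS
    have h2 : Real.exp (-D) * (1 + D) ≤ 1 := by
      have h4 : 1 + D ≤ Real.exp D := by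
        have := Real.add_one_le_exp D
        linarith
      calc Real.exp (-D) * (1 + D) ≤ Real.exp (-D) * Real.exp D :=
            mul_le_mul_of_nonneg_left h4 (Real.exp_pos _).le
        _ = 1 := by rw [← Real.exp_add, neg_add_cancel, Real.exp_zero]
    have h3 : 1 ≤ (1 - D / 2) * (1 + D) := by
      have : D * D ≤ D * (1 / 10 ^ 6) := mul_le_mul_of_nonneg_left hDs hD0
      linarith
    have h4 : Real.exp (-D) * (1 + D) ≤ (1 - D / 2) * (1 + D) := h2.trans h3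
    exact h1.trans (le_of_mul_le_mul_right h4 (by linarith))
  rw [htest, ← hPz] at hlow
  have hup : (∏ k, ‖x k‖) * Pz ≤ (1 - D / 2) * Pz := mul_le_mul_of_nonneg_right hprod hPz0
  obtain ⟨W, hW⟩ : ∃ W, W = J ^ 2 / ((N : ℝ) * (N - 1)) := ⟨_, rfl⟩
  rw [← hW] at hlow
  have hkey : 1 + 99 / 100 * ε + 99 / 100 * v - W - 1 / 100 * D ≤ (1 - D / 2) * Pz := by
    linarith
  have hN1'' : (0 : ℝ) < (N : ℝ) - 1 := by linarith
  have hWle : ∀ C : ℝ, J ^ 2 ≤ C * (N * Y) → 0 ≤ C → W ≤ 101 / 100 * C * v := by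
    intro C hC hC0
    rw [hW, div_le_iff₀ (mul_pos hN0 hN1''), ← hvN] at *
    have h1 : (N : ℝ) ≤ 101 / 100 * (N - 1) := by linarith
    have h2 : 0 ≤ C * v * N := by positivity
    calc J ^ 2 ≤ C * (N * (v * N)) := hC
      _ = (C * v * N) * N := by ring
      _ ≤ (C * v * N) * (101 / 100 * (N - 1)) := mul_le_mul_of_nonneg_left h1 h2
      _ = _ := by ring
  have hDPz : (1 - D / 2) * Pz ≤ 1 - D / 2 := mul_le_of_le_one_right (by linarith) hPz1
  -- case A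
  rcases le_or_gt (J ^ 2) (1 / 4 * (N * Y)) with hcase | hcase
  · have h1 := hWle (1 / 4) hcase (by norm_num)
    linarith
  -- case B
  have hJ2 : J ^ 2 ≤ 21 / 10 * (N * Y) := by
    have h1 := sq_sum_le_card_mul_sum_sq (s := (Finset.univ : Finset (Fin N)))
      (f := fun k => (u k).im)
    rw [← hJu, Finset.card_univ, Fintype.card_fin] at h1
    have h2 : ∑ k, (u k).im ^ 2 ≤ 21 / 10 * Y := by
      rw [hY, Finset.mul_sum]
      refine Finset.sum_le_sum fun k _ => ?_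
      have h3 : (u k).im ^ 2 = (‖u k‖ - (u k).re) * (‖u k‖ + (u k).re) := by
        have : ‖u k‖ ^ 2 = (u k).re ^ 2 + (u k).im ^ 2 := by
          rw [Complex.sq_norm, Complex.normSq_apply]; ring
        linear_combination -this
      have h4 : 0 ≤ ‖u k‖ - (u k).re := sub_nonneg.2 (Complex.re_le_norm _)
      have h5 : ‖u k‖ + (u k).re ≤ 21 / 10 := by
        have h6 := Complex.re_le_norm (u k)
        have h7 : ‖u k‖ ≤ 1 * (101 / 100) := by
          rw [hun]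
          exact mul_le_mul ha1.le (hpt k).2.2 (norm_nonneg _) zero_le_one
        linarith
      rw [h3, mul_comm (21 / 10 : ℝ)]
      exact mul_le_mul_of_nonneg_left h5 h4
    have h3 := mul_le_mul_of_nonneg_left h2 hN0.le
    linarith
  have hW2 := hWle (21 / 10) hJ2 (by norm_num)
  have hεv : ε ≤ 2 * v := by linarith
  have hDv : D ≤ 3 * v := by linarith
  have hvpos : 0 < v := by linarith
  have hYpos : 0 < Y := by rw [← hvN]; positivity
  obtain ⟨s, hs⟩ : ∃ s, s = Real.sqrt v := ⟨_, rfl⟩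
  have hs0 : 0 < s := by rw [hs]; exact Real.sqrt_pos.2 hvpos
  have hs2 : s ^ 2 = v := by rw [hs]; exact Real.sq_sqrt hv0
  have hs1 : s ≤ 1 / 100 := by
    refine (sq_le_sq₀ hs0.le (by positivity)).1 ?_
    rw [hs2]
    exact hvs.trans (by norm_num)
  have hPzlow : 1 - 24 / 10 * s ^ 2 ≤ Pz := by
    have h1 : (1 - D / 2) * Pz ≤ Pz := mul_le_of_le_one_left hPz0 (by linarith)
    rw [hs2]
    linarith
  -- `X ≤ Y`
  have hXY' : X ≤ Y := by
    have h1 : 2 * ε ^ 2 * N ≤ 4 * (ε * Y) := by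
      have : ε * (ε * N) ≤ ε * (2 * v * N) :=
        mul_le_mul_of_nonneg_left (mul_le_mul_of_nonneg_right hεv hN0.le) hε0.le
      have e : 2 * v * N = 2 * Y := by rw [mul_assoc, hvN]
      rw [e] at this
      linarith
    have h2 : 4 * (ε * Y) ≤ 1 / 2 * Y := by
      have h3 : ε ≤ 1 / 8 := hε1.trans (by norm_num)
      have := mul_le_mul_of_nonneg_right h3 hY0
      linarith
    have h3 : 8 * D ≤ 1 / 2 * Y := by
      have h4 : v * 10 ^ 6 ≤ v * N := mul_le_mul_of_nonneg_left hNr hv0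
      rw [hvN] at h4
      linarith
    linarith
  have hqs : q ≤ 2 * s := by
    refine (sq_le_sq₀ hq0 (by positivity)).1 ?_
    have h1 : (2 * s) ^ 2 = 4 * v := by rw [mul_pow, hs2]; norm_num
    rw [h1, hqsq, div_le_iff₀ hN0, mul_assoc, hvN]
    linarith
  -- the points `w_k`
  have hwk : ∀ k, w k = a * (δ k - δ k ^ 2 / u k) := by
    intro k
    have hx0 : x k ≠ 0 := norm_pos_iff.1 (hrpos k)
    have hac : (a : ℂ) ≠ 0 := by exact_mod_cast ha00.ne'
    have hwa : w k - (a : ℂ) ≠ 0 := sub_ne_zero.2 (hne k)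
    rw [hδk, huk, hxw]
    field_simp
    ring
  have hu0 : ∀ k, 9 / 10 ≤ ‖u k‖ := by
    intro k
    rw [hun]
    have := mul_le_mul ha0 (hpt k).2.1 (by norm_num) ha00.le
    linarith
  have hdu : ∀ k, ‖δ k ^ 2 / u k‖ ≤ 2 * ‖δ k‖ ^ 2 := by
    intro k
    rw [norm_div, norm_pow, div_le_iff₀ (by have := hu0 k; linarith)]
    have h1 := mul_le_mul_of_nonneg_left (hu0 k) (sq_nonneg ‖δ k‖)
    have h2 := sq_nonneg ‖δ k‖
    linarith
  have hwn : ∀ k, ‖w k‖ ≤ 2 * ‖δ k‖ := by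
    intro k
    have h1 : w k = a * (δ k / u k) := by
      rw [hwk]
      have h2 : u k ≠ 0 := norm_pos_iff.1 (by have := hu0 k; linarith)
      have h3 : u k = 1 + δ k := by rw [hδk]; ring
      rw [h3] at h2 ⊢
      field_simp
      ring
    rw [h1, norm_mul, norm_div, Complex.norm_real, Real.norm_eq_abs, abs_of_pos ha00]
    have h2 : ‖δ k‖ / ‖u k‖ ≤ 2 * ‖δ k‖ := by
      rw [div_le_iff₀ (by have := hu0 k; linarith)]
      have h3 := mul_le_mul_of_nonneg_left (hu0 k) (norm_nonneg (δ k))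
      have h4 := norm_nonneg (δ k)
      linarith
    calc a * (‖δ k‖ / ‖u k‖) ≤ 1 * (‖δ k‖ / ‖u k‖) :=
          mul_le_mul_of_nonneg_right ha1.le (by positivity)
      _ ≤ _ := by rw [one_mul]; exact h2
  have hwB : ∑ k, ‖w k‖ ≤ 4 * s * N := by
    have h1 : ∑ k, ‖w k‖ ≤ 2 * ∑ k, ‖δ k‖ := by
      rw [Finset.mul_sum]; exact Finset.sum_le_sum fun k _ => hwn k
    have h2 : q * N ≤ 2 * s * N := mul_le_mul_of_nonneg_right hqs hN0.le
    linarith
  -- the imaginary part of the sum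
  have hJabs : s * N / 2 ≤ |J| := by
    refine (sq_le_sq₀ (by positivity) (abs_nonneg _)).1 ?_
    rw [sq_abs]
    have h1 : (s * N / 2) ^ 2 = 1 / 4 * (N * Y) := by
      rw [← hvN, ← hs2]; ring
    rw [h1]
    exact hcase.le
  have hwim : s * N / 3 ≤ |(∑ k, w k).im| := by
    have h1 : ∑ k, w k = a * ∑ k, δ k - a * ∑ k, δ k ^ 2 / u k := by
      rw [← mul_sub, ← Finset.sum_sub_distrib, Finset.mul_sum]
      exact Finset.sum_congr rfl fun k _ => hwk k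
    have h2 : (∑ k, w k).im = a * J - a * (∑ k, δ k ^ 2 / u k).im := by
      rw [h1, Complex.sub_im, Complex.im_ofReal_mul, Complex.im_ofReal_mul, ← hJ]
    have h3 : |(∑ k, δ k ^ 2 / u k).im| ≤ 6 * Y := by
      refine (Complex.abs_im_le_norm _).trans ((norm_sum_le _ _).trans ?_)
      refine (Finset.sum_le_sum fun k _ => hdu k).trans ?_
      rw [← Finset.mul_sum, hδ2]
      linarith
    have h4 : |a * J| - |a * (∑ k, δ k ^ 2 / u k).im| ≤ |(∑ k, w k).im| := by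
      rw [h2]; exact abs_sub_abs_le_abs_sub _ _
    rw [abs_mul, abs_mul, abs_of_pos ha00] at h4
    have h5 : a * |(∑ k, δ k ^ 2 / u k).im| ≤ 1 * (6 * Y) :=
      mul_le_mul ha1.le h3 (abs_nonneg _) zero_le_one
    have h6 : 99 / 100 * (s * N / 2) ≤ a * |J| := mul_le_mul ha0 hJabs (by positivity) ha00.le
    have h7 : Y ≤ 1 / 100 * (s * N) := by
      have : s * (s * N) ≤ 1 / 100 * (s * N) := mul_le_mul_of_nonneg_right hs1 (by positivity)
      have e : s * (s * N) = Y := by rw [← hvN, ← hs2]; ring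
      rw [e] at this
      exact this
    have h8 : 0 < s * N := by positivity
    linarith
  have hzim : s * N / 3 ≤ |(∑ j, z j).im| := by
    have h1 := congrArg Complex.im (sum_crit (by omega : 1 ≤ N) z w hw)
    have e1 : ((N : ℂ) * (a + ∑ j, z j)).im = (N : ℝ) * (∑ j, z j).im := by
      have : ((N : ℂ)) = ((N : ℝ) : ℂ) := by norm_cast
      rw [this, Complex.im_ofReal_mul, Complex.add_im, Complex.ofReal_im, zero_add]
    have e2 : ((N + 1 : ℂ) * ∑ k, w k).im = (N + 1) * (∑ k, w k).im := by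
      have : ((N + 1 : ℂ)) = ((N + 1 : ℝ) : ℂ) := by norm_cast
      rw [this, Complex.im_ofReal_mul]
    rw [e1, e2] at h1
    have h2 : (N : ℝ) * |(∑ j, z j).im| = (N + 1) * |(∑ k, w k).im| := by
      have := congrArg abs h1
      rwa [abs_mul, abs_mul, abs_of_pos hN0, abs_of_pos (by linarith : (0:ℝ) < N + 1)] at this
    have h3 : (N : ℝ) * |(∑ k, w k).im| ≤ N * |(∑ j, z j).im| := by
      rw [h2]
      exact mul_le_mul_of_nonneg_right (by linarith) (abs_nonneg _)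
    exact hwim.trans (le_of_mul_le_mul_left h3 hN0)
  have hfin := test0 (by linarith : 9 / 10 ≤ a) z w hz hw (θ := s / 4) (B := 4 * s)
    (K := s * N / 3) (by positivity) (by positivity) hwB hzim
  rw [← hPz] at hfin
  have e1 : s / 4 + 4 * s = 17 / 4 * s := by ring
  have e2 : (N : ℝ) * (s / 4) ^ 2 / 2 - s / 4 * (s * N / 3) = -(5 / 96 * Y) := by
    rw [← hvN, ← hs2]; ring
  rw [e1, e2] at hfin
  have h1 := small_pow hs0.le hs1 (by omega : 10 ≤ N)
  have h2 : Real.exp (-(5 / 96 * Y)) ≤ Real.exp (-(Y / 20)) := Real.exp_le_exp.2 (by linarith)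
  have h3 : a * (1 + (s / 4) ^ 2) * Real.exp (-(5 / 96 * Y)) ≤
      a * ((1 + s ^ 2) * Real.exp (-(Y / 20))) := by
    rw [mul_assoc]
    refine mul_le_mul_of_nonneg_left ?_ ha00.le
    refine mul_le_mul ?_ h2 (Real.exp_pos _).le (by positivity)
    have := sq_nonneg s
    linarith
  have h4 : s / 4 * ((N + 1) * (17 / 4 * s) ^ N) ≤ a * s ^ 2 := by
    have h5 : s / 4 * ((N + 1) * (17 / 4 * s) ^ N) ≤ s / 4 * s ^ 2 :=
      mul_le_mul_of_nonneg_left h1 (by positivity)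
    have h6 : s / 4 * s ^ 2 ≤ a * s ^ 2 :=
      mul_le_mul_of_nonneg_right (by linarith) (sq_nonneg s)
    exact h5.trans h6
  have h5 : a * Pz ≤ a * ((1 + s ^ 2) * Real.exp (-(Y / 20)) + s ^ 2) := by
    rw [mul_add]
    exact hfin.trans (add_le_add h3 h4)
  exact final_num hNr hs0 hs1 (by rw [hs2, hvN]) hPzlow (le_of_mul_le_mul_left h5 ha00)

end Pool.Agent.H250.MR.AFf
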