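import Pool.Agent.H250.MR.NCstm

set_option autoImplicit false

/-!
# All points close to 1 (board task AF, MP_172a45_an): auxiliary lemmas
-/

open MeasureTheory Polynomial

namespace Pool.Agent.H250.MR.AFf

open Pool.Agent.H250.MR Pool.Agent.H565.Pm

lemma af_r {r : ℝ} (hr : 0 < r) (h : r - 1 - Real.log r ≤ 1 / 10 ^ 6) :
    (r - 1) ^ 2 ≤ 4 * (r - 1 - Real.log r) ∧ 99 / 100 ≤ r ∧ r ≤ 101 / 100 := by
  have h0 := d0 hr
  have h2 : r ≤ 2 := by
    by_contra hc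
    rw [not_le] at hc
    have := d3 hc.le
    linarith
  have h3 : (r - 1) ^ 2 ≤ 4 * (r - 1 - Real.log r) := by
    rcases le_total r 1 with h1 | h1
    · have := d2 hr h1
      linarith
    · have h4 := d1 h1
      rw [div_le_iff₀ (by linarith)] at h4
      have h5 := mul_le_mul_of_nonneg_left h2 h0
      linarith
  have h4 : |r - 1| ≤ 1 / 100 := by
    refine abs_le_of_sq_le_sq ?_ (by norm_num)
    linarith
  have h5 := abs_le.1 h4
  exact ⟨h3, by linarith [h5.1], by linarith [h5.2]⟩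

lemma esym_lower (hE : S_ESYM2) {N : ℕ} (δ : Fin N → ℂ) {q : ℝ} (hN : 10 ^ 6 ≤ N) (hq : 0 ≤ q)
    (hq1 : q ≤ 1 / 100) (h1 : ∑ k, ‖δ k‖ ≤ q * N) (h2 : ∑ k, ‖δ k‖ ^ 2 ≤ q ^ 2 * N) :
    1 - (∑ k, δ k).re / N - (∑ k, δ k).im ^ 2 / (N * (N - 1)) -
        (10000 * q ^ 3 + 3 * (q ^ 2 / N)) ≤
      (N + 1 : ℝ) * ‖∫ t in (0:ℝ)..1, ∏ k, (1 - (t : ℂ) * (1 + δ k))‖ := by
  have h3 := hE N δ q hN hq hq1 h1
  have hNr : (10 : ℝ) ^ 6 ≤ N := by exact_mod_cast hN
  have hN0 : (0 : ℝ) < N := by linarith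
  have hN1 : (0 : ℝ) < (N : ℝ) - 1 := by linarith
  have hNN : (0 : ℝ) < (N : ℝ) * (N - 1) := mul_pos hN0 hN1
  obtain ⟨e1, he1⟩ : ∃ e1, e1 = ∑ k, δ k := ⟨_, rfl⟩
  obtain ⟨e2, he2⟩ : ∃ e2, e2 = ∑ k, δ k ^ 2 := ⟨_, rfl⟩
  obtain ⟨J, hJ⟩ : ∃ J, J = (N + 1 : ℂ) * (∫ t in (0:ℝ)..1, ∏ k, (1 - (t : ℂ) * (1 + δ k))) :=
    ⟨_, rfl⟩
  rw [← hJ, ← he1, ← he2] at h3
  rw [← he1]
  obtain ⟨E, hE'⟩ : ∃ E : ℂ, E = 1 - e1 / N + (e1 ^ 2 - e2) / (N * (N - 1)) := ⟨_, rfl⟩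
  rw [← hE'] at h3
  have h4 : ‖J‖ = (N + 1 : ℝ) * ‖∫ t in (0:ℝ)..1, ∏ k, (1 - (t : ℂ) * (1 + δ k))‖ := by
    rw [hJ, norm_mul]
    congr 1
    have : (N + 1 : ℂ) = ((N + 1 : ℝ) : ℂ) := by push_cast; rfl
    rw [this, Complex.norm_real, Real.norm_eq_abs, abs_of_pos (by linarith)]
  have h5 : E.re - ‖J‖ ≤ ‖J - E‖ := by
    have h6 := norm_sub_norm_le E J
    have h7 := Complex.re_le_norm E
    rw [norm_sub_rev] at h6
    linarith
  have h6 : E.re = 1 - e1.re / N + (e1.re ^ 2 - e1.im ^ 2 - e2.re) / (N * (N - 1)) := by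
    have c1 : (e1 / (N : ℂ)).re = e1.re / N := by
      have : (N : ℂ) = ((N : ℝ) : ℂ) := by push_cast; rfl
      rw [this, Complex.div_ofReal_re]
    have c2 : ((e1 ^ 2 - e2) / ((N : ℂ) * ((N : ℂ) - 1))).re =
        (e1.re ^ 2 - e1.im ^ 2 - e2.re) / (N * (N - 1)) := by
      have : (N : ℂ) * ((N : ℂ) - 1) = (((N : ℝ) * ((N : ℝ) - 1) : ℝ) : ℂ) := by push_cast; rfl
      rw [this, Complex.div_ofReal_re]
      congr 1
      rw [Complex.sub_re, pow_two, Complex.mul_re]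
      ring
    rw [hE', Complex.add_re, Complex.sub_re, c1, c2, Complex.one_re]
  have h7 : e2.re ≤ q ^ 2 * N := by
    refine (Complex.re_le_norm e2).trans ?_
    rw [he2]
    refine (norm_sum_le _ _).trans (le_trans (le_of_eq ?_) h2)
    exact Finset.sum_congr rfl fun k _ => norm_pow _ _
  have h8 : -e1.im ^ 2 / (N * (N - 1)) - 2 * (q ^ 2 / N) ≤
      (e1.re ^ 2 - e1.im ^ 2 - e2.re) / (N * (N - 1)) := by
    have h9 : 2 * (q ^ 2 / N) = (2 * q ^ 2 * (N - 1)) / (N * (N - 1)) := by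
      field_simp
    rw [h9, ← sub_div]
    refine div_le_div_of_nonneg_right ?_ hNN.le
    have h10 : 0 ≤ q ^ 2 * (N - 2) := mul_nonneg (sq_nonneg q) (by linarith)
    have h11 := sq_nonneg e1.re
    linarith
  have h12 : -e1.im ^ 2 / (N * (N - 1)) = -(e1.im ^ 2 / (N * (N - 1))) := neg_div _ _
  rw [h12] at h8
  rw [← h4]
  linarith

lemma prod_le_pow {N : ℕ} (b : Fin N → ℝ) {m : ℝ} (hm : 0 < m) (hb : ∀ k, 0 ≤ b k)
    (h : ∑ k, b k ≤ m * N) : ∏ k, b k ≤ m ^ N := by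
  have h1 : ∀ k, b k ≤ m * Real.exp (b k / m - 1) := by
    intro k
    have := Real.add_one_le_exp (b k / m - 1)
    have h2 : b k / m ≤ Real.exp (b k / m - 1) := by linarith
    rw [div_le_iff₀ hm] at h2
    linarith
  have h3 : ∑ k, (b k / m - 1) ≤ 0 := by
    rw [Finset.sum_sub_distrib, ← Finset.sum_div, Finset.sum_const, Finset.card_univ,
      Fintype.card_fin, nsmul_eq_mul, mul_one, sub_nonpos, div_le_iff₀ hm]
    linarith
  calc ∏ k, b k ≤ ∏ k, (m * Real.exp (b k / m - 1)) :=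
        Finset.prod_le_prod (fun k _ => hb k) fun k _ => h1 k
    _ = m ^ N * Real.exp (∑ k, (b k / m - 1)) := by
        rw [Finset.prod_mul_distrib, Real.exp_sum, Finset.prod_const, Finset.card_univ,
          Fintype.card_fin]
    _ ≤ m ^ N * 1 :=
        mul_le_mul_of_nonneg_left (Real.exp_le_one_iff.2 h3) (pow_nonneg hm.le N)
    _ = _ := mul_one _

lemma test0 {N : ℕ} {a : ℝ} (ha : 9 / 10 ≤ a) (z w : Fin N → ℂ) (hz : ∀ j, ‖z j‖ ≤ 1)
    (hw : ∀ y : ℂ, (derivative (P a z)).eval y = (N + 1 : ℂ) * ∏ k, (y - w k))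
    {θ B K : ℝ} (hθ : 0 < θ) (hB : 0 ≤ B) (hwB : ∑ k, ‖w k‖ ≤ B * N)
    (hK : K ≤ |(∑ j, z j).im|) :
    a * ∏ j, ‖z j‖ ≤ a * (1 + θ ^ 2) * Real.exp (N * θ ^ 2 / 2 - θ * K) +
      θ * ((N + 1) * (θ + B) ^ N) := by
  have ha0 : 0 < a := by linarith
  obtain ⟨S, hS⟩ : ∃ S, S = ∑ j, z j := ⟨_, rfl⟩
  obtain ⟨τ, hτ, hτS⟩ : ∃ τ : ℝ, |τ| = 1 ∧ τ * S.im = |S.im| := by
    rcases le_total 0 S.im with h | h
    · exact ⟨1, abs_one, by rw [abs_of_nonneg h, one_mul]⟩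
    · exact ⟨-1, by rw [abs_neg, abs_one], by rw [abs_of_nonpos h, neg_one_mul]⟩
  obtain ⟨y, hy⟩ : ∃ y : ℂ, y = ((τ * θ : ℝ) : ℂ) * Complex.I := ⟨_, rfl⟩
  have hyn : ‖y‖ = θ := by
    rw [hy, norm_mul, Complex.norm_I, mul_one, Complex.norm_real, Real.norm_eq_abs, abs_mul, hτ,
      one_mul, abs_of_pos hθ]
  have hyre : y.re = 0 := by rw [hy]; simp
  have hyim : y.im = τ * θ := by rw [hy]; simp
  -- fundamental theorem of calculus
  have hd : ∀ t ∈ Set.uIcc (0:ℝ) 1, HasDerivAt (fun t : ℝ => (P a z).eval ((t : ℂ) * y))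
      (y * (derivative (P a z)).eval ((t : ℂ) * y)) t := by
    intro t _
    have h1 : HasDerivAt (fun s : ℂ => (P a z).eval (s * y))
        ((derivative (P a z)).eval ((t:ℂ) * y) * y) (t : ℂ) := by
      have h2 : HasDerivAt (fun s : ℂ => s * y) y (t : ℂ) := by
        simpa using (hasDerivAt_id (t : ℂ)).mul_const y
      exact ((P a z).hasDerivAt _).comp (t : ℂ) h2
    have h3 := h1.comp_ofReal
    rw [mul_comm y]
    exact h3
  have hint : IntervalIntegrable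
      (fun t : ℝ => y * (derivative (P a z)).eval ((t : ℂ) * y)) volume 0 1 := by
    apply Continuous.intervalIntegrable
    exact continuous_const.mul ((derivative (P a z)).continuous.comp (by fun_prop))
  have hF := intervalIntegral.integral_eq_sub_of_hasDerivAt hd hint
  simp only [Complex.ofReal_zero, zero_mul, Complex.ofReal_one, one_mul] at hF
  -- bound of the integral
  have hbound : ‖∫ t in (0:ℝ)..1, y * (derivative (P a z)).eval ((t : ℂ) * y)‖ ≤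
      θ * ((N + 1) * (θ + B) ^ N) * |(1 : ℝ) - 0| := by
    refine intervalIntegral.norm_integral_le_of_norm_le_const fun t ht => ?_
    rw [Set.uIoc_of_le zero_le_one] at ht
    have hN1 : ‖(N + 1 : ℂ)‖ = (N + 1 : ℝ) := by
      have : (N + 1 : ℂ) = ((N + 1 : ℝ) : ℂ) := by push_cast; rfl
      rw [this, Complex.norm_real, Real.norm_eq_abs, abs_of_pos (by positivity)]
    rw [hw, norm_mul, norm_mul, hyn, hN1, norm_prod]
    refine mul_le_mul_of_nonneg_left (mul_le_mul_of_nonneg_left ?_ (by positivity)) hθ.le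
    have h1 : ∏ k, ‖(t : ℂ) * y - w k‖ ≤ ∏ k, (θ + ‖w k‖) := by
      refine Finset.prod_le_prod (fun _ _ => norm_nonneg _) fun k _ => ?_
      refine (norm_sub_le _ _).trans ?_
      rw [norm_mul, hyn, Complex.norm_real, Real.norm_eq_abs, abs_of_pos ht.1]
      have : t * θ ≤ 1 * θ := mul_le_mul_of_nonneg_right ht.2 hθ.le
      linarith
    refine h1.trans (prod_le_pow _ (by linarith) (fun k => by
      have := norm_nonneg (w k)
      linarith) ?_)
    rw [Finset.sum_add_distrib, Finset.sum_const, Finset.card_univ, Fintype.card_fin,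
      nsmul_eq_mul]
    linarith
  rw [sub_zero, abs_one, mul_one] at hbound
  -- values
  have e0 : ‖(P a z).eval 0‖ = a * ∏ j, ‖z j‖ := by
    unfold P
    simp only [eval_mul, eval_sub, eval_X, eval_C, eval_prod, zero_sub]
    rw [norm_mul, norm_neg, norm_prod, Complex.norm_real, Real.norm_eq_abs, abs_of_pos ha0]
    congr 1
    exact Finset.prod_congr rfl fun j _ => norm_neg _
  have ey : ‖(P a z).eval y‖ = ‖y - a‖ * ∏ j, ‖y - z j‖ := by
    unfold P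
    simp only [eval_mul, eval_sub, eval_X, eval_C, eval_prod]
    rw [norm_mul, norm_prod]
  have h2 : ‖y - a‖ ≤ a * (1 + θ ^ 2) := by
    have h3 : ‖y - (a : ℂ)‖ ^ 2 = a ^ 2 + θ ^ 2 := by
      rw [Complex.sq_norm, Complex.normSq_apply]
      have : τ ^ 2 = 1 := by rw [← sq_abs, hτ, one_pow]
      simp only [Complex.sub_re, Complex.sub_im, Complex.ofReal_re, Complex.ofReal_im, hyre, hyim]
      linear_combination θ ^ 2 * this
    refine (sq_le_sq₀ (norm_nonneg _) (by positivity)).1 ?_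
    rw [h3]
    have h4 : 1 / 2 ≤ a ^ 2 := by
      have := pow_le_pow_left₀ (by norm_num : (0:ℝ) ≤ 9 / 10) ha 2
      linarith
    have h5 : 0 ≤ θ ^ 2 := sq_nonneg θ
    have h6 := mul_le_mul_of_nonneg_right h4 h5
    have h7 : 0 ≤ a ^ 2 * (θ ^ 2) ^ 2 := by positivity
    have h8 : (a * (1 + θ ^ 2)) ^ 2 = a ^ 2 + 2 * (a ^ 2 * θ ^ 2) + a ^ 2 * (θ ^ 2) ^ 2 := by ring
    rw [h8]
    linarith
  have h3 : ∏ j, ‖y - z j‖ ≤ Real.exp (N * θ ^ 2 / 2 - θ * K) := by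
    refine (prod_zeros_c y z hz).trans (Real.exp_le_exp.2 ?_)
    rw [← hS, hyn]
    have h4 : ((starRingEnd ℂ) y * S).re = θ * |S.im| := by
      rw [Complex.mul_re, Complex.conj_re, Complex.conj_im, hyre, hyim, ← hτS]
      ring
    rw [h4]
    rw [← hS] at hK
    have := mul_le_mul_of_nonneg_left hK hθ.le
    linarith
  have h4 : ‖(P a z).eval y‖ ≤ a * (1 + θ ^ 2) * Real.exp (N * θ ^ 2 / 2 - θ * K) := by
    rw [ey]
    exact mul_le_mul h2 h3 (Finset.prod_nonneg fun _ _ => norm_nonneg _) (by positivity)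
  have h5 : (P a z).eval 0 = (P a z).eval y -
      ∫ t in (0:ℝ)..1, y * (derivative (P a z)).eval ((t : ℂ) * y) := by
    rw [hF]; ring
  rw [← e0, h5]
  exact (norm_sub_le _ _).trans (add_le_add h4 hbound)

end Pool.Agent.H250.MR.AFf
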