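import Pool.Agent.H250.MR.NCstm

set_option autoImplicit false

/-!
# (C1): exactly one near point
-/

open MeasureTheory Polynomial

namespace Pool.Agent.H250.MR.C1f

open Pool.Agent.H250.MR

section

variable {N : ℕ} {a l : ℝ} {x : Fin N → ℂ}

lemma far_h (h : NC N a l x) (hH : HF a l x ≤ 6 / 5) {k : Fin N} (hk : k ∈ FF l x) :
    ‖x k‖ - 1 - a * (x k).re ≤ 6 / 5 := by
  refine le_trans ?_ hH
  unfold HF
  exact Finset.single_le_sum (f := fun k => ‖x k‖ - 1 - a * (x k).re)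
    (fun i _ => p2 (h.hx i)) hk

lemma far_r (h : NC N a l x) (hH : HF a l x ≤ 6 / 5) {k : Fin N} (hk : k ∈ FF l x) :
    ‖x k‖ ≤ 171 / 100 := by
  have h1 := far_h h hH hk
  have h2 := h.alpha k
  have h3 := mem_FF.1 hk
  have h4 := h.epsR
  have h5 := h.ha1
  have h6 : (1 - a) * ‖x k‖ ≤ 4 / 1000 :=
    (mul_le_mul_of_nonneg_left h3 (by linarith)).trans h4
  have h7 : (1 - a) * ‖x k‖ ^ 2 ≤ 4 / 1000 * ‖x k‖ := by
    have h8 := mul_le_mul_of_nonneg_right h6 (norm_nonneg (x k))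
    have h9 : (1 - a) * ‖x k‖ * ‖x k‖ = (1 - a) * ‖x k‖ ^ 2 := by ring
    rw [h9] at h8
    exact h8
  linarith

lemma far_sq (h : NC N a l x) (hH : HF a l x ≤ 6 / 5) {k : Fin N} (hk : k ∈ FF l x) :
    (1 - a) * ‖x k‖ ^ 2 ≤ 4 * (1 - a) := by
  have h1 := far_r h hH hk
  have h2 := norm_nonneg (x k)
  have h3 : ‖x k‖ ^ 2 ≤ 4 := by nlinarith
  have h4 : (1 - a) * ‖x k‖ ^ 2 ≤ (1 - a) * 4 :=
    mul_le_mul_of_nonneg_left h3 (by have := h.ha1; linarith)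
  linarith

lemma far_re (h : NC N a l x) (hH : HF a l x ≤ 6 / 5) {k : Fin N} (hk : k ∈ FF l x) :
    |(-((a : ℂ) * x k) - 1 / 2).re| ≤ (‖x k‖ - 1 - a * (x k).re) + 4 * (1 - a) := by
  have e : (-((a : ℂ) * x k) - 1 / 2).re = -(a * (x k).re) - 1 / 2 := by
    rw [Complex.sub_re, u_re]; norm_num
  rw [e]
  have h1 := far_sq h hH hk
  have h2 := h.alpha k
  have h3 := h.rlow k
  have h4 := h.ha1
  have h5 := p2 (h.hx k)
  rw [abs_le]
  constructor
  · linarith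
  · linarith

lemma far_im (h : NC N a l x) (hH : HF a l x ≤ 6 / 5) {k : Fin N} (hk : k ∈ FF l x) :
    |(-((a : ℂ) * x k) - 1 / 2).im| ≤
      1 / 10 ^ 7 / 2 + 2 * 10 ^ 7 * (‖x k‖ - 1 - a * (x k).re) := by
  have e : (-((a : ℂ) * x k) - 1 / 2).im = -(a * (x k).im) := by
    rw [Complex.sub_im, u_im]; norm_num
  rw [e]
  have h1 := far_r h hH hk
  have h5 := p2 (h.hx k)
  have h2 := p3 (h.hx k)
  have h3 : (a * (x k).im) ^ 2 ≤ 4 * (‖x k‖ - 1 - a * (x k).re) := by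
    refine h2.trans (mul_le_mul_of_nonneg_right ?_ h5)
    linarith
  rw [abs_neg]
  have h6 : |a * (x k).im| ^ 2 = (a * (x k).im) ^ 2 := sq_abs _
  have h7 := sq_nonneg (|a * (x k).im| - 1 / 10 ^ 7)
  nlinarith

lemma far_norm (h : NC N a l x) (hH : HF a l x ≤ 6 / 5) {k : Fin N} (hk : k ∈ FF l x) :
    ‖-((a : ℂ) * x k) - 1 / 2‖ ≤
      (1 + 2 * 10 ^ 7) * (‖x k‖ - 1 - a * (x k).re) + (4 * (1 - a) + 1 / 10 ^ 7 / 2) := by
  have h1 := Complex.norm_le_abs_re_add_abs_im (-((a : ℂ) * x k) - 1 / 2)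
  have h2 := far_re h hH hk
  have h3 := far_im h hH hk
  linarith

lemma far_two (h : NC N a l x) (hH : HF a l x ≤ 6 / 5) {k : Fin N} (hk : k ∈ FF l x) :
    ‖-((a : ℂ) * x k) - 1 / 2‖ ≤ 2 := by
  have h1 := far_r h hH hk
  have h2 := far_sq h hH hk
  have h3 := h.alpha k
  have h4 := h.ha1
  have h5 := h.a0
  have h6 := h.eps1
  have h0 := norm_nonneg (x k)
  have e : ‖-((a : ℂ) * x k) - 1 / 2‖ ^ 2 =
      a ^ 2 * ‖x k‖ ^ 2 - (-(a * (x k).re)) + 1 / 4 := by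
    rw [Complex.sq_norm, Complex.sq_norm, Complex.normSq_apply, Complex.normSq_apply]
    have e1 : (-((a : ℂ) * x k) - 1 / 2).re = -(a * (x k).re) - 1 / 2 := by
      rw [Complex.sub_re, u_re]; norm_num
    have e2 : (-((a : ℂ) * x k) - 1 / 2).im = -(a * (x k).im) := by
      rw [Complex.sub_im, u_im]; norm_num
    rw [e1, e2]
    ring
  have h7 : a ^ 2 * ‖x k‖ ^ 2 ≤ 3 := by
    have h8 : a ^ 2 ≤ 1 := by nlinarith
    have h9 : ‖x k‖ ^ 2 ≤ 3 := by nlinarith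
    calc a ^ 2 * ‖x k‖ ^ 2 ≤ 1 * 3 := mul_le_mul h8 h9 (sq_nonneg _) (by norm_num)
      _ = 3 := by norm_num
  have h10 : (1 : ℝ) / 10 ^ 100 ≤ 1 / 100 := by norm_num
  have h11 : ‖-((a : ℂ) * x k) - 1 / 2‖ ^ 2 ≤ 2 ^ 2 := by
    rw [e]
    linarith
  exact (pow_le_pow_iff_left₀ (norm_nonneg _) (by norm_num) (by norm_num)).1 h11

lemma far_sum (h : NC N a l x) (hH : HF a l x ≤ 6 / 5) :
    ∑ k ∈ FF l x, ‖-((a : ℂ) * x k) - 1 / 2‖ ≤ 1 / 10 ^ 7 * N := by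
  have h1 : ∑ k ∈ FF l x, ‖-((a : ℂ) * x k) - 1 / 2‖ ≤
      ∑ k ∈ FF l x, ((1 + 2 * 10 ^ 7) * (‖x k‖ - 1 - a * (x k).re) +
        (4 * (1 - a) + 1 / 10 ^ 7 / 2)) := Finset.sum_le_sum fun k hk => far_norm h hH hk
  rw [Finset.sum_add_distrib, ← Finset.mul_sum, Finset.sum_const, nsmul_eq_mul] at h1
  have h2 : ∑ k ∈ FF l x, (‖x k‖ - 1 - a * (x k).re) ≤ 6 / 5 := hH
  have h3 : ((FF l x).card : ℝ) ≤ N := by
    have := h.cardF
    have h4 : (0 : ℝ) ≤ (((FF l x)ᶜ).card : ℝ) := Nat.cast_nonneg _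
    linarith
  have ha := h.ha1
  have h5 : ((FF l x).card : ℝ) * (4 * (1 - a) + 1 / 10 ^ 7 / 2) ≤
      N * (4 * (1 - a) + 1 / 10 ^ 7 / 2) :=
    mul_le_mul_of_nonneg_right h3 (by
      have : (0 : ℝ) ≤ 1 / 10 ^ 7 / 2 := by norm_num
      linarith)
  have h6 := h.eps
  have h7 := h.N1
  have h8 := h.hl
  have h9 : (N : ℝ) * (4 * (1 - a) + 1 / 10 ^ 7 / 2) =
      4 * ((1 - a) * N) + 1 / 10 ^ 7 / 2 * N := by ring
  rw [h9] at h5
  have h10 : (10 : ℝ) ^ 200 = 10 ^ 100 * 10 ^ 100 := by norm_num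
  have h11 : (10 : ℝ) ^ 30 * l ≤ N := by
    refine le_trans (mul_le_mul_of_nonneg_right ?_ h.l0.le) h7
    norm_num
  linarith

end

theorem C1 : S_C1 := by
  intro hONE N a l x h hI hc hH
  obtain ⟨i0, hi0⟩ := Finset.card_eq_one.1 hc
  have hsum := far_sum h hH
  refine ⟨i0, hi0, ?_, hsum, fun k hk => far_two h hH hk⟩
  obtain ⟨M, rfl⟩ : ∃ M, N = M + 1 := by
    have := i0.pos
    exact ⟨N - 1, by omega⟩
  have hNbig := h.Nbig
  have hN0 := h.N0
  have hcast : ((M + 1 : ℕ) : ℝ) = (M : ℝ) + 1 := by push_cast; ring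
  have hM9 : (10 : ℝ) ^ 30 ≤ M := by
    have h1 : (10 : ℝ) ^ 30 + 1 ≤ 10 ^ 200 := by norm_num
    rw [hcast] at hNbig
    linarith
  have hM0 : (0 : ℝ) < M := lt_of_lt_of_le (by norm_num) hM9
  -- sums over the far points
  have hF : ∀ f : Fin (M + 1) → ℂ, ∑ k ∈ FF l x, f k = ∑ j, f (i0.succAbove j) := by
    intro f
    have h1 := Finset.sum_add_sum_compl (FF l x) f
    rw [hi0, Finset.sum_singleton, Fin.sum_univ_succAbove f i0] at h1
    have h2 : ∑ k ∈ FF l x, f k + f i0 = (∑ j, f (i0.succAbove j)) + f i0 := by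
      rw [h1]; ring
    exact add_right_cancel h2
  have hFr : ∀ f : Fin (M + 1) → ℝ, ∑ k ∈ FF l x, f k = ∑ j, f (i0.succAbove j) := by
    intro f
    have h1 := Finset.sum_add_sum_compl (FF l x) f
    rw [hi0, Finset.sum_singleton, Fin.sum_univ_succAbove f i0] at h1
    linarith
  have hmem : ∀ j, i0.succAbove j ∈ FF l x := by
    intro j
    by_contra hj
    rw [← Finset.mem_compl, hi0, Finset.mem_singleton] at hj
    exact Fin.succAbove_ne i0 j hj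
  rw [hF]
  refine hONE M (fun j => -((a : ℂ) * x (i0.succAbove j))) (-((a : ℂ) * x i0)) (kk (M + 1) l)
    ?_ h.kk_pos.le ?_ ?_ (fun j => far_two h hH (hmem j)) ?_ ?_ ?_
  · have h1 : ((10 ^ 9 : ℕ) : ℝ) ≤ M := by
      push_cast
      refine le_trans ?_ hM9
      norm_num
    exact_mod_cast h1
  · have h1 := h.kk_small
    have h2 : (1 : ℝ) / 10 ^ 100 ≤ 1 / 100 := by norm_num
    linarith
  · -- the exponential
    have h1 := h.kkN
    have h2 := h.kk_small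
    have h3 := h.hl
    have h4 : 6 * l ≤ kk (M + 1) l * M / 4 := by
      rw [hcast] at h1
      have h5 : kk (M + 1) l * M = 10 ^ 12 * l - kk (M + 1) l := by linarith
      have h6 : (1 : ℝ) / 10 ^ 100 ≤ 1 := by norm_num
      rw [h5]
      linarith
    have h7 : Real.exp (-(kk (M + 1) l * M / 4)) ≤ Real.exp (-(6 * l)) :=
      Real.exp_le_exp.2 (by linarith)
    refine h7.trans ?_
    have h8 : Real.exp l = (M : ℝ) + 1 + 1 := by
      have h9 := h.hln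
      rw [hcast] at h9
      rw [h9, Real.exp_log (by linarith)]
    have h10 : Real.exp (6 * l) = ((M : ℝ) + 1 + 1) ^ 6 := by
      rw [← h8, ← Real.exp_nat_mul]
      norm_num
    rw [Real.exp_neg, h10, one_div]
    refine inv_anti₀ (by positivity) ?_
    exact pow_le_pow_left₀ hM0.le (by linarith) 6
  · have h1 := hsum
    rw [hFr] at h1
    refine h1.trans ?_
    rw [hcast]
    have : (10 : ℝ) ^ 30 ≥ 1 := by norm_num
    linarith
  · -- the integral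
    have h1 : (∫ t in (0:ℝ)..(kk (M + 1) l),
        (∏ j, (1 - (t : ℂ) * (-((a : ℂ) * x (i0.succAbove j))))) *
          (1 - (t : ℂ) * (-((a : ℂ) * x i0)))) = I0 a l x := by
      unfold I0
      refine intervalIntegral.integral_congr fun t _ => ?_
      show _ = ∏ k, (1 - (t : ℂ) * (-((a : ℂ) * x k)))
      rw [Fin.prod_univ_succAbove _ i0, mul_comm]
    rw [h1]
    have h2 : ‖I0 a l x‖ ≤ ((M + 1 : ℕ) + 1 : ℝ) * ‖I0 a l x‖ := by
      have h3 : (1 : ℝ) ≤ ((M + 1 : ℕ) : ℝ) + 1 := by linarith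
      have := mul_le_mul_of_nonneg_right h3 (norm_nonneg (I0 a l x))
      linarith
    refine h2.trans (hI.trans ?_)
    refine one_div_le_one_div_of_le (by positivity) ?_
    rw [hcast]
    have h4 : (M : ℝ) ^ 3 ≤ ((M : ℝ) + 1) ^ 3 := pow_le_pow_left₀ hM0.le (by linarith) 3
    have h5 : ((M : ℝ) + 1) ^ 3 ≤ ((M : ℝ) + 1) ^ 20 :=
      pow_le_pow_right₀ (by linarith) (by norm_num)
    exact h4.trans h5
  · -- the norm of `u0`
    have ha0 : 0 < a := by have := h.a0; linarith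
    rw [u_norm ha0]
    have h1 : a * ‖x i0‖ ≤ ‖x i0‖ := by
      have := h.ha1
      nlinarith [norm_nonneg (x i0)]
    have h2 := h.hS
    rw [Fin.sum_univ_succAbove _ i0, hcast] at h2
    have h3 : (M : ℝ) * (1 / 2) ≤ ∑ j, ‖x (i0.succAbove j)‖ := by
      have h4 : ∑ _j : Fin M, (1 / 2 : ℝ) ≤ ∑ j, ‖x (i0.succAbove j)‖ :=
        Finset.sum_le_sum fun j _ => h.rlow _
      rw [Finset.sum_const, nsmul_eq_mul, Finset.card_univ, Fintype.card_fin] at h4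
      exact h4
    have : (10 : ℝ) ^ 30 ≥ 10 := by norm_num
    linarith

end Pool.Agent.H250.MR.C1f
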