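import Pool.Agent.H250.MR.Sums

set_option autoImplicit false

/-!
# Statements for the small zeros (MP_172a45_an, `|a| ≤ 1 - C log n / n`, `n` large)

Notation: `r = ‖x‖`, `s = r - 1`, `h = r - 1 - a Re x ≥ 0`; `‖1 + a x‖ ≤ ‖x‖` says `|a + 1/x| ≤ 1`.
`Far a x = {k | ‖x k‖ ≤ 2/(1-a)}`, `AA a x = ∑_{far} (- a Re x_k)`, `HH`, `SS` as in `Sums.lean`
(use the lemmas `p1 .. p4` of `Point.lean`, `F1 .. F11`, `near_lt'`, `near_card` of `Sums.lean`).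
-/

open MeasureTheory

namespace Pool.Agent.H250.MR

/-- (T3). Proof: `‖1 + κ a x‖² = 1 + 2κs - 2κh + κ²a²r²` and `a² r² ≤ s² + 2h` (`p4`). With
`c = 1/60`, `E = 2κs - 2cκ(1-κ)h ≥ -1` (`s ≥ -1/2`; `h ≤ 1` if `s < 0`), `exp E ≥ 1 + E + (5/18) E²`
(for `E ≥ -1`, as in the proof of (T1)). So it is enough that
`2κh(1-κ)(1-c) ≥ κ²s² - (10/9) κ² (s - c(1-κ)h)²`; the right side is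
`≤ -κ²s²/9 + (20/9) κ² c s (1-κ) h`. For `s ≤ 0` it is `≤ 0`. For `0 < s ≤ 1` use
`(20/9) κ c s ≤ 2 (1-c)`. For `s > 1`: `h ≤ s + a r ≤ 3 s`, so `20 c (1-κ) h ≤ s`. -/
def S_T3 : Prop :=
  ∀ (a κ : ℝ) (x : ℂ), 0 < a → a < 1 → 0 ≤ κ → κ ≤ 1 → ‖1 + (a : ℂ) * x‖ ≤ ‖x‖ →
    ‖1 + ((κ * a : ℝ) : ℂ) * x‖ ^ 2 ≤
      Real.exp (2 * κ * (‖x‖ - 1) - κ * (1 - κ) * (‖x‖ - 1 - a * x.re) / 30)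

/-- (OSC). Put `g(t) = ∏ (1 - t α_k)`: positive and decreasing on `[0,k0]`, since
`-g'(t) = g(t) ∑ α_k/(1 - t α_k)`, `α/(1 - tα) ≥ α + (2/3) t α²`, `∑ α_k ≥ 0`; and
`g(t) ≥ exp (- t ∑ α_k - t² ∑ α_k²) ≥ exp (-2) ≥ 1/8` on `[0,k2]` (`exp_le_one_sub`).
(1) `|B| ≤ 1`: the real part is `∫ cos(Bt) g ≥ (1/2) ∫_0^{k2} g ≥ k2/16`.
(2) the imaginary part of `∫ e^{-iBt} g` is `-sgn(B) S`, `S = ∫ sin(|B| t) g(t) dt =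
((1 - cos(|B| k0)) g(k0) + ∫ (1 - cos(|B| t)) (-g'(t)) dt)/|B|
≥ (1/|B|) ∫_0^{k2} (B² t²/4) (2/3) t V (1/8) dt = |B| V k2⁴/192`
(integration by parts; `1 - cos θ ≥ θ²/4` for `|θ| ≤ 1` from `Real.cos_bound`). -/
def S_OSC : Prop :=
  ∀ (N : ℕ) (α : Fin N → ℝ) (k0 k2 V B : ℝ), 0 ≤ k2 → k2 ≤ k0 → k0 ≤ 1 →
    (∀ k, k0 * |α k| ≤ 1 / 2) → 0 ≤ ∑ k, α k → 0 ≤ V → V ≤ ∑ k, α k ^ 2 →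
    k2 * ∑ k, α k ≤ 1 → k2 ^ 2 * ∑ k, α k ^ 2 ≤ 1 → k2 * |B| ≤ 1 →
    (|B| ≤ 1 → k2 / 16 ≤
      ‖∫ t in (0:ℝ)..k0, Complex.exp (-(Complex.I * (t * B : ℝ))) *
        ((∏ k, (1 - t * α k) : ℝ) : ℂ)‖) ∧
    (0 < |B| → |B| * V * k2 ^ 4 / 200 ≤
      ‖∫ t in (0:ℝ)..k0, Complex.exp (-(Complex.I * (t * B : ℝ))) *
        ((∏ k, (1 - t * α k) : ℝ) : ℂ)‖)

/-- (PH2). `α = Re u`, `β = Im u`, `B = ∑ β_k`. For `0 ≤ t ≤ k0`: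
`∏ (1 - t u_k) = ∏ (1 - tα_k) · ∏ (1 - i z'_k)`, `z' = tβ/(1 - tα)`, `z = tβ`, and
`∏ (1 - i z'_k) · e^{itB} = ∏ (1 + ρ_k)` with `ρ = (1 - iz')e^{iz} - 1 =
(1 - iz')(e^{iz} - 1 - iz) + i(z - z') + z z'`, `|z'| ≤ 2|z| ≤ 1`, `|z - z'| ≤ 2|αβ|`,
`|ρ| ≤ 2 |αβ| + 4 β²`; then `Finset.norm_prod_one_add_sub_one_le` and `exp R - 1 ≤ 2R` for `R ≤ 1`,
and `0 ≤ ∏ (1 - tα_k) ≤ exp (-t ∑ α_k) ≤ 1`. So the two integrands differ by at most `2 R`,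
and the length of the interval is `≤ 1`. -/
def S_PH2 : Prop :=
  ∀ (N : ℕ) (u : Fin N → ℂ) (k0 R : ℝ), 0 ≤ k0 → k0 ≤ 1 → (∀ k, k0 * ‖u k‖ ≤ 1 / 2) →
    (∀ k, ‖u k‖ ≤ 1 / 2) → 0 ≤ ∑ k, (u k).re →
    2 * ∑ k, |(u k).re| * |(u k).im| + 4 * ∑ k, (u k).im ^ 2 ≤ R → R ≤ 1 →
    ‖∫ t in (0:ℝ)..k0, Complex.exp (-(Complex.I * (t * ∑ k, (u k).im : ℝ))) *
        ((∏ k, (1 - t * (u k).re) : ℝ) : ℂ)‖ ≤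
      ‖∫ t in (0:ℝ)..k0, ∏ k, (1 - (t : ℂ) * u k)‖ + 2 * R

/-- (R1). Proof. `w - conj x = conj x (|w|² - 1 - a w)`, so
`‖w - conj x‖ ≤ r (1 - |w|²) + a r`; `r² (1 - |w|²) = r² - |1 + a x|² = s² + 2h - a² r²`
(`1 + a x = w x`), so `r (1 - |w|²) ≤ (s² + 2h)/r ≤ 6 |s| + 4 h` for far points
(`1/2 ≤ r ≤ 4`, `|s| ≤ 3`) and `r (1 - |w|²) ≤ r` for near points. Sum:
`a ∑_{far} ≤ 6 a ∑ |s| + 4 a HH`, `a ∑_{near} ≤ a SS`, `a ∑ a r ≤ a² N`. Finally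
`∑ |s| ≤ 2 ∑ s_- ≤ 2 a N` (as `∑ s ≤ 0` and `-s ≤ a`, `p1`), `HH ≤ AA`, `SS ≤ 2 AA` (`F3`). -/
def S_R1 : Prop :=
  ∀ (N : ℕ) (a : ℝ) (w x : Fin N → ℂ), 0 < a → a ≤ 1 / 200 → (∀ k, ‖w k‖ ≤ 1) →
    (∀ k, w k ≠ (a : ℂ)) → (∀ k, x k = (w k - (a : ℂ))⁻¹) → ∑ k, ‖x k‖ ≤ N →
    ‖(a : ℂ) * ∑ k, w k - (a : ℂ) * ∑ k, (starRingEnd ℂ) (x k)‖ ≤ 13 * (a ^ 2 * N) + AA a x

/-- (S2). `∑_{far} s_k² ≥ a² N - 3 AA`. Proof: `s² ≥ a² r² - 2h` (`p4`);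
`∑_{far} r² ≥ (∑_{far} r)²/N` (Cauchy-Schwarz), `∑_{far} r = #far + ∑_{far} s ≥ N - #near - AA
≥ N - 2 AA` (`∑_{far} s = HH - AA`, `#near ≤ SS/2 ≤ AA`), hence `∑_{far} r² ≥ N - 4 AA` (if
`N ≤ 2 AA` the claim `N - 4 AA ≤ ∑` is trivial), `4 a² ≤ 1`, `HH ≤ AA`. -/
def S_S2 : Prop :=
  ∀ (N : ℕ) (a : ℝ) (x : Fin N → ℂ), 0 < a → a ≤ 1 / 200 →
    (∀ k, ‖1 + (a : ℂ) * x k‖ ≤ ‖x k‖) → ∑ k, ‖x k‖ ≤ N →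
    a ^ 2 * N - 3 * AA a x ≤ ∑ k ∈ Far a x, (‖x k‖ - 1) ^ 2

end Pool.Agent.H250.MR
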