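import Pool.Agent.H250.MR.Final
import Pool.Agent.H250.MR.Stm2

set_option autoImplicit false

/-!
# Small zeros: the test at complex points, the zeros near `a`
-/

open Polynomial MeasureTheory

namespace Pool.Agent.H250.MR

open Pool.Agent.H565.Pm

/-- the value of `P` at `y = a (1 - k1 ω)` -/
lemma test_c {m : ℕ} {a : ℝ} (ha0 : 0 < a) (z w : Fin m → ℂ) (k1 : ℝ) (hk1 : 0 ≤ k1) (ω : ℂ)
    (hω : ‖ω‖ = 1)
    (hw : ∀ x : ℂ, (derivative (P a z)).eval x = (m + 1 : ℂ) * ∏ k, (x - w k))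
    (hne : ∀ k, w k ≠ a) (u : Fin m → ℂ) (hu : ∀ k, u k = (a : ℂ) * ((a : ℂ) - w k)⁻¹) :
    (m + 1 : ℝ) * ‖∫ t in (0:ℝ)..k1, ∏ k, (1 - (t : ℂ) * (ω * u k))‖ =
      k1 * (∏ k, ‖w k - (a : ℂ)‖⁻¹) * ∏ j, ‖(a : ℂ) * (1 - k1 * ω) - z j‖ := by
  have hω0 : ω ≠ 0 := by
    intro h; rw [h, norm_zero] at hω; norm_num at hω
  have hac : (a : ℂ) ≠ 0 := by exact_mod_cast ha0.ne'
  have hd : ∀ t ∈ Set.uIcc (0:ℝ) k1,
      HasDerivAt (fun t : ℝ => (P a z).eval (a + t * (-(a * ω) : ℂ)))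
      ((-(a * ω) : ℂ) * (derivative (P a z)).eval (a + t * (-(a * ω) : ℂ))) t := by
    intro t _
    have h1 : HasDerivAt (fun s : ℂ => (P a z).eval (a + s * (-(a * ω) : ℂ)))
        ((derivative (P a z)).eval (a + (t:ℂ) * (-(a * ω) : ℂ)) * (-(a * ω) : ℂ)) (t : ℂ) := by
      have h2 : HasDerivAt (fun s : ℂ => (a : ℂ) + s * (-(a * ω) : ℂ)) (-(a * ω) : ℂ) (t : ℂ) := by
        simpa using ((hasDerivAt_id (t : ℂ)).mul_const (-(a * ω) : ℂ)).const_add (a : ℂ)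
      exact ((P a z).hasDerivAt _).comp (t : ℂ) h2
    have h3 := h1.comp_ofReal
    rw [mul_comm (-(a * ω) : ℂ)]
    exact h3
  have hint : IntervalIntegrable
      (fun t : ℝ => (-(a * ω) : ℂ) * (derivative (P a z)).eval (a + t * (-(a * ω) : ℂ)))
      volume 0 k1 := by
    apply Continuous.intervalIntegrable
    exact continuous_const.mul ((derivative (P a z)).continuous.comp (by fun_prop))
  have hF := intervalIntegral.integral_eq_sub_of_hasDerivAt hd hint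
  simp only [Complex.ofReal_zero, zero_mul, add_zero] at hF
  have e1 : (a : ℂ) + k1 * (-(a * ω) : ℂ) = (a : ℂ) * (1 - k1 * ω) := by ring
  have e2 : (P a z).eval (a : ℂ) = 0 := by unfold P; simp
  have e3 : (P a z).eval ((a : ℂ) * (1 - k1 * ω)) =
      (-(a * ω) : ℂ) * (k1 * ∏ j, ((a : ℂ) * (1 - k1 * ω) - z j)) := by
    unfold P
    simp only [eval_mul, eval_sub, eval_X, eval_C, eval_prod]
    ring
  rw [e1, e2, e3, sub_zero, intervalIntegral.integral_const_mul] at hF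
  have hF' := mul_left_cancel₀ (neg_ne_zero.2 (mul_ne_zero hac hω0)) hF
  have hL : ∀ k, (a : ℂ) - w k ≠ 0 := fun k => sub_ne_zero.2 (hne k).symm
  have e4 : ∫ t in (0:ℝ)..k1, (derivative (P a z)).eval ((a : ℂ) + t * (-(a * ω) : ℂ)) =
      (∏ k, ((a : ℂ) - w k)) *
        ((m + 1 : ℂ) * ∫ t in (0:ℝ)..k1, ∏ k, (1 - (t : ℂ) * (ω * u k))) := by
    rw [← intervalIntegral.integral_const_mul, ← intervalIntegral.integral_const_mul]
    apply intervalIntegral.integral_congr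
    intro t _
    simp only []
    rw [hw, mul_left_comm]
    congr 1
    rw [← Finset.prod_mul_distrib]
    refine Finset.prod_congr rfl fun k _ => ?_
    rw [hu k]
    have := hL k
    field_simp
    ring
  rw [e4] at hF'
  have hn := congrArg norm hF'
  have hm1 : ‖(m + 1 : ℂ)‖ = (m + 1 : ℝ) := by
    have : (m + 1 : ℂ) = ((m + 1 : ℝ) : ℂ) := by push_cast; rfl
    rw [this, Complex.norm_real, Real.norm_eq_abs, abs_of_pos (by positivity)]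
  rw [norm_mul, norm_mul, norm_mul, hm1, Complex.norm_real, Real.norm_eq_abs, abs_of_nonneg hk1,
    norm_prod, norm_prod] at hn
  have e6 : (∏ k, ‖w k - (a : ℂ)‖⁻¹) * ∏ k, ‖(a : ℂ) - w k‖ = 1 := by
    rw [← Finset.prod_mul_distrib]
    refine Finset.prod_eq_one fun k _ => ?_
    rw [norm_sub_rev (w k), inv_mul_cancel₀ (norm_ne_zero_iff.2 (hL k))]
  calc (m + 1 : ℝ) * ‖∫ t in (0:ℝ)..k1, ∏ k, (1 - (t : ℂ) * (ω * u k))‖
      = (∏ k, ‖w k - (a : ℂ)‖⁻¹) * ((∏ k, ‖(a : ℂ) - w k‖) *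
          ((m + 1 : ℝ) * ‖∫ t in (0:ℝ)..k1, ∏ k, (1 - (t : ℂ) * (ω * u k))‖)) := by
        rw [← mul_assoc, e6, one_mul]
    _ = _ := by rw [hn]; ring

/-- `∏ |y - z_j| ≤ exp ((N |y|² - 2 Re (conj y ∑ z_j))/2)` -/
lemma prod_zeros_c {N : ℕ} (y : ℂ) (z : Fin N → ℂ) (hz : ∀ j, ‖z j‖ ≤ 1) :
    ∏ j, ‖y - z j‖ ≤
      Real.exp ((N * ‖y‖ ^ 2 - 2 * ((starRingEnd ℂ) y * ∑ j, z j).re) / 2) := by
  rw [← norm_prod]
  refine (prod_le_exp (fun j => y - z j)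
    (fun j => ‖y‖ ^ 2 - 2 * ((starRingEnd ℂ) y * z j).re) ?_).trans ?_
  · intro k
    have h1 : ‖y - z k‖ ^ 2 = ‖y‖ ^ 2 - 2 * ((starRingEnd ℂ) y * z k).re + ‖z k‖ ^ 2 := by
      rw [Complex.sq_norm, Complex.sq_norm, Complex.sq_norm, Complex.normSq_apply,
        Complex.normSq_apply, Complex.normSq_apply]
      simp
      ring
    rw [h1]
    have h2 : ‖z k‖ ^ 2 ≤ 1 := pow_le_one₀ (norm_nonneg _) (hz k)
    have h3 := Real.add_one_le_exp (‖y‖ ^ 2 - 2 * ((starRingEnd ℂ) y * z k).re)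
    linarith
  · apply le_of_eq
    have e : ((starRingEnd ℂ) y * ∑ j, z j).re = ∑ j, ((starRingEnd ℂ) y * z j).re := by
      rw [Finset.mul_sum, Complex.re_sum]
    rw [Finset.sum_sub_distrib, ← Finset.mul_sum, ← e]
    simp

/-- `∏ |a - z_j| = (N+1) ∏ |a - w_k|` -/
lemma prod_at {N : ℕ} {a : ℝ} (z w : Fin N → ℂ)
    (hw : ∀ x : ℂ, (derivative (P a z)).eval x = (N + 1 : ℂ) * ∏ k, (x - w k)) :
    ∏ j, ‖(a : ℂ) - z j‖ = (N + 1 : ℝ) * ∏ k, ‖(a : ℂ) - w k‖ := by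
  have hm1 : ‖(N + 1 : ℂ)‖ = (N + 1 : ℝ) := by
    have : (N + 1 : ℂ) = ((N + 1 : ℝ) : ℂ) := by push_cast; rfl
    rw [this, Complex.norm_real, Real.norm_eq_abs, abs_of_pos (by positivity)]
  rw [← norm_prod Finset.univ (fun j => (a : ℂ) - z j), ← dP_at, hw, norm_mul, norm_prod, hm1]

/-- the sum of the zeros and `U = ∑ u_k = - a ∑ x_k` -/
lemma sum_zeros_U (hR1 : S_R1) {N : ℕ} (hN : 1 ≤ N) {a : ℝ} (ha0 : 0 < a) (ha1 : a ≤ 1 / 200)
    (z w x : Fin N → ℂ)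
    (hw : ∀ x : ℂ, (derivative (P a z)).eval x = (N + 1 : ℂ) * ∏ k, (x - w k))
    (hw1 : ∀ k, ‖w k‖ ≤ 1) (hne : ∀ k, w k ≠ (a : ℂ)) (hx : ∀ k, x k = (w k - (a : ℂ))⁻¹)
    (hS : ∑ k, ‖x k‖ ≤ N) :
    ‖(a : ℂ) * ∑ j, z j + (starRingEnd ℂ) (∑ k, -((a : ℂ) * x k))‖ ≤
      13 * (a ^ 2 * N) + AA a x + 1 := by
  have h1 := hR1 N a w x ha0 ha1 hw1 hne hx hS
  have h2 := sum_crit hN z w hw
  have hN0 : (0 : ℝ) < N := by exact_mod_cast hN
  have hNc : (N : ℂ) ≠ 0 := by exact_mod_cast hN0.ne'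
  have h3 : ∑ j, z j = ∑ k, w k + (∑ k, w k) / N - a := by
    field_simp
    linear_combination h2
  have h4 : (starRingEnd ℂ) (∑ k, -((a : ℂ) * x k)) = -((a : ℂ) * ∑ k, (starRingEnd ℂ) (x k)) := by
    rw [map_sum, Finset.mul_sum, ← Finset.sum_neg_distrib]
    refine Finset.sum_congr rfl fun k _ => ?_
    rw [map_neg, map_mul, Complex.conj_ofReal]
  have h5 : (a : ℂ) * ∑ j, z j + (starRingEnd ℂ) (∑ k, -((a : ℂ) * x k)) =
      ((a : ℂ) * ∑ k, w k - (a : ℂ) * ∑ k, (starRingEnd ℂ) (x k)) +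
        ((a : ℂ) * ((∑ k, w k) / N) - (a : ℂ) * a) := by
    rw [h3, h4]; ring
  rw [h5]
  have h6 : ‖∑ k, w k‖ ≤ N := by
    refine (norm_sum_le _ _).trans ?_
    refine (Finset.sum_le_sum fun k _ => hw1 k).trans ?_
    simp
  have h7 : ‖(a : ℂ) * ((∑ k, w k) / N)‖ ≤ a := by
    rw [norm_mul, norm_div, Complex.norm_natCast, Complex.norm_real, Real.norm_eq_abs,
      abs_of_pos ha0]
    have : ‖∑ k, w k‖ / (N : ℝ) ≤ 1 := by rw [div_le_one hN0]; exact h6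
    nlinarith
  have h8 : ‖(a : ℂ) * a‖ ≤ 1 / 2 := by
    rw [norm_mul, Complex.norm_real, Real.norm_eq_abs, abs_of_pos ha0]
    nlinarith
  have h9 := norm_add_le ((a : ℂ) * ∑ k, w k - (a : ℂ) * ∑ k, (starRingEnd ℂ) (x k))
    ((a : ℂ) * ((∑ k, w k) / N) - (a : ℂ) * a)
  have h10 := norm_sub_le ((a : ℂ) * ((∑ k, w k) / N)) ((a : ℂ) * a)
  linarith

end Pool.Agent.H250.MR
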