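import Pool.Agent.H250.MR.NCstm

set_option autoImplicit false

/-!
# Case C2: at least two near points
-/

open MeasureTheory

namespace Pool.Agent.H250.MR.C2f

open Pool.Agent.H250.MR

section general

variable {N : ℕ}

/-- lower bound for the product over the far points -/
lemma far_low (F : Finset (Fin N)) (u : Fin N → ℂ) {k0 t A Q : ℝ} (ht : 0 ≤ t)
    (ht' : t ≤ k0) (hF : ∀ k ∈ F, k0 * ‖u k‖ ≤ 1 / 2) (hA : ∑ k ∈ F, (u k).re ≤ A)
    (hQ : ∑ k ∈ F, (u k).re ^ 2 ≤ Q) :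
    Real.exp (-(t * A) - t ^ 2 * Q) ≤ ∏ k ∈ F, (1 - t * (u k).re) := by
  have h1 : Real.exp (-(t * A) - t ^ 2 * Q) ≤
      Real.exp (∑ k ∈ F, (-(t * (u k).re) - (t * (u k).re) ^ 2)) := by
    apply Real.exp_le_exp.2
    rw [Finset.sum_sub_distrib, Finset.sum_neg_distrib, ← Finset.mul_sum]
    have h2 : ∑ k ∈ F, (t * (u k).re) ^ 2 = t ^ 2 * ∑ k ∈ F, (u k).re ^ 2 := by
      rw [Finset.mul_sum]
      exact Finset.sum_congr rfl fun k _ => by ring
    rw [h2]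
    have h3 := mul_le_mul_of_nonneg_left hA ht
    have h4 := mul_le_mul_of_nonneg_left hQ (sq_nonneg t)
    linarith
  refine h1.trans ?_
  rw [Real.exp_sum]
  refine Finset.prod_le_prod (fun _ _ => (Real.exp_pos _).le) fun k hk => ?_
  refine exp_le_one_sub (v := t * (u k).re) ?_
  have h7 := Complex.re_le_norm (u k)
  calc t * (u k).re ≤ t * ‖u k‖ := mul_le_mul_of_nonneg_left h7 ht
    _ ≤ k0 * ‖u k‖ := mul_le_mul_of_nonneg_right ht' (norm_nonneg _)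
    _ ≤ _ := hF k hk

lemma far_half (F : Finset (Fin N)) (u : Fin N → ℂ) {k0 t : ℝ} (ht : 0 ≤ t)
    (ht' : t ≤ k0) (hF : ∀ k ∈ F, k0 * ‖u k‖ ≤ 1 / 2) {k : Fin N} (hk : k ∈ F) :
    1 / 2 ≤ 1 - t * (u k).re := by
  have h7 := Complex.re_le_norm (u k)
  have : t * (u k).re ≤ 1 / 2 := by
    calc t * (u k).re ≤ t * ‖u k‖ := mul_le_mul_of_nonneg_left h7 ht
      _ ≤ k0 * ‖u k‖ := mul_le_mul_of_nonneg_right ht' (norm_nonneg _)
      _ ≤ _ := hF k hk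
  linarith

/-- upper bound for the majorant -/
lemma maj_up (F : Finset (Fin N)) (u : Fin N → ℂ) {k0 t : ℝ} (ht : 0 ≤ t)
    (ht' : t ≤ k0) (hF : ∀ k ∈ F, k0 * ‖u k‖ ≤ 1 / 2) :
    (∏ k ∈ F, (1 - t * (u k).re + t ^ 2 * (u k).im ^ 2)) * ∏ k ∈ Fᶜ, (1 + t * ‖u k‖) ≤
      Real.exp (-(t * ∑ k ∈ F, (u k).re) + t ^ 2 * ∑ k ∈ F, (u k).im ^ 2 +
        t * ∑ k ∈ Fᶜ, ‖u k‖) := by
  have h1 : ∏ k ∈ F, (1 - t * (u k).re + t ^ 2 * (u k).im ^ 2) ≤
      Real.exp (∑ k ∈ F, (-(t * (u k).re) + t ^ 2 * (u k).im ^ 2)) := by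
    rw [Real.exp_sum]
    refine Finset.prod_le_prod (fun k hk => ?_) fun k _ => ?_
    · have h2 := far_half F u ht ht' hF hk
      have h3 : 0 ≤ t ^ 2 * (u k).im ^ 2 := by positivity
      linarith
    · have := Real.add_one_le_exp (-(t * (u k).re) + t ^ 2 * (u k).im ^ 2)
      linarith
  have h2 : ∏ k ∈ Fᶜ, (1 + t * ‖u k‖) ≤ Real.exp (∑ k ∈ Fᶜ, t * ‖u k‖) := by
    rw [Real.exp_sum]
    refine Finset.prod_le_prod (fun k _ => ?_) fun k _ => ?_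
    · have := mul_nonneg ht (norm_nonneg (u k))
      linarith
    · have := Real.add_one_le_exp (t * ‖u k‖)
      linarith
  have h3 : 0 ≤ ∏ k ∈ Fᶜ, (1 + t * ‖u k‖) :=
    Finset.prod_nonneg fun k _ => by
      have := mul_nonneg ht (norm_nonneg (u k))
      linarith
  refine (mul_le_mul h1 h2 h3 (Real.exp_pos _).le).trans (le_of_eq ?_)
  rw [← Real.exp_add, Finset.sum_add_distrib, Finset.sum_neg_distrib, ← Finset.mul_sum,
    ← Finset.mul_sum, ← Finset.mul_sum]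

lemma exp_neg_two : (1 : ℝ) / 8 ≤ Real.exp (-2) := by
  rw [Real.exp_neg, one_div]
  apply inv_anti₀ (Real.exp_pos _)
  have h1 : Real.exp 2 = Real.exp 1 ^ 2 := by rw [← Real.exp_nat_mul]; norm_num
  rw [h1]
  have := Real.exp_one_lt_d9
  have h0 := Real.exp_pos 1
  nlinarith

/-- Cauchy-Schwarz -/
lemma cs_abs (F : Finset (Fin N)) (f : Fin N → ℝ) {M B c : ℝ} (hM : (F.card : ℝ) ≤ M)
    (hB : ∑ k ∈ F, f k ^ 2 ≤ B) (h : c ^ 2 * (M * B) ≤ (1 / 100) ^ 2) :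
    c * ∑ k ∈ F, |f k| ≤ 1 / 100 := by
  have h1 := sq_sum_le_card_mul_sum_sq (s := F) (f := fun k => |f k|)
  simp only [sq_abs] at h1
  have h2 : (∑ k ∈ F, |f k|) ^ 2 ≤ M * B :=
    h1.trans (mul_le_mul hM hB (Finset.sum_nonneg fun _ _ => sq_nonneg _)
      ((Nat.cast_nonneg _).trans hM))
  have h3 : (c * ∑ k ∈ F, |f k|) ^ 2 ≤ (1 / 100) ^ 2 := by
    rw [mul_pow]
    exact (mul_le_mul_of_nonneg_left h2 (sq_nonneg c)).trans h
  exact (abs_le_of_sq_le_sq' h3 (by norm_num)).2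

end general

section

variable {N : ℕ} {a l : ℝ} {x : Fin N → ℂ}

lemma re_sum (F : Finset (Fin N)) : ∑ k ∈ F, (-((a : ℂ) * x k)).re = ∑ k ∈ F, -(a * (x k).re) := by
  simp only [u_re]

lemma im_sum (F : Finset (Fin N)) :
    ∑ k ∈ F, (-((a : ℂ) * x k)).im ^ 2 = ∑ k ∈ F, (a * (x k).im) ^ 2 := by
  simp only [u_im, neg_sq]

lemma apos (h : NC N a l x) : 0 < a := by have := h.a0; linarith

lemma tau_le (h : NC N a l x) : 1 / (N : ℝ) ≤ kk N l := by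
  rw [div_le_iff₀ h.N0, h.kkN]
  have := h.hl
  linarith

lemma r_le (h : NC N a l x) (k : Fin N) : ‖x k‖ ≤ N :=
  (Finset.single_le_sum (f := fun k => ‖x k‖) (fun _ _ => norm_nonneg _) (Finset.mem_univ k)).trans
    h.hS

lemma u_le (h : NC N a l x) (k : Fin N) : ‖-((a : ℂ) * x k)‖ ≤ N := by
  rw [u_norm (apos h)]
  have h1 := r_le h k
  have h2 := h.ha1
  nlinarith [norm_nonneg (x k)]

lemma aS (h : NC N a l x) : -(((FF l x)ᶜ).card : ℝ) ≤ AF a l x - a * SF l x - HF a l x := by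
  have h1 := h.n1
  have h2 : 0 ≤ SF l x := SF0
  have h3 := h.ha1
  have h4 : a * SF l x ≤ 1 * SF l x := mul_le_mul_of_nonneg_right h3.le h2
  linarith

/-- `k0 ∑_F β² ≤ H / 50` -/
lemma kB (h : NC N a l x) : kk N l * ∑ k ∈ FF l x, (a * (x k).im) ^ 2 ≤ HF a l x / 50 := by
  have h1 := mul_le_mul_of_nonneg_left h.Bup h.kk_pos.le
  have h2 : kk N l * (2 * RR N l * HF a l x) = 2 * (kk N l * RR N l) * HF a l x := by ring
  rw [h2, h.kkR] at h1
  linarith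

lemma gam (h : NC N a l x) : -(((FF l x)ᶜ).card : ℝ) ≤
    ∑ k ∈ FF l x, (-((a : ℂ) * x k)).re - 7 * kk N l * (∑ k ∈ FF l x, (-((a : ℂ) * x k)).im ^ 2) -
      ∑ k ∈ (FF l x)ᶜ, ‖-((a : ℂ) * x k)‖ := by
  rw [re_sum, im_sum, h.near_u]
  have h1 := aS h
  have h2 := kB h
  have h3 := h.HF0
  have h4 : ∑ k ∈ FF l x, -(a * (x k).re) = AF a l x := rfl
  rw [h4]
  linarith

/-- `k0 l ≤ 10^(-100)` etc. -/
lemma kl (h : NC N a l x) : kk N l * (10 ^ 26 * l) ≤ 1 / 4 := by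
  have h1 := h.Npow 2 (by norm_num)
  have h2 := h.kkN
  have h3 : kk N l * (10 ^ 26 * l) * N ≤ 1 / 4 * N := by
    have e : kk N l * (10 ^ 26 * l) * N = (kk N l * N) * (10 ^ 26 * l) := by ring
    rw [e, h2]
    have e2 : 10 ^ 12 * l * (10 ^ 26 * l) = 10 ^ 38 * l ^ 2 := by ring
    rw [e2]
    have h4 : 0 ≤ l ^ 2 := sq_nonneg l
    linarith
  exact le_of_mul_le_mul_right h3 h.N0

lemma maj3 (h : NC N a l x) (hH : HF a l x ≤ 2 * 10 ^ 14 * l) {t : ℝ} (ht : 0 ≤ t)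
    (ht' : t ≤ kk N l) :
    (∏ k ∈ FF l x, (1 - t * (-((a : ℂ) * x k)).re + t ^ 2 * (-((a : ℂ) * x k)).im ^ 2)) *
      ∏ k ∈ (FF l x)ᶜ, (1 + t * ‖-((a : ℂ) * x k)‖) ≤ 3 := by
  have h1 := maj_up (FF l x) (fun k => -((a : ℂ) * x k)) ht ht'
    (fun k hk => (h.farsmall hk).trans (by norm_num))
  refine h1.trans ?_
  have h2 : Real.exp 1 ≤ 3 := by have := Real.exp_one_lt_d9; linarith
  refine le_trans (Real.exp_le_exp.2 ?_) h2
  rw [re_sum, im_sum, h.near_u]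
  have h4 : ∑ k ∈ FF l x, -(a * (x k).re) = AF a l x := rfl
  rw [h4]
  have h5 := aS h
  have h6 := kB h
  have h7 := h.HF0
  have h8 := h.m_le
  have h9 := kl h
  have hl := h.l0
  have hk := h.kk_pos
  have hm0 : (0 : ℝ) ≤ (((FF l x)ᶜ).card : ℝ) := Nat.cast_nonneg _
  -- `t (A - a S) ≥ - t m ≥ - k0 m`
  have h10 : -(t * AF a l x) + t * (a * SF l x) ≤ kk N l * (10 ^ 14 * l) := by
    have e : -(t * AF a l x) + t * (a * SF l x) = t * (-(AF a l x - a * SF l x)) := by ring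
    rw [e]
    have h11 : -(AF a l x - a * SF l x) ≤ 10 ^ 14 * l := by linarith
    calc t * (-(AF a l x - a * SF l x)) ≤ t * (10 ^ 14 * l) := mul_le_mul_of_nonneg_left h11 ht
      _ ≤ kk N l * (10 ^ 14 * l) := mul_le_mul_of_nonneg_right ht' (by positivity)
  have hB0 : 0 ≤ ∑ k ∈ FF l x, (a * (x k).im) ^ 2 := Finset.sum_nonneg fun _ _ => sq_nonneg _
  have h12 : t ^ 2 * ∑ k ∈ FF l x, (a * (x k).im) ^ 2 ≤ kk N l * (HF a l x / 50) := by
    calc t ^ 2 * ∑ k ∈ FF l x, (a * (x k).im) ^ 2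
        ≤ kk N l ^ 2 * ∑ k ∈ FF l x, (a * (x k).im) ^ 2 :=
          mul_le_mul_of_nonneg_right (pow_le_pow_left₀ ht ht' 2) hB0
      _ = kk N l * (kk N l * ∑ k ∈ FF l x, (a * (x k).im) ^ 2) := by ring
      _ ≤ _ := mul_le_mul_of_nonneg_left h6 hk.le
  have h13 : kk N l * (HF a l x / 50) ≤ kk N l * (10 ^ 14 * l) :=
    mul_le_mul_of_nonneg_left (by linarith) hk.le
  have h14 : 0 ≤ kk N l * l := by positivity
  linarith

lemma majint (h : NC N a l x) (hH : HF a l x ≤ 2 * 10 ^ 14 * l) :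
    ∫ t in (0:ℝ)..(kk N l), (∏ k ∈ FF l x, (1 - t * (-((a : ℂ) * x k)).re +
      t ^ 2 * (-((a : ℂ) * x k)).im ^ 2)) *
      ∏ k ∈ (FF l x)ᶜ, (1 + t * ‖-((a : ℂ) * x k)‖) ≤ 3 * kk N l := by
  have h1 : ∫ _t in (0:ℝ)..(kk N l), (3 : ℝ) = 3 * kk N l := by
    rw [intervalIntegral.integral_const, sub_zero, smul_eq_mul, mul_comm]
  rw [← h1]
  refine intervalIntegral.integral_mono_on h.kk_pos.le ?_ (by simp) fun t ht =>
    maj3 h hH ht.1 ht.2
  apply Continuous.intervalIntegrable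
  fun_prop

lemma re_sq (h : NC N a l x) : ∑ k ∈ FF l x, (-((a : ℂ) * x k)).re ^ 2 ≤ RR N l * N := by
  refine le_trans (Finset.sum_le_sum fun k _ => ?_) h.sqF
  rw [u_re, neg_sq, mul_pow]
  have e : (x k).re ^ 2 ≤ ‖x k‖ ^ 2 := by
    rw [Complex.sq_norm, Complex.normSq_apply]; nlinarith [sq_nonneg (x k).im]
  have h1 := h.ha1
  have h2 := apos h
  have e2 : a ^ 2 ≤ 1 := by nlinarith
  nlinarith [sq_nonneg (x k).re]

lemma tauA (h : NC N a l x) : 1 / (N : ℝ) * AF a l x ≤ 1 := by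
  rw [one_div_mul_eq_div, div_le_one h.N0]
  have h1 := h.Aup
  have h2 := h.ha1
  have h3 := h.N0
  nlinarith

lemma tauQ (h : NC N a l x) : (1 / (N : ℝ)) ^ 2 * (RR N l * N) ≤ 1 := by
  have h3 := h.N0
  have e : (1 / (N : ℝ)) ^ 2 * (RR N l * N) = RR N l / N := by field_simp
  rw [e, div_le_one h3]
  have h4 := h.RRl
  have h5 := h.hl
  have h6 := h.RR_pos
  nlinarith

lemma A0 (h : NC N a l x) : 0 ≤ AF a l x := by
  have h1 := h.Alow
  have h2 := h.N0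
  linarith

lemma low8 (h : NC N a l x) {t : ℝ} (ht : 0 ≤ t) (ht' : t ≤ 1 / N) :
    1 / 8 ≤ ∏ k ∈ FF l x, (1 - t * (-((a : ℂ) * x k)).re + t ^ 2 * (-((a : ℂ) * x k)).im ^ 2) := by
  have hF : ∀ k ∈ FF l x, kk N l * ‖-((a : ℂ) * x k)‖ ≤ 1 / 2 := fun k hk =>
    (h.farsmall hk).trans (by norm_num)
  have htk : t ≤ kk N l := ht'.trans (tau_le h)
  have h1 := far_low (FF l x) (fun k => -((a : ℂ) * x k)) (A := AF a l x) (Q := RR N l * N)
    ht htk hF (by rw [re_sum]; exact le_refl _) (re_sq h)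
  have h2 : Real.exp (-2) ≤ Real.exp (-(t * AF a l x) - t ^ 2 * (RR N l * N)) := by
    apply Real.exp_le_exp.2
    have h3 : t * AF a l x ≤ 1 / N * AF a l x := mul_le_mul_of_nonneg_right ht' (A0 h)
    have h4 : t ^ 2 * (RR N l * N) ≤ (1 / (N : ℝ)) ^ 2 * (RR N l * N) :=
      mul_le_mul_of_nonneg_right (pow_le_pow_left₀ ht ht' 2)
        (mul_nonneg h.RR_pos.le h.N0.le)
    have h5 := tauA h
    have h6 := tauQ h
    linarith
  refine (exp_neg_two.trans (h2.trans h1)).trans ?_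
  refine Finset.prod_le_prod (fun k hk => ?_) fun k _ => ?_
  · have : 1 / 2 ≤ 1 - t * (-((a : ℂ) * x k)).re :=
      far_half (FF l x) (fun k => -((a : ℂ) * x k)) ht htk hF hk
    linarith
  · have : 0 ≤ t ^ 2 * (-((a : ℂ) * x k)).im ^ 2 := by positivity
    linarith

lemma lowint (h : NC N a l x) : (1 / (N : ℝ)) ^ 3 / 24 ≤
    ∫ t in (0:ℝ)..(1 / (N : ℝ)), t ^ 2 * ∏ k ∈ FF l x, (1 - t * (-((a : ℂ) * x k)).re +
      t ^ 2 * (-((a : ℂ) * x k)).im ^ 2) := by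
  have h0 : (0 : ℝ) ≤ 1 / N := by have := h.N0; positivity
  have h1 : ∫ t in (0:ℝ)..(1 / (N : ℝ)), t ^ 2 * (1 / 8) = (1 / (N : ℝ)) ^ 3 / 24 := by
    rw [intervalIntegral.integral_mul_const, integral_pow]
    norm_num
    ring
  rw [← h1]
  refine intervalIntegral.integral_mono_on h0 ?_ ?_ fun t ht =>
    mul_le_mul_of_nonneg_left (low8 h ht.1 ht.2) (sq_nonneg t)
  · apply Continuous.intervalIntegrable; fun_prop
  · apply Continuous.intervalIntegrable; fun_prop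

/-- the integral is very small -/
lemma I0_small (h : NC N a l x) (hI : (N + 1 : ℝ) * ‖I0 a l x‖ ≤ 1 / (N : ℝ) ^ 20) :
    (N : ℝ) * (N * ‖I0 a l x‖) ≤ 1 := by
  have h1 := h.N0
  have h2 : (1 : ℝ) ≤ N := by have := h.Nbig; linarith
  have h3 : (N : ℝ) * ‖I0 a l x‖ ≤ 1 / (N : ℝ) ^ 20 := by
    have := norm_nonneg (I0 a l x)
    linarith
  have h4 : (N : ℝ) * (N * ‖I0 a l x‖) ≤ N * (1 / (N : ℝ) ^ 20) :=
    mul_le_mul_of_nonneg_left h3 h1.le
  refine h4.trans ?_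
  rw [mul_one_div, div_le_one (by positivity)]
  exact le_self_pow₀ h2 (by norm_num)

/-- the near points are close to the negative real axis -/
lemma near_d (hL : S_LOWIMP) (h : NC N a l x)
    (hI : (N + 1 : ℝ) * ‖I0 a l x‖ ≤ 1 / (N : ℝ) ^ 20) (hc : 2 ≤ ((FF l x)ᶜ).card)
    (hH : HF a l x ≤ 2 * 10 ^ 14 * l) {i : Fin N} (hi : i ∈ (FF l x)ᶜ) :
    ‖-((a : ℂ) * x i)‖ + (-((a : ℂ) * x i)).re ≤ 10 ^ 58 * l ^ 4 := by
  obtain ⟨j, hj, hji⟩ := Finset.exists_mem_ne (by omega : 1 < ((FF l x)ᶜ).card) i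
  have hN := h.N0
  have hl := h.l0
  have h1 := hL N (FF l x) (fun k => -((a : ℂ) * x k)) (kk N l) (1 / N) i j
    (by positivity) (tau_le h) (fun k hk => (h.farsmall hk).trans (by norm_num))
    (Finset.mem_compl.1 hi) (Finset.mem_compl.1 hj) (Ne.symm hji)
    (by
      rw [one_div_mul_eq_div, div_le_one hN]
      exact u_le h i)
  have hd0 : 0 ≤ ‖-((a : ℂ) * x i)‖ + (-((a : ℂ) * x i)).re := by
    have := (abs_le.1 (Complex.abs_re_le_norm (-((a : ℂ) * x i)))).1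
    linarith
  obtain ⟨d, hd⟩ : ∃ d, d = ‖-((a : ℂ) * x i)‖ + (-((a : ℂ) * x i)).re := ⟨_, rfl⟩
  rw [← hd] at h1 hd0 ⊢
  -- the first term
  have h2 : -(((FF l x)ᶜ).card : ℝ) * (3 * kk N l) ≤ (∑ k ∈ FF l x, (-((a : ℂ) * x k)).re -
      7 * kk N l * (∑ k ∈ FF l x, (-((a : ℂ) * x k)).im ^ 2) -
      ∑ k ∈ (FF l x)ᶜ, ‖-((a : ℂ) * x k)‖) *
      (∫ t in (0:ℝ)..(kk N l), (∏ k ∈ FF l x, (1 - t * (-((a : ℂ) * x k)).re +
        t ^ 2 * (-((a : ℂ) * x k)).im ^ 2)) *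
        ∏ k ∈ (FF l x)ᶜ, (1 + t * ‖-((a : ℂ) * x k)‖)) := by
    have h3 := majint h hH
    have h4 : 0 ≤ ∫ t in (0:ℝ)..(kk N l), (∏ k ∈ FF l x, (1 - t * (-((a : ℂ) * x k)).re +
        t ^ 2 * (-((a : ℂ) * x k)).im ^ 2)) *
        ∏ k ∈ (FF l x)ᶜ, (1 + t * ‖-((a : ℂ) * x k)‖) := by
      refine intervalIntegral.integral_nonneg h.kk_pos.le fun t ht => mul_nonneg ?_ ?_
      · refine Finset.prod_nonneg fun k hk => ?_
        have h5 : 1 / 2 ≤ 1 - t * (-((a : ℂ) * x k)).re :=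
          far_half (FF l x) (fun k => -((a : ℂ) * x k)) ht.1 ht.2
            (fun k hk => (h.farsmall hk).trans (by norm_num)) hk
        have h6 : 0 ≤ t ^ 2 * (-((a : ℂ) * x k)).im ^ 2 := by positivity
        linarith
      · refine Finset.prod_nonneg fun k _ => ?_
        have := mul_nonneg ht.1 (norm_nonneg (-((a : ℂ) * x k)))
        linarith
    have h5 := mul_le_mul_of_nonneg_right (gam h) h4
    refine le_trans ?_ h5
    rw [neg_mul, neg_mul]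
    exact neg_le_neg (mul_le_mul_of_nonneg_left h3 (Nat.cast_nonneg _))
  -- the second term
  have hUj : RR N l / 2 ≤ ‖-((a : ℂ) * x j)‖ := by
    rw [u_norm (apos h)]
    have h3 := not_FF hj
    have h4 := h.a0
    have h5 := h.RR_pos
    nlinarith
  have h3 : (RR N l / 2) ^ 2 * d / 2 * ((1 / (N : ℝ)) ^ 3 / 24) ≤
      ‖-((a : ℂ) * x j)‖ ^ 2 * d / 2 * (∫ t in (0:ℝ)..(1 / (N : ℝ)), t ^ 2 *
        ∏ k ∈ FF l x, (1 - t * (-((a : ℂ) * x k)).re + t ^ 2 * (-((a : ℂ) * x k)).im ^ 2)) := by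
    have h4 : (RR N l / 2) ^ 2 ≤ ‖-((a : ℂ) * x j)‖ ^ 2 :=
      pow_le_pow_left₀ (by have := h.RR_pos; linarith) hUj 2
    refine mul_le_mul ?_ (lowint h) (by positivity) (by positivity)
    have := mul_le_mul_of_nonneg_right h4 hd0
    linarith
  -- the right side
  have h4 : ‖∑ k, -((a : ℂ) * x k)‖ * ‖∫ t in (0:ℝ)..(kk N l),
      ∏ k, (1 - (t : ℂ) * (-((a : ℂ) * x k)))‖ ≤ N * ‖I0 a l x‖ := by
    refine mul_le_mul_of_nonneg_right ?_ (norm_nonneg _)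
    refine (sum_u_le (apos h) h.hS).trans ?_
    have := h.ha1
    nlinarith
  have h5 : -(((FF l x)ᶜ).card : ℝ) * (3 * kk N l) +
      (RR N l / 2) ^ 2 * d / 2 * ((1 / (N : ℝ)) ^ 3 / 24) ≤ N * ‖I0 a l x‖ :=
    (add_le_add h2 h3).trans (h1.trans h4)
  have h6 := I0_small h hI
  have h7 := h.m_le
  have h8 := h.kkN
  have h9 : ((((FF l x)ᶜ).card : ℝ) * (3 * kk N l)) * N ≤ 3 * 10 ^ 26 * l ^ 2 := by
    have e : ((((FF l x)ᶜ).card : ℝ) * (3 * kk N l)) * N =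
        3 * (((FF l x)ᶜ).card : ℝ) * (kk N l * N) := by ring
    rw [e, h8]
    have := mul_le_mul_of_nonneg_right h7 hl.le
    linarith
  -- multiply by `N`
  have h10 : (RR N l / 2) ^ 2 * d / 2 * ((1 / (N : ℝ)) ^ 3 / 24) * N ≤
      3 * 10 ^ 26 * l ^ 2 + 1 := by
    have h11 := mul_le_mul_of_nonneg_right h5 hN.le
    linarith
  have e1 : (RR N l / 2) ^ 2 * d / 2 * ((1 / (N : ℝ)) ^ 3 / 24) * N =
      RR N l ^ 2 * d / (192 * (N : ℝ) ^ 2) := by
    field_simp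
    ring
  rw [e1, div_le_iff₀ (by positivity)] at h10
  have hl1 : 1 ≤ 10 ^ 26 * l ^ 2 := by
    have := h.hl
    nlinarith
  have h12 : RR N l ^ 2 * d ≤ 4 * 10 ^ 26 * l ^ 2 * (192 * (N : ℝ) ^ 2) := by
    refine h10.trans (mul_le_mul_of_nonneg_right ?_ (by positivity))
    linarith
  have e2 : 4 * 10 ^ 26 * l ^ 2 * (192 * (N : ℝ) ^ 2) =
      RR N l ^ 2 * (768 * 10 ^ 54 * l ^ 4) := by
    rw [← h.RRl]
    ring
  rw [e2] at h12
  have hR := h.RR_pos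
  have h13 : d ≤ 768 * 10 ^ 54 * l ^ 4 := le_of_mul_le_mul_left h12 (by positivity)
  have h14 : 0 ≤ l ^ 4 := by positivity
  linarith

/-- norms of the far points -/
lemma far_r (h : NC N a l x) (hH : HF a l x ≤ 2 * 10 ^ 14 * l) {k : Fin N} (hk : k ∈ FF l x) :
    ‖x k‖ ≤ 3 * 10 ^ 14 * l := by
  have h1 : ‖x k‖ - 1 - a * (x k).re ≤ HF a l x :=
    Finset.single_le_sum (f := fun k => ‖x k‖ - 1 - a * (x k).re) (fun k _ => p2 (h.hx k)) hk
  have h2 := h.alpha k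
  have h3 := mem_FF.1 hk
  have h4 := h.epsR
  have h5 := h.ha1
  have h6 : (1 - a) * ‖x k‖ ^ 2 ≤ 4 / 1000 * ‖x k‖ := by
    have h7 : (1 - a) * ‖x k‖ ≤ 4 / 1000 :=
      (mul_le_mul_of_nonneg_left h3 (by linarith)).trans h4
    have := mul_le_mul_of_nonneg_right h7 (norm_nonneg (x k))
    linarith
  have h8 := h.hl
  linarith

/-- the imaginary parts of the far points -/
lemma far_im (h : NC N a l x) (hH : HF a l x ≤ 2 * 10 ^ 14 * l) :
    ∑ k ∈ FF l x, (-((a : ℂ) * x k)).im ^ 2 ≤ 10 ^ 30 * l ^ 2 := by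
  rw [im_sum]
  have hl := h.l0
  have h1 : ∑ k ∈ FF l x, (a * (x k).im) ^ 2 ≤ 6 * 10 ^ 14 * l * HF a l x := by
    unfold HF
    rw [Finset.mul_sum]
    refine Finset.sum_le_sum fun k hk => (p3 (h.hx k)).trans ?_
    refine mul_le_mul_of_nonneg_right ?_ (p2 (h.hx k))
    have := far_r h hH hk
    linarith
  have h2 : 6 * 10 ^ 14 * l * HF a l x ≤ 6 * 10 ^ 14 * l * (2 * 10 ^ 14 * l) :=
    mul_le_mul_of_nonneg_left hH (by positivity)
  have h3 : 0 ≤ l ^ 2 := by positivity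
  have e : 6 * 10 ^ 14 * l * (2 * 10 ^ 14 * l) = 12 * 10 ^ 28 * l ^ 2 := by ring
  rw [e] at h2
  linarith

lemma k2N (h : NC N a l x) (c : ℝ) : kk N l ^ 2 * (N * c) * N = 10 ^ 24 * l ^ 2 * c := by
  have h1 := h.kkN
  have e : kk N l ^ 2 * (N * c) * N = (kk N l * N) ^ 2 * c := by ring
  rw [e, h1]
  ring

theorem C2 : S_C2 := by
  intro hL hP N a l x h hI hc hH
  have hN := h.N0
  have hl := h.l0
  have hk := h.kk_pos
  have ha := apos h
  have hR := h.RR_pos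
  have hnd : ∀ i ∈ (FF l x)ᶜ, ‖-((a : ℂ) * x i)‖ + (-((a : ℂ) * x i)).re ≤ 10 ^ 58 * l ^ 4 :=
    fun i hi => near_d hL h hI hc hH hi
  -- real parts of the near points
  have hneg : ∀ i ∈ (FF l x)ᶜ, (-((a : ℂ) * x i)).re ≤ 0 := by
    intro i hi
    have h1 := hnd i hi
    have h2 : RR N l / 2 ≤ ‖-((a : ℂ) * x i)‖ := by
      rw [u_norm ha]
      have h3 := not_FF hi
      have h4 := h.a0
      nlinarith
    have h3 : 10 ^ 58 * l ^ 4 ≤ RR N l / 2 := by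
      have h4 := h.Npow 5 (by norm_num)
      have h5 := h.RRl
      have h6 : 10 ^ 58 * l ^ 4 * (10 ^ 14 * l) ≤ RR N l / 2 * (10 ^ 14 * l) := by
        have e1 : 10 ^ 58 * l ^ 4 * (10 ^ 14 * l) = 10 ^ 72 * l ^ 5 := by ring
        have e2 : RR N l / 2 * (10 ^ 14 * l) = N / 2 := by rw [← h5]; ring
        rw [e1, e2]
        have : 0 ≤ l ^ 5 := by positivity
        linarith
      exact le_of_mul_le_mul_right h6 (by positivity)
    linarith
  have hre : ∀ k, kk N l * (-((a : ℂ) * x k)).re ≤ 1 / 2 := by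
    intro k
    by_cases hkF : k ∈ FF l x
    · have h1 := h.farsmall hkF
      have h2 := Complex.re_le_norm (-((a : ℂ) * x k))
      have := mul_le_mul_of_nonneg_left h2 hk.le
      linarith
    · have h1 := hneg k (Finset.mem_compl.2 hkF)
      have := mul_nonpos_of_nonneg_of_nonpos hk.le h1
      linarith
  -- imaginary parts
  have hfar : kk N l * ∑ k ∈ FF l x, |(-((a : ℂ) * x k)).im| ≤ 1 / 100 := by
    refine cs_abs (FF l x) (fun k => (-((a : ℂ) * x k)).im) (M := N) (B := 10 ^ 30 * l ^ 2)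
      ?_ (far_im h hH) ?_
    · have := h.cardF
      have h0 : (0 : ℝ) ≤ (((FF l x)ᶜ).card : ℝ) := Nat.cast_nonneg _
      linarith
    · have h1 := k2N h (10 ^ 30 * l ^ 2)
      have h2 : kk N l ^ 2 * (N * (10 ^ 30 * l ^ 2)) * N ≤ (1 / 100) ^ 2 * N := by
        rw [h1]
        have h3 := h.Npow 4 (by norm_num)
        have e : 10 ^ 24 * l ^ 2 * (10 ^ 30 * l ^ 2) = 10 ^ 54 * l ^ 4 := by ring
        rw [e]
        have : 0 ≤ l ^ 4 := by positivity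
        linarith
      exact le_of_mul_le_mul_right h2 hN
  have hnear : kk N l * ∑ k ∈ (FF l x)ᶜ, |(-((a : ℂ) * x k)).im| ≤ 1 / 100 := by
    refine cs_abs ((FF l x)ᶜ) (fun k => (-((a : ℂ) * x k)).im) (M := 10 ^ 14 * l)
      (B := 2 * 10 ^ 58 * l ^ 4 * N) h.m_le ?_ ?_
    · have h1 : ∑ k ∈ (FF l x)ᶜ, (-((a : ℂ) * x k)).im ^ 2 ≤
          ∑ k ∈ (FF l x)ᶜ, 2 * 10 ^ 58 * l ^ 4 * ‖-((a : ℂ) * x k)‖ := by
        refine Finset.sum_le_sum fun k hk => ?_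
        have h2 := hnd k hk
        have h3 : ‖-((a : ℂ) * x k)‖ ^ 2 =
            (-((a : ℂ) * x k)).re ^ 2 + (-((a : ℂ) * x k)).im ^ 2 := by
          rw [Complex.sq_norm, Complex.normSq_apply]; ring
        have h4 := Complex.abs_re_le_norm (-((a : ℂ) * x k))
        obtain ⟨h5, h6⟩ := abs_le.1 h4
        have h7 : (‖-((a : ℂ) * x k)‖ + (-((a : ℂ) * x k)).re) *
            (‖-((a : ℂ) * x k)‖ - (-((a : ℂ) * x k)).re) ≤
            10 ^ 58 * l ^ 4 * (2 * ‖-((a : ℂ) * x k)‖) :=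
          mul_le_mul h2 (by linarith) (by linarith) (by positivity)
        linarith
      refine h1.trans ?_
      rw [← Finset.mul_sum, h.near_u]
      refine mul_le_mul_of_nonneg_left ?_ (by positivity)
      have h2 := h.SFle
      have h3 : 0 ≤ SF l x := SF0
      have h4 := h.ha1
      nlinarith
    · have h1 := k2N h (2 * 10 ^ 72 * l ^ 5)
      have h2 : kk N l ^ 2 * (10 ^ 14 * l * (2 * 10 ^ 58 * l ^ 4 * N)) * N ≤ (1 / 100) ^ 2 * N := by
        have e0 : kk N l ^ 2 * (10 ^ 14 * l * (2 * 10 ^ 58 * l ^ 4 * N)) * N =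
          kk N l ^ 2 * (N * (2 * 10 ^ 72 * l ^ 5)) * N := by ring
        rw [e0, h1]
        have h3 := h.Npow 7 (by norm_num)
        have e : 10 ^ 24 * l ^ 2 * (2 * 10 ^ 72 * l ^ 5) = 2 * 10 ^ 96 * l ^ 7 := by ring
        rw [e]
        have : 0 ≤ l ^ 7 := by positivity
        linarith
      exact le_of_mul_le_mul_right h2 hN
  have him : kk N l * ∑ k, |(-((a : ℂ) * x k)).im| ≤ 1 / 16 := by
    rw [← Finset.sum_add_sum_compl (FF l x), mul_add]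
    linarith
  have hPH := hP N (fun k => -((a : ℂ) * x k)) (kk N l) hk.le hre him
  -- the lower bound
  have hF : ∀ k ∈ FF l x, kk N l * ‖-((a : ℂ) * x k)‖ ≤ 1 / 2 := fun k hk =>
    (h.farsmall hk).trans (by norm_num)
  have hcmp : ∫ t in (0:ℝ)..(kk N l), Real.exp (-(t * AF a l x) - t ^ 2 * (RR N l * N)) ≤
      ∫ t in (0:ℝ)..(kk N l), ∏ k, (1 - t * (-((a : ℂ) * x k)).re) := by
    refine intervalIntegral.integral_mono_on hk.le ?_ ?_ fun t ht => ?_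
    · apply Continuous.intervalIntegrable; fun_prop
    · apply Continuous.intervalIntegrable; fun_prop
    · rw [← Finset.prod_mul_prod_compl (FF l x) (fun k => (1 - t * (-((a : ℂ) * x k)).re))]
      have h1 := far_low (FF l x) (fun k => -((a : ℂ) * x k)) (A := AF a l x)
        (Q := RR N l * N) ht.1 ht.2 hF (by rw [re_sum]; exact le_refl _) (re_sq h)
      have h2 : 1 ≤ ∏ k ∈ (FF l x)ᶜ, (1 - t * (-((a : ℂ) * x k)).re) := by
        refine Finset.one_le_prod fun k hk => ?_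
        have := mul_nonpos_of_nonneg_of_nonpos ht.1 (hneg k hk)
        linarith
      calc Real.exp (-(t * AF a l x) - t ^ 2 * (RR N l * N))
          = Real.exp (-(t * AF a l x) - t ^ 2 * (RR N l * N)) * 1 := (mul_one _).symm
        _ ≤ _ := mul_le_mul h1 h2 zero_le_one ((Real.exp_pos _).le.trans h1)
  have hG := gauss_crude (A := AF a l x) (Q := RR N l * N) (k0 := kk N l) (k2 := 1 / N)
    (by positivity) (tau_le h) (tauA h) (A0 h) (by positivity) (tauQ h)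
  have h1 : (1 : ℝ) / 2 * (1 / N * Real.exp (-2)) ≤ ‖I0 a l x‖ :=
    (mul_le_mul_of_nonneg_left (hG.trans hcmp) (by norm_num)).trans hPH
  have h2 : (1 : ℝ) / 2 * (1 / N * (1 / 8)) ≤ ‖I0 a l x‖ := by
    refine le_trans ?_ h1
    refine mul_le_mul_of_nonneg_left ?_ (by norm_num)
    exact mul_le_mul_of_nonneg_left exp_neg_two (by positivity)
  have h3 := I0_small h hI
  have h4 : (N : ℝ) * (N * ((1 : ℝ) / 2 * (1 / N * (1 / 8)))) ≤ N * (N * ‖I0 a l x‖) :=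
    mul_le_mul_of_nonneg_left (mul_le_mul_of_nonneg_left h2 hN.le) hN.le
  have e : (N : ℝ) * (N * ((1 : ℝ) / 2 * (1 / N * (1 / 8)))) = N / 16 := by
    field_simp
    norm_num
  rw [e] at h4
  have h5 := h.Nbig
  linarith

end

end Pool.Agent.H250.MR.C2f
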