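import Mathlib

set_option autoImplicit false

/-!
# Pointwise facts for `x = 1/(w - a)`, `|w| ≤ 1`
-/

namespace Pool.Agent.H250.MR

lemma sq_one_add (a : ℝ) (x : ℂ) :
    ‖1 + (a : ℂ) * x‖ ^ 2 = 1 + 2 * (a * x.re) + a ^ 2 * ‖x‖ ^ 2 := by
  rw [Complex.sq_norm, Complex.sq_norm, Complex.normSq_apply, Complex.normSq_apply]
  simp
  ring

lemma p1 {a : ℝ} {x : ℂ} (ha0 : 0 ≤ a) (hx : ‖1 + (a : ℂ) * x‖ ≤ ‖x‖) :
    1 ≤ (1 + a) * ‖x‖ := by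
  have h1 : ‖(1 : ℂ)‖ - ‖(a : ℂ) * x‖ ≤ ‖1 + (a : ℂ) * x‖ := by
    have := norm_sub_norm_le (1 : ℂ) (-((a : ℂ) * x))
    rwa [norm_neg, sub_neg_eq_add] at this
  rw [norm_one, norm_mul, Complex.norm_real, Real.norm_eq_abs, abs_of_nonneg ha0] at h1
  linarith

/-- `h = r - 1 - a Re x` -/
lemma p2 {a : ℝ} {x : ℂ} (hx : ‖1 + (a : ℂ) * x‖ ≤ ‖x‖) : 0 ≤ ‖x‖ - 1 - a * x.re := by
  have h1 := (Complex.re_le_norm (1 + (a : ℂ) * x)).trans hx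
  simp at h1
  linarith

lemma p4 {a : ℝ} {x : ℂ} (hx : ‖1 + (a : ℂ) * x‖ ≤ ‖x‖) :
    a ^ 2 * ‖x‖ ^ 2 ≤ (‖x‖ - 1) ^ 2 + 2 * (‖x‖ - 1 - a * x.re) := by
  have h1 : ‖1 + (a : ℂ) * x‖ ^ 2 ≤ ‖x‖ ^ 2 := pow_le_pow_left₀ (norm_nonneg _) hx 2
  rw [sq_one_add] at h1
  nlinarith

lemma p3 {a : ℝ} {x : ℂ} (hx : ‖1 + (a : ℂ) * x‖ ≤ ‖x‖) :
    (a * x.im) ^ 2 ≤ 2 * ‖x‖ * (‖x‖ - 1 - a * x.re) := by
  have h1 := p4 hx
  have hsq : ‖x‖ ^ 2 = x.re ^ 2 + x.im ^ 2 := by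
    rw [Complex.sq_norm, Complex.normSq_apply]; ring
  have h2 : (a * x.im) ^ 2 = a ^ 2 * ‖x‖ ^ 2 - (a * x.re) ^ 2 := by rw [hsq]; ring
  rw [h2]
  nlinarith [sq_nonneg (‖x‖ - 1 - a * x.re)]

/-- `D(r) = r - 1 - log r` -/
lemma d0 {r : ℝ} (hr : 0 < r) : 0 ≤ r - 1 - Real.log r := by
  linarith [Real.log_le_sub_one_of_pos hr]

lemma d1 {r : ℝ} (hr : 1 ≤ r) : (r - 1) ^ 2 / (2 * r) ≤ r - 1 - Real.log r := by
  have hr0 : 0 < r := by linarith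
  have h1 : Real.log r ≤ (r - r⁻¹) / 2 := by
    rw [← Real.sinh_log hr0]
    exact Real.self_le_sinh_iff.2 (Real.log_nonneg hr)
  have h2 : (r - 1) ^ 2 / (2 * r) = r - 1 - (r - r⁻¹) / 2 := by
    field_simp; ring
  rw [h2]; linarith

lemma d2 {r : ℝ} (hr0 : 0 < r) (hr : r ≤ 1) : (r - 1) ^ 2 / 2 ≤ r - 1 - Real.log r := by
  have hx : |1 - r| < 1 := by rw [abs_lt]; constructor <;> linarith
  have h := Real.hasSum_pow_div_log_of_abs_lt_one hx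
  have h1 := sum_le_hasSum (Finset.range 2) (fun n _ => by
    have : 0 ≤ 1 - r := by linarith
    positivity) h
  rw [Finset.sum_range_succ, Finset.sum_range_succ, Finset.sum_range_zero] at h1
  norm_num at h1
  nlinarith

lemma d3 {r : ℝ} (hr : 2 ≤ r) : r / 8 ≤ r - 1 - Real.log r := by
  refine le_trans ?_ (d1 (by linarith))
  rw [le_div_iff₀ (by linarith)]
  nlinarith

lemma pE {a : ℝ} {x : ℂ} (ha0 : 0 ≤ a) (_ha1 : a ≤ 1) (hx : ‖1 + (a : ℂ) * x‖ ≤ ‖x‖) :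
    a ^ 2 / 4 ≤ 2 * (‖x‖ - 1 - Real.log ‖x‖) + 2 * (‖x‖ - 1 - a * x.re) := by
  have h1 := p1 ha0 hx
  have h2 := p2 hx
  have h4 := p4 hx
  have hr : 1 / 2 ≤ ‖x‖ := by nlinarith [norm_nonneg x]
  have hr0 : 0 < ‖x‖ := by linarith
  have ha2 : 0 ≤ a ^ 2 := sq_nonneg a
  rcases le_total ‖x‖ 1 with h | h
  · have hd := d2 hr0 h
    have : a ^ 2 * (1 / 4) ≤ a ^ 2 * ‖x‖ ^ 2 := mul_le_mul_of_nonneg_left (by nlinarith) ha2
    nlinarith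
  · have hd := d1 h
    have h5 : (‖x‖ - 1) ^ 2 / ‖x‖ ≤ 2 * (‖x‖ - 1 - Real.log ‖x‖) := by
      have : (‖x‖ - 1) ^ 2 / ‖x‖ = 2 * ((‖x‖ - 1) ^ 2 / (2 * ‖x‖)) := by field_simp
      rw [this]; linarith
    have h6 : a ^ 2 * ‖x‖ ≤ (‖x‖ - 1) ^ 2 / ‖x‖ + 2 * (‖x‖ - 1 - a * x.re) / ‖x‖ := by
      rw [← add_div, le_div_iff₀ hr0]
      nlinarith
    have h7 : 2 * (‖x‖ - 1 - a * x.re) / ‖x‖ ≤ 2 * (‖x‖ - 1 - a * x.re) :=
      div_le_self (by linarith) h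
    have h8 : a ^ 2 * 1 ≤ a ^ 2 * ‖x‖ := mul_le_mul_of_nonneg_left h ha2
    nlinarith

/-- `β² ≤ 4 h + 8 a² R D` for `r ≤ R` -/
lemma pB {a R : ℝ} {x : ℂ} (ha0 : 0 ≤ a) (hR : ‖x‖ ≤ R)
    (hx : ‖1 + (a : ℂ) * x‖ ≤ ‖x‖) :
    (a * x.im) ^ 2 ≤ 4 * (‖x‖ - 1 - a * x.re) + 8 * a ^ 2 * R * (‖x‖ - 1 - Real.log ‖x‖) := by
  have h1 := p1 ha0 hx
  have h2 := p2 hx
  have h3 := p3 hx
  have hr0 : 0 < ‖x‖ := by nlinarith [norm_nonneg x]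
  have hd := d0 hr0
  rcases le_total ‖x‖ 2 with h | h
  · have : 0 ≤ 8 * a ^ 2 * R * (‖x‖ - 1 - Real.log ‖x‖) := by
      have : 0 ≤ R := by linarith
      positivity
    nlinarith
  · have hd3 := d3 h
    have him : (a * x.im) ^ 2 ≤ a ^ 2 * ‖x‖ ^ 2 := by
      rw [mul_pow]
      refine mul_le_mul_of_nonneg_left ?_ (sq_nonneg a)
      rw [Complex.sq_norm, Complex.normSq_apply]; nlinarith [sq_nonneg x.re]
    have h5 : a ^ 2 * ‖x‖ ^ 2 ≤ a ^ 2 * (R * ‖x‖) := by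
      refine mul_le_mul_of_nonneg_left ?_ (sq_nonneg a)
      nlinarith
    have h6 : a ^ 2 * R * (‖x‖ / 8) ≤ a ^ 2 * R * (‖x‖ - 1 - Real.log ‖x‖) :=
      mul_le_mul_of_nonneg_left hd3 (by have : 0 ≤ R := by linarith
                                        positivity)
    nlinarith

/-- `α² ≤ 4 a² + 8 a² R D` for `r ≤ R` -/
lemma pA {a R : ℝ} {x : ℂ} (ha0 : 0 ≤ a) (hR : ‖x‖ ≤ R)
    (hx : ‖1 + (a : ℂ) * x‖ ≤ ‖x‖) :
    (a * x.re) ^ 2 ≤ 4 * a ^ 2 + 8 * a ^ 2 * R * (‖x‖ - 1 - Real.log ‖x‖) := by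
  have h1 := p1 ha0 hx
  have hr0 : 0 < ‖x‖ := by
    rcases (norm_nonneg x).eq_or_lt with h | h
    · rw [← h] at h1; linarith
    · exact h
  have hd := d0 hr0
  have hre : (a * x.re) ^ 2 ≤ a ^ 2 * ‖x‖ ^ 2 := by
    rw [mul_pow]
    refine mul_le_mul_of_nonneg_left ?_ (sq_nonneg a)
    rw [Complex.sq_norm, Complex.normSq_apply]; nlinarith [sq_nonneg x.im]
  rcases le_total ‖x‖ 2 with h | h
  · have h5 : 0 ≤ 8 * a ^ 2 * R * (‖x‖ - 1 - Real.log ‖x‖) := by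
      have : 0 ≤ R := by linarith
      positivity
    have h6 : a ^ 2 * ‖x‖ ^ 2 ≤ a ^ 2 * 4 :=
      mul_le_mul_of_nonneg_left (by nlinarith) (sq_nonneg a)
    linarith
  · have hd3 := d3 h
    have h5 : a ^ 2 * ‖x‖ ^ 2 ≤ a ^ 2 * (R * ‖x‖) := by
      refine mul_le_mul_of_nonneg_left ?_ (sq_nonneg a)
      nlinarith
    have h6 : a ^ 2 * R * (‖x‖ / 8) ≤ a ^ 2 * R * (‖x‖ - 1 - Real.log ‖x‖) :=
      mul_le_mul_of_nonneg_left hd3 (by have : 0 ≤ R := by linarith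
                                        positivity)
    nlinarith [sq_nonneg a]

/-- `exp (-v - v²) ≤ 1 - v` for `|v| ≤ 1/2` -/
lemma exp_le_one_sub {v : ℝ} (h2 : v ≤ 1 / 2) :
    Real.exp (-v - v ^ 2) ≤ 1 - v := by
  rcases le_total 0 v with h | h
  · have h3 := Real.quadratic_le_exp_of_nonneg (x := v + v ^ 2) (by positivity)
    have h4 : Real.exp (-v - v ^ 2) * Real.exp (v + v ^ 2) = 1 := by
      rw [← Real.exp_add]; simp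
    have h5 : 0 < Real.exp (-v - v ^ 2) := Real.exp_pos _
    have h6 : 1 ≤ (1 - v) * (1 + (v + v ^ 2) + (v + v ^ 2) ^ 2 / 2) := by
      have e : (1 - v) * (1 + (v + v ^ 2) + (v + v ^ 2) ^ 2 / 2) =
          1 + v ^ 2 * ((1 - v) * (1 + v) ^ 2 / 2 - v) := by ring
      rw [e]
      have : 0 ≤ (1 - v) * (1 + v) ^ 2 / 2 - v := by nlinarith [mul_nonneg h (sq_nonneg v)]
      nlinarith [mul_nonneg (sq_nonneg v) this]
    have h7 : (1 - v) * (1 + (v + v ^ 2) + (v + v ^ 2) ^ 2 / 2) ≤ (1 - v) * Real.exp (v + v ^ 2) :=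
      mul_le_mul_of_nonneg_left h3 (by linarith)
    have h8 : 1 ≤ (1 - v) * Real.exp (v + v ^ 2) := h6.trans h7
    calc Real.exp (-v - v ^ 2) = Real.exp (-v - v ^ 2) * 1 := (mul_one _).symm
      _ ≤ Real.exp (-v - v ^ 2) * ((1 - v) * Real.exp (v + v ^ 2)) :=
          mul_le_mul_of_nonneg_left h8 h5.le
      _ = (1 - v) * (Real.exp (-v - v ^ 2) * Real.exp (v + v ^ 2)) := by ring
      _ = 1 - v := by rw [h4, mul_one]
  · have h3 := Real.le_log_one_add_of_nonneg (x := -v) (by linarith)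
    rw [← Real.le_log_iff_exp_le (by linarith)]
    have h4 : -v - v ^ 2 ≤ 2 * (-v) / (-v + 2) := by
      rw [le_div_iff₀ (by linarith)]
      nlinarith [mul_nonneg (neg_nonneg.2 h) (sq_nonneg v)]
    have h5 : (1 : ℝ) - v = 1 + -v := by ring
    rw [h5]
    exact h4.trans h3

/-- `exp (y/2) ≤ 1 + y` for `0 ≤ y ≤ 1` -/
lemma exp_half_le {y : ℝ} (h0 : 0 ≤ y) (h1 : y ≤ 1) : Real.exp (y / 2) ≤ 1 + y := by
  have h2 := Real.add_one_le_exp (-(y / 2))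
  have h3 : Real.exp (y / 2) * Real.exp (-(y / 2)) = 1 := by rw [← Real.exp_add]; simp
  have h4 := Real.exp_pos (y / 2)
  have h5 : Real.exp (y / 2) * (-(y / 2) + 1) ≤ 1 :=
    (mul_le_mul_of_nonneg_left h2 h4.le).trans h3.le
  by_contra hc
  rw [not_le] at hc
  have h6 : (1 + y) * (-(y / 2) + 1) ≤ Real.exp (y / 2) * (-(y / 2) + 1) :=
    mul_le_mul_of_nonneg_right hc.le (by linarith)
  have h7 : (1 + y) * (-(y / 2) + 1) < Real.exp (y / 2) * (-(y / 2) + 1) :=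
    mul_lt_mul_of_pos_right hc (by linarith)
  nlinarith

/-- product of bounds for squares -/
lemma prod_le_exp {N : ℕ} (v : Fin N → ℂ) (e : Fin N → ℝ) (h : ∀ k, ‖v k‖ ^ 2 ≤ Real.exp (e k)) :
    ‖∏ k, v k‖ ≤ Real.exp ((∑ k, e k) / 2) := by
  rw [norm_prod, Finset.sum_div, Real.exp_sum]
  refine Finset.prod_le_prod (fun _ _ => norm_nonneg _) fun k _ => ?_
  refine abs_le_of_sq_le_sq' ?_ (Real.exp_pos _).le |>.2
  rw [← Real.exp_nat_mul]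
  have : ((2 : ℕ) : ℝ) * (e k / 2) = e k := by push_cast; ring
  rw [this]
  exact h k

end Pool.Agent.H250.MR
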