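import Pool.Agent.H250.MR.Maj
import Pool.Agent.H250.MR.Point

set_option autoImplicit false

/-!
# Lower bound for the integral of the product
-/

open MeasureTheory

namespace Pool.Agent.H250.MR

/-- lower bound for the majorant product -/
lemma G_lower {N : ℕ} (F : Finset (Fin N)) (u : Fin N → ℂ) {k0 t A Q : ℝ} (ht : 0 ≤ t)
    (ht' : t ≤ k0) (hF : ∀ k ∈ F, k0 * ‖u k‖ ≤ 1 / 2) (hA : ∑ k ∈ F, (u k).re ≤ A)
    (hQ : ∑ k ∈ F, (u k).re ^ 2 ≤ Q) :
    Real.exp (-(t * A) - t ^ 2 * Q) ≤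
      ∏ k, (1 - t * (if k ∈ F then (u k).re else -‖u k‖) +
        t ^ 2 * (if k ∈ F then (u k).im ^ 2 else 0)) := by
  have h1 : Real.exp (-(t * A) - t ^ 2 * Q) ≤
      Real.exp (∑ k ∈ F, (-(t * (u k).re) - (t * (u k).re) ^ 2)) := by
    apply Real.exp_le_exp.2
    rw [Finset.sum_sub_distrib, Finset.sum_neg_distrib, ← Finset.mul_sum]
    have h2 : ∑ k ∈ F, (t * (u k).re) ^ 2 = t ^ 2 * ∑ k ∈ F, (u k).re ^ 2 := by
      rw [Finset.mul_sum]
      exact Finset.sum_congr rfl fun k _ => by ring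
    rw [h2]
    have h3 := mul_le_mul_of_nonneg_left hA ht
    have h4 := mul_le_mul_of_nonneg_left hQ (sq_nonneg t)
    linarith
  refine h1.trans ?_
  rw [Real.exp_sum]
  rw [← Finset.prod_mul_prod_compl F (fun k => (1 - t * (if k ∈ F then (u k).re else -‖u k‖) +
        t ^ 2 * (if k ∈ F then (u k).im ^ 2 else 0)))]
  have h5 : ∏ k ∈ F, Real.exp (-(t * (u k).re) - (t * (u k).re) ^ 2) ≤
      ∏ k ∈ F, (1 - t * (if k ∈ F then (u k).re else -‖u k‖) +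
        t ^ 2 * (if k ∈ F then (u k).im ^ 2 else 0)) := by
    refine Finset.prod_le_prod (fun _ _ => (Real.exp_pos _).le) fun k hk => ?_
    rw [if_pos hk, if_pos hk]
    have h6 : t * (u k).re ≤ 1 / 2 := by
      have h7 := Complex.re_le_norm (u k)
      calc t * (u k).re ≤ t * ‖u k‖ := mul_le_mul_of_nonneg_left h7 ht
        _ ≤ k0 * ‖u k‖ := mul_le_mul_of_nonneg_right ht' (norm_nonneg _)
        _ ≤ _ := hF k hk
    have h8 := exp_le_one_sub (v := t * (u k).re) h6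
    have h9 : 0 ≤ t ^ 2 * (u k).im ^ 2 := by positivity
    linarith
  have h10 : 1 ≤ ∏ k ∈ Fᶜ, (1 - t * (if k ∈ F then (u k).re else -‖u k‖) +
        t ^ 2 * (if k ∈ F then (u k).im ^ 2 else 0)) := by
    refine Finset.one_le_prod fun k hk => ?_
    rw [Finset.mem_compl] at hk
    rw [if_neg hk, if_neg hk]
    have := mul_nonneg ht (norm_nonneg (u k))
    linarith
  have h11 : 0 ≤ ∏ k ∈ F, Real.exp (-(t * (u k).re) - (t * (u k).re) ^ 2) :=
    Finset.prod_nonneg fun _ _ => (Real.exp_pos _).le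
  calc ∏ k ∈ F, Real.exp (-(t * (u k).re) - (t * (u k).re) ^ 2)
      = (∏ k ∈ F, Real.exp (-(t * (u k).re) - (t * (u k).re) ^ 2)) * 1 := (mul_one _).symm
    _ ≤ _ := mul_le_mul h5 h10 zero_le_one (h11.trans h5)

/-- the combined lower bound -/
theorem lower {N : ℕ} (F : Finset (Fin N)) (u : Fin N → ℂ) {k0 A Q Γ : ℝ} (h0 : 0 ≤ k0)
    (hF : ∀ k ∈ F, k0 * ‖u k‖ ≤ 1 / 2) (hA : ∑ k ∈ F, (u k).re ≤ A)
    (hQ : ∑ k ∈ F, (u k).re ^ 2 ≤ Q) (hΓ0 : 0 ≤ Γ)
    (hΓ : Γ ≤ ∑ k ∈ F, (u k).re - 7 * k0 * (∑ k ∈ F, (u k).im ^ 2) - ∑ k ∈ Fᶜ, ‖u k‖) :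
    Γ * (∫ t in (0:ℝ)..k0, Real.exp (-(t * A) - t ^ 2 * Q)) ≤
      ‖∑ k, u k‖ * ‖∫ t in (0:ℝ)..k0, ∏ k, (1 - (t : ℂ) * u k)‖ := by
  have h1 := majorant u (fun k => if k ∈ F then (u k).re else -‖u k‖)
    (fun k => if k ∈ F then (u k).im ^ 2 else 0)
    (fun k => if k ∈ F then (u k).re - 7 * k0 * (u k).im ^ 2 else -‖u k‖) k0 h0
    (fun k t ht ht' => by
      by_cases hk : k ∈ F
      · simp only [hk, if_true]
        exact (far_maj ht ht' (hF k hk)).1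
      · simp only [hk, if_false]
        exact (near_maj ht).1)
    (fun k t ht ht' => by
      by_cases hk : k ∈ F
      · simp only [hk, if_true]
        exact (far_maj ht ht' (hF k hk)).2
      · simp only [hk, if_false]
        exact (near_maj ht).2)
  refine le_trans ?_ h1
  have h2 : Γ ≤ ∑ k, (if k ∈ F then (u k).re - 7 * k0 * (u k).im ^ 2 else -‖u k‖) := by
    rw [← Finset.sum_add_sum_compl F]
    have e1 : ∑ k ∈ F, (if k ∈ F then (u k).re - 7 * k0 * (u k).im ^ 2 else -‖u k‖) =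
        ∑ k ∈ F, (u k).re - 7 * k0 * (∑ k ∈ F, (u k).im ^ 2) := by
      rw [Finset.mul_sum, ← Finset.sum_sub_distrib]
      exact Finset.sum_congr rfl fun k hk => by rw [if_pos hk]
    have e2 : ∑ k ∈ Fᶜ, (if k ∈ F then (u k).re - 7 * k0 * (u k).im ^ 2 else -‖u k‖) =
        -∑ k ∈ Fᶜ, ‖u k‖ := by
      rw [← Finset.sum_neg_distrib]
      exact Finset.sum_congr rfl fun k hk => by rw [if_neg (Finset.mem_compl.1 hk)]
    rw [e1, e2]
    linarith
  have h3 : ∫ t in (0:ℝ)..k0, Real.exp (-(t * A) - t ^ 2 * Q) ≤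
      ∫ t in (0:ℝ)..k0, ∏ k, (1 - t * (if k ∈ F then (u k).re else -‖u k‖) +
        t ^ 2 * (if k ∈ F then (u k).im ^ 2 else 0)) := by
    refine intervalIntegral.integral_mono_on h0 ?_ ?_ fun t ht => G_lower F u ht.1 ht.2 hF hA hQ
    · apply Continuous.intervalIntegrable; fun_prop
    · apply Continuous.intervalIntegrable; fun_prop
  have h4 : 0 ≤ ∫ t in (0:ℝ)..k0, Real.exp (-(t * A) - t ^ 2 * Q) :=
    intervalIntegral.integral_nonneg h0 fun t _ => (Real.exp_pos _).le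
  exact mul_le_mul h2 h3 h4 (hΓ0.trans h2)

/-- crude lower bound of the Gaussian integral -/
lemma gauss_crude {A Q k0 k2 : ℝ} (hk2 : 0 ≤ k2) (hk : k2 ≤ k0) (hA : k2 * A ≤ 1)
    (hA0 : 0 ≤ A) (hQ0 : 0 ≤ Q) (hQ : k2 ^ 2 * Q ≤ 1) :
    k2 * Real.exp (-2) ≤ ∫ t in (0:ℝ)..k0, Real.exp (-(t * A) - t ^ 2 * Q) := by
  have hc : Continuous fun t : ℝ => Real.exp (-(t * A) - t ^ 2 * Q) := by fun_prop
  have h1 : ∫ t in (0:ℝ)..k2, Real.exp (-(t * A) - t ^ 2 * Q) ≤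
      ∫ t in (0:ℝ)..k0, Real.exp (-(t * A) - t ^ 2 * Q) := by
    rw [← intervalIntegral.integral_add_adjacent_intervals (hc.intervalIntegrable 0 k2)
      (hc.intervalIntegrable k2 k0)]
    have := intervalIntegral.integral_nonneg (μ := volume) hk
      fun t _ => (Real.exp_pos (-(t * A) - t ^ 2 * Q)).le
    linarith
  refine le_trans ?_ h1
  have h2 : ∫ t in (0:ℝ)..k2, Real.exp (-2) = k2 * Real.exp (-2) := by
    rw [intervalIntegral.integral_const, sub_zero, smul_eq_mul]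
  rw [← h2]
  refine intervalIntegral.integral_mono_on hk2 (by simp) (hc.intervalIntegrable 0 k2)
    fun t ht => ?_
  apply Real.exp_le_exp.2
  have h3 : t * A ≤ k2 * A := mul_le_mul_of_nonneg_right ht.2 hA0
  have h4 : t ^ 2 * Q ≤ k2 ^ 2 * Q :=
    mul_le_mul_of_nonneg_right (pow_le_pow_left₀ ht.1 ht.2 2) hQ0
  linarith

end Pool.Agent.H250.MR
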