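import Pool.Agent.H250.MR.Stm

set_option autoImplicit false

/-!
# Phase lemma for products (PH)
-/

open MeasureTheory

namespace Pool.Agent.H250.MR.PHf

open Pool.Agent.H250.MR

theorem exp_quarter : Real.exp (1 / 4) ≤ 3 / 2 := by
  have h1 : Real.exp (1 / 4) ^ 4 = Real.exp 1 := by
    rw [← Real.exp_nat_mul]
    norm_num
  have h2 := Real.exp_one_lt_d9
  by_contra h
  push Not at h
  have h3 : (3 / 2 : ℝ) ^ 4 < Real.exp (1 / 4) ^ 4 := pow_lt_pow_left₀ h (by norm_num) (by norm_num)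
  rw [h1] at h3
  norm_num at h3
  linarith

/-- the pointwise inequality -/
theorem pt {N : ℕ} (u : Fin N → ℂ) (k0 t : ℝ) (hk1 : k0 ≤ 1)
    (hu : ∀ k, k0 * ‖u k‖ ≤ 1 / 2) (hb : ∑ k, |(u k).im| ≤ 1 / 8) (ht0 : 0 ≤ t) (htk : t ≤ k0) :
    (1 / 2) * ∏ k, (1 - t * (u k).re) ≤ (∏ k, (1 - (t : ℂ) * u k)).re := by
  have hre : ∀ k, 1 / 2 ≤ 1 - t * (u k).re := by
    intro k
    have h1 : t * (u k).re ≤ t * ‖u k‖ :=
      mul_le_mul_of_nonneg_left (Complex.re_le_norm _) ht0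
    have h2 : t * ‖u k‖ ≤ k0 * ‖u k‖ := mul_le_mul_of_nonneg_right htk (norm_nonneg _)
    linarith [hu k]
  have hne : ∀ k, (((1 - t * (u k).re : ℝ)) : ℂ) ≠ 0 := by
    intro k
    rw [Complex.ofReal_ne_zero]
    linarith [hre k]
  let z : Fin N → ℂ := fun k => -(Complex.I * ((t * (u k).im / (1 - t * (u k).re) : ℝ) : ℂ))
  have hz : ∀ k, 1 - (t : ℂ) * u k = ((1 - t * (u k).re : ℝ) : ℂ) * (1 + z k) := by
    intro k
    have h1 := hne k
    have h2 : u k = ((u k).re : ℂ) + ((u k).im : ℂ) * Complex.I := (Complex.re_add_im _).symm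
    have h3 : ((t * (u k).im / (1 - t * (u k).re) : ℝ) : ℂ) * ((1 - t * (u k).re : ℝ) : ℂ) =
        ((t * (u k).im : ℝ) : ℂ) := by
      rw [← Complex.ofReal_mul]
      congr 1
      have h4 : (1 - t * (u k).re) ≠ 0 := by linarith [hre k]
      field_simp
    have h5 : ((1 - t * (u k).re : ℝ) : ℂ) * (1 + z k) =
        ((1 - t * (u k).re : ℝ) : ℂ) - Complex.I * ((t * (u k).im : ℝ) : ℂ) := by
      rw [← h3]
      show ((1 - t * (u k).re : ℝ) : ℂ) *
        (1 + -(Complex.I * ((t * (u k).im / (1 - t * (u k).re) : ℝ) : ℂ))) = _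
      ring
    rw [h5]
    conv_lhs => rw [h2]
    push_cast
    ring
  have hzn : ∀ k, ‖z k‖ ≤ 2 * |(u k).im| := by
    intro k
    have h1 : ‖z k‖ = |t * (u k).im / (1 - t * (u k).re)| := by
      show ‖-(Complex.I * ((t * (u k).im / (1 - t * (u k).re) : ℝ) : ℂ))‖ = _
      rw [norm_neg, norm_mul, Complex.norm_I, one_mul, Complex.norm_real, Real.norm_eq_abs]
    rw [h1, abs_div, abs_mul, abs_of_nonneg ht0, div_le_iff₀ (by
      rw [abs_pos]; linarith [hre k])]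
    have h2 : 1 / 2 ≤ |1 - t * (u k).re| := (hre k).trans (le_abs_self _)
    have h3 : 0 ≤ |(u k).im| := abs_nonneg _
    have h4 : t ≤ 1 := htk.trans hk1
    nlinarith [mul_le_mul_of_nonneg_left h2 h3, mul_le_mul_of_nonneg_right h4 h3]
  have hsum : ∑ k, ‖z k‖ ≤ 1 / 4 := by
    calc ∑ k, ‖z k‖ ≤ ∑ k, 2 * |(u k).im| := Finset.sum_le_sum fun k _ => hzn k
      _ = 2 * ∑ k, |(u k).im| := by rw [Finset.mul_sum]
      _ ≤ 1 / 4 := by linarith
  have hprod : ‖∏ k, (1 + z k) - 1‖ ≤ 1 / 2 := by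
    have h1 := Finset.norm_prod_one_add_sub_one_le Finset.univ z
    have h2 : Real.exp (∑ k, ‖z k‖) ≤ Real.exp (1 / 4) := Real.exp_le_exp.2 hsum
    linarith [exp_quarter]
  have hrep : 1 / 2 ≤ (∏ k, (1 + z k)).re := by
    have h1 : |(∏ k, (1 + z k) - 1).re| ≤ 1 / 2 := (Complex.abs_re_le_norm _).trans hprod
    rw [Complex.sub_re, Complex.one_re] at h1
    linarith [(abs_le.1 h1).1]
  have hP : ∏ k, (1 - (t : ℂ) * u k) = ((∏ k, (1 - t * (u k).re) : ℝ) : ℂ) * ∏ k, (1 + z k) := by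
    rw [Complex.ofReal_prod, ← Finset.prod_mul_distrib]
    exact Finset.prod_congr rfl fun k _ => hz k
  have hpos : 0 ≤ ∏ k, (1 - t * (u k).re) :=
    Finset.prod_nonneg fun k _ => by linarith [hre k]
  rw [hP, Complex.re_ofReal_mul, mul_comm]
  exact mul_le_mul_of_nonneg_left hrep hpos

/-- **PH.** -/
theorem PH : S_PH := by
  intro N u k0 hk0 hk1 hu hb
  have hcont : Continuous fun t : ℝ => ∏ k, (1 - (t : ℂ) * u k) := by
    fun_prop
  have hcontr : Continuous fun t : ℝ => ∏ k, (1 - t * (u k).re) := by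
    fun_prop
  have h1 : (∫ t in (0:ℝ)..k0, ∏ k, (1 - (t : ℂ) * u k)).re =
      ∫ t in (0:ℝ)..k0, (∏ k, (1 - (t : ℂ) * u k)).re :=
    (Complex.reCLM.intervalIntegral_comp_comm (hcont.intervalIntegrable 0 k0)).symm
  calc (1 / 2) * (∫ t in (0:ℝ)..k0, ∏ k, (1 - t * (u k).re))
      = ∫ t in (0:ℝ)..k0, (1 / 2) * ∏ k, (1 - t * (u k).re) := by
        rw [intervalIntegral.integral_const_mul]
    _ ≤ ∫ t in (0:ℝ)..k0, (∏ k, (1 - (t : ℂ) * u k)).re := by
        refine intervalIntegral.integral_mono_on hk0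
          ((continuous_const.mul hcontr).intervalIntegrable 0 k0)
          ((Complex.continuous_re.comp hcont).intervalIntegrable 0 k0) fun t ht => ?_
        exact pt u k0 t hk1 hu hb ht.1 ht.2
    _ = (∫ t in (0:ℝ)..k0, ∏ k, (1 - (t : ℂ) * u k)).re := h1.symm
    _ ≤ ‖∫ t in (0:ℝ)..k0, ∏ k, (1 - (t : ℂ) * u k)‖ := Complex.re_le_norm _

end Pool.Agent.H250.MR.PHf
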