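import Pool.Agent.H250.MR.Sums
import Pool.Agent.H250.MR.Lower
import Pool.Agent.H250.MR.LB
import Pool.Agent.H250.MR.PH

set_option autoImplicit false

/-!
# The two lower bounds for `∫_0^{(1-a)/600} ∏ (1 - t u_k) dt`
-/

open MeasureTheory

namespace Pool.Agent.H250.MR

section

variable {N : ℕ} {a : ℝ} {x : Fin N → ℂ}

lemma u_re (y : ℂ) : (-((a : ℂ) * y)).re = -(a * y.re) := by simp
lemma u_im (y : ℂ) : (-((a : ℂ) * y)).im = -(a * y.im) := by simp
lemma u_norm (ha0 : 0 < a) (y : ℂ) : ‖-((a : ℂ) * y)‖ = a * ‖y‖ := by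
  rw [norm_neg, norm_mul, Complex.norm_real, Real.norm_eq_abs, abs_of_pos ha0]

lemma sum_u_le (ha0 : 0 < a) (hS : ∑ k, ‖x k‖ ≤ N) : ‖∑ k, -((a : ℂ) * x k)‖ ≤ a * N := by
  refine (norm_sum_le _ _).trans ?_
  simp only [u_norm ha0]
  rw [← Finset.mul_sum]
  exact mul_le_mul_of_nonneg_left hS ha0.le

lemma far_small (ha0 : 0 < a) (ha1 : a < 1) {k : Fin N} (hk : k ∈ Far a x) :
    (1 - a) / 600 * ‖-((a : ℂ) * x k)‖ ≤ 1 / 2 := by
  rw [u_norm ha0]
  have h1 := mem_far.1 hk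
  have h2 : 0 < 1 - a := by linarith
  rw [le_div_iff₀ h2] at h1
  have h3 : a * (‖x k‖ * (1 - a)) ≤ 1 * 2 :=
    mul_le_mul ha1.le h1 (mul_nonneg (norm_nonneg _) h2.le) zero_le_one
  nlinarith

/-- the precise lower bound in the main case -/
theorem precise (ha0 : 0 < a) (ha1 : a < 1) (hx : ∀ k, ‖1 + (a : ℂ) * x k‖ ≤ ‖x k‖)
    (hS : ∑ k, ‖x k‖ ≤ N) (hD : DD x ≤ a ^ 2 * (1 - a) * N / 4096)
    (hY : 10 ^ 6 ≤ a ^ 2 * (1 - a) * N)
    (hE : Real.exp (-(a ^ 2 * (1 - a) * N / 10800)) ≤ (1 - a) / 8) :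
    1 + (1 - a) / 2 ≤ N * ‖∫ t in (0:ℝ)..((1 - a) / 600),
      ∏ k, (1 - (t : ℂ) * (-((a : ℂ) * x k)))‖ := by
  obtain ⟨hA0, hHA, hSA⟩ := F3 ha0 ha1 hx hS
  have hε : 0 < 1 - a := by linarith
  set ε := 1 - a with hεdef
  have hε1 : ε ≤ 1 := by linarith
  have ha2 : a ^ 2 ≤ 1 := by nlinarith
  have hN : (0 : ℝ) < N := by
    by_contra hc
    have h0 : (N : ℝ) = 0 := le_antisymm (not_lt.1 hc) (Nat.cast_nonneg _)
    rw [h0, mul_zero] at hY
    norm_num at hY
  have hM0 : 0 < a ^ 2 * N := by positivity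
  have hM : 10 ^ 6 ≤ a ^ 2 * N := by nlinarith
  -- `A ≥ a² N / 18`
  have h8 := F8 ha0 ha1 hx hS
  have hYM : a ^ 2 * ε * N ≤ a ^ 2 * N := by nlinarith
  have hA : a ^ 2 * N / 18 ≤ AA a x := by nlinarith
  have hApos : 0 < AA a x := by linarith
  have hYA : a ^ 2 * ε * N ≤ 18 * ε * AA a x := by
    have : ε * (a ^ 2 * N / 18) ≤ ε * AA a x := mul_le_mul_of_nonneg_left hA hε.le
    linarith
  -- near points
  have h6a := F6a ha0 ha1 hx
  have hS0 : 0 ≤ SS a x := SS_nonneg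
  have haS : a * SS a x ≤ 18 / 512 * (ε * AA a x) := by
    have : a * SS a x ≤ SS a x := by nlinarith
    linarith
  have hD0 := DD_nonneg ha0 hx
  have hquot : 16 * a ^ 2 / ε * DD x ≤ a ^ 2 * N / 256 := by
    have h1 : 16 * a ^ 2 / ε * DD x ≤ 16 * a ^ 2 / ε * (a ^ 2 * ε * N / 4096) :=
      mul_le_mul_of_nonneg_left hD (by positivity)
    have h2 : 16 * a ^ 2 / ε * (a ^ 2 * ε * N / 4096) = a ^ 2 * (a ^ 2 * N / 256) := by
      field_simp; ring
    rw [h2] at h1
    have h3 : a ^ 2 * (a ^ 2 * N / 256) ≤ 1 * (a ^ 2 * N / 256) :=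
      mul_le_mul_of_nonneg_right ha2 (by positivity)
    linarith
  have h6b := F6b ha0 ha1 hx
  have h6c := F6c ha0 ha1 hx
  rw [← hεdef] at h6b h6c
  have hB : ∑ k ∈ Far a x, (a * (x k).im) ^ 2 ≤ 5 * AA a x := by linarith
  have hQ : ∑ k ∈ Far a x, (a * (x k).re) ^ 2 ≤ 5 * (a ^ 2 * N) := by linarith
  -- the lower bound
  have hre : ∑ k ∈ Far a x, (-((a : ℂ) * x k)).re = AA a x := by
    simp only [u_re]; rfl
  have him : ∑ k ∈ Far a x, (-((a : ℂ) * x k)).im ^ 2 = ∑ k ∈ Far a x, (a * (x k).im) ^ 2 := by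
    simp only [u_im, neg_sq]
  have hre2 : ∑ k ∈ Far a x, (-((a : ℂ) * x k)).re ^ 2 = ∑ k ∈ Far a x, (a * (x k).re) ^ 2 := by
    simp only [u_re, neg_sq]
  have hnear : ∑ k ∈ (Far a x)ᶜ, ‖-((a : ℂ) * x k)‖ = a * SS a x := by
    simp only [u_norm ha0]; rw [← Finset.mul_sum]; rfl
  have hlow := lower (Far a x) (fun k => -((a : ℂ) * x k)) (k0 := ε / 600) (A := AA a x)
    (Q := 5 * (a ^ 2 * N)) (Γ := AA a x * (1 - ε / 8)) (by positivity)
    (fun k hk => far_small ha0 ha1 hk) hre.le (by rw [hre2]; exact hQ)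
    (mul_nonneg hA0 (by linarith))
    (by
      rw [hre, him, hnear]
      have h1 : 7 * (ε / 600) * (∑ k ∈ Far a x, (a * (x k).im) ^ 2) ≤
          7 * (ε / 600) * (5 * AA a x) := mul_le_mul_of_nonneg_left hB (by positivity)
      have h2 : 0 ≤ ε * AA a x := by positivity
      nlinarith)
  have hLB := LBf.LB (AA a x) (5 * (a ^ 2 * N)) (ε / 600) hApos (by positivity) (by positivity)
  have hsum := sum_u_le ha0 hS
  -- estimate of the quotient
  have hq1 : 2 * (5 * (a ^ 2 * N)) / AA a x ^ 2 ≤ ε / 8 := by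
    rw [div_le_iff₀ (by positivity)]
    have h1 : (a ^ 2 * N / 18) ^ 2 ≤ AA a x ^ 2 := pow_le_pow_left₀ (by positivity) hA 2
    have h2 : ε / 8 * (a ^ 2 * N / 18) ^ 2 ≤ ε / 8 * AA a x ^ 2 :=
      mul_le_mul_of_nonneg_left h1 (by positivity)
    have h3 : 2 * (5 * (a ^ 2 * N)) ≤ ε / 8 * (a ^ 2 * N / 18) ^ 2 := by
      have : ε / 8 * (a ^ 2 * N / 18) ^ 2 = (a ^ 2 * ε * N) * (a ^ 2 * N) / 2592 := by ring
      rw [this]
      have := mul_le_mul_of_nonneg_right hY hM0.le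
      linarith
    linarith
  have hq2 : Real.exp (-(ε / 600 * AA a x)) ≤ ε / 8 := by
    refine le_trans (Real.exp_le_exp.2 ?_) hE
    have : ε * (a ^ 2 * N / 18) ≤ ε * AA a x := mul_le_mul_of_nonneg_left hA hε.le
    linarith
  have h10 : 1 - ε / 4 ≤ 1 - Real.exp (-(ε / 600 * AA a x)) -
      2 * (5 * (a ^ 2 * N)) / AA a x ^ 2 := by linarith
  have h11 : (1 - ε / 8) * (1 - ε / 4) ≤ AA a x * (1 - ε / 8) *
      ∫ t in (0:ℝ)..(ε / 600), Real.exp (-(t * AA a x) - t ^ 2 * (5 * (a ^ 2 * N))) := by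
    have h12 : AA a x * (1 - ε / 8) * ((1 - ε / 4) / AA a x) ≤ AA a x * (1 - ε / 8) *
      ∫ t in (0:ℝ)..(ε / 600), Real.exp (-(t * AA a x) - t ^ 2 * (5 * (a ^ 2 * N))) := by
      refine mul_le_mul_of_nonneg_left ?_ (mul_nonneg hA0 (by linarith))
      exact (div_le_div_of_nonneg_right h10 hApos.le).trans hLB
    have h13 : AA a x * (1 - ε / 8) * ((1 - ε / 4) / AA a x) = (1 - ε / 8) * (1 - ε / 4) := by
      field_simp
    rwa [h13] at h12
  set I := ‖∫ t in (0:ℝ)..(ε / 600), ∏ k, (1 - (t : ℂ) * (-((a : ℂ) * x k)))‖ with hI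
  have hI0 : 0 ≤ I := norm_nonneg _
  have h14 : (1 - ε / 8) * (1 - ε / 4) ≤ a * N * I :=
    (h11.trans hlow).trans (mul_le_mul_of_nonneg_right hsum hI0)
  have h15 : a = 1 - ε := by rw [hεdef]; ring
  have h16 : (1 + ε / 2) * a ≤ a * N * I := by
    refine le_trans ?_ h14
    rw [h15]
    nlinarith
  have h17 : a * (1 + ε / 2) ≤ a * (N * I) := by linarith
  exact le_of_mul_le_mul_left h17 ha0

/-- the crude lower bound -/
theorem crude (ha0 : 0 < a) (ha1 : a < 1) (hx : ∀ k, ‖1 + (a : ℂ) * x k‖ ≤ ‖x k‖)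
    (hS : ∑ k, ‖x k‖ ≤ N) (hεN : 1000 ≤ (1 - a) * N) :
    (1 - a) ^ 2 / (20000 * (N : ℝ) ^ 4) ≤ N * ‖∫ t in (0:ℝ)..((1 - a) / 600),
      ∏ k, (1 - (t : ℂ) * (-((a : ℂ) * x k)))‖ := by
  obtain ⟨hA0, hHA, hSA⟩ := F3 ha0 ha1 hx hS
  obtain ⟨h4a, h4b⟩ := F4 ha0 ha1 hx hS
  have hAN := F11 ha0 ha1 hS
  have hε : 0 < 1 - a := by linarith
  have h5 := F5 ha1 hx
  have h7 := F7 ha0 ha1 hS
  set ε := 1 - a with hεdef
  have hε1 : ε ≤ 1 := by linarith
  have hN : (1000 : ℝ) ≤ N := by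
    have : (0 : ℝ) ≤ N := Nat.cast_nonneg _
    nlinarith
  have hN0 : (0 : ℝ) < N := by linarith
  have hre : ∑ k ∈ Far a x, (-((a : ℂ) * x k)).re = AA a x := by
    simp only [u_re]; rfl
  have him : ∑ k ∈ Far a x, (-((a : ℂ) * x k)).im ^ 2 = ∑ k ∈ Far a x, (a * (x k).im) ^ 2 := by
    simp only [u_im, neg_sq]
  have hre2 : ∑ k ∈ Far a x, (-((a : ℂ) * x k)).re ^ 2 = ∑ k ∈ Far a x, (a * (x k).re) ^ 2 := by
    simp only [u_re, neg_sq]
  have hnear : ∑ k ∈ (Far a x)ᶜ, ‖-((a : ℂ) * x k)‖ = a * SS a x := by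
    simp only [u_norm ha0]; rw [← Finset.mul_sum]; rfl
  have hH0 := HH_nonneg hx
  -- Gaussian
  have hG := gauss_crude (A := AA a x) (Q := 2 * N / ε) (k0 := ε / 600) (k2 := ε / (600 * N))
    (by positivity)
    (by
      apply div_le_div_of_nonneg_left hε.le (by norm_num)
      linarith)
    (by
      rw [div_mul_eq_mul_div, div_le_one (by positivity)]
      nlinarith)
    hA0 (by positivity)
    (by
      have e : (ε / (600 * (N : ℝ))) ^ 2 * (2 * N / ε) = ε / (180000 * N) := by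
        field_simp; ring
      rw [e, div_le_one (by positivity)]
      linarith)
  have he2 : 1 / 8 ≤ Real.exp (-2) := by
    rw [Real.exp_neg, one_div]
    apply inv_anti₀ (Real.exp_pos _)
    have h1 : Real.exp 2 = Real.exp 1 ^ 2 := by rw [← Real.exp_nat_mul]; norm_num
    rw [h1]
    have := Real.exp_one_lt_d9
    have h0 := Real.exp_pos 1
    nlinarith
  have hG2 : ε / (4800 * N) ≤ ∫ t in (0:ℝ)..(ε / 600),
      Real.exp (-(t * AA a x) - t ^ 2 * (2 * N / ε)) := by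
    refine le_trans ?_ hG
    have h1 : ε / (600 * (N : ℝ)) * (1 / 8) ≤ ε / (600 * N) * Real.exp (-2) :=
      mul_le_mul_of_nonneg_left he2 (by positivity)
    have h2 : ε / (600 * (N : ℝ)) * (1 / 8) = ε / (4800 * N) := by field_simp; ring
    rwa [h2] at h1
  set I := ‖∫ t in (0:ℝ)..(ε / 600), ∏ k, (1 - (t : ℂ) * (-((a : ℂ) * x k)))‖ with hI
  have hI0 : 0 ≤ I := norm_nonneg _
  rcases le_or_gt (1 / (N : ℝ) ^ 3) (AA a x) with hbig | hsmall
  · have hlow := lower (Far a x) (fun k => -((a : ℂ) * x k)) (k0 := ε / 600) (A := AA a x)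
      (Q := 2 * N / ε) (Γ := AA a x * (ε / 4)) (by positivity)
      (fun k hk => far_small ha0 ha1 hk) hre.le (by rw [hre2]; exact h7)
      (mul_nonneg hA0 (by linarith))
      (by
        rw [hre, him, hnear]
        have h1 : 7 * (ε / 600) * (∑ k ∈ Far a x, (a * (x k).im) ^ 2) ≤
            7 * (ε / 600) * (4 / ε * HH a x) := mul_le_mul_of_nonneg_left h5 (by positivity)
        have h2 : 7 * (ε / 600) * (4 / ε * HH a x) = 28 / 600 * HH a x := by field_simp; ring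
        rw [h2] at h1
        have h3 : 0 ≤ AA a x - a * SS a x := hH0.trans h4a
        linarith)
    have hsum := sum_u_le ha0 hS
    have h14 : AA a x * (ε / 4) * (ε / (4800 * N)) ≤ a * N * I :=
      ((mul_le_mul_of_nonneg_left hG2 (mul_nonneg hA0 (by linarith))).trans hlow).trans
        (mul_le_mul_of_nonneg_right hsum hI0)
    have h15 : a * N * I ≤ N * I := by
      have : 0 ≤ N * I := by positivity
      nlinarith
    have h16 : 1 / (N : ℝ) ^ 3 * (ε / 4) * (ε / (4800 * N)) ≤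
        AA a x * (ε / 4) * (ε / (4800 * N)) := by
      refine mul_le_mul_of_nonneg_right (mul_le_mul_of_nonneg_right hbig (by positivity))
        (by positivity)
    refine le_trans ?_ ((h16.trans h14).trans h15)
    have h17 : 1 / (N : ℝ) ^ 3 * (ε / 4) * (ε / (4800 * N)) = ε ^ 2 / (19200 * (N : ℝ) ^ 4) := by
      field_simp; ring
    rw [h17]
    apply div_le_div_of_nonneg_left (by positivity) (by positivity)
    nlinarith [pow_pos hN0 4]
  · -- no near points
    have hN3 : 1 / (N : ℝ) ^ 3 ≤ 1 / 2 := by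
      apply one_div_le_one_div_of_le (by norm_num)
      nlinarith [pow_pos hN0 2]
    have hcard := near_card (x := x) ha1 ha0
    have hc0 : ((Far a x)ᶜ).card = 0 := by
      by_contra hc
      have : (1 : ℝ) ≤ (((Far a x)ᶜ).card : ℝ) := by exact_mod_cast Nat.one_le_iff_ne_zero.2 hc
      linarith
    have hF : Far a x = Finset.univ := by
      rw [← Finset.compl_eq_empty_iff]
      exact Finset.card_eq_zero.1 hc0
    have hmem : ∀ k, k ∈ Far a x := fun k => by rw [hF]; exact Finset.mem_univ k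
    have hB : ∑ k, (a * (x k).im) ^ 2 ≤ 4 / ε * (1 / (N : ℝ) ^ 3) := by
      rw [← hF]
      exact h5.trans (mul_le_mul_of_nonneg_left (hHA.trans hsmall.le) (by positivity))
    have hβ : ∑ k, |(-((a : ℂ) * x k)).im| ≤ 1 / 8 := by
      simp only [u_im, abs_neg]
      have h1 := sq_sum_le_card_mul_sum_sq (s := (Finset.univ : Finset (Fin N)))
        (f := fun k => |a * (x k).im|)
      simp only [sq_abs, Finset.card_univ, Fintype.card_fin] at h1
      have h2 : (N : ℝ) * ∑ k, (a * (x k).im) ^ 2 ≤ N * (4 / ε * (1 / (N : ℝ) ^ 3)) :=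
        mul_le_mul_of_nonneg_left hB hN0.le
      have h3 : (N : ℝ) * (4 / ε * (1 / (N : ℝ) ^ 3)) = 4 / ((ε * N) * N) := by
        field_simp
      rw [h3] at h2
      have h4 : 4 / ((ε * N) * N) ≤ (1 / 8) ^ 2 := by
        rw [div_le_iff₀ (by positivity)]
        have h40 : (1000 : ℝ) * 1000 ≤ (ε * N) * N :=
          mul_le_mul hεN hN (by norm_num) (by positivity)
        linarith
      refine abs_le_of_sq_le_sq' ?_ (by norm_num) |>.2
      exact (h1.trans h2).trans h4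
    have hPH := PHf.PH N (fun k => -((a : ℂ) * x k)) (ε / 600) (by positivity) (by linarith)
      (fun k => far_small ha0 ha1 (hmem k)) hβ
    have hcmp : ∫ t in (0:ℝ)..(ε / 600), Real.exp (-(t * AA a x) - t ^ 2 * (2 * N / ε)) ≤
        ∫ t in (0:ℝ)..(ε / 600), ∏ k, (1 - t * (-((a : ℂ) * x k)).re) := by
      refine intervalIntegral.integral_mono_on (by positivity) ?_ ?_ fun t ht => ?_
      · apply Continuous.intervalIntegrable; fun_prop
      · apply Continuous.intervalIntegrable; fun_prop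
      · have h1 : Real.exp (-(t * AA a x) - t ^ 2 * (2 * N / ε)) ≤
            Real.exp (∑ k, (-(t * (-((a : ℂ) * x k)).re) - (t * (-((a : ℂ) * x k)).re) ^ 2)) := by
          apply Real.exp_le_exp.2
          rw [Finset.sum_sub_distrib, Finset.sum_neg_distrib, ← Finset.mul_sum]
          rw [hF] at hre hre2 h7
          rw [hre]
          have h2 : ∑ k, (t * (-((a : ℂ) * x k)).re) ^ 2 =
              t ^ 2 * ∑ k, (a * (x k).re) ^ 2 := by
            rw [← hre2, Finset.mul_sum]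
            exact Finset.sum_congr rfl fun k _ => by ring
          rw [h2]
          have h4 := mul_le_mul_of_nonneg_left h7 (sq_nonneg t)
          linarith
        refine h1.trans ?_
        rw [Real.exp_sum]
        refine Finset.prod_le_prod (fun _ _ => (Real.exp_pos _).le) fun k _ => ?_
        refine exp_le_one_sub ?_
        have h7 := Complex.re_le_norm (-((a : ℂ) * x k))
        calc t * (-((a : ℂ) * x k)).re ≤ t * ‖-((a : ℂ) * x k)‖ :=
              mul_le_mul_of_nonneg_left h7 ht.1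
          _ ≤ ε / 600 * ‖-((a : ℂ) * x k)‖ := mul_le_mul_of_nonneg_right ht.2 (norm_nonneg _)
          _ ≤ _ := far_small ha0 ha1 (hmem k)
    have h20 : ε / (9600 * N) ≤ I := by
      have h21 : (1 : ℝ) / 2 * (ε / (4800 * N)) ≤ I :=
        (mul_le_mul_of_nonneg_left (hG2.trans hcmp) (by norm_num)).trans hPH
      have h22 : (1 : ℝ) / 2 * (ε / (4800 * N)) = ε / (9600 * N) := by field_simp; ring
      rwa [h22] at h21
    have h23 : ε / 9600 ≤ N * I := by
      have h24 : N * (ε / (9600 * (N : ℝ))) ≤ N * I := mul_le_mul_of_nonneg_left h20 hN0.le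
      have h25 : N * (ε / (9600 * (N : ℝ))) = ε / 9600 := by field_simp
      rwa [h25] at h24
    refine le_trans ?_ h23
    rw [div_le_div_iff₀ (by positivity) (by norm_num)]
    have h26 : ε ^ 2 ≤ ε := by nlinarith
    have h27 : (1 : ℝ) ≤ (N : ℝ) ^ 4 := one_le_pow₀ (by linarith)
    nlinarith

end

end Pool.Agent.H250.MR
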