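import Pool.Agent.H250.MR.Stm3

/-!
# Second order expansion of `(N+1) ∫_0^1 ∏ (1 - t (1 + δ_k)) dt` (board task ESYM2, MP_172a45_an)

Exact formula: `(N+1) ∫_0^1 ∏ (1 - t (1 + δ_k)) dt = ∑_i (-1)^i e_i(δ) / C(N,i)`.
-/

set_option autoImplicit false

open MeasureTheory Finset

namespace Pool.Agent.H250.MR.ESYMf

theorem pow_step {Y y : ℝ} (hY : 0 ≤ Y) (hy : 0 ≤ y) (n : ℕ) :
    Y ^ (n + 1) + (n + 1) * (y * Y ^ n) ≤ (Y + y) ^ (n + 1) := by
  induction n with
  | zero => simp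
  | succ n ih =>
    have h1 : 0 ≤ Y + y := add_nonneg hY hy
    have h2 := mul_le_mul_of_nonneg_right ih h1
    have h3 : 0 ≤ ((n : ℝ) + 1) * (y ^ 2 * Y ^ n) := by positivity
    have e1 : (Y ^ (n + 1) + ((n : ℝ) + 1) * (y * Y ^ n)) * (Y + y) =
        Y ^ (n + 1 + 1) + ((((n + 1 : ℕ) : ℝ)) + 1) * (y * Y ^ (n + 1)) +
          ((n : ℝ) + 1) * (y ^ 2 * Y ^ n) := by
      push_cast
      ring
    rw [e1] at h2
    rw [pow_succ (Y + y) (n + 1)]
    linarith

theorem exists_esym {ι : Type*} [DecidableEq ι] (s : Finset ι) (δ : ι → ℂ) :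
    ∃ e : ℕ → ℂ, e 0 = 1 ∧ e 1 = ∑ k ∈ s, δ k ∧
      2 * e 2 = (∑ k ∈ s, δ k) ^ 2 - ∑ k ∈ s, δ k ^ 2 ∧
      (∀ j, s.card < j → e j = 0) ∧
      (∀ j, ‖e j‖ ≤ (∑ k ∈ s, ‖δ k‖) ^ j / j.factorial) ∧
      ∀ t b : ℂ, ∏ k ∈ s, (b - t * δ k) =
        ∑ p ∈ antidiagonal s.card, (-t) ^ p.1 * e p.1 * b ^ p.2 := by
  induction s using Finset.induction_on with
  | empty =>
    refine ⟨fun j => if j = 0 then 1 else 0, by simp, by simp, by simp, ?_, ?_, ?_⟩
    · intro j hj
      have : j ≠ 0 := by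
        rw [Finset.card_empty] at hj
        omega
      simp [this]
    · intro j
      rcases j with _ | j
      · simp
      · simp
    · intro t b
      simp
  | insert a s ha ih =>
    obtain ⟨e, e0, e1, e2, eN, eb, ep⟩ := ih
    refine ⟨fun j => e j + δ a * (if j = 0 then 0 else e (j - 1)), ?_, ?_, ?_, ?_, ?_, ?_⟩
    · simp [e0]
    · simp only [one_ne_zero, if_false, Nat.sub_self, e0, e1, mul_one]
      rw [sum_insert ha, add_comm]
    · have h2 : (2 : ℕ) ≠ 0 := two_ne_zero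
      simp only [h2, if_false]
      rw [show (2 : ℕ) - 1 = 1 from rfl, e1, sum_insert ha, sum_insert ha, mul_add, e2]
      ring
    · intro j hj
      rw [card_insert_of_notMem ha] at hj
      have h1 : j ≠ 0 := by omega
      simp only [h1, if_false]
      rw [eN j (by omega), eN (j - 1) (by omega)]
      ring
    · intro j
      rw [sum_insert ha]
      rcases j with _ | j
      · simp [e0]
      · have h1 : j + 1 ≠ 0 := Nat.succ_ne_zero j
        simp only [h1, if_false, Nat.add_sub_cancel]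
        have hY : 0 ≤ ∑ k ∈ s, ‖δ k‖ := sum_nonneg fun _ _ => norm_nonneg _
        have h2 := pow_step hY (norm_nonneg (δ a)) j
        have hj : (0 : ℝ) < (j.factorial : ℝ) := by exact_mod_cast Nat.factorial_pos j
        have hj1 : (0 : ℝ) < ((j + 1).factorial : ℝ) := by exact_mod_cast Nat.factorial_pos (j + 1)
        have h3 : ((j + 1).factorial : ℝ) = ((j : ℝ) + 1) * j.factorial := by
          rw [Nat.factorial_succ]
          push_cast
          ring
        calc ‖e (j + 1) + δ a * e j‖ ≤ ‖e (j + 1)‖ + ‖δ a‖ * ‖e j‖ :=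
              (norm_add_le _ _).trans (by rw [norm_mul])
          _ ≤ (∑ k ∈ s, ‖δ k‖) ^ (j + 1) / (j + 1).factorial +
              ‖δ a‖ * ((∑ k ∈ s, ‖δ k‖) ^ j / j.factorial) :=
              add_le_add (eb (j + 1)) (mul_le_mul_of_nonneg_left (eb j) (norm_nonneg _))
          _ = ((∑ k ∈ s, ‖δ k‖) ^ (j + 1) +
              (j + 1) * (‖δ a‖ * (∑ k ∈ s, ‖δ k‖) ^ j)) / (j + 1).factorial := by
              have hj' : ((j : ℝ) + 1) ≠ 0 := by positivity
              rw [h3]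
              field_simp
          _ ≤ (∑ k ∈ s, ‖δ k‖ + ‖δ a‖) ^ (j + 1) / (j + 1).factorial :=
              div_le_div_of_nonneg_right h2 hj1.le
          _ = _ := by rw [add_comm (‖δ a‖)]
    · intro t b
      rw [prod_insert ha, ep t b, card_insert_of_notMem ha]
      have h1 : ∑ p ∈ antidiagonal (s.card + 1), (-t) ^ p.1 * e p.1 * b ^ p.2 =
          b * ∑ p ∈ antidiagonal s.card, (-t) ^ p.1 * e p.1 * b ^ p.2 := by
        rw [Finset.Nat.sum_antidiagonal_succ', eN (s.card + 1) (Nat.lt_succ_self _), mul_zero,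
          zero_mul, zero_add, mul_sum]
        refine sum_congr rfl fun p _ => ?_
        rw [pow_succ]
        ring
      have h2 : ∑ p ∈ antidiagonal (s.card + 1),
          (-t) ^ p.1 * (δ a * (if p.1 = 0 then 0 else e (p.1 - 1))) * b ^ p.2 =
          (-t * δ a) * ∑ p ∈ antidiagonal s.card, (-t) ^ p.1 * e p.1 * b ^ p.2 := by
        rw [Finset.Nat.sum_antidiagonal_succ, mul_sum]
        simp only [if_true, mul_zero, zero_mul, zero_add, Nat.succ_ne_zero, if_false,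
          Nat.add_sub_cancel]
        refine sum_congr rfl fun p _ => ?_
        rw [pow_succ]
        ring
      have h3 : ∑ p ∈ antidiagonal (s.card + 1),
          (-t) ^ p.1 * (e p.1 + δ a * (if p.1 = 0 then 0 else e (p.1 - 1))) * b ^ p.2 =
          ∑ p ∈ antidiagonal (s.card + 1), (-t) ^ p.1 * e p.1 * b ^ p.2 +
          ∑ p ∈ antidiagonal (s.card + 1),
            (-t) ^ p.1 * (δ a * (if p.1 = 0 then 0 else e (p.1 - 1))) * b ^ p.2 := by
        rw [← sum_add_distrib]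
        refine sum_congr rfl fun p _ => ?_
        ring
      rw [h3, h1, h2]
      ring

theorem beta_nat (i j : ℕ) :
    ∫ t in (0:ℝ)..1, t ^ i * (1 - t) ^ j = i.factorial * j.factorial / (i + j + 1).factorial := by
  induction i generalizing j with
  | zero =>
    have h : ∫ t in (0:ℝ)..1, t ^ 0 * (1 - t) ^ j = 1 / ((j : ℝ) + 1) := by
      have h1 := intervalIntegral.integral_comp_sub_left (a := 0) (b := 1) (fun x : ℝ => x ^ j) 1
      simp only [pow_zero, one_mul]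
      rw [h1, sub_self, sub_zero, integral_pow]
      simp
    rw [h, zero_add, Nat.factorial_zero, Nat.factorial_succ]
    have : (j.factorial : ℝ) ≠ 0 := by exact_mod_cast Nat.factorial_ne_zero j
    push_cast
    field_simp
  | succ i ih =>
    have h1 : ∫ t in (0:ℝ)..1, (((i : ℝ) + 1) * (t ^ i * (1 - t) ^ (j + 1)) -
        ((j : ℝ) + 1) * (t ^ (i + 1) * (1 - t) ^ j)) = 0 := by
      have h2 : ∀ t ∈ Set.uIcc (0:ℝ) 1, HasDerivAt (fun t : ℝ => t ^ (i + 1) * (1 - t) ^ (j + 1))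
          (((i : ℝ) + 1) * (t ^ i * (1 - t) ^ (j + 1)) -
            ((j : ℝ) + 1) * (t ^ (i + 1) * (1 - t) ^ j)) t := by
        intro t _
        have a1 : HasDerivAt (fun t : ℝ => t ^ (i + 1)) (((i + 1 : ℕ) : ℝ) * t ^ i) t := by
          simpa using hasDerivAt_pow (i + 1) t
        have a2 : HasDerivAt (fun t : ℝ => (1 - t) ^ (j + 1))
            (((j + 1 : ℕ) : ℝ) * (1 - t) ^ j * (-1)) t := by
          have := ((hasDerivAt_id t).const_sub 1).fun_pow (j + 1)
          simpa using this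
        refine (a1.mul a2).congr_deriv ?_
        push_cast
        ring
      rw [intervalIntegral.integral_eq_sub_of_hasDerivAt h2
        (Continuous.intervalIntegrable (by fun_prop) _ _)]
      simp
    rw [intervalIntegral.integral_sub (Continuous.intervalIntegrable (by fun_prop) _ _)
      (Continuous.intervalIntegrable (by fun_prop) _ _), intervalIntegral.integral_const_mul,
      intervalIntegral.integral_const_mul, ih (j + 1)] at h1
    have hj : ((j : ℝ) + 1) ≠ 0 := by positivity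
    have h3 : ∫ t in (0:ℝ)..1, t ^ (i + 1) * (1 - t) ^ j =
        ((i : ℝ) + 1) * (i.factorial * (j + 1).factorial / (i + (j + 1) + 1).factorial) /
          ((j : ℝ) + 1) := by
      rw [eq_div_iff hj]
      linarith
    rw [h3, show i + 1 + j + 1 = i + (j + 1) + 1 by ring, Nat.factorial_succ i,
      Nat.factorial_succ j]
    push_cast
    field_simp

theorem beta_choose {N i j : ℕ} (h : i + j = N) :
    ((N : ℝ) + 1) * ∫ t in (0:ℝ)..1, t ^ i * (1 - t) ^ j = 1 / (N.choose i : ℝ) := by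
  subst h
  rw [beta_nat, Nat.factorial_succ]
  have h1 : (i + j).choose i * i.factorial * j.factorial = (i + j).factorial := by
    have := Nat.choose_mul_factorial_mul_factorial (Nat.le_add_right i j)
    rwa [Nat.add_sub_cancel_left] at this
  have h2 : ((i + j).choose i : ℝ) * i.factorial * j.factorial = (i + j).factorial := by
    exact_mod_cast h1
  have h3 : ((i + j).choose i : ℝ) ≠ 0 := by
    exact_mod_cast (Nat.choose_pos (Nat.le_add_right i j)).ne'
  have h4 : (i.factorial : ℝ) ≠ 0 := by exact_mod_cast Nat.factorial_ne_zero i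
  have h5 : (j.factorial : ℝ) ≠ 0 := by exact_mod_cast Nat.factorial_ne_zero j
  have h6 : ((i : ℝ) + j + 1) ≠ 0 := by positivity
  push_cast
  rw [← h2]
  field_simp

/-- the exact formula -/
theorem exact_int {N : ℕ} (δ : Fin N → ℂ) (e : ℕ → ℂ)
    (ep : ∀ t b : ℂ, ∏ k, (b - t * δ k) =
        ∑ p ∈ antidiagonal N, (-t) ^ p.1 * e p.1 * b ^ p.2) :
    (N + 1 : ℂ) * (∫ t in (0:ℝ)..1, ∏ k, (1 - (t : ℂ) * (1 + δ k))) =
      ∑ i ∈ range (N + 1), (-1) ^ i * e i / (N.choose i : ℂ) := by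
  have h1 : ∀ t : ℝ, ∏ k, (1 - (t : ℂ) * (1 + δ k)) =
      ∑ p ∈ antidiagonal N, ((-1) ^ p.1 * e p.1) * ((t ^ p.1 * (1 - t) ^ p.2 : ℝ) : ℂ) := by
    intro t
    have h2 := ep t (1 - t)
    have h3 : ∀ k, 1 - (t : ℂ) * (1 + δ k) = 1 - t - t * δ k := fun k => by ring
    simp only [h3]
    rw [h2]
    refine sum_congr rfl fun p _ => ?_
    push_cast
    rw [neg_pow]
    ring
  simp only [h1]
  rw [intervalIntegral.integral_finsetSum (fun p _ =>
    Continuous.intervalIntegrable (by fun_prop) _ _), mul_sum]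
  rw [← Finset.Nat.sum_antidiagonal_eq_sum_range_succ_mk
    (f := fun p : ℕ × ℕ => (-1) ^ p.1 * e p.1 / (N.choose p.1 : ℂ))]
  refine sum_congr rfl fun p hp => ?_
  rw [HasAntidiagonal.mem_antidiagonal] at hp
  rw [intervalIntegral.integral_const_mul, intervalIntegral.integral_ofReal]
  have h4 := beta_choose hp
  have h5 : ((N : ℂ) + 1) * ((∫ t in (0:ℝ)..1, t ^ p.1 * (1 - t) ^ p.2 : ℝ) : ℂ) =
      1 / (N.choose p.1 : ℂ) := by
    have := congrArg (fun x : ℝ => (x : ℂ)) h4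
    push_cast at this
    exact_mod_cast this
  calc ((N : ℂ) + 1) * ((-1) ^ p.1 * e p.1 * ((∫ t in (0:ℝ)..1, t ^ p.1 * (1 - t) ^ p.2 : ℝ) : ℂ))
      = ((-1) ^ p.1 * e p.1) *
        (((N : ℂ) + 1) * ((∫ t in (0:ℝ)..1, t ^ p.1 * (1 - t) ^ p.2 : ℝ) : ℂ)) := by ring
    _ = _ := by rw [h5]; ring

/-- the terms of the remainder -/
theorem term_le {N j : ℕ} {Y q : ℝ} (hY : 0 ≤ Y) (hq : 0 ≤ q) (hYq : Y ≤ q * N) (hj : j ≤ N) :
    Y ^ j / j.factorial / (N.choose j : ℝ) ≤ (6 * q) ^ j := by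
  have hj0 : (0 : ℝ) < j.factorial := by exact_mod_cast Nat.factorial_pos j
  have hc0 : (0 : ℝ) < N.choose j := by exact_mod_cast Nat.choose_pos hj
  rcases le_or_gt (2 * j) N with h | h
  · -- small j
    have h1 : (N + 1 - j) ^ j ≤ N.descFactorial j := Nat.pow_sub_le_descFactorial N j
    have h2 : (N.descFactorial j : ℝ) = j.factorial * N.choose j := by
      exact_mod_cast Nat.descFactorial_eq_factorial_mul_choose N j
    have h3 : (((N + 1 - j : ℕ) : ℝ)) ^ j ≤ j.factorial * N.choose j := by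
      rw [← h2]
      exact_mod_cast h1
    have h4 : (N : ℝ) / 2 ≤ ((N + 1 - j : ℕ) : ℝ) := by
      rw [Nat.cast_sub (by omega)]
      have : (2 : ℝ) * j ≤ N := by exact_mod_cast h
      push_cast
      linarith
    have h5 : ((N : ℝ) / 2) ^ j ≤ j.factorial * N.choose j :=
      (pow_le_pow_left₀ (by positivity) h4 j).trans h3
    rw [div_div, div_le_iff₀ (mul_pos hj0 hc0)]
    calc Y ^ j ≤ (q * N) ^ j := pow_le_pow_left₀ hY hYq j
      _ = (2 * q) ^ j * ((N : ℝ) / 2) ^ j := by rw [← mul_pow]; ring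
      _ ≤ (6 * q) ^ j * (j.factorial * N.choose j) :=
          mul_le_mul (pow_le_pow_left₀ (by linarith) (by linarith) j) h5 (by positivity)
            (by positivity)
  · have h1 : (1 : ℝ) ≤ N.choose j := by exact_mod_cast Nat.choose_pos hj
    have h2 : (j : ℝ) ^ j / j.factorial ≤ Real.exp j :=
      Real.pow_div_factorial_le_exp _ (Nat.cast_nonneg j) j
    have h3 : Real.exp j ≤ 3 ^ j := by
      have h4 : Real.exp 1 ≤ 3 := by linarith [Real.exp_one_lt_d9]
      calc Real.exp j = Real.exp 1 ^ j := by rw [← Real.exp_nat_mul, mul_one]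
        _ ≤ 3 ^ j := pow_le_pow_left₀ (Real.exp_pos 1).le h4 j
    have h5 : Y ≤ (2 * q) * j := by
      have : (N : ℝ) ≤ 2 * j := by exact_mod_cast h.le
      calc Y ≤ q * N := hYq
        _ ≤ q * (2 * j) := mul_le_mul_of_nonneg_left this hq
        _ = _ := by ring
    have h6 : 0 ≤ Y ^ j / j.factorial := by positivity
    calc Y ^ j / j.factorial / (N.choose j : ℝ) ≤ Y ^ j / j.factorial := div_le_self h6 h1
      _ ≤ ((2 * q) * j) ^ j / j.factorial :=
          div_le_div_of_nonneg_right (pow_le_pow_left₀ hY h5 j) hj0.le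
      _ = (2 * q) ^ j * ((j : ℝ) ^ j / j.factorial) := by rw [mul_pow, mul_div_assoc]
      _ ≤ (2 * q) ^ j * 3 ^ j := mul_le_mul_of_nonneg_left (h2.trans h3) (by positivity)
      _ = (6 * q) ^ j := by rw [← mul_pow]; ring

theorem geom_tail {x : ℝ} (hx : 0 ≤ x) (hx1 : x ≤ 1 / 2) (n : ℕ) :
    ∑ j ∈ range n, x ^ (j + 3) ≤ 2 * x ^ 3 := by
  have h1 : ∑ j ∈ range n, x ^ (j + 3) = x ^ 3 * ∑ j ∈ range n, x ^ j := by
    rw [mul_sum]
    refine sum_congr rfl fun j _ => ?_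
    rw [pow_add]
    ring
  have h2 : ∑ j ∈ range n, x ^ j ≤ 2 := by
    have h3 : Summable fun j : ℕ => x ^ j := summable_geometric_of_lt_one hx (by linarith)
    refine (h3.sum_le_tsum (range n) fun j _ => pow_nonneg hx j).trans ?_
    rw [tsum_geometric_of_lt_one hx (by linarith)]
    rw [inv_le_comm₀ (by linarith) (by norm_num)]
    linarith
  rw [h1]
  calc x ^ 3 * ∑ j ∈ range n, x ^ j ≤ x ^ 3 * 2 := mul_le_mul_of_nonneg_left h2 (pow_nonneg hx 3)
    _ = _ := by ring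

theorem esym2 (N : ℕ) (δ : Fin N → ℂ) (q : ℝ) (hN : 10 ^ 6 ≤ N) (hq : 0 ≤ q) (hq1 : q ≤ 1 / 100)
    (hY : ∑ k, ‖δ k‖ ≤ q * N) :
    ‖(N + 1 : ℂ) * (∫ t in (0:ℝ)..1, ∏ k, (1 - (t : ℂ) * (1 + δ k))) -
      (1 - (∑ k, δ k) / N + ((∑ k, δ k) ^ 2 - ∑ k, δ k ^ 2) / (N * (N - 1)))‖ ≤
      10000 * q ^ 3 + q ^ 2 / N := by
  obtain ⟨e, e0, e1, e2, -, eb, ep⟩ := exists_esym (univ : Finset (Fin N)) δ
  simp only [card_univ, Fintype.card_fin] at ep
  rw [exact_int δ e ep]
  obtain ⟨n, rfl⟩ : ∃ n, N = n + 2 := ⟨N - 2, by omega⟩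
  rw [sum_range_succ', sum_range_succ', sum_range_succ']
  have hn : ((n : ℂ) + 2) ≠ 0 := by exact_mod_cast (Nat.succ_ne_zero (n + 1))
  have hn1 : ((n : ℂ) + 1) ≠ 0 := by exact_mod_cast (Nat.succ_ne_zero n)
  have c2 : ((n + 2).choose 2 : ℂ) = ((n : ℂ) + 2) * (n + 1) / 2 := by
    rw [Nat.cast_choose_two]
    push_cast
    ring
  have hmain : ∑ k ∈ range n, (-1 : ℂ) ^ (k + 1 + 1 + 1) * e (k + 1 + 1 + 1) /
        ((n + 2).choose (k + 1 + 1 + 1) : ℂ) + (-1) ^ (0 + 1 + 1) * e (0 + 1 + 1) /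
        ((n + 2).choose (0 + 1 + 1) : ℂ) + (-1) ^ (0 + 1) * e (0 + 1) /
        ((n + 2).choose (0 + 1) : ℂ) + (-1) ^ 0 * e 0 / ((n + 2).choose 0 : ℂ) -
      (1 - (∑ k, δ k) / ((n + 2 : ℕ) : ℂ) + ((∑ k, δ k) ^ 2 - ∑ k, δ k ^ 2) /
        (((n + 2 : ℕ) : ℂ) * (((n + 2 : ℕ) : ℂ) - 1))) =
      ∑ k ∈ range n, (-1 : ℂ) ^ (k + 3) * e (k + 3) / ((n + 2).choose (k + 3) : ℂ) := by
    have e2' : e 2 = ((∑ k, δ k) ^ 2 - ∑ k, δ k ^ 2) / 2 := by
      rw [← e2]; ring
    simp only [zero_add, Nat.reduceAdd, Nat.choose_zero_right, Nat.choose_one_right, c2, e0, e1,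
      e2', pow_zero, Nat.cast_one, pow_one, add_assoc]
    have hn2 : (((n + 2 : ℕ) : ℂ) - 1) = n + 1 := by push_cast; ring
    rw [hn2]
    push_cast
    field_simp
    ring
  have hcast : ((n + 2 : ℕ) : ℂ) + 1 = ((n + 2 : ℕ) : ℂ) + 1 := rfl
  rw [hmain]
  have hYn : 0 ≤ ∑ k, ‖δ k‖ := sum_nonneg fun _ _ => norm_nonneg _
  have hb : ‖∑ k ∈ range n, (-1 : ℂ) ^ (k + 3) * e (k + 3) / ((n + 2).choose (k + 3) : ℂ)‖ ≤
      ∑ k ∈ range n, (6 * q) ^ (k + 3) := by
    refine (norm_sum_le _ _).trans (sum_le_sum fun k hk => ?_)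
    rw [mem_range] at hk
    rw [norm_div, norm_mul, norm_pow, norm_neg, norm_one, one_pow, one_mul, Complex.norm_natCast]
    rcases Nat.lt_or_ge (n + 2) (k + 3) with h | h
    · rw [Nat.choose_eq_zero_of_lt h, Nat.cast_zero, div_zero]
      positivity
    · exact (div_le_div_of_nonneg_right (eb (k + 3)) (Nat.cast_nonneg _)).trans
        (term_le hYn hq hY h)
  refine hb.trans ((geom_tail (by linarith) (by linarith) n).trans ?_)
  have h1 : 0 ≤ q ^ 3 := pow_nonneg hq 3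
  have h2 : 0 ≤ q ^ 2 / ((n + 2 : ℕ) : ℝ) := by positivity
  have h3 : 2 * (6 * q) ^ 3 = 432 * q ^ 3 := by ring
  rw [h3]
  linarith

theorem ESYM2 : Pool.Agent.H250.MR.S_ESYM2 := fun N δ q hN hq hq1 hY =>
  esym2 N δ q hN hq hq1 hY

end Pool.Agent.H250.MR.ESYMf
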