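import Mathlib

set_option autoImplicit false

/-!
# Statements of the independent pieces (MP_172a45_an, `n |a|² (1 - |a|) ≥ C log n`)

Notation: `r = ‖x‖`, `s = r - 1`, `ε = 1 - a`, `τ = (1 + a) r - 1 ≥ 0`; the hypothesis
`‖1 + a x‖ ≤ ‖x‖` says that `w = a + 1/x` lies in the closed unit disc.
-/

open MeasureTheory

namespace Pool.Agent.H250.MR

/-- (T1). Proof. Put `s = r - 1`. Identity: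
`‖1 + κ a x‖² = 1 - κ + κ ‖1 + a x‖² - κ (1-κ) a² r² ≤ B := 1 - κ + κ r² - κ (1-κ) a² r²`.
`r ≥ 1/(1+a) > 1/2` (as `r ≥ ‖1 + a x‖ ≥ 1 - a r`), i.e. `-s ≤ a r`.
Case 1, `s ≤ a r`: `exp t ≥ 1 + t + (5/18) t²` for `t ≥ -1` (Mathlib `Real.exp_bound` with `n = 3` for
`-1 ≤ t ≤ 0`, `Real.quadratic_le_exp_of_nonneg` for `t ≥ 0`), with `t = 2 κ s ≥ -1`:
`exp (2κs) - B ≥ κ [(1-κ) a² r² - (1 - (10/9) κ) s²] ≥ κ² a² r² / 20` because `s² ≤ a² r²`, `κ ≤ 19/20`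
(`κ ≤ 9/10`: `≥ κ·(κ/9) a² r²`; `κ ≥ 9/10`: `≥ κ (1-κ) a² r²`). And `4 r² ≥ B` since `B ≤ max 1 r²`
and `r ≥ 1/2`, so `exp (2κs) ≥ B (1 + κ² a²/80)`.
Case 2, `s > a r` (so `r ≥ 1`): `‖1 + κ a x‖ ≤ 1 + κ a r`, `exp (κ s) ≥ exp (κ a r) ≥
1 + κ a r + (κ a r)²/2`, so `exp (2κs) ≥ (1 + κ a r)² + (κ a r)² (1 + κ a r)` and
`(κ a r)² ≥ (1 + κ a r) κ² a²/80` because `80 r² ≥ 1 + r`. -/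
def S_T1 : Prop :=
  ∀ (a κ : ℝ) (x : ℂ), 0 < a → a < 1 → 0 ≤ κ → κ ≤ 19 / 20 → ‖1 + (a : ℂ) * x‖ ≤ ‖x‖ →
    ‖1 + ((κ * a : ℝ) : ℂ) * x‖ ^ 2 * (1 + κ ^ 2 * a ^ 2 / 80) ≤ Real.exp (2 * κ * (‖x‖ - 1))

/-- (T1'). `θ = 1/691200 = (1/600)/1152`. Proof. As in (T1), `‖1 + κ a x‖² ≤ B` with
`B = 1 - κ + κ r² - κ (1-κ) a² r²`, `X := a² r² - s² = τ (1 - ε r)`, `τ = (1+a) r - 1 ≥ 0`.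
Put `E = κ (2 s - θ τ) ≥ -1` (it is increasing in `r` and `r ≥ 1/(1+a)`).
Case `r ≤ 1/ε`: `exp E ≥ 1 + E + (5/18) E²` and
`(1 + E + (5/18) E² - B)/κ = (1-κ) X + κ s²/9 - θ τ - (10/9) κ s θ τ + (5/18) κ θ² τ²`.
It is `≥ 0`: if `ε r ≤ 1/2`, then `(1-κ) X ≥ τ/40`; when `κ s ≤ 1` use `θ (1 + 10/9) ≤ 1/40`; when
`κ s > 1` use `s > 1`, `τ ≤ 2 r ≤ 4 s`, `θ τ ≤ 4 θ κ s²`. If `ε r > 1/2` and `r ≥ 4/3`: `s ≥ r/4`,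
`κ s²/9 ≥ κ r²/144 ≥ κ r²/288 + r/(600·576)` (as `κ ≥ ε/600 > 1/(1200 r)`), `θ τ ≤ 2 θ r ≤ r/(600·576)`,
`(10/9) κ s θ τ ≤ (20/9) θ κ r² ≤ κ r²/288`. If `ε r > 1/2` and `r < 4/3`: `ε ≤ 1/2` gives
`1 - ε r ≥ 1/3`, `(1-κ) X ≥ τ/60 ≥ θ τ (1 + 10/27)`.
Case `r > 1/ε` (so `r ≥ 2`, `s > a r`): `‖1 + κ a x‖ ≤ 1 + κ a r`; with `t = κ (s - θ r) ≥ κ r/4`,
`exp t ≥ 1 + t + t²/2`, `t ≥ κ a r - θ κ r`, `t²/2 ≥ κ² r²/32 ≥ θ κ r` since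
`κ r ≥ 1/600 ≥ 32 θ`; hence `(1 + κ a r)² ≤ exp (2 κ s - 2 θ κ r) ≤ exp (2 κ s - κ θ τ)`. -/
def S_T1' : Prop :=
  ∀ (a κ : ℝ) (x : ℂ), 1 / 2 ≤ a → a < 1 → (1 - a) / 600 ≤ κ → κ ≤ 19 / 20 →
    ‖1 + (a : ℂ) * x‖ ≤ ‖x‖ →
    ‖1 + ((κ * a : ℝ) : ℂ) * x‖ ^ 2 ≤
      Real.exp (2 * κ * (‖x‖ - 1) - κ * ((1 + a) * ‖x‖ - 1) / 691200)

/-- (T2). Put `B = 1/512`. Proof. `‖1 + κ a x‖² = 1 - κ + κ ‖1 + a x‖² - κ (1-κ) a² r² ≤ q :=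
1 - κ + κ ‖1 + a x‖² = 1 + κ r² v`, `v = (‖1 + a x‖² - 1)/r²`. Claim `q ≤ exp (2 (κ-2B) s + 2 B v)`.
`q ↦ q exp (-2 B (q-1)/(κ r²))` is increasing for `q ≤ κ r²/(2B) = 256 κ r²`; and
`q ≤ qm := 1 - κ + κ r² ≤ 256 κ r²` as `r ≥ 1/2`. So it is enough to treat `q = qm`, `v = 1 - r⁻²`:
`log (1 + κ (r²-1)) ≤ 2 (κ - 2B)(r-1) + 2 B (1 - r⁻²)`, i.e.
`2 κ s - log qm ≥ 2 B s² (2r+1)/r²`.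
For `r ≥ 1`: the derivative in `r` of (right - left)/2 is
`κ (r-1)(κ r + κ - 1)/(1-κ+κr²) - 2 B (1 - r⁻³) ≥ 0` since
`κ (κ r + κ - 1) ≥ 6 B r ≥ 2 B (r²+r+1)(1-κ+κr²)/r³`.
For `1/2 ≤ r ≤ 1`: `exp (2κs) ≥ 1 + 2κs + (10/9) κ² s² ≥ qm + κ s²/18`, `qm ≤ 1`, so
`2 κ s - log qm ≥ log (1 + κ s²/18) ≥ s²/32 ≥ 2 B s² (2r+1)/r²`. -/
def S_T2 : Prop :=
  ∀ (a κ : ℝ) (x : ℂ), 0 < a → a < 1 → 19 / 20 ≤ κ → κ ≤ 1 → ‖1 + (a : ℂ) * x‖ ≤ ‖x‖ →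
    ‖1 + ((κ * a : ℝ) : ℂ) * x‖ ^ 2 ≤
      Real.exp (2 * (κ - 1 / 256) * (‖x‖ - 1) + (‖1 + (a : ℂ) * x‖ ^ 2 - 1) / (256 * ‖x‖ ^ 2))

/-- (LB). Proof: `exp (-κA - κ²Q) ≥ exp (-κA) (1 - κ²Q)`, and an antiderivative of
`exp (-κA) (1 - κ²Q)` is `-exp (-κA)/A + Q exp (-κA) (κ²/A + 2κ/A² + 2/A³)`. -/
def S_LB : Prop :=
  ∀ (A Q k0 : ℝ), 0 < A → 0 ≤ Q → 0 ≤ k0 →
    (1 - Real.exp (-(k0 * A)) - 2 * Q / A ^ 2) / A ≤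
      ∫ t in (0:ℝ)..k0, Real.exp (-(t * A) - t ^ 2 * Q)

/-- (PH) phase lemma. Proof: for `t ∈ [0,k0]`, `1 - t u = (1 - t α)(1 - i t β/(1 - t α))` with
`α = Re u`, `β = Im u`, `1 - t α ≥ 1/2`; by `Finset.norm_prod_one_add_sub_one_le`,
`‖∏ (1 + z_k) - 1‖ ≤ exp (∑ ‖z_k‖) - 1 ≤ exp (1/4) - 1 ≤ 1/2` with `z_k = - i t β_k/(1 - t α_k)`,
so `Re ∏ (1 - t u_k) ≥ (1/2) ∏ (1 - t α_k)`. Integrate; `‖∫ f‖ ≥ Re ∫ f = ∫ Re f`. -/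
def S_PH : Prop :=
  ∀ (N : ℕ) (u : Fin N → ℂ) (k0 : ℝ), 0 ≤ k0 → k0 ≤ 1 → (∀ k, k0 * ‖u k‖ ≤ 1 / 2) →
    ∑ k, |(u k).im| ≤ 1 / 8 →
    (1 / 2) * (∫ t in (0:ℝ)..k0, ∏ k, (1 - t * (u k).re)) ≤
      ‖∫ t in (0:ℝ)..k0, ∏ k, (1 - (t : ℂ) * u k)‖

end Pool.Agent.H250.MR
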