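import Mathlib
import Pool.Agent.H250.MR.Stm

set_option autoImplicit false

/-! # The pointwise inequality (T1') -/

namespace Pool.Agent.H250.MR.T1pf

open Pool.Agent.H250.MR

theorem exp_quad {t : ℝ} (ht : -1 ≤ t) : 1 + t + 5 / 18 * t ^ 2 ≤ Real.exp t := by
  rcases le_or_gt 0 t with h | h
  · have h1 := Real.quadratic_le_exp_of_nonneg h
    nlinarith [sq_nonneg t]
  · have habs : |t| ≤ 1 := by
      rw [abs_le]
      exact ⟨ht, by linarith⟩
    have h1 := Real.exp_bound habs (show 0 < 3 by norm_num)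
    have h2 : ∑ m ∈ Finset.range 3, t ^ m / (m.factorial : ℝ) = 1 + t + t ^ 2 / 2 := by
      simp [Finset.sum_range_succ, Nat.factorial]
    rw [h2] at h1
    have h3 : ((Nat.succ 3 : ℕ) : ℝ) / (((Nat.factorial 3 : ℕ) : ℝ) * ((3 : ℕ) : ℝ)) = 2 / 9 := by
      norm_num [Nat.factorial]
    rw [h3] at h1
    have h4 := (abs_le.1 h1).1
    have h5 : |t| ^ 3 ≤ t ^ 2 := by
      have : |t| ^ 3 = |t| * t ^ 2 := by
        rw [pow_succ, sq_abs]
        ring
      rw [this]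
      nlinarith [sq_nonneg t]
    nlinarith

theorem norm_sq_formula (b : ℝ) (x : ℂ) :
    ‖1 + (b : ℂ) * x‖ ^ 2 = 1 + 2 * b * x.re + b ^ 2 * ‖x‖ ^ 2 := by
  rw [Complex.sq_norm, Complex.sq_norm, Complex.normSq_apply, Complex.normSq_apply]
  simp
  ring

/-- the first case -/
theorem case1 {a κ r s τ θ : ℝ} (ha : 1 / 2 ≤ a) (ha1 : a < 1) (hκ : (1 - a) / 600 ≤ κ)
    (hκ2 : κ ≤ 19 / 20) (hs : s = r - 1) (hτ : τ = (1 + a) * r - 1) (hθ : θ = 1 / 691200)
    (hτ0 : 0 ≤ τ) (hr : (1 - a) * r ≤ 1) :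
    0 ≤ (1 - κ) * ((1 - (1 - a) * r) * τ) + κ * s ^ 2 / 9 - θ * τ - 10 / 9 * κ * s * θ * τ := by
  have hκ0 : 0 < κ := by
    have : 0 < (1 - a) / 600 := by
      apply div_pos <;> linarith
    linarith
  have hr0 : 0 < r := by
    by_contra h
    push Not at h
    have : (1 + a) * r ≤ 0 := by nlinarith
    linarith
  rcases le_or_gt ((1 - a) * r) (1 / 2) with h1 | h1
  · -- ε r ≤ 1/2
    have h2 : τ / 40 ≤ (1 - κ) * ((1 - (1 - a) * r) * τ) := by
      have h3 : (1 / 20 : ℝ) * (1 / 2 * τ) ≤ (1 - κ) * ((1 - (1 - a) * r) * τ) := by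
        have h4 : (1 / 20 : ℝ) ≤ 1 - κ := by linarith
        have h5 : (1 / 2 : ℝ) ≤ 1 - (1 - a) * r := by linarith
        gcongr
      linarith
    rcases le_or_gt (κ * s) 1 with h3 | h3
    · have h4 : 10 / 9 * κ * s * θ * τ ≤ 10 / 9 * θ * τ := by
        have h5 : κ * s * (θ * τ) ≤ 1 * (θ * τ) := by
          apply mul_le_mul_of_nonneg_right h3
          rw [hθ]
          positivity
        nlinarith
      have h6 : 0 ≤ κ * s ^ 2 / 9 := by positivity
      rw [hθ] at h4 ⊢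
      nlinarith
    · have hs1 : 1 < s := by
        by_contra h
        push Not at h
        nlinarith
      have h4 : τ ≤ 4 * s := by nlinarith
      have h5 : 10 / 9 * κ * s * θ * τ ≤ 10 / 9 * κ * s * θ * (4 * s) := by
        have : 0 ≤ 10 / 9 * κ * s * θ := by
          rw [hθ]
          positivity
        exact mul_le_mul_of_nonneg_left h4 this
      have h6 : 10 / 9 * κ * s * θ * (4 * s) ≤ κ * s ^ 2 / 9 := by
        rw [hθ]
        have : 0 ≤ κ * s ^ 2 := by positivity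
        nlinarith
      rw [hθ] at h5 h6 ⊢
      nlinarith
  · rcases le_or_gt (4 / 3) r with h2 | h2
    · -- r ≥ 4/3
      have h3 : 0 ≤ (1 - κ) * ((1 - (1 - a) * r) * τ) := by
        have h4 : 0 ≤ 1 - κ := by linarith
        have h5 : 0 ≤ 1 - (1 - a) * r := by linarith
        positivity
      have h4 : r / 4 ≤ s := by linarith
      have h5 : κ * (r / 4) ^ 2 ≤ κ * s ^ 2 := by gcongr
      have h6 : 1 / 1200 ≤ κ * r := by
        have : (1 - a) / 600 * r ≤ κ * r := by gcongr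
        linarith
      have h7 : τ ≤ 2 * r := by nlinarith
      have h8 : θ * τ ≤ r / 345600 := by
        rw [hθ]
        linarith
      have h9 : r / 345600 ≤ κ * r ^ 2 / 288 := by nlinarith
      have h10 : 10 / 9 * κ * s * θ * τ ≤ κ * r ^ 2 / 288 := by
        have h11 : s ≤ r := by linarith
        have h12 : κ * (s * τ) ≤ κ * (r * (2 * r)) := by
          have hs0 : 0 ≤ s := by linarith
          gcongr
        rw [hθ]
        have : 0 ≤ κ * r ^ 2 := by positivity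
        nlinarith
      nlinarith
    · -- r < 4/3
      have h3 : τ / 60 ≤ (1 - κ) * ((1 - (1 - a) * r) * τ) := by
        have h3 : (1 / 20 : ℝ) * (1 / 3 * τ) ≤ (1 - κ) * ((1 - (1 - a) * r) * τ) := by
          have h4 : (1 / 20 : ℝ) ≤ 1 - κ := by linarith
          have h5 : (1 / 3 : ℝ) ≤ 1 - (1 - a) * r := by nlinarith
          gcongr
        linarith
      have h4 : κ * s ≤ 1 := by nlinarith
      have h5 : 10 / 9 * κ * s * θ * τ ≤ 10 / 9 * θ * τ := by
        have h5 : κ * s * (θ * τ) ≤ 1 * (θ * τ) := by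
          apply mul_le_mul_of_nonneg_right h4
          rw [hθ]
          positivity
        nlinarith
      have h6 : 0 ≤ κ * s ^ 2 / 9 := by positivity
      rw [hθ] at h5 ⊢
      nlinarith

theorem T1p : S_T1' := by
  intro a κ x ha ha1 hκ hκ2 hx
  have hκ0 : 0 < κ := by
    have : 0 < (1 - a) / 600 := by
      apply div_pos <;> linarith
    linarith
  have n1 := norm_sq_formula a x
  have n2 := norm_sq_formula (κ * a) x
  have hre : -‖x‖ ≤ x.re := (abs_le.1 (Complex.abs_re_le_norm x)).1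
  have hre2 : x.re ≤ ‖x‖ := (abs_le.1 (Complex.abs_re_le_norm x)).2
  have hx2 : ‖1 + (a : ℂ) * x‖ ^ 2 ≤ ‖x‖ ^ 2 := by gcongr
  have hr0 : 0 ≤ ‖x‖ := norm_nonneg x
  obtain ⟨r, hr⟩ : ∃ r : ℝ, r = ‖x‖ := ⟨_, rfl⟩
  rw [← hr] at n1 n2 hre hre2 hx2 hr0 ⊢
  obtain ⟨s, hs⟩ : ∃ s : ℝ, s = r - 1 := ⟨_, rfl⟩
  obtain ⟨τ, hτ⟩ : ∃ τ : ℝ, τ = (1 + a) * r - 1 := ⟨_, rfl⟩
  obtain ⟨θ, hθ⟩ : ∃ θ : ℝ, θ = 1 / 691200 := ⟨_, rfl⟩
  rw [n1] at hx2
  have hτ0 : 0 ≤ τ := by
    rw [hτ]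
    have h1 : (1 - a * r) ^ 2 ≤ r ^ 2 := by nlinarith
    have h2 := abs_le_of_sq_le_sq h1 hr0
    have h3 := (abs_le.1 h2).2
    linarith
  have hE : 2 * κ * (r - 1) - κ * ((1 + a) * r - 1) / 691200 = κ * (2 * s - θ * τ) := by
    rw [hs, hτ, hθ]
    ring
  rw [hE]
  rcases le_or_gt ((1 - a) * r) 1 with hc | hc
  · -- the first case
    have h1 := case1 ha ha1 hκ hκ2 hs hτ hθ hτ0 hc
    have hEm : -1 ≤ κ * (2 * s - θ * τ) := by
      have h2 : -1 ≤ 2 * s - θ * τ := by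
        rw [hs, hτ, hθ]
        nlinarith
      nlinarith
    refine le_trans ?_ (exp_quad hEm)
    rw [n2]
    have hB : 1 + 2 * (κ * a) * x.re + (κ * a) ^ 2 * r ^ 2 ≤
        1 - κ + κ * r ^ 2 - κ * (1 - κ) * a ^ 2 * r ^ 2 := by
      have : κ * (1 + 2 * a * x.re + a ^ 2 * r ^ 2) ≤ κ * r ^ 2 := by gcongr
      nlinarith
    refine hB.trans ?_
    have key : 1 + κ * (2 * s - θ * τ) + 5 / 18 * (κ * (2 * s - θ * τ)) ^ 2 -
        (1 - κ + κ * r ^ 2 - κ * (1 - κ) * a ^ 2 * r ^ 2) =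
        κ * ((1 - κ) * ((1 - (1 - a) * r) * τ) + κ * s ^ 2 / 9 - θ * τ - 10 / 9 * κ * s * θ * τ +
          5 / 18 * κ * θ ^ 2 * τ ^ 2) := by
      rw [hs, hτ]
      ring
    have h2 : 0 ≤ κ * ((1 - κ) * ((1 - (1 - a) * r) * τ) + κ * s ^ 2 / 9 - θ * τ -
        10 / 9 * κ * s * θ * τ + 5 / 18 * κ * θ ^ 2 * τ ^ 2) := by
      have h3 : 0 ≤ 5 / 18 * κ * θ ^ 2 * τ ^ 2 := by positivity
      apply mul_nonneg hκ0.le
      linarith
    linarith
  · -- the second case
    have hr2 : 2 < r := by nlinarith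
    have h1 : ‖1 + ((κ * a : ℝ) : ℂ) * x‖ ≤ 1 + κ * a * r := by
      refine (norm_add_le _ _).trans ?_
      rw [norm_mul, norm_one, Complex.norm_real, Real.norm_eq_abs, abs_of_nonneg (by positivity), ← hr]
    obtain ⟨t, ht⟩ : ∃ t : ℝ, t = κ * (s - θ * r) := ⟨_, rfl⟩
    have ht1 : κ * r / 4 ≤ t := by
      have : r / 4 ≤ s - θ * r := by
        rw [hs, hθ]
        linarith
      rw [ht]
      nlinarith
    have ht2 : κ * a * r - θ * κ * r ≤ t := by
      rw [ht]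
      have : a * r ≤ s := by
        rw [hs]
        linarith
      nlinarith
    have hκr : 1 / 600 ≤ κ * r := by
      have : (1 - a) / 600 * r ≤ κ * r := by gcongr
      linarith
    have ht0 : 0 ≤ t := by
      have : 0 ≤ κ * r := by positivity
      linarith
    have h2 := Real.quadratic_le_exp_of_nonneg ht0
    have h3 : θ * κ * r ≤ t ^ 2 / 2 := by
      have h4 : (κ * r / 4) ^ 2 ≤ t ^ 2 := by gcongr
      rw [hθ]
      nlinarith
    have h5 : 1 + κ * a * r ≤ Real.exp t := by linarith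
    have h6 : ‖1 + ((κ * a : ℝ) : ℂ) * x‖ ^ 2 ≤ Real.exp t ^ 2 := by
      have := h1.trans h5
      gcongr
    refine h6.trans ?_
    rw [← Real.exp_nat_mul]
    apply Real.exp_le_exp.2
    have h7 : τ ≤ 2 * r := by
      rw [hτ]
      nlinarith
    have h8 : κ * (θ * τ) ≤ κ * (θ * (2 * r)) := by
      have : 0 ≤ θ := by rw [hθ]; norm_num
      gcongr
    rw [ht]
    push_cast
    nlinarith

end Pool.Agent.H250.MR.T1pf
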