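import Pool.Agent.H250.MR.Stm

set_option autoImplicit false

/-!
# The pointwise inequality (T2)
-/

namespace Pool.Agent.H250.MR.T2f

open Pool.Agent.H250.MR

/-- the extremal case `‖1 + a x‖ = ‖x‖`, for `r ≥ 1` -/
theorem core_ge {κ r c : ℝ} (h1 : 19 / 20 ≤ κ) (h2 : κ ≤ 1) (hr : 1 ≤ r)
    (hc1 : c ≤ (r - 1) / 128) (hc2 : c ≤ (r - 1) ^ 2 / 32) :
    1 - κ + κ * r ^ 2 ≤ Real.exp (2 * κ * (r - 1) - c) := by
  obtain ⟨s, hs⟩ : ∃ s : ℝ, s = r - 1 := ⟨_, rfl⟩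
  have hr' : r = s + 1 := by rw [hs]; ring
  have hs0 : 0 ≤ s := by rw [hs]; linarith
  rw [← hs] at hc1 hc2
  rw [← hs]
  have hκs : (19 / 20) * s ≤ κ * s := mul_le_mul_of_nonneg_right h1 hs0
  have hE : (9 / 5) * s ≤ 2 * κ * s - c := by linarith
  have hE0 : 0 ≤ 2 * κ * s - c := le_trans (by positivity) hE
  refine le_trans ?_ (Real.quadratic_le_exp_of_nonneg hE0)
  have h3 : ((9 / 5) * s) ^ 2 ≤ (2 * κ * s - c) ^ 2 :=
    pow_le_pow_left₀ (by positivity) hE 2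
  have h4 : κ * s ^ 2 ≤ s ^ 2 := mul_le_of_le_one_left (by positivity) h2
  have h5 : 0 ≤ s ^ 2 := by positivity
  have h6 : 1 - κ + κ * r ^ 2 = 1 + 2 * κ * s + κ * s ^ 2 := by rw [hr']; ring
  have h7 : ((9 / 5) * s) ^ 2 = (81 / 25) * s ^ 2 := by ring
  rw [h6]
  rw [h7] at h3
  linarith

/-- the extremal case `‖1 + a x‖ = ‖x‖`, for `r ≤ 1` -/
theorem core_le {κ r c : ℝ} (h1 : 19 / 20 ≤ κ) (h2 : κ ≤ 1) (hr : 1 / 2 ≤ r) (hr1 : r ≤ 1)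
    (hc0 : 0 ≤ c) (hc2 : c ≤ (r - 1) ^ 2 / 32) :
    1 - κ + κ * r ^ 2 ≤ Real.exp (2 * κ * (r - 1) - c) := by
  obtain ⟨t, ht⟩ : ∃ t : ℝ, t = 1 - r := ⟨_, rfl⟩
  have hr' : r = 1 - t := by rw [ht]; ring
  have ht0 : 0 ≤ t := by rw [ht]; linarith
  have ht1 : t ≤ 1 / 2 := by rw [ht]; linarith
  have hκ0 : 0 ≤ κ := by linarith
  have e1 : 2 * κ * (r - 1) - c = 4 * (-(κ * t / 2)) + (-c) := by rw [hr']; ring
  have hc3 : c ≤ t ^ 2 / 32 := by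
    have : (r - 1) ^ 2 = t ^ 2 := by rw [hr']; ring
    rwa [this] at hc2
  have hκt : κ * t ≤ 1 / 2 := (mul_le_of_le_one_left ht0 h2).trans ht1
  have hκt0 : 0 ≤ κ * t := mul_nonneg hκ0 ht0
  have e2 : (1 - κ * t / 2) ^ 4 ≤ Real.exp (4 * (-(κ * t / 2))) := by
    have h3 : 1 - κ * t / 2 ≤ Real.exp (-(κ * t / 2)) := Real.one_sub_le_exp_neg _
    have h4 : 0 ≤ 1 - κ * t / 2 := by linarith
    have h5 := pow_le_pow_left₀ h4 h3 4
    rw [← Real.exp_nat_mul] at h5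
    exact_mod_cast h5
  have e3 : 1 - c ≤ Real.exp (-c) := Real.one_sub_le_exp_neg _
  have e4 : 0 ≤ 1 - c := by nlinarith
  have e5 : (1 - κ * t / 2) ^ 4 ≤ 1 := pow_le_one₀ (by linarith) (by linarith)
  have e6 : (1 - κ * t / 2) ^ 4 * (1 - c) ≤ Real.exp (2 * κ * (r - 1) - c) := by
    rw [e1, Real.exp_add]
    exact mul_le_mul e2 e3 e4 (Real.exp_pos _).le
  refine le_trans ?_ e6
  have e7 : (1 - κ * t / 2) ^ 4 - c ≤ (1 - κ * t / 2) ^ 4 * (1 - c) := by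
    have : (1 - κ * t / 2) ^ 4 * c ≤ c := mul_le_of_le_one_left hc0 e5
    linarith
  refine le_trans ?_ e7
  -- polynomial inequality
  have f1 : (1 - κ * t / 2) ^ 4 = 1 - 2 * (κ * t) + t ^ 2 * (3 / 2 * κ ^ 2 - κ ^ 3 * t / 2) +
      (κ * t) ^ 4 / 16 := by ring
  have f2 : κ + 1 / 32 ≤ 3 / 2 * κ ^ 2 - κ ^ 3 * t / 2 := by
    have g1 : κ ^ 3 * t ≤ κ ^ 2 * (1 / 2) := by
      have g2 : κ ^ 3 ≤ κ ^ 2 := pow_le_pow_of_le_one hκ0 h2 (by norm_num)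
      exact mul_le_mul g2 ht1 ht0 (by positivity)
    nlinarith
  have f3 : t ^ 2 * (κ + 1 / 32) ≤ t ^ 2 * (3 / 2 * κ ^ 2 - κ ^ 3 * t / 2) :=
    mul_le_mul_of_nonneg_left f2 (by positivity)
  have f4 : 0 ≤ (κ * t) ^ 4 / 16 := by positivity
  have f5 : 1 - κ + κ * r ^ 2 = 1 - 2 * (κ * t) + κ * t ^ 2 := by rw [hr']; ring
  rw [f1, f5]
  linarith

/-- the extremal case `‖1 + a x‖ = ‖x‖` -/
theorem core {κ r : ℝ} (h1 : 19 / 20 ≤ κ) (h2 : κ ≤ 1) (hr : 1 / 2 ≤ r) :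
    1 - κ + κ * r ^ 2 ≤
      Real.exp (2 * (κ - 1 / 256) * (r - 1) + (r ^ 2 - 1) / (256 * r ^ 2)) := by
  have hr0 : 0 < r := by linarith
  obtain ⟨c, hc⟩ : ∃ c : ℝ, c = (r - 1) ^ 2 * (2 * r + 1) / (256 * r ^ 2) := ⟨_, rfl⟩
  have e : 2 * (κ - 1 / 256) * (r - 1) + (r ^ 2 - 1) / (256 * r ^ 2) =
      2 * κ * (r - 1) - c := by
    rw [hc]
    field_simp
    ring
  have hc0 : 0 ≤ c := by rw [hc]; positivity
  have hc2 : c ≤ (r - 1) ^ 2 / 32 := by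
    rw [hc, div_le_div_iff₀ (by positivity) (by norm_num)]
    have h3 : (2 * r + 1) * 32 ≤ 256 * r ^ 2 := by nlinarith
    have h4 := mul_le_mul_of_nonneg_left h3 (sq_nonneg (r - 1))
    linarith
  rw [e]
  rcases le_total 1 r with h | h
  · refine core_ge h1 h2 h ?_ hc2
    rw [hc, div_le_div_iff₀ (by positivity) (by norm_num)]
    have h3 : (r - 1) * (2 * r + 1) * 128 ≤ 256 * r ^ 2 := by nlinarith
    have h4 := mul_le_mul_of_nonneg_left h3 (sub_nonneg.2 h)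
    linarith
  · exact core_le h1 h2 hr h hc0 hc2

theorem T2 : S_T2 := by
  intro a κ x ha ha1 h1 h2 hx
  obtain ⟨r, hr⟩ : ∃ r : ℝ, r = ‖x‖ := ⟨_, rfl⟩
  obtain ⟨p, hp⟩ : ∃ p : ℝ, p = ‖1 + (a : ℂ) * x‖ ^ 2 := ⟨_, rfl⟩
  have hκ0 : 0 ≤ κ := by linarith
  have hr12 : 1 / 2 ≤ r := by
    have h3 : 1 - a * r ≤ ‖1 + (a : ℂ) * x‖ := by
      have h4 := norm_sub_norm_le (1 : ℂ) (-((a : ℂ) * x))
      rw [norm_neg, norm_mul, Complex.norm_real, Real.norm_of_nonneg ha.le, norm_one,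
        sub_neg_eq_add, ← hr] at h4
      exact h4
    rw [← hr] at hx
    have hr0 : 0 ≤ r := by rw [hr]; exact norm_nonneg x
    nlinarith
  have hr0 : 0 < r := by linarith
  have hp2 : p ≤ r ^ 2 := by
    rw [hp, hr]
    exact pow_le_pow_left₀ (norm_nonneg _) hx 2
  -- the interpolation
  have hq : ‖1 + ((κ * a : ℝ) : ℂ) * x‖ ^ 2 ≤ 1 - κ + κ * p := by
    have n1 : ‖1 + ((κ * a : ℝ) : ℂ) * x‖ ^ 2 =
        1 + 2 * (κ * a) * x.re + (κ * a) ^ 2 * (x.re ^ 2 + x.im ^ 2) := by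
      rw [← Complex.normSq_eq_norm_sq, Complex.normSq_apply]
      simp only [Complex.add_re, Complex.one_re, Complex.mul_re, Complex.ofReal_re,
        Complex.ofReal_im, Complex.add_im, Complex.one_im, Complex.mul_im]
      ring
    have n2 : p = 1 + 2 * a * x.re + a ^ 2 * (x.re ^ 2 + x.im ^ 2) := by
      rw [hp, ← Complex.normSq_eq_norm_sq, Complex.normSq_apply]
      simp only [Complex.add_re, Complex.one_re, Complex.mul_re, Complex.ofReal_re,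
        Complex.ofReal_im, Complex.add_im, Complex.one_im, Complex.mul_im]
      ring
    rw [n1, n2]
    have h3 : 0 ≤ κ * (1 - κ) * (a ^ 2 * (x.re ^ 2 + x.im ^ 2)) := by
      have : 0 ≤ 1 - κ := by linarith
      positivity
    nlinarith
  rw [← hr, ← hp]
  refine hq.trans ?_
  -- reduction to the extremal case
  obtain ⟨m, hm⟩ : ∃ m : ℝ, m = 1 - κ + κ * r ^ 2 := ⟨_, rfl⟩
  have hm0 : 0 < m := by
    rw [hm]
    have : 0 < κ * r ^ 2 := by positivity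
    linarith
  have hm256 : m ≤ 256 * κ * r ^ 2 := by
    have h3 : (1 / 2 : ℝ) ^ 2 ≤ r ^ 2 := pow_le_pow_left₀ (by norm_num) hr12 2
    have h4 : (19 / 20) * (1 / 2 : ℝ) ^ 2 ≤ κ * r ^ 2 := mul_le_mul h1 h3 (by norm_num) hκ0
    rw [hm]
    linarith
  have hD : 0 ≤ r ^ 2 - p := by linarith
  have s1 : (r ^ 2 - p) / (256 * r ^ 2) ≤ κ * (r ^ 2 - p) / m := by
    rw [div_le_div_iff₀ (by positivity) hm0]
    have := mul_le_mul_of_nonneg_left hm256 hD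
    linarith
  have s2 : 1 - κ + κ * p ≤ m * Real.exp (-(κ * (r ^ 2 - p) / m)) := by
    have h3 : 1 - κ * (r ^ 2 - p) / m ≤ Real.exp (-(κ * (r ^ 2 - p) / m)) :=
      Real.one_sub_le_exp_neg _
    have h4 := mul_le_mul_of_nonneg_left h3 hm0.le
    have h5 : m * (1 - κ * (r ^ 2 - p) / m) = 1 - κ + κ * p := by
      have : m * (1 - κ * (r ^ 2 - p) / m) = m - κ * (r ^ 2 - p) := by field_simp
      rw [this, hm]; ring
    rw [h5] at h4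
    exact h4
  have s3 : Real.exp (-(κ * (r ^ 2 - p) / m)) ≤ Real.exp (-((r ^ 2 - p) / (256 * r ^ 2))) :=
    Real.exp_le_exp.2 (neg_le_neg s1)
  have s4 : m ≤ Real.exp (2 * (κ - 1 / 256) * (r - 1) + (r ^ 2 - 1) / (256 * r ^ 2)) := by
    rw [hm]; exact core h1 h2 hr12
  refine s2.trans ((mul_le_mul s4 s3 (Real.exp_pos _).le (Real.exp_pos _).le).trans ?_)
  rw [← Real.exp_add]
  apply le_of_eq
  congr 1
  ring

end Pool.Agent.H250.MR.T2f
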