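import Pool.Agent.H250.MR.Sums
import Pool.Agent.H250.MR.T1
import Pool.Agent.H250.MR.T1p
import Pool.Agent.H250.MR.T2

set_option autoImplicit false

/-!
# Upper bounds for `∏ (1 - t u_k)`, `u_k = - a x_k`
-/

open MeasureTheory

namespace Pool.Agent.H250.MR

section

variable {N : ℕ} {a : ℝ} {x : Fin N → ℂ}

lemma fac_eq (t : ℝ) (y : ℂ) : 1 - (t : ℂ) * (-((a : ℂ) * y)) = 1 + ((t * a : ℝ) : ℂ) * y := by
  push_cast; ring

/-- the tail bound on `[(1-a)/600, 19/20]` -/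
lemma tail1 (ha0 : 0 < a) (ha1 : a < 1) (hx : ∀ k, ‖1 + (a : ℂ) * x k‖ ≤ ‖x k‖)
    (hS : ∑ k, ‖x k‖ ≤ N) {t : ℝ} (ht : (1 - a) / 600 ≤ t) (ht1 : t ≤ 19 / 20) :
    ‖∏ k, (1 - (t : ℂ) * (-((a : ℂ) * x k)))‖ ≤ Real.exp (-(a ^ 2 * (1 - a) * N / 10 ^ 9)) := by
  have hN : (0 : ℝ) ≤ N := Nat.cast_nonneg _
  have ht0 : 0 < t := by
    have : 0 < (1 - a) / 600 := by linarith
    linarith
  rcases lt_or_ge a (1 / 2) with ha | ha
  · have h1 : ∀ k, ‖1 - (t : ℂ) * (-((a : ℂ) * x k))‖ ^ 2 ≤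
        Real.exp (2 * t * (‖x k‖ - 1) - t ^ 2 * a ^ 2 / 160) := by
      intro k
      rw [fac_eq]
      have h2 := T1f.T1 a t (x k) ha0 ha1 ht0.le ht1 (hx k)
      have h3 : Real.exp (t ^ 2 * a ^ 2 / 160) ≤ 1 + t ^ 2 * a ^ 2 / 80 := by
        have h4 : t ^ 2 * a ^ 2 ≤ 1 := by
          have : t ^ 2 ≤ 1 := by nlinarith
          have : a ^ 2 ≤ 1 := by nlinarith
          nlinarith [sq_nonneg t, sq_nonneg a]
        have := exp_half_le (y := t ^ 2 * a ^ 2 / 80) (by positivity) (by linarith)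
        have e : t ^ 2 * a ^ 2 / 80 / 2 = t ^ 2 * a ^ 2 / 160 := by ring
        rwa [e] at this
      rw [Real.exp_sub, le_div_iff₀ (Real.exp_pos _)]
      exact (mul_le_mul_of_nonneg_left h3 (sq_nonneg _)).trans h2
    refine (prod_le_exp _ _ h1).trans (Real.exp_le_exp.2 ?_)
    rw [Finset.sum_sub_distrib, ← Finset.mul_sum, Finset.sum_sub_distrib]
    simp only [Finset.sum_const, Finset.card_univ, Fintype.card_fin, nsmul_eq_mul, mul_one]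
    have h5 : 2 * t * (∑ k, ‖x k‖ - N) ≤ 0 :=
      mul_nonpos_of_nonneg_of_nonpos (by linarith) (by linarith)
    have h6 : 1 / 1200 ≤ t := by linarith
    have h7 : (1 / 1200) ^ 2 ≤ t ^ 2 := pow_le_pow_left₀ (by norm_num) h6 2
    have h8 : a ^ 2 * (1 - a) * N / 10 ^ 9 ≤ a ^ 2 * N / 10 ^ 9 := by
      apply div_le_div_of_nonneg_right _ (by norm_num)
      have : a ^ 2 * N * (1 - a) ≤ a ^ 2 * N * 1 :=
        mul_le_mul_of_nonneg_left (by linarith) (by positivity)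
      linarith
    have h9 : (1 / 1200) ^ 2 * (a ^ 2 * N) ≤ t ^ 2 * (a ^ 2 * N) :=
      mul_le_mul_of_nonneg_right h7 (by positivity)
    have h10 : 0 ≤ a ^ 2 * N := by positivity
    nlinarith
  · have h1 : ∀ k, ‖1 - (t : ℂ) * (-((a : ℂ) * x k))‖ ^ 2 ≤
        Real.exp (2 * t * (‖x k‖ - 1) - t * ((1 + a) * ‖x k‖ - 1) / 691200) := by
      intro k
      rw [fac_eq]
      exact T1pf.T1p a t (x k) ha ha1 ht ht1 (hx k)
    refine (prod_le_exp _ _ h1).trans (Real.exp_le_exp.2 ?_)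
    rw [Finset.sum_sub_distrib, ← Finset.mul_sum, Finset.sum_sub_distrib, ← Finset.sum_div,
      ← Finset.mul_sum, Finset.sum_sub_distrib, ← Finset.mul_sum]
    simp only [Finset.sum_const, Finset.card_univ, Fintype.card_fin, nsmul_eq_mul, mul_one]
    have h8 : a ^ 2 * (1 - a) * N ≤ a * (1 - a) * N := by
      have h0 : 0 ≤ (1 - a) * N := mul_nonneg (by linarith) hN
      have h00 : a ^ 2 ≤ a := by nlinarith
      have := mul_le_mul_of_nonneg_right h00 h0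
      linarith
    have h9 : (1 - a) / 600 * (a * N) ≤ t * (a * N) :=
      mul_le_mul_of_nonneg_right ht (by positivity)
    have h10 : 0 ≤ t * (N - ∑ k, ‖x k‖) := mul_nonneg ht0.le (by linarith)
    have h11 : t * ((1 + a) * ∑ k, ‖x k‖ - N) =
        t * (a * N) - (1 + a) * (t * (N - ∑ k, ‖x k‖)) := by ring
    rw [h11]
    have h12 : (1 + a) * (t * (N - ∑ k, ‖x k‖)) ≤ 2 * (t * (N - ∑ k, ‖x k‖)) :=
      mul_le_mul_of_nonneg_right (by linarith) h10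
    have h13 : 0 ≤ a * (1 - a) * N := by
      have : 0 ≤ 1 - a := by linarith
      positivity
    nlinarith

/-- the tail bound on `[19/20, 1]` -/
lemma tail2 (ha0 : 0 < a) (ha1 : a < 1) (hx : ∀ k, ‖1 + (a : ℂ) * x k‖ ≤ ‖x k‖)
    (hS : ∑ k, ‖x k‖ ≤ N)
    (hW : ∑ k, (‖1 + (a : ℂ) * x k‖ ^ 2 - 1) / ‖x k‖ ^ 2 ≤ -(a ^ 2 * N / 2))
    {t : ℝ} (ht : 19 / 20 ≤ t) (ht1 : t ≤ 1) :
    ‖∏ k, (1 - (t : ℂ) * (-((a : ℂ) * x k)))‖ ≤ Real.exp (-(a ^ 2 * (1 - a) * N / 10 ^ 9)) := by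
  have hN : (0 : ℝ) ≤ N := Nat.cast_nonneg _
  have h1 : ∀ k, ‖1 - (t : ℂ) * (-((a : ℂ) * x k))‖ ^ 2 ≤
      Real.exp (2 * (t - 1 / 256) * (‖x k‖ - 1) +
        (‖1 + (a : ℂ) * x k‖ ^ 2 - 1) / ‖x k‖ ^ 2 / 256) := by
    intro k
    rw [fac_eq]
    have h2 := T2f.T2 a t (x k) ha0 ha1 ht ht1 (hx k)
    have e : (‖1 + (a : ℂ) * x k‖ ^ 2 - 1) / ‖x k‖ ^ 2 / 256 =
        (‖1 + (a : ℂ) * x k‖ ^ 2 - 1) / (256 * ‖x k‖ ^ 2) := by
      rw [div_div, mul_comm (‖x k‖ ^ 2)]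
    rw [e]
    exact h2
  refine (prod_le_exp _ _ h1).trans (Real.exp_le_exp.2 ?_)
  rw [Finset.sum_add_distrib, ← Finset.mul_sum, Finset.sum_sub_distrib, ← Finset.sum_div]
  simp only [Finset.sum_const, Finset.card_univ, Fintype.card_fin, nsmul_eq_mul, mul_one]
  have h5 : 2 * (t - 1 / 256) * (∑ k, ‖x k‖ - N) ≤ 0 :=
    mul_nonpos_of_nonneg_of_nonpos (by linarith) (by linarith)
  have h8 : a ^ 2 * (1 - a) * N / 10 ^ 9 ≤ a ^ 2 * N / 10 ^ 9 := by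
    apply div_le_div_of_nonneg_right _ (by norm_num)
    have : a ^ 2 * N * (1 - a) ≤ a ^ 2 * N * 1 :=
      mul_le_mul_of_nonneg_left (by linarith) (by positivity)
    linarith
  have h10 : 0 ≤ a ^ 2 * N := by positivity
  linarith

end

end Pool.Agent.H250.MR
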