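import Pool.Agent.H250.MR.Test
import Pool.Agent.H250.MR.Tail
import Pool.Agent.H250.MR.Core

set_option autoImplicit false

/-!
# Assembly
-/

open Polynomial MeasureTheory

namespace Pool.Agent.H250.MR

open Pool.Agent.H565.Pm

/-- numerical facts -/
lemma numerics {N : ℕ} {a : ℝ} (hN : 1 ≤ N) (ha0 : 0 < a) (ha1 : a < 1)
    (h : 10 ^ 11 * Real.log (N + 1) ≤ (N + 1) * a ^ 2 * (1 - a)) :
    10 ^ 10 ≤ a ^ 2 * (1 - a) * N ∧ 1 ≤ (1 - a) * (N + 1 : ℝ) ∧
      50 * Real.log (N + 1) ≤ a ^ 2 * (1 - a) * N / 10 ^ 9 := by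
  have hN' : (1 : ℝ) ≤ N := by exact_mod_cast hN
  have hL : 69 / 100 ≤ Real.log (N + 1) := by
    have h1 : Real.log 2 ≤ Real.log (N + 1) := Real.log_le_log (by norm_num) (by linarith)
    have := Real.log_two_gt_d9
    linarith
  have hε : 0 < 1 - a := by linarith
  have hc : 0 < a ^ 2 * (1 - a) := by positivity
  have h2 : (N + 1 : ℝ) * a ^ 2 * (1 - a) ≤ 2 * (a ^ 2 * (1 - a) * N) := by
    have : a ^ 2 * (1 - a) * (N + 1) ≤ a ^ 2 * (1 - a) * (2 * N) :=
      mul_le_mul_of_nonneg_left (by linarith) hc.le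
    linarith
  refine ⟨by linarith, ?_, by linarith⟩
  have h3 : (N + 1 : ℝ) * a ^ 2 * (1 - a) ≤ (1 - a) * (N + 1 : ℝ) := by
    have ha2 : a ^ 2 ≤ 1 := by nlinarith
    have : (1 - a) * (N + 1 : ℝ) * a ^ 2 ≤ (1 - a) * (N + 1 : ℝ) * 1 :=
      mul_le_mul_of_nonneg_left ha2 (by positivity)
    linarith
  linarith

/-- the zeros: `∏ |y - z_j| ≤ exp ((N y² - 2 y ∑ Re z_j)/2)` -/
lemma prod_zeros_le {N : ℕ} {y : ℝ} (z : Fin N → ℂ) (hz : ∀ j, ‖z j‖ ≤ 1) :
    ∏ j, ‖(y : ℂ) - z j‖ ≤ Real.exp ((N * y ^ 2 - 2 * y * ∑ j, (z j).re) / 2) := by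
  rw [← norm_prod]
  refine (prod_le_exp (fun j => (y : ℂ) - z j) (fun j => y ^ 2 - 2 * y * (z j).re) ?_).trans ?_
  · intro k
    have h1 : ‖(y : ℂ) - z k‖ ^ 2 = y ^ 2 - 2 * y * (z k).re + ‖z k‖ ^ 2 := by
      rw [Complex.sq_norm, Complex.sq_norm, Complex.normSq_apply, Complex.normSq_apply]
      simp
      ring
    rw [h1]
    have h2 : ‖z k‖ ^ 2 ≤ 1 := pow_le_one₀ (norm_nonneg _) (hz k)
    have h3 := Real.add_one_le_exp (y ^ 2 - 2 * y * (z k).re)
    linarith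
  · apply le_of_eq
    rw [Finset.sum_sub_distrib, ← Finset.mul_sum]
    simp

theorem core {N : ℕ} (hN : 1 ≤ N) {a : ℝ} (ha0 : 0 < a) (ha1 : a < 1) (z w : Fin N → ℂ)
    (hz : ∀ j, ‖z j‖ ≤ 1)
    (hw : ∀ x : ℂ, (derivative (P a z)).eval x = (N + 1 : ℂ) * ∏ k, (x - w k))
    (hne : ∀ k, w k ≠ a)
    (h : 10 ^ 11 * Real.log (N + 1) ≤ (N + 1) * a ^ 2 * (1 - a)) :
    (N : ℝ) < ∑ k, ‖w k - (a : ℂ)‖⁻¹ := by
  by_contra hcon
  rw [not_lt] at hcon
  obtain ⟨hY, hεn, hL⟩ := numerics hN ha0 ha1 h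
  have hε : 0 < 1 - a := by linarith
  have hN' : (1 : ℝ) ≤ N := by exact_mod_cast hN
  have hN0 : (0 : ℝ) < N := by linarith
  have ha2 : a ^ 2 ≤ 1 := by nlinarith
  have hYN : a ^ 2 * (1 - a) * N ≤ (1 - a) * N := by
    have : (1 - a) * N * a ^ 2 ≤ (1 - a) * N * 1 :=
      mul_le_mul_of_nonneg_left ha2 (by positivity)
    linarith
  have hYM : a ^ 2 * (1 - a) * N ≤ a ^ 2 * N := by
    have : a ^ 2 * N * (1 - a) ≤ a ^ 2 * N * 1 :=
      mul_le_mul_of_nonneg_left (by linarith) (by positivity)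
    linarith
  have hNbig : (10 : ℝ) ^ 10 ≤ N := by
    have : (1 - a) * N ≤ 1 * N := mul_le_mul_of_nonneg_right (by linarith) hN0.le
    linarith
  have hw1 := crit_norm_le ha0.le ha1.le z w hz hw
  set x : Fin N → ℂ := fun k => (w k - (a : ℂ))⁻¹ with hxdef
  have hsub : ∀ k, w k - (a : ℂ) ≠ 0 := fun k => sub_ne_zero.2 (hne k)
  have hxn : ∀ k, ‖x k‖ = ‖w k - (a : ℂ)‖⁻¹ := fun k => by rw [hxdef]; exact norm_inv _
  have hwx : ∀ k, 1 + (a : ℂ) * x k = w k * x k := by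
    intro k
    have := hsub k
    rw [hxdef]
    field_simp
    ring
  have hx : ∀ k, ‖1 + (a : ℂ) * x k‖ ≤ ‖x k‖ := by
    intro k
    rw [hwx, norm_mul]
    exact mul_le_of_le_one_left (norm_nonneg _) (hw1 k)
  have hS : ∑ k, ‖x k‖ ≤ N := by simpa only [hxn] using hcon
  -- the integrand
  set f : ℝ → ℂ := fun t => ∏ k, (1 - (t : ℂ) * (-((a : ℂ) * x k))) with hf
  have hcf : Continuous f := by rw [hf]; fun_prop
  set T : ℝ := Real.exp (-(a ^ 2 * (1 - a) * N / 10 ^ 9)) with hT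
  have hTpos : 0 < T := Real.exp_pos _
  -- the test
  have htest : ∀ k1 : ℝ, 0 ≤ k1 → (N + 1 : ℝ) * ‖∫ t in (0:ℝ)..k1, f t‖ =
      k1 * (∏ k, ‖x k‖) * ∏ j, ‖((a * (1 - k1) : ℝ) : ℂ) - z j‖ := by
    intro k1 hk1
    have := test_y ha0 z w k1 hk1 hw hne (fun k => -((a : ℂ) * x k)) (by
      intro k
      rw [hxdef]
      simp only []
      rw [← neg_sub (w k) (a : ℂ), inv_neg, mul_neg])
    simp only [hxn]
    exact this
  have hprod : ∏ k, ‖x k‖ ≤ Real.exp (-DD x) := F9 ha0 hx hS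
  have hD0 := DD_nonneg ha0 hx
  have hprod0 : 0 ≤ ∏ k, ‖x k‖ := Finset.prod_nonneg fun _ _ => norm_nonneg _
  have hprod1 : ∏ k, ‖x k‖ ≤ 1 :=
    hprod.trans (Real.exp_le_one_iff.2 (by linarith))
  -- sum of the `Re w`
  have hsumc := sum_crit hN z w hw
  have hsumr : (N : ℝ) * (a + ∑ j, (z j).re) = (N + 1) * ∑ k, (w k).re := by
    have h1 := congrArg Complex.re hsumc
    have e1 : ((N : ℂ) * (a + ∑ j, z j)).re = (N : ℝ) * (a + ∑ j, (z j).re) := by
      rw [← Complex.re_sum]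
      have : ((N : ℂ)) = ((N : ℝ) : ℂ) := by norm_cast
      rw [this, Complex.re_ofReal_mul, Complex.add_re, Complex.ofReal_re]
    have e2 : ((N + 1 : ℂ) * ∑ k, w k).re = (N + 1) * ∑ k, (w k).re := by
      rw [← Complex.re_sum]
      have : ((N + 1 : ℂ)) = ((N + 1 : ℝ) : ℂ) := by norm_cast
      rw [this, Complex.re_ofReal_mul]
    rw [e1, e2] at h1
    exact h1
  -- tail on `[k0, k1]`, `k1 ≤ 19/20`
  set k0 : ℝ := (1 - a) / 600 with hk0
  have hk0pos : 0 < k0 := by rw [hk0]; positivity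
  have hk0le : k0 ≤ 1 / 600 := by rw [hk0]; linarith
  have htail : ∀ k1 : ℝ, k0 ≤ k1 → k1 ≤ 1 → (∀ t, k0 ≤ t → t ≤ k1 → ‖f t‖ ≤ T) →
      ‖∫ t in (0:ℝ)..k0, f t‖ ≤ ‖∫ t in (0:ℝ)..k1, f t‖ + T := by
    intro k1 h1 h2 h3
    have h4 : (∫ t in (0:ℝ)..k0, f t) = (∫ t in (0:ℝ)..k1, f t) - ∫ t in k0..k1, f t := by
      rw [← intervalIntegral.integral_add_adjacent_intervals (hcf.intervalIntegrable 0 k0)
        (hcf.intervalIntegrable k0 k1)]
      ring
    have h5 : ‖∫ t in k0..k1, f t‖ ≤ T * |k1 - k0| := by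
      apply intervalIntegral.norm_integral_le_of_norm_le_const
      intro t ht
      rw [Set.uIoc_of_le h1] at ht
      exact h3 t ht.1.le ht.2
    have h6 : T * |k1 - k0| ≤ T * 1 := by
      refine mul_le_mul_of_nonneg_left ?_ hTpos.le
      rw [abs_of_nonneg (by linarith)]; linarith
    rw [h4]
    refine (norm_sub_le _ _).trans ?_
    linarith
  have htail1 : ∀ t, k0 ≤ t → t ≤ 19 / 20 → ‖f t‖ ≤ T := fun t h1 h2 =>
    tail1 ha0 ha1 hx hS h1 h2
  -- size of `T`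
  set n : ℝ := (N : ℝ) + 1 with hn
  have hn0 : 0 < n := by linarith
  have hnbig : (10 : ℝ) ^ 10 ≤ n := by linarith
  have hTn : T ≤ (1 / n) ^ 50 := by
    have h1 : (1 / n) ^ 50 = Real.exp (-(50 * Real.log n)) := by
      rw [Real.exp_neg, mul_comm, Real.exp_mul, Real.exp_log hn0]
      rw [one_div, inv_pow]
      norm_cast
    rw [h1, hT]
    exact Real.exp_le_exp.2 (by linarith)
  set v : ℝ := 1 / n with hv
  have hv0 : 0 < v := by positivity
  have hvn : v * n = 1 := by rw [hv]; field_simp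
  have hv1 : v ≤ 1 / 10 ^ 10 := by
    rw [hv]; exact one_div_le_one_div_of_le (by positivity) hnbig
  have hv1' : v ≤ 1 := hv1.trans (by norm_num)
  have hεv : v ≤ 1 - a := by
    rw [hv, div_le_iff₀ hn0]; exact hεn
  -- crude lower bound
  have hcrude : v ^ 7 ≤ N * ‖∫ t in (0:ℝ)..k0, f t‖ := by
    have h1 := crude ha0 ha1 hx hS (by linarith)
    refine le_trans ?_ h1
    have h2 : v ^ 2 / (20000 * n ^ 4) ≤ (1 - a) ^ 2 / (20000 * (N : ℝ) ^ 4) := by
      apply div_le_div₀ (by positivity) (pow_le_pow_left₀ hv0.le hεv 2) (by positivity)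
      have : (N : ℝ) ^ 4 ≤ n ^ 4 := pow_le_pow_left₀ hN0.le (by linarith) 4
      linarith
    refine le_trans ?_ h2
    rw [le_div_iff₀ (by positivity)]
    have h3 : v ^ 7 * (20000 * n ^ 4) = v ^ 3 * 20000 * (v * n) ^ 4 := by ring
    rw [h3, hvn, one_pow, mul_one]
    have h4 : v ^ 3 * 20000 = v ^ 2 * (v * 20000) := by ring
    rw [h4]
    have h5 : v * 20000 ≤ 1 := by
      have : v * 20000 ≤ 1 / 10 ^ 10 * 20000 := mul_le_mul_of_nonneg_right hv1 (by norm_num)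
      linarith
    exact mul_le_of_le_one_right (by positivity) h5
  -- if the right-hand side of the test is `≤ T`, contradiction
  have hfin : ∀ k1 : ℝ, k0 ≤ k1 → k1 ≤ 1 → (∀ t, k0 ≤ t → t ≤ k1 → ‖f t‖ ≤ T) →
      n * ‖∫ t in (0:ℝ)..k1, f t‖ ≤ T → False := by
    intro k1 h1 h2 h3 h4
    have h5 := htail k1 h1 h2 h3
    have h6 : (N : ℝ) * ‖∫ t in (0:ℝ)..k0, f t‖ ≤ n * ‖∫ t in (0:ℝ)..k1, f t‖ + n * T := by
      have h7 : (N : ℝ) * ‖∫ t in (0:ℝ)..k0, f t‖ ≤ n * ‖∫ t in (0:ℝ)..k0, f t‖ :=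
        mul_le_mul_of_nonneg_right (by linarith) (norm_nonneg _)
      have h8 := mul_le_mul_of_nonneg_left h5 hn0.le
      linarith
    have h9 : n * T ≤ v ^ 49 := by
      have : n * T ≤ n * v ^ 50 := mul_le_mul_of_nonneg_left hTn hn0.le
      have e : n * v ^ 50 = v ^ 49 * (v * n) := by ring
      rw [e, hvn, mul_one] at this
      exact this
    have h10 : T ≤ v ^ 49 := by
      have : T ≤ n * T := le_mul_of_one_le_left hTpos.le (by linarith)
      linarith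
    have h11 : v ^ 49 ≤ v ^ 8 := pow_le_pow_of_le_one hv0.le hv1' (by norm_num)
    have h12 : v ^ 8 ≤ v ^ 7 * (1 / 10 ^ 10) := by
      have : v ^ 8 = v ^ 7 * v := by ring
      rw [this]
      exact mul_le_mul_of_nonneg_left hv1 (by positivity)
    have h13 : 0 < v ^ 7 := by positivity
    linarith
  rcases le_or_gt (∑ k, (w k).re) (a * N / 4) with hW | hW
  · -- case (I)
    have hWsum : ∑ k, (‖1 + (a : ℂ) * x k‖ ^ 2 - 1) / ‖x k‖ ^ 2 ≤ -(a ^ 2 * N / 2) := by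
      have e : ∀ k, (‖1 + (a : ℂ) * x k‖ ^ 2 - 1) / ‖x k‖ ^ 2 = 2 * a * (w k).re - a ^ 2 := by
        intro k
        have hxk : 0 < ‖x k‖ := norm_pos_of ha0 (hx k)
        have h1 : ‖w k - (a : ℂ)‖ ^ 2 = ‖w k‖ ^ 2 - 2 * a * (w k).re + a ^ 2 := by
          rw [Complex.sq_norm, Complex.sq_norm, Complex.normSq_apply, Complex.normSq_apply]
          simp
          ring
        have h2 : ‖x k‖ ^ 2 * ‖w k - (a : ℂ)‖ ^ 2 = 1 := by
          rw [hxn, inv_pow, inv_mul_cancel₀]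
          exact pow_ne_zero 2 (norm_ne_zero_iff.2 (hsub k))
        rw [hwx, norm_mul, mul_pow, div_eq_iff (by positivity)]
        rw [h1] at h2
        linear_combination h2
      simp only [e]
      rw [Finset.sum_sub_distrib, ← Finset.mul_sum]
      simp only [Finset.sum_const, Finset.card_univ, Fintype.card_fin, nsmul_eq_mul]
      have := mul_le_mul_of_nonneg_left hW (show (0:ℝ) ≤ 2 * a by linarith)
      linarith
    have htail2 : ∀ t, k0 ≤ t → t ≤ 1 → ‖f t‖ ≤ T := by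
      intro t h1 h2
      rcases le_total t (19 / 20) with h3 | h3
      · exact htail1 t h1 h3
      · exact tail2 ha0 ha1 hx hS hWsum h3 h2
    have ht1 := htest 1 zero_le_one
    have hz1 : ∏ j, ‖((a * (1 - 1) : ℝ) : ℂ) - z j‖ ≤ 1 := by
      refine Finset.prod_le_one (fun _ _ => norm_nonneg _) fun j _ => ?_
      simp only [sub_self, mul_zero, Complex.ofReal_zero, zero_sub, norm_neg]
      exact hz j
    rw [one_mul] at ht1
    rcases le_or_gt (DD x) (a ^ 2 * (1 - a) * N / 4096) with hD | hD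
    · -- main case
      have hE : Real.exp (-(a ^ 2 * (1 - a) * N / 10800)) ≤ (1 - a) / 8 := by
        have h1 : Real.exp (-(a ^ 2 * (1 - a) * N / 10800)) ≤ T := by
          rw [hT]; apply Real.exp_le_exp.2; linarith
        have h2 : v ^ 50 ≤ v ^ 2 := pow_le_pow_of_le_one hv0.le hv1' (by norm_num)
        have h3 : v ^ 2 ≤ (1 - a) / 8 := by
          have : v * v ≤ v * (1 / 10 ^ 10) := mul_le_mul_of_nonneg_left hv1 hv0.le
          nlinarith
        linarith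
      have hp := precise ha0 ha1 hx hS hD (by linarith) hE
      have h5 := htail 1 (by linarith) le_rfl htail2
      have h6 : n * ‖∫ t in (0:ℝ)..1, f t‖ ≤ 1 := by
        rw [ht1]
        exact mul_le_one₀ hprod1 (Finset.prod_nonneg fun _ _ => norm_nonneg _) hz1
      have h7 : (N : ℝ) * ‖∫ t in (0:ℝ)..k0, f t‖ ≤ n * ‖∫ t in (0:ℝ)..1, f t‖ + n * T := by
        have h7 : (N : ℝ) * ‖∫ t in (0:ℝ)..k0, f t‖ ≤ n * ‖∫ t in (0:ℝ)..k0, f t‖ :=
          mul_le_mul_of_nonneg_right (by linarith) (norm_nonneg _)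
        have h8 := mul_le_mul_of_nonneg_left h5 hn0.le
        linarith
      have h9 : n * T ≤ v ^ 49 := by
        have : n * T ≤ n * v ^ 50 := mul_le_mul_of_nonneg_left hTn hn0.le
        have e : n * v ^ 50 = v ^ 49 * (v * n) := by ring
        rw [e, hvn, mul_one] at this
        exact this
      have h11 : v ^ 49 ≤ v ^ 2 := pow_le_pow_of_le_one hv0.le hv1' (by norm_num)
      have h12 : v ^ 2 ≤ v * (1 / 10 ^ 10) := by
        rw [pow_two]; exact mul_le_mul_of_nonneg_left hv1 hv0.le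
      linarith
    · -- small product
      refine hfin 1 (by linarith) le_rfl htail2 ?_
      rw [ht1]
      have h1 : Real.exp (-DD x) ≤ T := by
        rw [hT]; apply Real.exp_le_exp.2; linarith
      calc (∏ k, ‖x k‖) * ∏ j, ‖((a * (1 - 1) : ℝ) : ℂ) - z j‖ ≤ (∏ k, ‖x k‖) * 1 :=
            mul_le_mul_of_nonneg_left hz1 hprod0
        _ ≤ T := by rw [mul_one]; exact hprod.trans h1
  · -- case (II)
    refine hfin (3 / 4) (by linarith) (by norm_num)
      (fun t h1 h2 => htail1 t h1 (by linarith)) ?_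
    have ht1 := htest (3 / 4) (by norm_num)
    rw [ht1]
    have hy : a * (1 - 3 / 4) = a / 4 := by ring
    rw [hy]
    have h1 := prod_zeros_le (y := a / 4) z hz
    have h2 : a * N / 4 - 3 / 4 * a ≤ ∑ j, (z j).re := by
      have h3 : (N + 1 : ℝ) * (a * N / 4) ≤ (N : ℝ) * (a + ∑ j, (z j).re) := by
        rw [hsumr]
        exact mul_le_mul_of_nonneg_left hW.le (by positivity)
      have h4 : (N : ℝ) * (a * N / 4 - 3 / 4 * a) ≤ N * ∑ j, (z j).re := by linarith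
      exact le_of_mul_le_mul_left h4 hN0
    have h3 : Real.exp ((N * (a / 4) ^ 2 - 2 * (a / 4) * ∑ j, (z j).re) / 2) ≤ T := by
      rw [hT]
      apply Real.exp_le_exp.2
      have h4 : 2 * (a / 4) * (a * N / 4 - 3 / 4 * a) ≤ 2 * (a / 4) * ∑ j, (z j).re :=
        mul_le_mul_of_nonneg_left h2 (by positivity)
      have h5 : 2 * (a / 4) * (a * N / 4 - 3 / 4 * a) = a ^ 2 * N / 8 - 3 / 8 * a ^ 2 := by ring
      have h6 : (N : ℝ) * (a / 4) ^ 2 = a ^ 2 * N / 16 := by ring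
      linarith
    calc 3 / 4 * (∏ k, ‖x k‖) * ∏ j, ‖((a / 4 : ℝ) : ℂ) - z j‖
        ≤ 1 * ∏ j, ‖((a / 4 : ℝ) : ℂ) - z j‖ := by
          refine mul_le_mul_of_nonneg_right ?_ (Finset.prod_nonneg fun _ _ => norm_nonneg _)
          linarith
      _ ≤ T := by rw [one_mul]; exact h1.trans h3

end Pool.Agent.H250.MR
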