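import Pool.Agent.H250.MR.Final
import Pool.Graph.R_seed8.W470.Sen.Rotate

set_option autoImplicit false

/-!
# From the normalised polynomial `(X - a) ∏ (X - z_j)`, `0 < a < 1`, to a general one
-/

open Polynomial
open scoped ENNReal

namespace Pool.Agent.H250.MR

open Pool.Agent.H565.Pm Pool.Agent.W470.Sen

/-- transfer of a lower bound for the sum of the reciprocal distances -/
theorem transfer (P : ℂ[X]) {N : ℕ} (hN : 1 ≤ N) (hdeg : P.natDegree = N + 1)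
    (hz : ∀ z ∈ P.roots, ‖z‖ ≤ 1) (a : ℂ) (ha : a ∈ P.roots)
    (H : ∀ z w : Fin N → ℂ, (∀ j, ‖z j‖ ≤ 1) →
      (∀ x : ℂ, (derivative (Pool.Agent.H565.Pm.P ‖a‖ z)).eval x = (N + 1 : ℂ) * ∏ k, (x - w k)) →
      (∀ k, w k ≠ (‖a‖ : ℝ)) → (N : ℝ) < ∑ k, ‖w k - ((‖a‖ : ℝ) : ℂ)‖⁻¹) :
    ((P.natDegree - 1 : ℕ) : ℝ≥0∞) <
      (P.derivative.roots.map fun ζ => (‖a - ζ‖ₑ)⁻¹).sum := by
  have hP0 : P ≠ 0 := by
    intro h; rw [h, natDegree_zero] at hdeg; omega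
  have hcard : Multiset.card P.roots = N + 1 := by
    rw [← (IsAlgClosed.splits P).natDegree_eq_card_roots, hdeg]
  obtain ⟨lam, hlam⟩ := exists_fin P.roots hcard
  have hl : ∀ i, ‖lam i‖ ≤ 1 := fun i => hz _ (by
    rw [hlam]; exact Multiset.mem_map.2 ⟨i, Finset.mem_univ i, rfl⟩)
  obtain ⟨i, -, hi⟩ := Multiset.mem_map.1 (by rw [hlam] at ha; exact ha)
  have hPeq : P = C P.leadingCoeff * ∏ j, (X - C (lam j)) := by
    have h := C_leadingCoeff_mul_prod_multiset_X_sub_C (p := P) (by rw [hcard, hdeg])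
    rw [hlam, Multiset.map_map] at h
    exact h.symm
  have hlc : P.leadingCoeff ≠ 0 := leadingCoeff_ne_zero.2 hP0
  have hroots : P.derivative.roots = (derivative (∏ j, (X - C (lam j)))).roots := by
    conv_lhs => rw [hPeq, derivative_C_mul, roots_C_mul _ hlc]
  obtain ⟨c, hc1, hca⟩ : ∃ c : ℂ, ‖c‖ = 1 ∧ lam i = c * ((‖lam i‖ : ℝ) : ℂ) := by
    obtain ⟨c, _, _, h1, h2, _⟩ := rotate_data lam hl i
    exact ⟨c, h1, h2⟩
  obtain ⟨c, z, w, hc1, hca, hz1, hr, hr2⟩ := rotate_data lam hl i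
  have hw : ∀ x : ℂ, (derivative (Pool.Agent.H565.Pm.P ‖lam i‖ z)).eval x =
      (N + 1 : ℂ) * ∏ k, (x - w k) := by
    intro x
    have h : ((Multiset.map w Finset.univ.val).map fun w => X - C w).prod
        = ∏ k, (X - C (w k)) := by
      rw [Multiset.map_map]; rfl
    rw [dP_eq, hr, h, eval_mul, eval_C, eval_prod]
    simp
  rw [hroots, hr2, Multiset.map_map, hdeg, Nat.add_sub_cancel]
  change (N : ℝ≥0∞) < ∑ k, (‖a - c * w k‖ₑ)⁻¹
  have hterm : ∀ k, ‖a - c * w k‖ₑ = ENNReal.ofReal ‖w k - ((‖a‖ : ℝ) : ℂ)‖ := by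
    intro k
    rw [← ofReal_norm]
    congr 1
    rw [← hi, hca]
    have h1 : ‖c * ((‖lam i‖ : ℝ) : ℂ)‖ = ‖lam i‖ := by
      rw [norm_mul, hc1, one_mul, Complex.norm_real, norm_norm]
    rw [h1, ← mul_sub, norm_mul, hc1, one_mul, norm_sub_rev]
  by_cases hex : ∃ k, w k = ((‖a‖ : ℝ) : ℂ)
  · obtain ⟨k, hk⟩ := hex
    have htop : ∑ k, (‖a - c * w k‖ₑ)⁻¹ = ⊤ := by
      rw [ENNReal.sum_eq_top]
      refine ⟨k, Finset.mem_univ k, ?_⟩
      rw [hterm, hk, sub_self, norm_zero, ENNReal.ofReal_zero, ENNReal.inv_zero]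
    rw [htop]
    exact ENNReal.natCast_lt_top N
  · push Not at hex
    rw [hi] at hw
    have h1 := H z w hz1 hw hex
    have h2 : ∑ k, (‖a - c * w k‖ₑ)⁻¹ =
        ENNReal.ofReal (∑ k, ‖w k - ((‖a‖ : ℝ) : ℂ)‖⁻¹) := by
      rw [ENNReal.ofReal_sum_of_nonneg fun _ _ => by positivity]
      refine Finset.sum_congr rfl fun k _ => ?_
      rw [hterm, ENNReal.ofReal_inv_of_pos (norm_pos_iff.2 (sub_ne_zero.2 (hex k)))]
    rw [h2]
    have h3 : (N : ℝ≥0∞) = ENNReal.ofReal (N : ℝ) := by rw [ENNReal.ofReal_natCast]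
    rw [h3]
    exact (ENNReal.ofReal_lt_ofReal_iff_of_nonneg (Nat.cast_nonneg _)).2 h1

end Pool.Agent.H250.MR
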