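import Pool.Agent.H250.MR.Stm3

/-! Project MR (helper250), part ID: two identities for the critical points (helper539). -/

set_option autoImplicit false

open Polynomial

namespace Pool.Agent.H250.MR.IDf

open Pool.Agent.H250.MR

theorem evalp {ι : Type} [DecidableEq ι] (S : Finset ι) (v : ι → ℂ) (a : ℂ)
    (hv : ∀ j ∈ S, v j ≠ a) :
    (∏ j ∈ S, (X - C (v j))).eval a ≠ 0 ∧
    (derivative (∏ j ∈ S, (X - C (v j)))).eval a =
      (∏ j ∈ S, (X - C (v j))).eval a * ∑ j ∈ S, (a - v j)⁻¹ ∧
    (derivative (derivative (∏ j ∈ S, (X - C (v j))))).eval a =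
      (∏ j ∈ S, (X - C (v j))).eval a *
        ((∑ j ∈ S, (a - v j)⁻¹) ^ 2 - ∑ j ∈ S, ((a - v j)⁻¹) ^ 2) := by
  induction S using Finset.induction_on with
  | empty => simp
  | insert i S hi ih =>
    obtain ⟨h0, h1, h2⟩ := ih fun j hj => hv j (Finset.mem_insert_of_mem hj)
    have hvi : a - v i ≠ 0 := sub_ne_zero.2 (hv i (Finset.mem_insert_self _ _)).symm
    rw [Finset.prod_insert hi, Finset.sum_insert hi, Finset.sum_insert hi]
    set R : ℂ[X] := ∏ j ∈ S, (X - C (v j)) with hR
    have d1 : derivative ((X - C (v i)) * R) = R + (X - C (v i)) * derivative R := by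
      rw [derivative_mul, derivative_X_sub_C, one_mul]
    have d2 : derivative (derivative ((X - C (v i)) * R)) =
        derivative R + (derivative R + (X - C (v i)) * derivative (derivative R)) := by
      rw [d1, derivative_add, derivative_mul, derivative_X_sub_C, one_mul]
    refine ⟨?_, ?_, ?_⟩
    · rw [eval_mul, eval_sub, eval_X, eval_C]
      exact mul_ne_zero hvi h0
    · rw [d1]
      simp only [eval_add, eval_mul, eval_sub, eval_X, eval_C]
      rw [h1]
      field_simp
    · rw [d2]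
      simp only [eval_add, eval_mul, eval_sub, eval_X, eval_C]
      rw [h1, h2]
      field_simp
      ring

/-- (ID) -/
theorem ID : S_ID := by
  intro N a z w hP hw
  classical
  set Q : ℂ[X] := ∏ j, (X - C (z j)) with hQ
  set W : ℂ[X] := ∏ k, (X - C (w k)) with hW
  have hN : (N + 1 : ℂ) ≠ 0 := by exact_mod_cast Nat.succ_ne_zero N
  have hdP : derivative (Pool.Agent.H565.Pm.P a z) = C (N + 1 : ℂ) * W := by
    apply Polynomial.funext
    intro x
    rw [hP x, eval_mul, eval_C, hW, Polynomial.eval_prod]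
    congr 1
    refine Finset.prod_congr rfl fun k _ => ?_
    rw [eval_sub, eval_X, eval_C]
  have hPQ : Pool.Agent.H565.Pm.P a z = (X - C (a : ℂ)) * Q := rfl
  have e1 : C (N + 1 : ℂ) * W = Q + (X - C (a : ℂ)) * derivative Q := by
    rw [← hdP, hPQ, derivative_mul, derivative_X_sub_C, one_mul]
  have e2 : C (N + 1 : ℂ) * derivative W =
      derivative Q + (derivative Q + (X - C (a : ℂ)) * derivative (derivative Q)) := by
    have h := congrArg derivative e1
    rw [derivative_C_mul, derivative_add, derivative_mul, derivative_X_sub_C, one_mul] at h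
    exact h
  have e3 : C (N + 1 : ℂ) * derivative (derivative W) = derivative (derivative Q) +
      (derivative (derivative Q) + (derivative (derivative Q) +
        (X - C (a : ℂ)) * derivative (derivative (derivative Q)))) := by
    have h := congrArg derivative e2
    rw [derivative_C_mul, derivative_add, derivative_add, derivative_mul, derivative_X_sub_C,
      one_mul] at h
    exact h
  have f1 : (N + 1 : ℂ) * W.eval (a : ℂ) = Q.eval (a : ℂ) := by
    have h := congrArg (eval (a : ℂ)) e1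
    simpa using h
  have f2 : (N + 1 : ℂ) * (derivative W).eval (a : ℂ) = 2 * (derivative Q).eval (a : ℂ) := by
    have h := congrArg (eval (a : ℂ)) e2
    simp only [eval_add, eval_mul, eval_sub, eval_X, eval_C, sub_self, zero_mul, add_zero] at h
    rw [h]
    ring
  have f3 : (N + 1 : ℂ) * (derivative (derivative W)).eval (a : ℂ) =
      3 * (derivative (derivative Q)).eval (a : ℂ) := by
    have h := congrArg (eval (a : ℂ)) e3
    simp only [eval_add, eval_mul, eval_sub, eval_X, eval_C, sub_self, zero_mul, add_zero] at h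
    rw [h]
    ring
  obtain ⟨w0, w1, w2⟩ := evalp Finset.univ w (a : ℂ) fun k _ => hw k
  rw [← hW] at w0 w1 w2
  have hQ0 : Q.eval (a : ℂ) ≠ 0 := by
    rw [← f1]
    exact mul_ne_zero hN w0
  have hz : ∀ j, z j ≠ (a : ℂ) := by
    intro j hj
    apply hQ0
    rw [hQ, Polynomial.eval_prod]
    refine Finset.prod_eq_zero (Finset.mem_univ j) ?_
    rw [eval_sub, eval_X, eval_C, hj, sub_self]
  obtain ⟨z0, z1, z2⟩ := evalp Finset.univ z (a : ℂ) fun j _ => hz j
  rw [← hQ] at z0 z1 z2
  have g1 : ∑ k, ((a : ℂ) - w k)⁻¹ = 2 * ∑ j, ((a : ℂ) - z j)⁻¹ := by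
    rw [w1, z1, ← mul_assoc, f1] at f2
    have h : Q.eval (a : ℂ) * (∑ k, ((a : ℂ) - w k)⁻¹) =
        Q.eval (a : ℂ) * (2 * ∑ j, ((a : ℂ) - z j)⁻¹) := by
      rw [f2]
      ring
    exact mul_left_cancel₀ z0 h
  refine ⟨hz, g1, ?_⟩
  rw [w2, z2, ← mul_assoc, f1] at f3
  have h : Q.eval (a : ℂ) * ((∑ k, ((a : ℂ) - w k)⁻¹) ^ 2 - ∑ k, (((a : ℂ) - w k)⁻¹) ^ 2) =
      Q.eval (a : ℂ) * (3 * ((∑ j, ((a : ℂ) - z j)⁻¹) ^ 2 - ∑ j, (((a : ℂ) - z j)⁻¹) ^ 2)) := by
    rw [f3]
    ring
  have h' := mul_left_cancel₀ z0 h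
  rw [g1] at h'
  linear_combination -h'

end Pool.Agent.H250.MR.IDf
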