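import Pool.Agent.H250.MR.Stm3

/-!
# The local integral does not vanish (S_LOCZ)
-/

set_option autoImplicit false

open MeasureTheory

namespace Pool.Agent.H250.MR.LOCZf

open Pool.Agent.H250.MR

/-- one factor -/
theorem factor_bound (x η : ℂ) (hx : ‖x‖ ≤ 1) :
    ‖(1 - x * (1 / 2 + η)) * Complex.exp (x / 2) - 1‖ ≤ 3 * (‖x‖ * ‖η‖ + ‖x‖ ^ 2 / 4) := by
  have h1 : (1 - x * (1 / 2 + η)) * Complex.exp (x / 2) - 1 =
      (-(x * η) - (Complex.exp (-(x / 2)) - 1 - (-(x / 2)))) * Complex.exp (x / 2) := by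
    have h2 : Complex.exp (-(x / 2)) * Complex.exp (x / 2) = 1 := by
      rw [← Complex.exp_add]
      simp
    linear_combination h2
  have hx2 : ‖-(x / 2)‖ = ‖x‖ / 2 := by
    rw [norm_neg, norm_div]
    norm_num
  have h3 : ‖Complex.exp (-(x / 2)) - 1 - (-(x / 2))‖ ≤ ‖x‖ ^ 2 / 4 := by
    have h4 := Complex.norm_exp_sub_one_sub_id_le (x := -(x / 2)) (by rw [hx2]; linarith)
    rw [hx2] at h4
    calc _ ≤ (‖x‖ / 2) ^ 2 := h4
      _ = _ := by ring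
  have h5 : ‖Complex.exp (x / 2)‖ ≤ 3 := by
    rw [Complex.norm_exp]
    have h6 : (x / 2).re ≤ 1 := by
      have h7 : (x / 2).re ≤ ‖x / 2‖ := Complex.re_le_norm _
      have h8 : ‖x / 2‖ = ‖x‖ / 2 := by rw [norm_div]; norm_num
      linarith
    have h7 : Real.exp (x / 2).re ≤ Real.exp 1 := Real.exp_le_exp.mpr h6
    linarith [Real.exp_one_lt_d9]
  rw [h1, norm_mul]
  have h6 : ‖-(x * η) - (Complex.exp (-(x / 2)) - 1 - (-(x / 2)))‖ ≤
      ‖x‖ * ‖η‖ + ‖x‖ ^ 2 / 4 := by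
    refine (norm_sub_le _ _).trans ?_
    rw [norm_neg, norm_mul]
    linarith
  calc _ ≤ (‖x‖ * ‖η‖ + ‖x‖ ^ 2 / 4) * 3 := by
        apply mul_le_mul h6 h5 (norm_nonneg _)
        positivity
    _ = _ := by ring

/-- the product -/
theorem prod_bound (M : ℕ) (u : Fin M → ℂ) (x : ℂ) (hM : 10 ^ 9 ≤ M) (hx : ‖x‖ ≤ 6 / M)
    (hsum : ∑ k, ‖u k - 1 / 2‖ ≤ 1 / 10 ^ 6 * M) :
    ∃ δ : ℂ, ‖δ‖ ≤ 4 / 10 ^ 5 ∧
      ∏ k, (1 - x * u k) = Complex.exp (-(x * (M / 2))) * (1 + δ) := by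
  have hMr : (10 ^ 9 : ℝ) ≤ M := by exact_mod_cast hM
  have hM0 : (0 : ℝ) < M := by linarith
  have hx1 : ‖x‖ ≤ 1 := by
    refine hx.trans ?_
    rw [div_le_one hM0]
    linarith
  set ε : Fin M → ℂ := fun k => (1 - x * u k) * Complex.exp (x / 2) - 1 with hε
  refine ⟨∏ k, (1 + ε k) - 1, ?_, ?_⟩
  · have h1 := Finset.norm_prod_one_add_sub_one_le Finset.univ ε
    have h2 : ∑ k, ‖ε k‖ ≤ 2 / 10 ^ 5 := by
      have h3 : ∀ k, ‖ε k‖ ≤ 3 * (‖x‖ * ‖u k - 1 / 2‖ + ‖x‖ ^ 2 / 4) := by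
        intro k
        have h4 := factor_bound x (u k - 1 / 2) hx1
        have h5 : (1 / 2 : ℂ) + (u k - 1 / 2) = u k := by ring
        rw [h5] at h4
        exact h4
      calc ∑ k, ‖ε k‖ ≤ ∑ k : Fin M, 3 * (‖x‖ * ‖u k - 1 / 2‖ + ‖x‖ ^ 2 / 4) :=
            Finset.sum_le_sum fun k _ => h3 k
        _ = 3 * (‖x‖ * ∑ k, ‖u k - 1 / 2‖ + M * (‖x‖ ^ 2 / 4)) := by
            rw [← Finset.mul_sum, Finset.sum_add_distrib, ← Finset.mul_sum]
            simp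
        _ ≤ 3 * ((6 / M) * (1 / 10 ^ 6 * M) + M * ((6 / M) ^ 2 / 4)) := by
            gcongr
        _ = 3 * (6 / 10 ^ 6 + 9 / M) := by
            field_simp
            ring
        _ ≤ 3 * (6 / 10 ^ 6 + 9 / 10 ^ 9) := by
            gcongr
        _ ≤ 2 / 10 ^ 5 := by norm_num
    have h3 : 0 ≤ ∑ k, ‖ε k‖ := Finset.sum_nonneg fun k _ => norm_nonneg _
    have h4 : |∑ k, ‖ε k‖| ≤ 1 := by
      rw [abs_of_nonneg h3]
      exact h2.trans (by norm_num)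
    have h5 := Real.abs_exp_sub_one_le h4
    rw [abs_of_nonneg h3] at h5
    have h6 := le_abs_self (Real.exp (∑ k, ‖ε k‖) - 1)
    calc _ ≤ Real.exp (∑ k, ‖ε k‖) - 1 := h1
      _ ≤ 2 * (2 / 10 ^ 5) := by linarith
      _ = _ := by norm_num
  · have h1 : ∀ k, 1 - x * u k = Complex.exp (-(x / 2)) * (1 + ε k) := by
      intro k
      have h2 : Complex.exp (-(x / 2)) * Complex.exp (x / 2) = 1 := by
        rw [← Complex.exp_add]
        simp
      simp only [hε]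
      linear_combination (-(1 - x * u k)) * h2
    have h2 : Complex.exp (-(x / 2)) ^ M = Complex.exp (-(x * (M / 2))) := by
      rw [← Complex.exp_nat_mul]
      congr 1
      ring
    calc ∏ k, (1 - x * u k) = ∏ k : Fin M, (Complex.exp (-(x / 2)) * (1 + ε k)) :=
          Finset.prod_congr rfl fun k _ => h1 k
      _ = Complex.exp (-(x / 2)) ^ M * ∏ k, (1 + ε k) := by
          rw [Finset.prod_mul_distrib]
          simp
      _ = _ := by
          rw [h2]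
          ring

theorem exp_three_le : Real.exp 3 ≤ 21 := by
  have h1 : Real.exp 3 = Real.exp 1 ^ 3 := by
    rw [← Real.exp_nat_mul]
    norm_num
  rw [h1]
  have h2 := Real.exp_one_lt_d9
  have h3 := Real.exp_pos 1
  calc Real.exp 1 ^ 3 ≤ 2.7182818286 ^ 3 := by gcongr
    _ ≤ 21 := by norm_num

/-- the integrand -/
theorem integrand_bound (M : ℕ) (u : Fin M → ℂ) (u0 t : ℂ) (hM : 10 ^ 9 ≤ M)
    (ht : ‖t‖ ≤ 6 / M) (hsum : ∑ k, ‖u k - 1 / 2‖ ≤ 1 / 10 ^ 6 * M)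
    (hu0 : ‖u0 - M / 2‖ ≤ 1 / 10 ^ 6 * M) (s : ℝ) (hs0 : 0 ≤ s) (hs1 : s ≤ 1) :
    ‖(∏ k, (1 - (s : ℂ) * (t * u k))) * (1 - (s : ℂ) * (t * u0)) -
      Complex.exp (-((s : ℂ) * (t * (M / 2)))) * (1 - (s : ℂ) * (t * (M / 2)))‖ ≤ 1 / 100 := by
  have hMr : (10 ^ 9 : ℝ) ≤ M := by exact_mod_cast hM
  have hM0 : (0 : ℝ) < M := by linarith
  have hx : ‖(s : ℂ) * t‖ ≤ 6 / M := by
    rw [norm_mul, Complex.norm_real, Real.norm_of_nonneg hs0]
    have h1 : s * ‖t‖ ≤ 1 * ‖t‖ := by gcongr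
    linarith
  obtain ⟨δ, hδ, hprod⟩ := prod_bound M u ((s : ℂ) * t) hM hx hsum
  have h1 : ∏ k, (1 - (s : ℂ) * (t * u k)) =
      Complex.exp (-((s : ℂ) * (t * (M / 2)))) * (1 + δ) := by
    have h2 : ∀ k, 1 - (s : ℂ) * (t * u k) = 1 - (s : ℂ) * t * u k := fun k => by ring
    rw [Finset.prod_congr rfl fun k _ => h2 k, hprod]
    congr 2
    ring
  set X : ℂ := (s : ℂ) * (t * (M / 2)) with hX
  have hXn : ‖X‖ ≤ 3 := by
    have h2 : X = (s : ℂ) * t * (M / 2) := by rw [hX]; ring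
    rw [h2, norm_mul]
    have h3 : ‖(M / 2 : ℂ)‖ = M / 2 := by
      rw [norm_div]
      simp
    rw [h3]
    calc ‖(s : ℂ) * t‖ * (M / 2) ≤ 6 / M * (M / 2) := by gcongr
      _ = 3 := by field_simp; norm_num
  have hE : ‖Complex.exp (-X)‖ ≤ 21 := by
    rw [Complex.norm_exp]
    have h2 : (-X).re ≤ 3 := by
      have h3 : (-X).re ≤ ‖-X‖ := Complex.re_le_norm _
      rw [norm_neg] at h3
      linarith
    exact (Real.exp_le_exp.mpr h2).trans exp_three_le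
  obtain ⟨ε', hε', hs2⟩ : ∃ ε' : ℂ, ‖ε'‖ ≤ 6 / 10 ^ 6 ∧ 1 - (s : ℂ) * (t * u0) = 1 - X + ε' := by
    refine ⟨-((s : ℂ) * t * (u0 - M / 2)), ?_, ?_⟩
    · rw [norm_neg, norm_mul]
      calc ‖(s : ℂ) * t‖ * ‖u0 - M / 2‖ ≤ 6 / M * (1 / 10 ^ 6 * M) := by gcongr
        _ = 6 / 10 ^ 6 := by field_simp
    · rw [hX]; ring
  rw [h1, hs2]
  have h4 : Complex.exp (-X) * (1 + δ) * (1 - X + ε') - Complex.exp (-X) * (1 - X) =
      Complex.exp (-X) * (δ * (1 - X + ε') + ε') := by ring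
  rw [h4, norm_mul]
  have h5 : ‖1 - X + ε'‖ ≤ 5 := by
    calc ‖1 - X + ε'‖ ≤ ‖(1 : ℂ) - X‖ + ‖ε'‖ := norm_add_le _ _
      _ ≤ ‖(1 : ℂ)‖ + ‖X‖ + ‖ε'‖ := by
          have := norm_sub_le (1 : ℂ) X
          linarith
      _ ≤ 5 := by
          rw [norm_one]
          linarith
  have h6 : ‖δ * (1 - X + ε') + ε'‖ ≤ 4 / 10 ^ 5 * 5 + 6 / 10 ^ 6 := by
    refine (norm_add_le _ _).trans ?_
    rw [norm_mul]
    have h7 : ‖δ‖ * ‖1 - X + ε'‖ ≤ 4 / 10 ^ 5 * 5 := by gcongr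
    linarith
  calc ‖Complex.exp (-X)‖ * ‖δ * (1 - X + ε') + ε'‖ ≤ 21 * (4 / 10 ^ 5 * 5 + 6 / 10 ^ 6) := by
        gcongr
    _ ≤ 1 / 100 := by norm_num

theorem exact_integral (T : ℂ) :
    (∫ s in (0:ℝ)..1, Complex.exp (-((s : ℂ) * T)) * (1 - (s : ℂ) * T)) = Complex.exp (-T) := by
  have h1 : ∀ s ∈ Set.uIcc (0 : ℝ) 1, HasDerivAt
      (fun s : ℝ => (s : ℂ) * Complex.exp (-((s : ℂ) * T)))
      (Complex.exp (-((s : ℂ) * T)) * (1 - (s : ℂ) * T)) s := by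
    intro s _
    have h2 : HasDerivAt (fun s : ℝ => (s : ℂ)) 1 s := Complex.ofRealCLM.hasDerivAt
    have h3 : HasDerivAt (fun s : ℝ => -((s : ℂ) * T)) (-(1 * T)) s := (h2.mul_const T).neg
    have h4 := h2.mul h3.cexp
    refine h4.congr_deriv ?_
    ring
  have h2 := intervalIntegral.integral_eq_sub_of_hasDerivAt h1
    (Continuous.intervalIntegrable (by fun_prop) _ _)
  rw [h2]
  simp

theorem LOCZ : S_LOCZ := by
  intro M u u0 t hM ht _ hsum hu0 h0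
  have hMr : (10 ^ 9 : ℝ) ≤ M := by exact_mod_cast hM
  have hM0 : (0 : ℝ) < M := by linarith
  have h1 := exact_integral (t * (M / 2))
  have h2 : ‖(∫ s in (0:ℝ)..1, (∏ k, (1 - (s : ℂ) * (t * u k))) * (1 - (s : ℂ) * (t * u0))) -
      ∫ s in (0:ℝ)..1, Complex.exp (-((s : ℂ) * (t * (M / 2)))) * (1 - (s : ℂ) * (t * (M / 2)))‖ ≤
      1 / 100 * |(1 : ℝ) - 0| := by
    rw [← intervalIntegral.integral_sub]
    · apply intervalIntegral.norm_integral_le_of_norm_le_const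
      intro s hs
      rw [Set.uIoc_of_le zero_le_one] at hs
      exact integrand_bound M u u0 t hM ht hsum hu0 s hs.1.le hs.2
    · exact Continuous.intervalIntegrable (by fun_prop) _ _
    · exact Continuous.intervalIntegrable (by fun_prop) _ _
  rw [h0, h1, zero_sub, norm_neg] at h2
  have h3 : 1 / 21 ≤ ‖Complex.exp (-(t * (M / 2)))‖ := by
    rw [Complex.norm_exp]
    have h4 : -3 ≤ (-(t * (M / 2 : ℂ))).re := by
      have h5 : ‖t * (M / 2 : ℂ)‖ ≤ 3 := by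
        rw [norm_mul]
        have h3 : ‖(M / 2 : ℂ)‖ = M / 2 := by
          rw [norm_div]
          simp
        rw [h3]
        calc ‖t‖ * (M / 2) ≤ 6 / M * (M / 2) := by gcongr
          _ = 3 := by field_simp; norm_num
      have h6 := Complex.re_le_norm (t * (M / 2 : ℂ))
      rw [Complex.neg_re]
      linarith
    have h5 : Real.exp (-3) ≤ Real.exp (-(t * (M / 2 : ℂ))).re := Real.exp_le_exp.mpr h4
    refine le_trans ?_ h5
    rw [Real.exp_neg, one_div]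
    have h6 := exp_three_le
    have h7 := Real.exp_pos 3
    gcongr
  norm_num at h2
  linarith

end Pool.Agent.H250.MR.LOCZf
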