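import Pool.Agent.H250.MR.Stm3

set_option autoImplicit false

/-!
# LOWIMP (helper199): the improved majorant lemma for `∫ ∏ (1 - t u_k) dt`
-/

open MeasureTheory

namespace Pool.Agent.H250.MR.LIf

/-- Majorant lemma, keeping the terms of the sum. -/
theorem majorant2 {N : ℕ} (u : Fin N → ℂ) (p q γ : Fin N → ℝ) (k0 : ℝ) (h0 : 0 ≤ k0)
    (h1 : ∀ k (t : ℝ), 0 ≤ t → t ≤ k0 → ‖1 - (t : ℂ) * u k‖ ≤ 1 - t * p k + t ^ 2 * q k)
    (h2 : ∀ k (t : ℝ), 0 ≤ t → t ≤ k0 →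
      γ k * (1 - t * p k + t ^ 2 * q k) + t * ‖u k‖ ^ 2 ≤ p k - 2 * t * q k) :
    (∑ k, γ k) * (∫ t in (0:ℝ)..k0, ∏ k, (1 - t * p k + t ^ 2 * q k)) +
      (∫ t in (0:ℝ)..k0, t * ∑ k, ‖u k‖ ^ 2 *
        ((∏ j ∈ Finset.univ.erase k, (1 - t * p j + t ^ 2 * q j)) -
          ‖∏ j ∈ Finset.univ.erase k, (1 - (t : ℂ) * u j)‖)) ≤
      ‖∑ k, u k‖ * ‖∫ t in (0:ℝ)..k0, ∏ k, (1 - (t : ℂ) * u k)‖ := by
  have hfeq : ∀ (t : ℝ) k, ∏ j, (1 - (t : ℂ) * u j) =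
      (1 - (t : ℂ) * u k) * ∏ j ∈ Finset.univ.erase k, (1 - (t : ℂ) * u j) := fun t k =>
    (Finset.mul_prod_erase Finset.univ _ (Finset.mem_univ k)).symm
  have hGeq : ∀ (t : ℝ) k, ∏ j, (1 - t * p j + t ^ 2 * q j) =
      (1 - t * p k + t ^ 2 * q k) *
        ∏ j ∈ Finset.univ.erase k, (1 - t * p j + t ^ 2 * q j) := fun t k =>
    (Finset.mul_prod_erase Finset.univ _ (Finset.mem_univ k)).symm
  -- derivative of `f`
  have hdf : ∀ t ∈ Set.uIcc (0:ℝ) k0, HasDerivAt (fun t : ℝ => ∏ k, (1 - (t : ℂ) * u k))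
      (-∑ k, u k * ∏ j ∈ Finset.univ.erase k, (1 - (t : ℂ) * u j)) t := by
    intro t _
    have hl : ∀ k : Fin N, HasDerivAt (fun t : ℝ => 1 - (t : ℂ) * u k) (-(u k)) t := by
      intro k
      have h := (((Complex.ofRealCLM.hasDerivAt (x := t)).mul_const (u k)).const_sub 1)
      simpa using h
    have h := HasDerivAt.fun_finsetProd (u := (Finset.univ : Finset (Fin N)))
      (f := fun k (t : ℝ) => 1 - (t : ℂ) * u k) (f' := fun k => -(u k)) (x := t)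
      (fun k _ => hl k)
    refine h.congr_deriv ?_
    rw [← Finset.sum_neg_distrib]
    refine Finset.sum_congr rfl fun k _ => ?_
    simp only [smul_eq_mul]
    ring
  have hdG : ∀ t ∈ Set.uIcc (0:ℝ) k0, HasDerivAt (fun t : ℝ => ∏ k, (1 - t * p k + t ^ 2 * q k))
      (-∑ k, (p k - 2 * t * q k) *
        ∏ j ∈ Finset.univ.erase k, (1 - t * p j + t ^ 2 * q j)) t := by
    intro t _
    have hl : ∀ k : Fin N, HasDerivAt (fun t : ℝ => 1 - t * p k + t ^ 2 * q k)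
        (-(p k - 2 * t * q k)) t := by
      intro k
      have h := (((hasDerivAt_id t).mul_const (p k)).const_sub 1).add
        (((hasDerivAt_id t).pow 2).mul_const (q k))
      refine h.congr_deriv ?_
      simp
      ring
    have h := HasDerivAt.fun_finsetProd (u := (Finset.univ : Finset (Fin N)))
      (f := fun k (t : ℝ) => 1 - t * p k + t ^ 2 * q k) (f' := fun k => -(p k - 2 * t * q k))
      (x := t) (fun k _ => hl k)
    refine h.congr_deriv ?_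
    rw [← Finset.sum_neg_distrib]
    refine Finset.sum_congr rfl fun k _ => ?_
    simp only [smul_eq_mul]
    ring
  have hcf : Continuous fun t : ℝ => ∏ k, (1 - (t : ℂ) * u k) := by fun_prop
  have hcG : Continuous fun t : ℝ => ∏ k, (1 - t * p k + t ^ 2 * q k) := by fun_prop
  have hc1 : Continuous fun t : ℝ => ∑ k, u k * ∏ j ∈ Finset.univ.erase k, (1 - (t : ℂ) * u j) := by
    fun_prop
  have hc2 : Continuous fun t : ℝ => (t : ℂ) * ∑ k, u k ^ 2 *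
      ∏ j ∈ Finset.univ.erase k, (1 - (t : ℂ) * u j) := by
    fun_prop
  have hc3 : Continuous fun t : ℝ => ∑ k, (p k - 2 * t * q k) *
        ∏ j ∈ Finset.univ.erase k, (1 - t * p j + t ^ 2 * q j) := by
    fun_prop
  have hc4 : Continuous fun t : ℝ => t * ∑ k, ‖u k‖ ^ 2 *
        ∏ j ∈ Finset.univ.erase k, (1 - t * p j + t ^ 2 * q j) := by
    fun_prop
  have hc5 : Continuous fun t : ℝ => t * ∑ k, ‖u k‖ ^ 2 *
        ‖∏ j ∈ Finset.univ.erase k, (1 - (t : ℂ) * u j)‖ := by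
    fun_prop
  have hF := intervalIntegral.integral_eq_sub_of_hasDerivAt hdf
    ((hc1.neg).intervalIntegrable 0 k0)
  have hGi := intervalIntegral.integral_eq_sub_of_hasDerivAt hdG
    ((hc3.neg).intervalIntegrable 0 k0)
  rw [intervalIntegral.integral_neg] at hF hGi
  simp only [Complex.ofReal_zero, zero_mul, sub_zero, Finset.prod_const_one] at hF
  have hG0 : ∏ k : Fin N, (1 - (0:ℝ) * p k + 0 ^ 2 * q k) = 1 := by simp
  rw [hG0] at hGi
  -- the identity for `f`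
  have hid : (∑ k, u k) * ∫ t in (0:ℝ)..k0, ∏ k, (1 - (t : ℂ) * u k) =
      1 - ∏ k, (1 - (k0 : ℂ) * u k) - ∫ t in (0:ℝ)..k0, (t : ℂ) * ∑ k, u k ^ 2 *
      ∏ j ∈ Finset.univ.erase k, (1 - (t : ℂ) * u j) := by
    rw [← intervalIntegral.integral_const_mul]
    have e1 : ∫ t in (0:ℝ)..k0, (∑ k, u k) * ∏ k, (1 - (t : ℂ) * u k) =
        ∫ t in (0:ℝ)..k0, ((∑ k, u k * ∏ j ∈ Finset.univ.erase k, (1 - (t : ℂ) * u j)) -
          (t : ℂ) * ∑ k, u k ^ 2 * ∏ j ∈ Finset.univ.erase k, (1 - (t : ℂ) * u j)) := by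
      apply intervalIntegral.integral_congr
      intro t _
      simp only []
      rw [Finset.sum_mul, Finset.mul_sum, ← Finset.sum_sub_distrib]
      refine Finset.sum_congr rfl fun k _ => ?_
      rw [hfeq t k]
      ring
    rw [e1, intervalIntegral.integral_sub (hc1.intervalIntegrable 0 k0)
      (hc2.intervalIntegrable 0 k0)]
    linear_combination -hF
  -- the products `G_k`
  have hgk : ∀ k (t : ℝ), 0 ≤ t → t ≤ k0 →
      ‖∏ j ∈ Finset.univ.erase k, (1 - (t : ℂ) * u j)‖ ≤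
        ∏ j ∈ Finset.univ.erase k, (1 - t * p j + t ^ 2 * q j) := by
    intro k t ht ht'
    rw [norm_prod]
    exact Finset.prod_le_prod (fun _ _ => norm_nonneg _) fun j _ => h1 j t ht ht'
  have hJ : ‖∫ t in (0:ℝ)..k0, (t : ℂ) * ∑ k, u k ^ 2 *
      ∏ j ∈ Finset.univ.erase k, (1 - (t : ℂ) * u j)‖ ≤
      ∫ t in (0:ℝ)..k0, t * ∑ k, ‖u k‖ ^ 2 *
        ‖∏ j ∈ Finset.univ.erase k, (1 - (t : ℂ) * u j)‖ := by
    refine (intervalIntegral.norm_integral_le_integral_norm h0).trans ?_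
    refine intervalIntegral.integral_mono_on h0 (hc2.norm.intervalIntegrable 0 k0)
      (hc5.intervalIntegrable 0 k0) fun t ht => ?_
    rw [norm_mul, Complex.norm_real, Real.norm_eq_abs, abs_of_nonneg ht.1]
    refine mul_le_mul_of_nonneg_left ?_ ht.1
    refine (norm_sum_le _ _).trans (Finset.sum_le_sum fun k _ => ?_)
    rw [norm_mul, norm_pow]
  have hK : (∑ k, γ k) * (∫ t in (0:ℝ)..k0, ∏ k, (1 - t * p k + t ^ 2 * q k)) +
      (∫ t in (0:ℝ)..k0, t * ∑ k, ‖u k‖ ^ 2 *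
        ∏ j ∈ Finset.univ.erase k, (1 - t * p j + t ^ 2 * q j)) ≤
      ∫ t in (0:ℝ)..k0, ∑ k, (p k - 2 * t * q k) *
        ∏ j ∈ Finset.univ.erase k, (1 - t * p j + t ^ 2 * q j) := by
    rw [← intervalIntegral.integral_const_mul,
      ← intervalIntegral.integral_add ((hcG.const_mul _).intervalIntegrable 0 k0)
        (hc4.intervalIntegrable 0 k0)]
    refine intervalIntegral.integral_mono_on h0 (((hcG.const_mul _).add hc4).intervalIntegrable 0 k0)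
      (hc3.intervalIntegrable 0 k0) fun t ht => ?_
    rw [Finset.sum_mul, Finset.mul_sum, ← Finset.sum_add_distrib]
    refine Finset.sum_le_sum fun k _ => ?_
    rw [hGeq t k]
    have h3 := h2 k t ht.1 ht.2
    have h4 : 0 ≤ ∏ j ∈ Finset.univ.erase k, (1 - t * p j + t ^ 2 * q j) :=
      (norm_nonneg _).trans (hgk k t ht.1 ht.2)
    have h5 := mul_le_mul_of_nonneg_right h3 h4
    linarith
  have hsplit : (∫ t in (0:ℝ)..k0, t * ∑ k, ‖u k‖ ^ 2 *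
        ((∏ j ∈ Finset.univ.erase k, (1 - t * p j + t ^ 2 * q j)) -
          ‖∏ j ∈ Finset.univ.erase k, (1 - (t : ℂ) * u j)‖)) =
      (∫ t in (0:ℝ)..k0, t * ∑ k, ‖u k‖ ^ 2 *
        ∏ j ∈ Finset.univ.erase k, (1 - t * p j + t ^ 2 * q j)) -
      ∫ t in (0:ℝ)..k0, t * ∑ k, ‖u k‖ ^ 2 *
        ‖∏ j ∈ Finset.univ.erase k, (1 - (t : ℂ) * u j)‖ := by
    rw [← intervalIntegral.integral_sub (hc4.intervalIntegrable 0 k0)
      (hc5.intervalIntegrable 0 k0)]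
    apply intervalIntegral.integral_congr
    intro t _
    simp only []
    rw [← mul_sub, ← Finset.sum_sub_distrib]
    congr 1
    refine Finset.sum_congr rfl fun k _ => ?_
    ring
  have hfk0 : ‖∏ k, (1 - (k0 : ℂ) * u k)‖ ≤ ∏ k, (1 - k0 * p k + k0 ^ 2 * q k) := by
    rw [norm_prod]
    exact Finset.prod_le_prod (fun _ _ => norm_nonneg _) fun j _ => h1 j k0 h0 le_rfl
  rw [← norm_mul, hid, hsplit]
  have h6 : 1 - ‖∏ k, (1 - (k0 : ℂ) * u k)‖ - ‖∫ t in (0:ℝ)..k0, (t : ℂ) * ∑ k, u k ^ 2 *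
      ∏ j ∈ Finset.univ.erase k, (1 - (t : ℂ) * u j)‖ ≤
      ‖1 - ∏ k, (1 - (k0 : ℂ) * u k) - ∫ t in (0:ℝ)..k0, (t : ℂ) * ∑ k, u k ^ 2 *
      ∏ j ∈ Finset.univ.erase k, (1 - (t : ℂ) * u j)‖ := by
    have h7 := norm_sub_norm_le (1 - ∏ k, (1 - (k0 : ℂ) * u k))
      (∫ t in (0:ℝ)..k0, (t : ℂ) * ∑ k, u k ^ 2 *
      ∏ j ∈ Finset.univ.erase k, (1 - (t : ℂ) * u j))
    have h8 := norm_sub_norm_le (1 : ℂ) (∏ k, (1 - (k0 : ℂ) * u k))
    rw [norm_one] at h8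
    linarith
  refine le_trans ?_ h6
  linarith

/-- `1 + t |u| - |1 - t u| ≥ t (|u| + Re u) / 2` -/
theorem gain {u : ℂ} {t : ℝ} (ht : 0 ≤ t) (hu : t * ‖u‖ ≤ 1) :
    t * (‖u‖ + u.re) / 2 ≤ 1 + t * ‖u‖ - ‖1 - (t : ℂ) * u‖ := by
  have h1 := norm_sub_le (1 : ℂ) ((t : ℂ) * u)
  rw [norm_one, norm_mul, Complex.norm_real, Real.norm_eq_abs, abs_of_nonneg ht] at h1
  set a : ℝ := ‖1 - (t : ℂ) * u‖ with ha
  have ha0 : 0 ≤ a := norm_nonneg _
  have hn : 0 ≤ ‖u‖ := norm_nonneg _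
  have hre : -‖u‖ ≤ u.re := (abs_le.1 (Complex.abs_re_le_norm u)).1
  have hsq : ‖u‖ ^ 2 = u.re ^ 2 + u.im ^ 2 := by
    rw [Complex.sq_norm, Complex.normSq_apply]; ring
  have e : a ^ 2 = 1 - 2 * t * u.re + t ^ 2 * ‖u‖ ^ 2 := by
    rw [ha, hsq, Complex.sq_norm, Complex.normSq_apply]; simp; ring
  have h2 : (1 + t * ‖u‖ - a) * (1 + t * ‖u‖ + a) = 2 * (t * (‖u‖ + u.re)) := by
    linear_combination -e
  have h3 : 1 + t * ‖u‖ + a ≤ 4 := by linarith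
  have h4 : 0 ≤ 1 + t * ‖u‖ - a := by linarith
  nlinarith [mul_le_mul_of_nonneg_left h3 h4]

/-- **LOWIMP** -/
theorem LOWIMP : Pool.Agent.H250.MR.S_LOWIMP := by
  intro N F u k0 τ i j hτ0 hτ hF hi hj hij hui
  classical
  have h0 : 0 ≤ k0 := hτ0.trans hτ
  set p : Fin N → ℝ := fun k => if k ∈ F then (u k).re else -‖u k‖ with hp
  set q : Fin N → ℝ := fun k => if k ∈ F then (u k).im ^ 2 else 0 with hq
  set γ : Fin N → ℝ := fun k => if k ∈ F then (u k).re - 7 * k0 * (u k).im ^ 2 else -‖u k‖ with hγ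
  have a1 : ∀ k (t : ℝ), 0 ≤ t → t ≤ k0 → ‖1 - (t : ℂ) * u k‖ ≤ 1 - t * p k + t ^ 2 * q k := by
    intro k t ht ht'
    by_cases hk : k ∈ F
    · simp only [hp, hq, hk, if_true]
      exact (Pool.Agent.H250.MR.far_maj ht ht' (hF k hk)).1
    · simp only [hp, hq, hk, if_false]
      exact (Pool.Agent.H250.MR.near_maj ht).1
  have a2 : ∀ k (t : ℝ), 0 ≤ t → t ≤ k0 →
      γ k * (1 - t * p k + t ^ 2 * q k) + t * ‖u k‖ ^ 2 ≤ p k - 2 * t * q k := by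
    intro k t ht ht'
    by_cases hk : k ∈ F
    · simp only [hp, hq, hγ, hk, if_true]
      exact (Pool.Agent.H250.MR.far_maj ht ht' (hF k hk)).2
    · simp only [hp, hq, hγ, hk, if_false]
      exact (Pool.Agent.H250.MR.near_maj ht).2
  have h1 := majorant2 u p q γ k0 h0 a1 a2
  refine le_trans ?_ h1
  -- the constant
  have h2 : ∑ k, γ k = ∑ k ∈ F, (u k).re - 7 * k0 * (∑ k ∈ F, (u k).im ^ 2) - ∑ k ∈ Fᶜ, ‖u k‖ := by
    rw [← Finset.sum_add_sum_compl F]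
    have e1 : ∑ k ∈ F, γ k =
        ∑ k ∈ F, (u k).re - 7 * k0 * (∑ k ∈ F, (u k).im ^ 2) := by
      rw [Finset.mul_sum, ← Finset.sum_sub_distrib]
      exact Finset.sum_congr rfl fun k hk => by simp only [hγ]; rw [if_pos hk]
    have e2 : ∑ k ∈ Fᶜ, γ k = -∑ k ∈ Fᶜ, ‖u k‖ := by
      rw [← Finset.sum_neg_distrib]
      exact Finset.sum_congr rfl fun k hk => by
        simp only [hγ]; rw [if_neg (Finset.mem_compl.1 hk)]
    rw [e1, e2]
    ring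
  have hgF : ∀ t : ℝ, ∏ k ∈ F, (1 - t * p k + t ^ 2 * q k) =
      ∏ k ∈ F, (1 - t * (u k).re + t ^ 2 * (u k).im ^ 2) := fun t =>
    Finset.prod_congr rfl fun k hk => by simp only [hp, hq]; rw [if_pos hk, if_pos hk]
  have hgN : ∀ (t : ℝ) k, k ∉ F → 1 - t * p k + t ^ 2 * q k = 1 + t * ‖u k‖ := by
    intro t k hk
    simp only [hp, hq]
    rw [if_neg hk, if_neg hk]
    ring
  have h3 : (∫ t in (0:ℝ)..k0, ∏ k, (1 - t * p k + t ^ 2 * q k)) =
      ∫ t in (0:ℝ)..k0, (∏ k ∈ F, (1 - t * (u k).re + t ^ 2 * (u k).im ^ 2)) *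
          ∏ k ∈ Fᶜ, (1 + t * ‖u k‖) := by
    apply intervalIntegral.integral_congr
    intro t _
    simp only []
    rw [← Finset.prod_mul_prod_compl F (fun k => 1 - t * p k + t ^ 2 * q k), hgF t]
    congr 1
    exact Finset.prod_congr rfl fun k hk => hgN t k (Finset.mem_compl.1 hk)
  rw [h2, h3]
  refine add_le_add le_rfl ?_
  -- the remaining integral
  have hcI : Continuous fun t : ℝ => t * ∑ k, ‖u k‖ ^ 2 *
        ((∏ j ∈ Finset.univ.erase k, (1 - t * p j + t ^ 2 * q j)) -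
          ‖∏ j ∈ Finset.univ.erase k, (1 - (t : ℂ) * u j)‖) := by
    fun_prop
  have hcP : Continuous fun t : ℝ =>
      t ^ 2 * ∏ k ∈ F, (1 - t * (u k).re + t ^ 2 * (u k).im ^ 2) := by
    fun_prop
  have hgk : ∀ k (t : ℝ), 0 ≤ t → t ≤ k0 →
      0 ≤ ‖u k‖ ^ 2 * ((∏ j ∈ Finset.univ.erase k, (1 - t * p j + t ^ 2 * q j)) -
        ‖∏ j ∈ Finset.univ.erase k, (1 - (t : ℂ) * u j)‖) := by
    intro k t ht ht'
    refine mul_nonneg (sq_nonneg _) (sub_nonneg.2 ?_)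
    rw [norm_prod]
    exact Finset.prod_le_prod (fun _ _ => norm_nonneg _) fun j _ => a1 j t ht ht'
  have h4 : (∫ t in (0:ℝ)..τ, t * ∑ k, ‖u k‖ ^ 2 *
        ((∏ j ∈ Finset.univ.erase k, (1 - t * p j + t ^ 2 * q j)) -
          ‖∏ j ∈ Finset.univ.erase k, (1 - (t : ℂ) * u j)‖)) ≤
      ∫ t in (0:ℝ)..k0, t * ∑ k, ‖u k‖ ^ 2 *
        ((∏ j ∈ Finset.univ.erase k, (1 - t * p j + t ^ 2 * q j)) -
          ‖∏ j ∈ Finset.univ.erase k, (1 - (t : ℂ) * u j)‖) := by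
    rw [← intervalIntegral.integral_add_adjacent_intervals (hcI.intervalIntegrable 0 τ)
      (hcI.intervalIntegrable τ k0)]
    have h5 : 0 ≤ ∫ t in τ..k0, t * ∑ k, ‖u k‖ ^ 2 *
        ((∏ j ∈ Finset.univ.erase k, (1 - t * p j + t ^ 2 * q j)) -
          ‖∏ j ∈ Finset.univ.erase k, (1 - (t : ℂ) * u j)‖) :=
      intervalIntegral.integral_nonneg hτ fun t ht =>
        mul_nonneg (hτ0.trans ht.1) (Finset.sum_nonneg fun k _ =>
          hgk k t (hτ0.trans ht.1) ht.2)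
    linarith
  refine le_trans ?_ h4
  rw [← intervalIntegral.integral_const_mul]
  refine intervalIntegral.integral_mono_on hτ0 ((hcP.const_mul _).intervalIntegrable 0 τ)
    (hcI.intervalIntegrable 0 τ) fun t ht => ?_
  have ht0 := ht.1
  have htk := ht.2.trans hτ
  -- one term of the sum
  have h6 : ‖u j‖ ^ 2 * ((∏ l ∈ Finset.univ.erase j, (1 - t * p l + t ^ 2 * q l)) -
        ‖∏ l ∈ Finset.univ.erase j, (1 - (t : ℂ) * u l)‖) ≤
      ∑ k, ‖u k‖ ^ 2 * ((∏ l ∈ Finset.univ.erase k, (1 - t * p l + t ^ 2 * q l)) -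
          ‖∏ l ∈ Finset.univ.erase k, (1 - (t : ℂ) * u l)‖) :=
    Finset.single_le_sum (f := fun k => ‖u k‖ ^ 2 *
      ((∏ l ∈ Finset.univ.erase k, (1 - t * p l + t ^ 2 * q l)) -
          ‖∏ l ∈ Finset.univ.erase k, (1 - (t : ℂ) * u l)‖))
      (fun k _ => hgk k t ht0 htk) (Finset.mem_univ j)
  -- the products without `i` and `j`
  set S : Finset (Fin N) := (Finset.univ.erase j).erase i with hS
  have hiS : i ∈ Finset.univ.erase j := Finset.mem_erase.2 ⟨hij, Finset.mem_univ i⟩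
  have e1 : ∏ l ∈ Finset.univ.erase j, (1 - t * p l + t ^ 2 * q l) =
      (1 + t * ‖u i‖) * ∏ l ∈ S, (1 - t * p l + t ^ 2 * q l) := by
    rw [← Finset.mul_prod_erase _ _ hiS, hgN t i hi]
  have e2 : ‖∏ l ∈ Finset.univ.erase j, (1 - (t : ℂ) * u l)‖ =
      ‖1 - (t : ℂ) * u i‖ * ‖∏ l ∈ S, (1 - (t : ℂ) * u l)‖ := by
    rw [← Finset.mul_prod_erase _ _ hiS, norm_mul]
  have hFS : F ⊆ S := by
    intro k hk
    rw [hS, Finset.mem_erase, Finset.mem_erase]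
    exact ⟨fun h => hi (h ▸ hk), fun h => hj (h ▸ hk), Finset.mem_univ k⟩
  have hPF : 0 ≤ ∏ k ∈ F, (1 - t * (u k).re + t ^ 2 * (u k).im ^ 2) := by
    rw [← hgF t]
    exact Finset.prod_nonneg fun k _ => (norm_nonneg _).trans (a1 k t ht0 htk)
  have e3 : ∏ k ∈ F, (1 - t * (u k).re + t ^ 2 * (u k).im ^ 2) ≤
      ∏ l ∈ S, (1 - t * p l + t ^ 2 * q l) := by
    rw [← Finset.prod_sdiff hFS, hgF t]
    have h7 : 1 ≤ ∏ l ∈ S \ F, (1 - t * p l + t ^ 2 * q l) := by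
      refine Finset.one_le_prod fun k hk => ?_
      rw [hgN t k (Finset.mem_sdiff.1 hk).2]
      have := mul_nonneg ht0 (norm_nonneg (u k))
      linarith
    exact le_mul_of_one_le_left hPF h7
  have e4 : ‖∏ l ∈ S, (1 - (t : ℂ) * u l)‖ ≤ ∏ l ∈ S, (1 - t * p l + t ^ 2 * q l) := by
    rw [norm_prod]
    exact Finset.prod_le_prod (fun _ _ => norm_nonneg _) fun l _ => a1 l t ht0 htk
  have htu : t * ‖u i‖ ≤ 1 := (mul_le_mul_of_nonneg_right ht.2 (norm_nonneg _)).trans hui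
  have e5 := gain ht0 htu
  have hre : 0 ≤ ‖u i‖ + (u i).re := by
    have := (abs_le.1 (Complex.abs_re_le_norm (u i))).1
    linarith
  have e6 : (∏ k ∈ F, (1 - t * (u k).re + t ^ 2 * (u k).im ^ 2)) * (t * (‖u i‖ + (u i).re) / 2) ≤
      (∏ l ∈ Finset.univ.erase j, (1 - t * p l + t ^ 2 * q l)) -
        ‖∏ l ∈ Finset.univ.erase j, (1 - (t : ℂ) * u l)‖ := by
    rw [e1, e2]
    have h8 : ‖1 - (t : ℂ) * u i‖ * ‖∏ l ∈ S, (1 - (t : ℂ) * u l)‖ ≤
        ‖1 - (t : ℂ) * u i‖ * ∏ l ∈ S, (1 - t * p l + t ^ 2 * q l) :=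
      mul_le_mul_of_nonneg_left e4 (norm_nonneg _)
    have h9 : (∏ k ∈ F, (1 - t * (u k).re + t ^ 2 * (u k).im ^ 2)) * (t * (‖u i‖ + (u i).re) / 2) ≤
        (∏ l ∈ S, (1 - t * p l + t ^ 2 * q l)) * (1 + t * ‖u i‖ - ‖1 - (t : ℂ) * u i‖) :=
      mul_le_mul e3 e5 (by positivity) (hPF.trans e3)
    linarith
  calc ‖u j‖ ^ 2 * (‖u i‖ + (u i).re) / 2 *
        (t ^ 2 * ∏ k ∈ F, (1 - t * (u k).re + t ^ 2 * (u k).im ^ 2))
      = t * (‖u j‖ ^ 2 * ((∏ k ∈ F, (1 - t * (u k).re + t ^ 2 * (u k).im ^ 2)) *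
          (t * (‖u i‖ + (u i).re) / 2))) := by ring
    _ ≤ t * (‖u j‖ ^ 2 * ((∏ l ∈ Finset.univ.erase j, (1 - t * p l + t ^ 2 * q l)) -
        ‖∏ l ∈ Finset.univ.erase j, (1 - (t : ℂ) * u l)‖)) :=
        mul_le_mul_of_nonneg_left (mul_le_mul_of_nonneg_left e6 (sq_nonneg _)) ht0
    _ ≤ _ := mul_le_mul_of_nonneg_left h6 ht0

end Pool.Agent.H250.MR.LIf
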