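import Pool.Agent.H250.MR.Stm2

set_option autoImplicit false

/-! Task OSC (helper250, MP_172a45_an): lower bound of an oscillating integral. -/

open MeasureTheory Finset

namespace Pool.Agent.H250.MR.OSCf

open Pool.Agent.H250.MR

variable {N : ℕ}

/-- the product -/
noncomputable def gg (α : Fin N → ℝ) (t : ℝ) : ℝ := ∏ k, (1 - t * α k)

/-- its derivative -/
noncomputable def gd (α : Fin N → ℝ) (t : ℝ) : ℝ :=
  ∑ i, (∏ j ∈ univ.erase i, (1 - t * α j)) * (-α i)

lemma gg_deriv (α : Fin N → ℝ) (t : ℝ) : HasDerivAt (gg α) (gd α t) t := by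
  have h := HasDerivAt.fun_finsetProd (u := univ) (f := fun i (t : ℝ) => 1 - t * α i)
    (f' := fun i => -α i) (x := t) (fun i _ => by
      have := ((hasDerivAt_id t).mul_const (α i)).const_sub 1
      simpa using this)
  exact h

lemma gg_cont (α : Fin N → ℝ) : Continuous (gg α) := by
  unfold gg
  exact continuous_finsetProd _ fun i _ => by fun_prop

lemma gd_cont (α : Fin N → ℝ) : Continuous (gd α) := by
  unfold gd
  exact continuous_finsetSum _ fun i _ =>
    (continuous_finsetProd _ fun j _ => by fun_prop).mul continuous_const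

lemma fac_pos {x t k0 : ℝ} (h0 : 0 ≤ t) (h1 : t ≤ k0) (h : k0 * |x| ≤ 1 / 2) :
    |t * x| ≤ 1 / 2 ∧ 1 / 2 ≤ 1 - t * x := by
  have h2 : |t * x| ≤ 1 / 2 := by
    rw [abs_mul, abs_of_nonneg h0]
    exact (mul_le_mul_of_nonneg_right h1 (abs_nonneg x)).trans h
  refine ⟨h2, ?_⟩
  have := le_abs_self (t * x)
  linarith

lemma gg_pos {α : Fin N → ℝ} {t k0 : ℝ} (h0 : 0 ≤ t) (h1 : t ≤ k0)
    (h : ∀ k, k0 * |α k| ≤ 1 / 2) : 0 < gg α t :=
  Finset.prod_pos fun k _ => by
    have := (fac_pos h0 h1 (h k)).2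
    linarith

lemma exp_two : (1 : ℝ) / 8 ≤ Real.exp (-2) := by
  have h1 := Real.exp_one_lt_d9
  have h2 : Real.exp 2 = Real.exp 1 * Real.exp 1 := by
    rw [← Real.exp_add]
    norm_num
  have h3 : Real.exp 2 ≤ 8 := by
    rw [h2]
    nlinarith [Real.exp_pos 1]
  rw [Real.exp_neg, one_div]
  exact inv_anti₀ (Real.exp_pos 2) h3

lemma gg_ge {α : Fin N → ℝ} {t k0 k2 : ℝ} (h0 : 0 ≤ t) (h1 : t ≤ k2) (h2 : k2 ≤ k0)
    (h : ∀ k, k0 * |α k| ≤ 1 / 2) (hs : 0 ≤ ∑ k, α k) (ha : k2 * ∑ k, α k ≤ 1)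
    (hb : k2 ^ 2 * ∑ k, α k ^ 2 ≤ 1) : 1 / 8 ≤ gg α t := by
  have e1 : ∏ k, Real.exp (-(t * α k) - (t * α k) ^ 2) ≤ gg α t := by
    unfold gg
    refine Finset.prod_le_prod (fun k _ => (Real.exp_pos _).le) fun k _ => ?_
    refine exp_le_one_sub ?_
    exact (le_abs_self _).trans (fac_pos h0 (h1.trans h2) (h k)).1
  refine le_trans ?_ e1
  rw [← Real.exp_sum]
  refine exp_two.trans (Real.exp_le_exp.2 ?_)
  rw [Finset.sum_sub_distrib, Finset.sum_neg_distrib]
  have e2 : ∑ k, t * α k = t * ∑ k, α k := by rw [Finset.mul_sum]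
  have e3 : ∑ k, (t * α k) ^ 2 = t ^ 2 * ∑ k, α k ^ 2 := by
    rw [Finset.mul_sum]
    exact Finset.sum_congr rfl fun k _ => by ring
  rw [e2, e3]
  have h3 : t * ∑ k, α k ≤ k2 * ∑ k, α k := mul_le_mul_of_nonneg_right h1 hs
  have h4 : t ^ 2 * ∑ k, α k ^ 2 ≤ k2 ^ 2 * ∑ k, α k ^ 2 :=
    mul_le_mul_of_nonneg_right (pow_le_pow_left₀ h0 h1 2) (Finset.sum_nonneg fun k _ => sq_nonneg _)
  linarith

lemma gd_le {α : Fin N → ℝ} {t k0 V : ℝ} (h0 : 0 ≤ t) (h1 : t ≤ k0)
    (h : ∀ k, k0 * |α k| ≤ 1 / 2) (hs : 0 ≤ ∑ k, α k) (hV : V ≤ ∑ k, α k ^ 2) :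
    gg α t * (2 / 3 * t * V) ≤ -gd α t := by
  have hg := gg_pos h0 h1 h
  have e1 : ∀ i, gg α t * (α i + 2 / 3 * t * α i ^ 2) ≤
      (∏ j ∈ univ.erase i, (1 - t * α j)) * α i := by
    intro i
    have hP : 0 ≤ ∏ j ∈ univ.erase i, (1 - t * α j) :=
      Finset.prod_nonneg fun j _ => by
        have := (fac_pos h0 h1 (h j)).2
        linarith
    have e2 : gg α t = (1 - t * α i) * ∏ j ∈ univ.erase i, (1 - t * α j) := by
      unfold gg
      exact (Finset.mul_prod_erase univ (fun j => 1 - t * α j) (Finset.mem_univ i)).symm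
    rw [e2]
    have h2 := (abs_le.1 (fac_pos h0 h1 (h i)).1).1
    have h3 : (1 - t * α i) * (α i + 2 / 3 * t * α i ^ 2) ≤ α i := by
      have e3 : (1 - t * α i) * (α i + 2 / 3 * t * α i ^ 2) =
          α i - (t * α i ^ 2) * (1 / 3 + 2 / 3 * (t * α i)) := by ring
      have h4 : 0 ≤ (t * α i ^ 2) * (1 / 3 + 2 / 3 * (t * α i)) :=
        mul_nonneg (by positivity) (by linarith)
      linarith
    calc _ = (∏ j ∈ univ.erase i, (1 - t * α j)) *
          ((1 - t * α i) * (α i + 2 / 3 * t * α i ^ 2)) := by ring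
      _ ≤ _ := mul_le_mul_of_nonneg_left h3 hP
  have e4 : -gd α t = ∑ i, (∏ j ∈ univ.erase i, (1 - t * α j)) * α i := by
    unfold gd
    rw [← Finset.sum_neg_distrib]
    exact Finset.sum_congr rfl fun i _ => by ring
  rw [e4]
  refine le_trans ?_ (Finset.sum_le_sum fun i _ => e1 i)
  rw [← Finset.mul_sum]
  refine mul_le_mul_of_nonneg_left ?_ hg.le
  rw [Finset.sum_add_distrib, ← Finset.mul_sum]
  have h5 : 2 / 3 * t * V ≤ 2 / 3 * t * ∑ k, α k ^ 2 :=
    mul_le_mul_of_nonneg_left hV (by positivity)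
  linarith

/-- the real integral with the sine -/
lemma sin_int {α : Fin N → ℝ} {k0 k2 V b : ℝ} (hb : 0 < b) (h0 : 0 ≤ k2) (h1 : k2 ≤ k0)
    (h : ∀ k, k0 * |α k| ≤ 1 / 2) (hs : 0 ≤ ∑ k, α k) (hV0 : 0 ≤ V) (hV : V ≤ ∑ k, α k ^ 2)
    (hc : k2 * ∑ k, α k ≤ 1) (hd : k2 ^ 2 * ∑ k, α k ^ 2 ≤ 1) (he : k2 * b ≤ 1) :
    b * V * k2 ^ 4 / 200 ≤ ∫ t in (0:ℝ)..k0, gg α t * Real.sin (b * t) := by
  have hk0 : 0 ≤ k0 := h0.trans h1
  obtain ⟨hh, hhd⟩ : ∃ hh : ℝ → ℝ, hh = fun t => (1 - Real.cos (b * t)) / b := ⟨_, rfl⟩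
  have hder : ∀ t, HasDerivAt hh (Real.sin (b * t)) t := by
    intro t
    have h2 : HasDerivAt (fun t : ℝ => b * t) (b * 1) t := (hasDerivAt_id t).const_mul b
    have h3 := ((h2.cos).const_sub 1).div_const b
    rw [hhd]
    have h4 : -(-Real.sin (b * t) * (b * 1)) / b = Real.sin (b * t) := by field_simp
    rw [← h4]
    exact h3
  have hhc : Continuous hh := by
    rw [hhd]
    fun_prop
  have hh0 : ∀ t, 0 ≤ hh t := by
    intro t
    rw [hhd]
    have := Real.cos_le_one (b * t)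
    exact div_nonneg (by linarith) hb.le
  have hparts := intervalIntegral.integral_mul_deriv_eq_deriv_mul (a := 0) (b := k0)
    (u := gg α) (v := hh) (u' := gd α) (v' := fun t => Real.sin (b * t))
    (fun t _ => gg_deriv α t) (fun t _ => hder t) ((gd_cont α).intervalIntegrable _ _)
    (Continuous.intervalIntegrable (by fun_prop) _ _)
  rw [hparts]
  have hh00 : hh 0 = 0 := by rw [hhd]; simp
  rw [hh00, mul_zero, sub_zero]
  have h5 : 0 ≤ gg α k0 * hh k0 := mul_nonneg (gg_pos hk0 le_rfl h).le (hh0 _)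
  have hcont : Continuous fun t => -(gd α t * hh t) := ((gd_cont α).mul hhc).neg
  have h6 : ∫ t in (0:ℝ)..k0, -(gd α t * hh t) = -∫ t in (0:ℝ)..k0, gd α t * hh t :=
    intervalIntegral.integral_neg
  have h7 : (∫ t in (0:ℝ)..k2, -(gd α t * hh t)) + ∫ t in k2..k0, -(gd α t * hh t) =
      ∫ t in (0:ℝ)..k0, -(gd α t * hh t) :=
    intervalIntegral.integral_add_adjacent_intervals (hcont.intervalIntegrable _ _)
      (hcont.intervalIntegrable _ _)
  have hnn : ∀ t, 0 ≤ t → t ≤ k0 → 0 ≤ -gd α t := fun t ht0 ht1 =>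
    le_trans (mul_nonneg (gg_pos ht0 ht1 h).le (by positivity)) (gd_le ht0 ht1 h hs hV)
  have h8 : 0 ≤ ∫ t in k2..k0, -(gd α t * hh t) := by
    refine intervalIntegral.integral_nonneg h1 fun t ht => ?_
    have := mul_nonneg (hnn t (h0.trans ht.1) ht.2) (hh0 t)
    linarith
  have h9 : ∫ t in (0:ℝ)..k2, b * V / 48 * t ^ 3 ≤ ∫ t in (0:ℝ)..k2, -(gd α t * hh t) := by
    refine intervalIntegral.integral_mono_on h0 (Continuous.intervalIntegrable (by fun_prop) _ _)
      (hcont.intervalIntegrable _ _) fun t ht => ?_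
    have hg8 := gg_ge ht.1 ht.2 h1 h hs hc hd
    have hgd := gd_le ht.1 (ht.2.trans h1) h hs hV
    have ht0 : 0 ≤ t := ht.1
    have h10 : t * V / 12 ≤ -gd α t := by
      refine le_trans ?_ hgd
      have : 0 ≤ 2 / 3 * t * V := by positivity
      nlinarith
    have h11 : b * t ^ 2 / 4 ≤ hh t := by
      rw [hhd]
      have hθ0 : 0 ≤ b * t := by positivity
      have hθ1 : b * t ≤ 1 := by
        have : b * t ≤ b * k2 := mul_le_mul_of_nonneg_left ht.2 hb.le
        linarith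
      have hc1 := (abs_le.1 (Real.cos_bound (x := b * t) (by rw [abs_of_nonneg hθ0]; exact hθ1))).2
      rw [abs_of_nonneg hθ0] at hc1
      have h12 : (b * t) ^ 4 ≤ (b * t) ^ 2 := by
        have h13 : (b * t) ^ 2 ≤ 1 := by nlinarith
        have h14 : 0 ≤ (b * t) ^ 2 := by positivity
        nlinarith
      have h15 : (b * t) ^ 2 / 4 ≤ 1 - Real.cos (b * t) := by
        have h14 : 0 ≤ (b * t) ^ 2 := by positivity
        nlinarith
      simp only
      rw [le_div_iff₀ hb]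
      calc b * t ^ 2 / 4 * b = (b * t) ^ 2 / 4 := by ring
        _ ≤ _ := h15
    have h16 : t * V / 12 * (b * t ^ 2 / 4) ≤ -gd α t * hh t :=
      mul_le_mul h10 h11 (by positivity) (le_trans (by positivity) h10)
    calc b * V / 48 * t ^ 3 = t * V / 12 * (b * t ^ 2 / 4) := by ring
      _ ≤ _ := h16
      _ = _ := by ring
  have h17 : ∫ t in (0:ℝ)..k2, b * V / 48 * t ^ 3 = b * V * k2 ^ 4 / 192 := by
    rw [intervalIntegral.integral_const_mul, integral_pow]
    norm_num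
    ring
  rw [h17] at h9
  have h18 : b * V * k2 ^ 4 / 200 ≤ b * V * k2 ^ 4 / 192 := by
    have : 0 ≤ b * V * k2 ^ 4 := by positivity
    linarith
  linarith

lemma cos_int {α : Fin N → ℝ} {k0 k2 B : ℝ} (hB : |B| ≤ 1) (h0 : 0 ≤ k2) (h1 : k2 ≤ k0)
    (hk01 : k0 ≤ 1) (h : ∀ k, k0 * |α k| ≤ 1 / 2) (hs : 0 ≤ ∑ k, α k)
    (hc : k2 * ∑ k, α k ≤ 1) (hd : k2 ^ 2 * ∑ k, α k ^ 2 ≤ 1) :
    k2 / 16 ≤ ∫ t in (0:ℝ)..k0, gg α t * Real.cos (t * B) := by
  have hcont : Continuous fun t => gg α t * Real.cos (t * B) :=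
    (gg_cont α).mul (by fun_prop)
  have hcos : ∀ t, 0 ≤ t → t ≤ k0 → 1 / 2 ≤ Real.cos (t * B) := by
    intro t ht0 ht1
    have h2 := Real.one_sub_sq_div_two_le_cos (x := t * B)
    have h3 : |t * B| ≤ 1 := by
      rw [abs_mul, abs_of_nonneg ht0]
      exact mul_le_one₀ (ht1.trans hk01) (abs_nonneg _) hB
    have h4 : (t * B) ^ 2 ≤ 1 := by
      rw [← sq_abs]
      exact pow_le_one₀ (abs_nonneg _) h3
    linarith
  have h7 : (∫ t in (0:ℝ)..k2, gg α t * Real.cos (t * B)) +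
      ∫ t in k2..k0, gg α t * Real.cos (t * B) =
      ∫ t in (0:ℝ)..k0, gg α t * Real.cos (t * B) :=
    intervalIntegral.integral_add_adjacent_intervals (hcont.intervalIntegrable _ _)
      (hcont.intervalIntegrable _ _)
  have h8 : 0 ≤ ∫ t in k2..k0, gg α t * Real.cos (t * B) := by
    refine intervalIntegral.integral_nonneg h1 fun t ht => ?_
    have := hcos t (h0.trans ht.1) ht.2
    exact mul_nonneg (gg_pos (h0.trans ht.1) ht.2 h).le (by linarith)
  have h9 : ∫ _ in (0:ℝ)..k2, (1 / 16 : ℝ) ≤ ∫ t in (0:ℝ)..k2, gg α t * Real.cos (t * B) := by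
    refine intervalIntegral.integral_mono_on h0 (Continuous.intervalIntegrable (by fun_prop) _ _)
      (hcont.intervalIntegrable _ _) fun t ht => ?_
    have hg8 := gg_ge ht.1 ht.2 h1 h hs hc hd
    have := hcos t ht.1 (ht.2.trans h1)
    nlinarith
  rw [intervalIntegral.integral_const, smul_eq_mul] at h9
  linarith

theorem OSC : S_OSC := by
  intro N α k0 k2 V B h0 h1 hk01 h hs hV0 hV hc hd he
  obtain ⟨f, hf⟩ : ∃ f : ℝ → ℂ, f = fun t => Complex.exp (-(Complex.I * (t * B : ℝ))) *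
    ((∏ k, (1 - t * α k) : ℝ) : ℂ) := ⟨_, rfl⟩
  rw [← hf]
  have hfg : ∀ t, f t = ((gg α t * Real.cos (t * B) : ℝ) : ℂ) -
      ((gg α t * Real.sin (t * B) : ℝ) : ℂ) * Complex.I := by
    intro t
    have h2 : -(Complex.I * (t * B : ℝ)) = ((-(t * B) : ℝ) : ℂ) * Complex.I := by
      push_cast
      ring
    rw [hf]
    simp only
    rw [h2, Complex.exp_mul_I, ← Complex.ofReal_cos, ← Complex.ofReal_sin, Real.cos_neg,
      Real.sin_neg]
    unfold gg
    push_cast
    ring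
  have hint : IntervalIntegrable f volume 0 k0 := by
    refine Continuous.intervalIntegrable ?_ _ _
    have : f = fun t => ((gg α t * Real.cos (t * B) : ℝ) : ℂ) -
      ((gg α t * Real.sin (t * B) : ℝ) : ℂ) * Complex.I := funext hfg
    rw [this]
    have c1 := gg_cont α
    fun_prop
  have hre : ∫ t in (0:ℝ)..k0, gg α t * Real.cos (t * B) = (∫ t in (0:ℝ)..k0, f t).re := by
    have h3 := Complex.reCLM.intervalIntegral_comp_comm hint
    rw [Complex.reCLM_apply] at h3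
    rw [← h3]
    refine intervalIntegral.integral_congr fun t _ => ?_
    simp only [Complex.reCLM_apply, hfg, Complex.sub_re, Complex.mul_re, Complex.ofReal_re,
      Complex.ofReal_im, Complex.I_re, Complex.I_im]
    ring
  have him : ∫ t in (0:ℝ)..k0, -(gg α t * Real.sin (t * B)) = (∫ t in (0:ℝ)..k0, f t).im := by
    have h3 := Complex.imCLM.intervalIntegral_comp_comm hint
    rw [Complex.imCLM_apply] at h3
    rw [← h3]
    refine intervalIntegral.integral_congr fun t _ => ?_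
    simp only [Complex.imCLM_apply, hfg, Complex.sub_im, Complex.mul_im, Complex.ofReal_re,
      Complex.ofReal_im, Complex.I_re, Complex.I_im]
    ring
  constructor
  · intro hB
    refine (cos_int hB h0 h1 hk01 h hs hc hd).trans ?_
    rw [hre]
    exact Complex.re_le_norm _
  · intro hB
    have h4 := sin_int (b := |B|) hB h0 h1 h hs hV0 hV hc hd he
    refine h4.trans ?_
    refine le_trans ?_ (Complex.abs_im_le_norm _)
    rw [← him]
    rcases le_total 0 B with hB0 | hB0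
    · rw [abs_of_nonneg hB0, intervalIntegral.integral_neg, abs_neg]
      refine le_trans (le_of_eq ?_) (le_abs_self _)
      refine intervalIntegral.integral_congr fun t _ => ?_
      rw [mul_comm B t]
    · rw [abs_of_nonpos hB0]
      refine le_trans (le_of_eq ?_) (le_abs_self _)
      refine intervalIntegral.integral_congr fun t _ => ?_
      rw [neg_mul, Real.sin_neg, mul_comm B t]
      ring

end Pool.Agent.H250.MR.OSCf
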