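import Pool.Agent.H250.MR.Stm2

set_option autoImplicit false

/-! PH2 (helper250, MP_172a45_an): comparison of the two products. -/

open MeasureTheory

namespace Pool.Agent.H250.MR.PH2f

open Pool.Agent.H250.MR

theorem ph2_exp {R S : ℝ} (hS : S ≤ R) (hR0 : 0 ≤ R) (hR : R ≤ 1) : Real.exp S - 1 ≤ 2 * R := by
  have h1 : Real.exp S ≤ Real.exp R := Real.exp_le_exp.2 hS
  have h2 := (abs_le.1 (Real.abs_exp_sub_one_sub_id_le (abs_le.2 ⟨by linarith, hR⟩ : |R| ≤ 1))).2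
  nlinarith

/-- one factor -/
theorem ph2_factor {t α β : ℝ} (ht0 : 0 ≤ t) (ht1 : t ≤ 1) (hα : t * |α| ≤ 1 / 2)
    (hβ : t * |β| ≤ 1 / 2) :
    ∃ ρ : ℂ, ‖ρ‖ ≤ 2 * (|α| * |β|) + 4 * β ^ 2 ∧
      (1 - (t : ℂ) * (⟨α, β⟩ : ℂ)) * Complex.exp (Complex.I * ((t * β : ℝ) : ℂ)) =
        ((1 - t * α : ℝ) : ℂ) * (1 + ρ) := by
  obtain ⟨z, hz⟩ : ∃ z : ℝ, z = t * β := ⟨_, rfl⟩
  obtain ⟨d, hd⟩ : ∃ d : ℝ, d = 1 - t * α := ⟨_, rfl⟩
  have htα : |t * α| ≤ 1 / 2 := by rw [abs_mul, abs_of_nonneg ht0]; exact hα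
  have hza : |z| = t * |β| := by rw [hz, abs_mul, abs_of_nonneg ht0]
  have hz2 : |z| ≤ 1 / 2 := by rw [hza]; exact hβ
  have hd1 : 1 / 2 ≤ d := by
    have := (abs_le.1 htα).2
    rw [hd]; linarith
  have hd0 : 0 < d := by linarith
  obtain ⟨z', hz'⟩ : ∃ z' : ℝ, z' = z / d := ⟨_, rfl⟩
  have hz'a : |z'| ≤ 2 * |z| := by
    rw [hz', abs_div, abs_of_pos hd0, div_le_iff₀ hd0]
    nlinarith [abs_nonneg z]
  have hzz' : |z - z'| ≤ 2 * (|α| * |β|) := by
    have e : z - z' = -(t * α) * z / d := by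
      rw [hz', hd]
      have : (1 - t * α) ≠ 0 := by rw [← hd]; exact hd0.ne'
      field_simp
      ring
    rw [e, abs_div, abs_of_pos hd0, abs_mul, abs_neg, abs_mul, abs_of_nonneg ht0, hza,
      div_le_iff₀ hd0]
    have h1 : t * |α| * (t * |β|) ≤ |α| * |β| := by
      have h2 : t * t ≤ 1 := by nlinarith
      have h3 : 0 ≤ |α| * |β| := by positivity
      calc t * |α| * (t * |β|) = t * t * (|α| * |β|) := by ring
        _ ≤ 1 * (|α| * |β|) := mul_le_mul_of_nonneg_right h2 h3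
        _ = _ := one_mul _
    have h3 : 0 ≤ |α| * |β| := by positivity
    nlinarith
  have hzsq : z ^ 2 ≤ β ^ 2 := by
    rw [hz, mul_pow]
    have h2 : t ^ 2 ≤ 1 := by nlinarith
    nlinarith [sq_nonneg β]
  refine ⟨(1 - Complex.I * (z' : ℂ)) * Complex.exp (Complex.I * (z : ℂ)) - 1, ?_, ?_⟩
  · have e : (1 - Complex.I * (z' : ℂ)) * Complex.exp (Complex.I * (z : ℂ)) - 1 =
        (1 - Complex.I * (z' : ℂ)) * (Complex.exp (Complex.I * (z : ℂ)) - 1 - Complex.I * (z : ℂ)) +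
          Complex.I * ((z - z' : ℝ) : ℂ) + ((z * z' : ℝ) : ℂ) := by
      push_cast
      linear_combination (-((z' : ℂ) * z)) * Complex.I_sq
    have n1 : ‖Complex.I * (z : ℂ)‖ = |z| := by
      rw [norm_mul, Complex.norm_I, one_mul, Complex.norm_real, Real.norm_eq_abs]
    have n2 : ‖Complex.exp (Complex.I * (z : ℂ)) - 1 - Complex.I * (z : ℂ)‖ ≤ z ^ 2 := by
      have := Complex.norm_exp_sub_one_sub_id_le (x := Complex.I * (z : ℂ)) (by rw [n1]; linarith)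
      rw [n1, sq_abs] at this
      exact this
    have n3 : ‖1 - Complex.I * (z' : ℂ)‖ ≤ 2 := by
      refine (norm_sub_le _ _).trans ?_
      rw [norm_one, norm_mul, Complex.norm_I, one_mul, Complex.norm_real, Real.norm_eq_abs]
      linarith
    have n4 : ‖Complex.I * ((z - z' : ℝ) : ℂ)‖ ≤ 2 * (|α| * |β|) := by
      rw [norm_mul, Complex.norm_I, one_mul, Complex.norm_real, Real.norm_eq_abs]
      exact hzz'
    have n5 : ‖((z * z' : ℝ) : ℂ)‖ ≤ 2 * z ^ 2 := by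
      rw [Complex.norm_real, Real.norm_eq_abs, abs_mul, ← sq_abs z]
      nlinarith [abs_nonneg z]
    rw [e]
    refine (norm_add₃_le).trans ?_
    rw [norm_mul (1 - Complex.I * (z' : ℂ))]
    have n6 : ‖1 - Complex.I * (z' : ℂ)‖ *
        ‖Complex.exp (Complex.I * (z : ℂ)) - 1 - Complex.I * (z : ℂ)‖ ≤ 2 * z ^ 2 :=
      mul_le_mul n3 n2 (norm_nonneg _) (by norm_num)
    linarith
  · have e1 : (1 - (t : ℂ) * (⟨α, β⟩ : ℂ)) = ((1 - t * α : ℝ) : ℂ) * (1 - Complex.I * (z' : ℂ)) := by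
      rw [← hd]
      have e2 : (d : ℂ) * (z' : ℂ) = (z : ℂ) := by
        rw [← Complex.ofReal_mul, hz']
        congr 1
        field_simp
      have e3 : (⟨α, β⟩ : ℂ) = (α : ℂ) + (β : ℂ) * Complex.I := Complex.mk_eq_add_mul_I α β
      rw [e3, mul_sub, mul_one]
      have e4 : (d : ℂ) * (Complex.I * (z' : ℂ)) = Complex.I * (z : ℂ) := by
        rw [← e2]; ring
      rw [e4, hz, hd]
      push_cast
      ring
    rw [e1, ← hz]
    ring

theorem ph2_pointwise (N : ℕ) (u : Fin N → ℂ) (k0 R t : ℝ) (hk1 : k0 ≤ 1)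
    (hk : ∀ k, k0 * ‖u k‖ ≤ 1 / 2) (hs : 0 ≤ ∑ k, (u k).re)
    (hR : 2 * ∑ k, |(u k).re| * |(u k).im| + 4 * ∑ k, (u k).im ^ 2 ≤ R) (hR1 : R ≤ 1)
    (ht0 : 0 ≤ t) (ht : t ≤ k0) :
    ‖Complex.exp (-(Complex.I * (t * ∑ k, (u k).im : ℝ))) *
        ((∏ k, (1 - t * (u k).re) : ℝ) : ℂ) - ∏ k, (1 - (t : ℂ) * u k)‖ ≤ 2 * R := by
  have hle : ∀ k, t * ‖u k‖ ≤ 1 / 2 := fun k =>
    (mul_le_mul_of_nonneg_right ht (norm_nonneg _)).trans (hk k)
  have hre : ∀ k, t * |(u k).re| ≤ 1 / 2 := fun k =>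
    (mul_le_mul_of_nonneg_left (Complex.abs_re_le_norm _) ht0).trans (hle k)
  have him : ∀ k, t * |(u k).im| ≤ 1 / 2 := fun k =>
    (mul_le_mul_of_nonneg_left (Complex.abs_im_le_norm _) ht0).trans (hle k)
  choose ρ hρ1 hρ2 using fun k => ph2_factor (α := (u k).re) (β := (u k).im) ht0 (ht.trans hk1)
    (hre k) (him k)
  set B : ℝ := t * ∑ k, (u k).im with hB
  have hprod : (∏ k, (1 - (t : ℂ) * u k)) * Complex.exp (Complex.I * (B : ℂ)) =
      ((∏ k, (1 - t * (u k).re) : ℝ) : ℂ) * ∏ k, (1 + ρ k) := by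
    have e1 : Complex.exp (Complex.I * (B : ℂ)) =
        ∏ k, Complex.exp (Complex.I * ((t * (u k).im : ℝ) : ℂ)) := by
      rw [← Complex.exp_sum, ← Finset.mul_sum, hB]
      congr 2
      push_cast
      rw [Finset.mul_sum]
    rw [e1, ← Finset.prod_mul_distrib, Complex.ofReal_prod, ← Finset.prod_mul_distrib]
    exact Finset.prod_congr rfl fun k _ => hρ2 k
  have hexp : ‖Complex.exp (Complex.I * (B : ℂ))‖ = 1 := by
    rw [mul_comm]; exact Complex.norm_exp_ofReal_mul_I B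
  have hP0 : 0 ≤ ∏ k, (1 - t * (u k).re) := Finset.prod_nonneg fun k _ => by
    have h1 := hre k
    have h2 : t * (u k).re ≤ t * |(u k).re| := mul_le_mul_of_nonneg_left (le_abs_self _) ht0
    linarith
  have hP1 : ∏ k, (1 - t * (u k).re) ≤ 1 := by
    have h1 : ∏ k, (1 - t * (u k).re) ≤ ∏ k, Real.exp (-(t * (u k).re)) := by
      refine Finset.prod_le_prod (fun k _ => ?_) fun k _ => ?_
      · have h1 := hre k
        have h2 : t * (u k).re ≤ t * |(u k).re| := mul_le_mul_of_nonneg_left (le_abs_self _) ht0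
        linarith
      · have := Real.add_one_le_exp (-(t * (u k).re))
        linarith
    refine h1.trans ?_
    rw [← Real.exp_sum, Finset.sum_neg_distrib, ← Finset.mul_sum]
    refine Real.exp_le_one_iff.2 ?_
    have := mul_nonneg ht0 hs
    linarith
  have hR0 : 0 ≤ R := le_trans (by positivity) hR
  have hsum : ∑ k, ‖ρ k‖ ≤ R := by
    refine (Finset.sum_le_sum fun k _ => hρ1 k).trans ?_
    rw [Finset.sum_add_distrib, ← Finset.mul_sum, ← Finset.mul_sum]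
    exact hR
  have key : ‖(∏ k, (1 + ρ k)) - 1‖ ≤ 2 * R :=
    (Finset.norm_prod_one_add_sub_one_le Finset.univ ρ).trans (ph2_exp hsum hR0 hR1)
  have e2 : Complex.exp (-(Complex.I * (B : ℂ))) *
        ((∏ k, (1 - t * (u k).re) : ℝ) : ℂ) - ∏ k, (1 - (t : ℂ) * u k) =
      -(Complex.exp (-(Complex.I * (B : ℂ))) * (((∏ k, (1 - t * (u k).re) : ℝ) : ℂ) *
        ((∏ k, (1 + ρ k)) - 1))) := by
    have e3 : Complex.exp (-(Complex.I * (B : ℂ))) * Complex.exp (Complex.I * (B : ℂ)) = 1 := by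
      rw [← Complex.exp_add, neg_add_cancel, Complex.exp_zero]
    rw [mul_sub, ← hprod, mul_one, mul_sub]
    linear_combination (∏ k, (1 - (t : ℂ) * u k)) * e3
  rw [e2, norm_neg, norm_mul, norm_mul, Complex.exp_neg, norm_inv, hexp, inv_one, one_mul,
    Complex.norm_real, Real.norm_of_nonneg hP0]
  calc (∏ k, (1 - t * (u k).re)) * ‖(∏ k, (1 + ρ k)) - 1‖ ≤ 1 * (2 * R) :=
        mul_le_mul hP1 key (norm_nonneg _) zero_le_one
    _ = 2 * R := one_mul _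

theorem PH2 : S_PH2 := by
  intro N u k0 R hk0 hk1 hk _ hs hR hR1
  have c1 : Continuous fun t : ℝ => Complex.exp (-(Complex.I * (t * ∑ k, (u k).im : ℝ))) *
        ((∏ k, (1 - t * (u k).re) : ℝ) : ℂ) := by fun_prop
  have c2 : Continuous fun t : ℝ => ∏ k, (1 - (t : ℂ) * u k) := by fun_prop
  have h1 : (∫ t in (0:ℝ)..k0, Complex.exp (-(Complex.I * (t * ∑ k, (u k).im : ℝ))) *
        ((∏ k, (1 - t * (u k).re) : ℝ) : ℂ)) =
      (∫ t in (0:ℝ)..k0, ∏ k, (1 - (t : ℂ) * u k)) +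
        ∫ t in (0:ℝ)..k0, (Complex.exp (-(Complex.I * (t * ∑ k, (u k).im : ℝ))) *
        ((∏ k, (1 - t * (u k).re) : ℝ) : ℂ) - ∏ k, (1 - (t : ℂ) * u k)) := by
    rw [intervalIntegral.integral_sub (c1.intervalIntegrable _ _) (c2.intervalIntegrable _ _)]
    ring
  have h2 : ‖∫ t in (0:ℝ)..k0, (Complex.exp (-(Complex.I * (t * ∑ k, (u k).im : ℝ))) *
        ((∏ k, (1 - t * (u k).re) : ℝ) : ℂ) - ∏ k, (1 - (t : ℂ) * u k))‖ ≤ 2 * R * |k0 - 0| := by
    refine intervalIntegral.norm_integral_le_of_norm_le_const fun t ht => ?_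
    rw [Set.uIoc_of_le hk0] at ht
    exact ph2_pointwise N u k0 R t hk1 hk hs hR hR1 ht.1.le ht.2
  have hR0 : 0 ≤ R := le_trans (by positivity) hR
  rw [h1]
  refine (norm_add_le _ _).trans (add_le_add le_rfl (h2.trans ?_))
  rw [sub_zero, abs_of_nonneg hk0]
  nlinarith

end Pool.Agent.H250.MR.PH2f
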