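import Pool.Agent.H250.MR.Stm2

set_option autoImplicit false

/-!
# Lower bound for the sum of the squares over the far points
-/

namespace Pool.Agent.H250.MR.S2f

open Pool.Agent.H250.MR

/-- As `r² ≥ 2 r - 1`, no Cauchy-Schwarz is needed. -/
theorem S2 : S_S2 := by
  intro N a x ha0 ha1 hx hS
  have ha1' : a < 1 := by linarith
  obtain ⟨hA, hHA, hSA⟩ := F3 ha0 ha1' hx hS
  have h1 : ∑ k ∈ Far a x, (a ^ 2 * (2 * (‖x k‖ - 1) + 1) - 2 * (‖x k‖ - 1 - a * (x k).re)) ≤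
      ∑ k ∈ Far a x, (‖x k‖ - 1) ^ 2 := by
    refine Finset.sum_le_sum fun k _ => ?_
    have k1 := p4 (hx k)
    have k2 : 0 ≤ a ^ 2 * (‖x k‖ - 1) ^ 2 := by positivity
    nlinarith
  have h2 : ∑ k ∈ Far a x, (‖x k‖ - 1) = HH a x - AA a x := by
    unfold HH AA
    rw [← Finset.sum_sub_distrib]
    exact Finset.sum_congr rfl fun k _ => by ring
  have h3 : ∑ k ∈ Far a x, (a ^ 2 * (2 * (‖x k‖ - 1) + 1) - 2 * (‖x k‖ - 1 - a * (x k).re)) =
      a ^ 2 * (2 * (HH a x - AA a x) + ((Far a x).card : ℝ)) - 2 * HH a x := by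
    rw [← h2, Finset.sum_sub_distrib, ← Finset.mul_sum, ← Finset.mul_sum,
      Finset.sum_add_distrib, ← Finset.mul_sum, Finset.sum_const, nsmul_eq_mul, mul_one]
    rfl
  have h4 : ((Far a x).card : ℝ) + (((Far a x)ᶜ).card : ℝ) = N := by
    have := Finset.card_add_card_compl (Far a x)
    rw [Fintype.card_fin] at this
    exact_mod_cast this
  have h5 := near_card (x := x) ha1' ha0
  have h6 := HH_nonneg hx
  rw [h3] at h1
  refine le_trans ?_ h1
  have h7 : (N : ℝ) - 3 * AA a x ≤ 2 * (HH a x - AA a x) + ((Far a x).card : ℝ) := by linarith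
  have h8 := mul_le_mul_of_nonneg_left h7 (sq_nonneg a)
  have h9 : a ^ 2 * (3 * AA a x) ≤ 1 * AA a x := by
    have : a ^ 2 * 3 ≤ 1 := by nlinarith
    nlinarith
  nlinarith

end Pool.Agent.H250.MR.S2f
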