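import Pool.Agent.H250.MR.Stm2

set_option autoImplicit false

/-!
# The pointwise inequality `T3`
-/

namespace Pool.Agent.H250.MR

namespace T3L

lemma exp_low {E : ℝ} (hE : -1 ≤ E) : 1 + E + 5 / 18 * E ^ 2 ≤ Real.exp E := by
  rcases le_total 0 E with h | h
  · have := Real.quadratic_le_exp_of_nonneg h
    nlinarith [sq_nonneg E]
  · have habs : |E| ≤ 1 := by
      rw [abs_le]
      constructor <;> linarith
    have h1 := Real.exp_bound habs (n := 3) (by norm_num)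
    rw [Finset.sum_range_succ, Finset.sum_range_succ, Finset.sum_range_succ,
      Finset.sum_range_zero] at h1
    have h2 := (abs_le.1 h1).1
    norm_num [Nat.factorial] at h2
    rw [abs_of_nonpos h] at h2
    nlinarith [mul_nonneg (sq_nonneg E) (show (0:ℝ) ≤ 1 + E by linarith)]

end T3L

open T3L in
theorem T3 : S_T3 := by
  intro a κ x ha0 ha1 hκ0 hκ1 hx
  have h1 := p1 ha0.le hx
  have h2 := p2 hx
  have h4 := p4 hx
  have hre : a * x.re ≥ -(a * ‖x‖) := by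
    have := (abs_le.1 (Complex.abs_re_le_norm x)).1
    nlinarith
  set r : ℝ := ‖x‖ with hr
  have hr0 : 0 ≤ r := norm_nonneg x
  obtain ⟨s, hs⟩ : ∃ s, s = r - 1 := ⟨_, rfl⟩
  obtain ⟨h, hh⟩ : ∃ h, h = r - 1 - a * x.re := ⟨_, rfl⟩
  have har : a * r ≤ r := by nlinarith
  have hhs : h ≤ s + r := by rw [hh, hs]; linarith
  rw [← hh, ← hs] at h4
  rw [← hh] at h2 ⊢
  rw [← hs]
  have hrs : r = s + 1 := by rw [hs]; ring
  have hs2 : -(1 / 2) ≤ s := by
    rw [hs]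
    nlinarith
  have h2s : h ≤ 2 * s + 1 := by linarith
  have key : ‖1 + ((κ * a : ℝ) : ℂ) * x‖ ^ 2 ≤ 1 + 2 * κ * s - 2 * κ * h + κ ^ 2 * (s ^ 2 + 2 * h) := by
    rw [sq_one_add]
    have e : κ * a * x.re = κ * (s - h) := by rw [hs, hh]; ring
    rw [e, mul_pow]
    have : κ ^ 2 * (a ^ 2 * r ^ 2) ≤ κ ^ 2 * (s ^ 2 + 2 * h) :=
      mul_le_mul_of_nonneg_left h4 (sq_nonneg κ)
    nlinarith
  have hκ' : 0 ≤ 1 - κ := by linarith
  have hκκ : 0 ≤ κ * (1 - κ) := mul_nonneg hκ0 hκ'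
  have hκκ4 : κ * (1 - κ) ≤ 1 := by nlinarith
  have hE : -1 ≤ 2 * κ * s - κ * (1 - κ) * h / 30 := by
    have e1 : κ * (1 - κ) * h ≤ κ * (1 - κ) * (2 * s + 1) := mul_le_mul_of_nonneg_left h2s hκκ
    nlinarith
  refine key.trans (le_trans ?_ (exp_low hE))
  have main : κ ^ 2 * s ^ 2 - 10 / 9 * κ ^ 2 * (s - (1 - κ) * h / 60) ^ 2 ≤
      2 * κ * h * (1 - κ) * (59 / 60) := by
    have hA : κ ^ 2 * s ^ 2 - 10 / 9 * κ ^ 2 * (s - (1 - κ) * h / 60) ^ 2 ≤
        -(κ ^ 2 * s ^ 2 / 9) + κ ^ 2 * s * ((1 - κ) * h) / 27 := by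
      nlinarith [mul_nonneg (sq_nonneg κ) (sq_nonneg ((1 - κ) * h))]
    refine hA.trans ?_
    have hg : 0 ≤ κ * ((1 - κ) * h) := mul_nonneg hκ0 (mul_nonneg hκ' h2)
    rcases le_total s 1 with hs1 | hs1
    · have e1 : κ * s ≤ 1 := by nlinarith
      have e2 : κ ^ 2 * s * ((1 - κ) * h) ≤ κ * ((1 - κ) * h) := by
        have : κ ^ 2 * s * ((1 - κ) * h) = (κ * s) * (κ * ((1 - κ) * h)) := by ring
        rw [this]
        calc (κ * s) * (κ * ((1 - κ) * h)) ≤ 1 * (κ * ((1 - κ) * h)) :=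
              mul_le_mul_of_nonneg_right e1 hg
          _ = _ := one_mul _
      have e3 : 0 ≤ κ ^ 2 * s ^ 2 := by positivity
      have e5 : 2 * κ * h * (1 - κ) * (59 / 60) = 59 / 30 * (κ * ((1 - κ) * h)) := by ring
      rw [e5]
      linarith
    · have e1 : h ≤ 3 * s := by linarith
      have e2 : (1 - κ) * h ≤ 3 * s := by
        have : (1 - κ) * h ≤ 1 * h := mul_le_mul_of_nonneg_right (by linarith) h2
        linarith
      have e3 : κ ^ 2 * s * ((1 - κ) * h) ≤ κ ^ 2 * s * (3 * s) :=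
        mul_le_mul_of_nonneg_left e2 (by positivity)
      have e4 : κ ^ 2 * s * (3 * s) = 3 * (κ ^ 2 * s ^ 2) := by ring
      have e5 : 2 * κ * h * (1 - κ) * (59 / 60) = 59 / 30 * (κ * ((1 - κ) * h)) := by ring
      rw [e5]
      linarith
  have e6 : 5 / 18 * (2 * κ * s - κ * (1 - κ) * h / 30) ^ 2 =
      10 / 9 * κ ^ 2 * (s - (1 - κ) * h / 60) ^ 2 := by ring
  have e7 : 2 * κ * h * (1 - κ) * (59 / 60) = 2 * κ * h - 2 * κ ^ 2 * h - κ * (1 - κ) * h / 30 := by ring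
  rw [e6]
  rw [e7] at main
  linarith

end Pool.Agent.H250.MR
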