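import Pool.Agent.H250.MR.Small2
import Pool.Agent.H250.MR.R1
import Pool.Agent.H250.MR.S2
import Pool.Agent.H250.MR.T3
import Pool.Agent.H250.MR.OSC
import Pool.Agent.H250.MR.PH2

set_option autoImplicit false

/-!
# Assembly for small zeros, and for all zeros with `n (1 - |a|) ≥ 4·10¹¹ log n`
-/

open Polynomial MeasureTheory

namespace Pool.Agent.H250.MR

open Pool.Agent.H565.Pm

/-- small zeros -/
theorem core_small {N : ℕ} (hN : 1 ≤ N) {a : ℝ} (ha0 : 0 < a) (ha1 : a ≤ 1 / 1000)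
    (z w : Fin N → ℂ) (hz : ∀ j, ‖z j‖ ≤ 1)
    (hw : ∀ x : ℂ, (derivative (P a z)).eval x = (N + 1 : ℂ) * ∏ k, (x - w k))
    (hne : ∀ k, w k ≠ a) {l σ : ℝ} (hln : l = Real.log (N + 1)) (hl : 10 ^ 3 ≤ l)
    (hL : a ^ 2 * N ≤ 2 * 10 ^ 11 * l) (hσ0 : 0 < σ) (hσ : σ ^ 4 = Real.exp (-(l / 10 ^ 20)))
    (hσL : σ * (10 ^ 100 * l ^ 5) ≤ 1) :
    (N : ℝ) < ∑ k, ‖w k - (a : ℂ)‖⁻¹ := by
  by_contra hcon
  rw [not_lt] at hcon
  have hw1 := crit_norm_le ha0.le (by linarith) z w hz hw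
  set x : Fin N → ℂ := fun k => (w k - (a : ℂ))⁻¹ with hxdef
  have hsub : ∀ k, w k - (a : ℂ) ≠ 0 := fun k => sub_ne_zero.2 (hne k)
  have hxn : ∀ k, ‖x k‖ = ‖w k - (a : ℂ)‖⁻¹ := fun k => by rw [hxdef]; exact norm_inv _
  have hx : ∀ k, ‖1 + (a : ℂ) * x k‖ ≤ ‖x k‖ := fun k =>
    R1f.norm_le' (hw1 k) (hne k) rfl
  have hS : ∑ k, ‖x k‖ ≤ N := by simpa only [hxn] using hcon
  have hT : Tst N a x := tst_of R1f.R1 hN ha0 ha1 z w hz hw hw1 hne (fun _ => rfl) hx hS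
  have hl0 : 0 < l := by linarith
  rcases le_or_gt (10 ^ 13 * l) (AA a x) with hA | hA
  · exact caseS1 hN ha0 ha1 hx hS hT (by rw [← hln]; linarith) (by linarith) (by linarith)
  · rcases le_or_gt (10 ^ 17 * l) ‖∑ k, -((a : ℂ) * x k)‖ with hU | hU
    · exact caseS2 hN ha0 ha1 hx hS hT (by linarith) hL hA.le hU
    · exact caseS3 T3 S2f.S2 OSCf.OSC PH2f.PH2 ha0 ha1 hx hS hT hl hln hL hA.le hU.le hσ0 hσ hσL

/-- the growth condition -/
lemma growth {l : ℝ} (hl : 10 ^ 24 ≤ l) :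
    Real.exp (-(l / (4 * 10 ^ 20))) * (10 ^ 100 * l ^ 5) ≤ 1 := by
  set y : ℝ := l / (4 * 10 ^ 20) with hy
  have hly : l = 4 * 10 ^ 20 * y := by rw [hy]; field_simp
  have hy1 : 2500 ≤ y := by rw [hy, le_div_iff₀ (by positivity)]; linarith
  have h1 : (2 : ℝ) ^ 1250 ≤ Real.exp (y / 2) := by
    have h2 : (2 : ℝ) ≤ Real.exp 1 := by have := Real.add_one_le_exp (1 : ℝ); linarith
    calc (2 : ℝ) ^ 1250 ≤ Real.exp 1 ^ 1250 := pow_le_pow_left₀ (by norm_num) h2 _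
      _ = Real.exp (1250 : ℝ) := by rw [← Real.exp_nat_mul]; norm_num
      _ ≤ Real.exp (y / 2) := Real.exp_le_exp.2 (by linarith)
  have h3 : (y / 10) ^ 5 ≤ Real.exp (y / 2) := by
    have h4 : y / 10 ≤ Real.exp (y / 10) := by have := Real.add_one_le_exp (y / 10); linarith
    have h5 : Real.exp (y / 2) = Real.exp (y / 10) ^ 5 := by
      rw [← Real.exp_nat_mul]; congr 1; push_cast; ring
    rw [h5]
    exact pow_le_pow_left₀ (by linarith) h4 5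
  have h6 : (2 : ℝ) ^ 1250 * (y / 10) ^ 5 ≤ Real.exp y := by
    have h7 : Real.exp y = Real.exp (y / 2) * Real.exp (y / 2) := by
      rw [← Real.exp_add]; congr 1; ring
    rw [h7]
    exact mul_le_mul h1 h3 (by positivity) (Real.exp_pos _).le
  have h8 : 10 ^ 100 * l ^ 5 ≤ 2 ^ 1250 * (y / 10) ^ 5 := by
    have e1 : 10 ^ 100 * l ^ 5 = (10 ^ 100 * (4 * 10 ^ 20) ^ 5) * y ^ 5 := by rw [hly]; ring
    have e2 : (2 : ℝ) ^ 1250 * (y / 10) ^ 5 = (2 ^ 1250 / 10 ^ 5) * y ^ 5 := by ring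
    rw [e1, e2]
    refine mul_le_mul_of_nonneg_right ?_ (by positivity)
    have e3 : (2 : ℝ) ^ 1250 = (2 ^ 250) ^ 5 := by rw [← pow_mul]
    have e4 : (10 : ℝ) ^ 75 ≤ 2 ^ 250 := by norm_num
    have e5 : ((10 : ℝ) ^ 75) ^ 5 ≤ (2 ^ 250) ^ 5 := pow_le_pow_left₀ (by norm_num) e4 5
    rw [e3, le_div_iff₀ (by norm_num)]
    refine le_trans ?_ e5
    norm_num
  rw [Real.exp_neg, inv_mul_le_iff₀ (Real.exp_pos _), mul_one]
  exact h8.trans h6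

/-- the zero at the centre -/
theorem core_zero {N : ℕ} (hN : 1 ≤ N) (z w : Fin N → ℂ) (hz : ∀ j, ‖z j‖ ≤ 1)
    (hw : ∀ x : ℂ, (derivative (P 0 z)).eval x = (N + 1 : ℂ) * ∏ k, (x - w k))
    (hne : ∀ k, w k ≠ (0 : ℝ)) :
    (N : ℝ) < ∑ k, ‖w k - ((0 : ℝ) : ℂ)‖⁻¹ := by
  by_contra hcon
  rw [not_lt] at hcon
  have h1 := prod_at (a := 0) z w hw
  have h2 : ∏ j, ‖((0 : ℝ) : ℂ) - z j‖ ≤ 1 := by
    refine Finset.prod_le_one (fun _ _ => norm_nonneg _) fun j _ => ?_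
    rw [Complex.ofReal_zero, zero_sub, norm_neg]
    exact hz j
  have h3 : ∏ k, ‖w k - ((0 : ℝ) : ℂ)‖⁻¹ ≤ 1 := by
    have h4 : ∏ k, ‖w k - ((0 : ℝ) : ℂ)‖⁻¹ ≤
        ∏ k, Real.exp (‖w k - ((0 : ℝ) : ℂ)‖⁻¹ - 1) := by
      refine Finset.prod_le_prod (fun _ _ => inv_nonneg.2 (norm_nonneg _)) fun k _ => ?_
      have := Real.add_one_le_exp (‖w k - ((0 : ℝ) : ℂ)‖⁻¹ - 1)
      linarith
    refine h4.trans ?_
    rw [← Real.exp_sum, Finset.sum_sub_distrib]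
    apply Real.exp_le_one_iff.2
    simp only [Finset.sum_const, Finset.card_univ, Fintype.card_fin, nsmul_eq_mul, mul_one]
    linarith
  have h5 : (∏ k, ‖w k - ((0 : ℝ) : ℂ)‖⁻¹) * ∏ k, ‖((0 : ℝ) : ℂ) - w k‖ = 1 := by
    rw [← Finset.prod_mul_distrib]
    refine Finset.prod_eq_one fun k _ => ?_
    rw [norm_sub_rev (w k), inv_mul_cancel₀]
    exact norm_ne_zero_iff.2 (sub_ne_zero.2 (hne k).symm)
  have h6 : 0 ≤ ∏ k, ‖((0 : ℝ) : ℂ) - w k‖ := Finset.prod_nonneg fun _ _ => norm_nonneg _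
  have h7 := mul_le_mul_of_nonneg_right h3 h6
  have hN' : (1 : ℝ) ≤ N := by exact_mod_cast hN
  nlinarith

/-- all zeros with `n (1 - a) ≥ 4·10¹¹ log n`, `log n ≥ 10²⁴` -/
theorem core_large {N : ℕ} (hN : 1 ≤ N) {a : ℝ} (ha0 : 0 ≤ a) (z w : Fin N → ℂ)
    (hz : ∀ j, ‖z j‖ ≤ 1)
    (hw : ∀ x : ℂ, (derivative (P a z)).eval x = (N + 1 : ℂ) * ∏ k, (x - w k))
    (hne : ∀ k, w k ≠ a) (hl : 10 ^ 24 ≤ Real.log (N + 1))
    (h : 4 * 10 ^ 11 * Real.log (N + 1) ≤ (N + 1) * (1 - a)) :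
    (N : ℝ) < ∑ k, ‖w k - (a : ℂ)‖⁻¹ := by
  rcases ha0.eq_or_lt with h0 | h0
  · subst h0
    exact core_zero hN z w hz hw hne
  have hN0 : (0 : ℝ) ≤ N := Nat.cast_nonneg _
  have ha1 : a < 1 := by
    by_contra hc
    have : ((N : ℝ) + 1) * (1 - a) ≤ 0 :=
      mul_nonpos_of_nonneg_of_nonpos (by positivity) (by linarith)
    linarith
  rcases le_or_gt (10 ^ 11 * Real.log (N + 1)) ((N + 1) * a ^ 2 * (1 - a)) with h1 | h1
  · exact core hN h0 ha1 z w hz hw hne h1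
  · set l := Real.log (N + 1) with hldef
    have hl0 : 0 < l := by linarith
    have ha2 : a < 1 / 2 := by
      by_contra hc
      rw [not_lt] at hc
      have h2 : 1 / 4 ≤ a ^ 2 := by nlinarith
      have h3 : 1 / 4 * ((N + 1) * (1 - a)) ≤ a ^ 2 * ((N + 1) * (1 - a)) :=
        mul_le_mul_of_nonneg_right h2 (mul_nonneg (by positivity) (by linarith))
      linarith
    have h3 : (N + 1) * a ^ 2 * (1 / 2) ≤ (N + 1) * a ^ 2 * (1 - a) :=
      mul_le_mul_of_nonneg_left (by linarith) (by positivity)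
    have hL : a ^ 2 * N ≤ 2 * 10 ^ 11 * l := by nlinarith [sq_nonneg a]
    have hL' : a ^ 2 * (N + 1) ≤ 2 * 10 ^ 11 * l := by nlinarith [sq_nonneg a]
    -- `a ≤ 1/1000`
    have hNl : l ^ 2 / 2 ≤ N + 1 := by
      have h4 : (N + 1 : ℝ) = Real.exp l := by rw [hldef, Real.exp_log (by positivity)]
      rw [h4]
      have := Real.quadratic_le_exp_of_nonneg hl0.le
      linarith
    have ha3 : a ≤ 1 / 1000 := by
      by_contra hc
      rw [not_le] at hc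
      have h5 : (1 / 1000) ^ 2 ≤ a ^ 2 := pow_le_pow_left₀ (by norm_num) hc.le 2
      have h6 : (1 / 1000) ^ 2 * (l ^ 2 / 2) ≤ a ^ 2 * (N + 1) :=
        mul_le_mul h5 hNl (by positivity) (by positivity)
      have h7 : 10 ^ 24 * l ≤ l ^ 2 := by
        rw [pow_two]; exact mul_le_mul_of_nonneg_right hl hl0.le
      linarith
    refine core_small hN h0 ha3 z w hz hw hne (l := l) (σ := Real.exp (-(l / (4 * 10 ^ 20))))
      hldef (by linarith) hL (Real.exp_pos _) ?_ (growth hl)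
    rw [← Real.exp_nat_mul]
    congr 1
    push_cast
    ring

end Pool.Agent.H250.MR
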