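import Mathlib

set_option autoImplicit false

/-!
# The majorant lemma for `∫ ∏ (1 - t u_k) dt`
-/

open MeasureTheory

namespace Pool.Agent.H250.MR

/-- Majorant lemma. If `‖1 - t u_k‖ ≤ g_k(t) = 1 - t p_k + t² q_k` and
`-g_k' ≥ γ_k g_k + t |u_k|²` on `[0,k0]`, then
`(∑ γ_k) ∫ ∏ g_k ≤ |∑ u_k| |∫ ∏ (1 - t u_k)|`. -/
theorem majorant {N : ℕ} (u : Fin N → ℂ) (p q γ : Fin N → ℝ) (k0 : ℝ) (h0 : 0 ≤ k0)
    (h1 : ∀ k (t : ℝ), 0 ≤ t → t ≤ k0 → ‖1 - (t : ℂ) * u k‖ ≤ 1 - t * p k + t ^ 2 * q k)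
    (h2 : ∀ k (t : ℝ), 0 ≤ t → t ≤ k0 →
      γ k * (1 - t * p k + t ^ 2 * q k) + t * ‖u k‖ ^ 2 ≤ p k - 2 * t * q k) :
    (∑ k, γ k) * (∫ t in (0:ℝ)..k0, ∏ k, (1 - t * p k + t ^ 2 * q k)) ≤
      ‖∑ k, u k‖ * ‖∫ t in (0:ℝ)..k0, ∏ k, (1 - (t : ℂ) * u k)‖ := by
  have hfeq : ∀ (t : ℝ) k, ∏ j, (1 - (t : ℂ) * u j) =
      (1 - (t : ℂ) * u k) * ∏ j ∈ Finset.univ.erase k, (1 - (t : ℂ) * u j) := fun t k =>
    (Finset.mul_prod_erase Finset.univ _ (Finset.mem_univ k)).symm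
  have hGeq : ∀ (t : ℝ) k, ∏ j, (1 - t * p j + t ^ 2 * q j) =
      (1 - t * p k + t ^ 2 * q k) *
        ∏ j ∈ Finset.univ.erase k, (1 - t * p j + t ^ 2 * q j) := fun t k =>
    (Finset.mul_prod_erase Finset.univ _ (Finset.mem_univ k)).symm
  -- derivative of `f`
  have hdf : ∀ t ∈ Set.uIcc (0:ℝ) k0, HasDerivAt (fun t : ℝ => ∏ k, (1 - (t : ℂ) * u k))
      (-∑ k, u k * ∏ j ∈ Finset.univ.erase k, (1 - (t : ℂ) * u j)) t := by
    intro t _
    have hl : ∀ k : Fin N, HasDerivAt (fun t : ℝ => 1 - (t : ℂ) * u k) (-(u k)) t := by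
      intro k
      have h := (((Complex.ofRealCLM.hasDerivAt (x := t)).mul_const (u k)).const_sub 1)
      simpa using h
    have h := HasDerivAt.fun_finsetProd (u := (Finset.univ : Finset (Fin N)))
      (f := fun k (t : ℝ) => 1 - (t : ℂ) * u k) (f' := fun k => -(u k)) (x := t)
      (fun k _ => hl k)
    refine h.congr_deriv ?_
    rw [← Finset.sum_neg_distrib]
    refine Finset.sum_congr rfl fun k _ => ?_
    simp only [smul_eq_mul]
    ring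
  have hdG : ∀ t ∈ Set.uIcc (0:ℝ) k0, HasDerivAt (fun t : ℝ => ∏ k, (1 - t * p k + t ^ 2 * q k))
      (-∑ k, (p k - 2 * t * q k) *
        ∏ j ∈ Finset.univ.erase k, (1 - t * p j + t ^ 2 * q j)) t := by
    intro t _
    have hl : ∀ k : Fin N, HasDerivAt (fun t : ℝ => 1 - t * p k + t ^ 2 * q k)
        (-(p k - 2 * t * q k)) t := by
      intro k
      have h := (((hasDerivAt_id t).mul_const (p k)).const_sub 1).add
        (((hasDerivAt_id t).pow 2).mul_const (q k))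
      refine h.congr_deriv ?_
      simp
      ring
    have h := HasDerivAt.fun_finsetProd (u := (Finset.univ : Finset (Fin N)))
      (f := fun k (t : ℝ) => 1 - t * p k + t ^ 2 * q k) (f' := fun k => -(p k - 2 * t * q k))
      (x := t) (fun k _ => hl k)
    refine h.congr_deriv ?_
    rw [← Finset.sum_neg_distrib]
    refine Finset.sum_congr rfl fun k _ => ?_
    simp only [smul_eq_mul]
    ring
  have hcf : Continuous fun t : ℝ => ∏ k, (1 - (t : ℂ) * u k) := by fun_prop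
  have hcG : Continuous fun t : ℝ => ∏ k, (1 - t * p k + t ^ 2 * q k) := by fun_prop
  have hc1 : Continuous fun t : ℝ => ∑ k, u k * ∏ j ∈ Finset.univ.erase k, (1 - (t : ℂ) * u j) := by
    fun_prop
  have hc2 : Continuous fun t : ℝ => (t : ℂ) * ∑ k, u k ^ 2 *
      ∏ j ∈ Finset.univ.erase k, (1 - (t : ℂ) * u j) := by
    fun_prop
  have hc3 : Continuous fun t : ℝ => ∑ k, (p k - 2 * t * q k) *
        ∏ j ∈ Finset.univ.erase k, (1 - t * p j + t ^ 2 * q j) := by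
    fun_prop
  have hc4 : Continuous fun t : ℝ => t * ∑ k, ‖u k‖ ^ 2 *
        ∏ j ∈ Finset.univ.erase k, (1 - t * p j + t ^ 2 * q j) := by
    fun_prop
  have hF := intervalIntegral.integral_eq_sub_of_hasDerivAt hdf
    ((hc1.neg).intervalIntegrable 0 k0)
  have hGi := intervalIntegral.integral_eq_sub_of_hasDerivAt hdG
    ((hc3.neg).intervalIntegrable 0 k0)
  rw [intervalIntegral.integral_neg] at hF hGi
  simp only [Complex.ofReal_zero, zero_mul, sub_zero, Finset.prod_const_one] at hF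
  have hG0 : ∏ k : Fin N, (1 - (0:ℝ) * p k + 0 ^ 2 * q k) = 1 := by simp
  rw [hG0] at hGi
  -- the identity for `f`
  have hid : (∑ k, u k) * ∫ t in (0:ℝ)..k0, ∏ k, (1 - (t : ℂ) * u k) =
      1 - ∏ k, (1 - (k0 : ℂ) * u k) - ∫ t in (0:ℝ)..k0, (t : ℂ) * ∑ k, u k ^ 2 *
      ∏ j ∈ Finset.univ.erase k, (1 - (t : ℂ) * u j) := by
    rw [← intervalIntegral.integral_const_mul]
    have e1 : ∫ t in (0:ℝ)..k0, (∑ k, u k) * ∏ k, (1 - (t : ℂ) * u k) =
        ∫ t in (0:ℝ)..k0, ((∑ k, u k * ∏ j ∈ Finset.univ.erase k, (1 - (t : ℂ) * u j)) -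
          (t : ℂ) * ∑ k, u k ^ 2 * ∏ j ∈ Finset.univ.erase k, (1 - (t : ℂ) * u j)) := by
      apply intervalIntegral.integral_congr
      intro t _
      simp only []
      rw [Finset.sum_mul, Finset.mul_sum, ← Finset.sum_sub_distrib]
      refine Finset.sum_congr rfl fun k _ => ?_
      rw [hfeq t k]
      ring
    rw [e1, intervalIntegral.integral_sub (hc1.intervalIntegrable 0 k0)
      (hc2.intervalIntegrable 0 k0)]
    linear_combination -hF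
  -- the products `G_k`
  have hgk : ∀ k (t : ℝ), 0 ≤ t → t ≤ k0 →
      ‖∏ j ∈ Finset.univ.erase k, (1 - (t : ℂ) * u j)‖ ≤
        ∏ j ∈ Finset.univ.erase k, (1 - t * p j + t ^ 2 * q j) := by
    intro k t ht ht'
    rw [norm_prod]
    exact Finset.prod_le_prod (fun _ _ => norm_nonneg _) fun j _ => h1 j t ht ht'
  have hJ : ‖∫ t in (0:ℝ)..k0, (t : ℂ) * ∑ k, u k ^ 2 *
      ∏ j ∈ Finset.univ.erase k, (1 - (t : ℂ) * u j)‖ ≤
      ∫ t in (0:ℝ)..k0, t * ∑ k, ‖u k‖ ^ 2 *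
        ∏ j ∈ Finset.univ.erase k, (1 - t * p j + t ^ 2 * q j) := by
    refine (intervalIntegral.norm_integral_le_integral_norm h0).trans ?_
    refine intervalIntegral.integral_mono_on h0 (hc2.norm.intervalIntegrable 0 k0)
      (hc4.intervalIntegrable 0 k0) fun t ht => ?_
    rw [norm_mul, Complex.norm_real, Real.norm_eq_abs, abs_of_nonneg ht.1]
    refine mul_le_mul_of_nonneg_left ?_ ht.1
    refine (norm_sum_le _ _).trans (Finset.sum_le_sum fun k _ => ?_)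
    rw [norm_mul, norm_pow]
    exact mul_le_mul_of_nonneg_left (hgk k t ht.1 ht.2) (sq_nonneg _)
  have hK : (∑ k, γ k) * (∫ t in (0:ℝ)..k0, ∏ k, (1 - t * p k + t ^ 2 * q k)) +
      (∫ t in (0:ℝ)..k0, t * ∑ k, ‖u k‖ ^ 2 *
        ∏ j ∈ Finset.univ.erase k, (1 - t * p j + t ^ 2 * q j)) ≤
      ∫ t in (0:ℝ)..k0, ∑ k, (p k - 2 * t * q k) *
        ∏ j ∈ Finset.univ.erase k, (1 - t * p j + t ^ 2 * q j) := by
    rw [← intervalIntegral.integral_const_mul,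
      ← intervalIntegral.integral_add ((hcG.const_mul _).intervalIntegrable 0 k0)
        (hc4.intervalIntegrable 0 k0)]
    refine intervalIntegral.integral_mono_on h0 (((hcG.const_mul _).add hc4).intervalIntegrable 0 k0)
      (hc3.intervalIntegrable 0 k0) fun t ht => ?_
    rw [Finset.sum_mul, Finset.mul_sum, ← Finset.sum_add_distrib]
    refine Finset.sum_le_sum fun k _ => ?_
    rw [hGeq t k]
    have h3 := h2 k t ht.1 ht.2
    have h4 : 0 ≤ ∏ j ∈ Finset.univ.erase k, (1 - t * p j + t ^ 2 * q j) :=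
      (norm_nonneg _).trans (hgk k t ht.1 ht.2)
    have h5 := mul_le_mul_of_nonneg_right h3 h4
    linarith
  have hfk0 : ‖∏ k, (1 - (k0 : ℂ) * u k)‖ ≤ ∏ k, (1 - k0 * p k + k0 ^ 2 * q k) := by
    rw [norm_prod]
    exact Finset.prod_le_prod (fun _ _ => norm_nonneg _) fun j _ => h1 j k0 h0 le_rfl
  rw [← norm_mul, hid]
  have h6 : 1 - ‖∏ k, (1 - (k0 : ℂ) * u k)‖ - ‖∫ t in (0:ℝ)..k0, (t : ℂ) * ∑ k, u k ^ 2 *
      ∏ j ∈ Finset.univ.erase k, (1 - (t : ℂ) * u j)‖ ≤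
      ‖1 - ∏ k, (1 - (k0 : ℂ) * u k) - ∫ t in (0:ℝ)..k0, (t : ℂ) * ∑ k, u k ^ 2 *
      ∏ j ∈ Finset.univ.erase k, (1 - (t : ℂ) * u j)‖ := by
    have h7 := norm_sub_norm_le (1 - ∏ k, (1 - (k0 : ℂ) * u k))
      (∫ t in (0:ℝ)..k0, (t : ℂ) * ∑ k, u k ^ 2 *
      ∏ j ∈ Finset.univ.erase k, (1 - (t : ℂ) * u j))
    have h8 := norm_sub_norm_le (1 : ℂ) (∏ k, (1 - (k0 : ℂ) * u k))
    rw [norm_one] at h8
    linarith
  refine le_trans ?_ h6
  linarith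

/-- pointwise majorant for the far points -/
theorem far_maj {u : ℂ} {k0 t : ℝ} (ht : 0 ≤ t) (ht' : t ≤ k0) (hu : k0 * ‖u‖ ≤ 1 / 2) :
    ‖1 - (t : ℂ) * u‖ ≤ 1 - t * u.re + t ^ 2 * u.im ^ 2 ∧
    (u.re - 7 * k0 * u.im ^ 2) * (1 - t * u.re + t ^ 2 * u.im ^ 2) + t * ‖u‖ ^ 2 ≤
      u.re - 2 * t * u.im ^ 2 := by
  have h1 : t * |u.re| ≤ 1 / 2 := by
    have := Complex.abs_re_le_norm u
    calc t * |u.re| ≤ k0 * ‖u‖ := mul_le_mul ht' this (abs_nonneg _) (ht.trans ht')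
      _ ≤ _ := hu
  have h2 : t * u.re ≤ 1 / 2 := (mul_le_mul_of_nonneg_left (le_abs_self _) ht).trans h1
  have hsq : ‖u‖ ^ 2 = u.re ^ 2 + u.im ^ 2 := by
    rw [Complex.sq_norm, Complex.normSq_apply]; ring
  have h3 : (0:ℝ) ≤ t ^ 2 * u.im ^ 2 := by positivity
  constructor
  · refine abs_le_of_sq_le_sq' ?_ (by linarith) |>.2
    have e : ‖1 - (t : ℂ) * u‖ ^ 2 = (1 - t * u.re) ^ 2 + t ^ 2 * u.im ^ 2 := by
      rw [Complex.sq_norm, Complex.normSq_apply]; simp; ring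
    rw [e]
    nlinarith [sq_nonneg (t ^ 2 * u.im ^ 2)]
  · rw [hsq]
    have h4 : t * |u.re| * t ≤ 1 / 2 * t := mul_le_mul_of_nonneg_right h1 ht
    have h5 : t ^ 2 * u.re ≤ t / 2 := by
      have : t ^ 2 * u.re ≤ t ^ 2 * |u.re| := mul_le_mul_of_nonneg_left (le_abs_self _) (sq_nonneg t)
      nlinarith
    have h6 : 1 / 2 ≤ 1 - t * u.re + t ^ 2 * u.im ^ 2 := by linarith
    have h7 : 7 * k0 * u.im ^ 2 * (1 / 2) ≤
        7 * k0 * u.im ^ 2 * (1 - t * u.re + t ^ 2 * u.im ^ 2) :=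
      mul_le_mul_of_nonneg_left h6 (by have := ht.trans ht'; positivity)
    have h8 : t * u.im ^ 2 ≤ k0 * u.im ^ 2 := mul_le_mul_of_nonneg_right ht' (sq_nonneg _)
    have h9 : t ^ 2 * u.re * u.im ^ 2 ≤ t / 2 * u.im ^ 2 :=
      mul_le_mul_of_nonneg_right h5 (sq_nonneg _)
    nlinarith

/-- pointwise majorant for the near points -/
theorem near_maj {u : ℂ} {t : ℝ} (ht : 0 ≤ t) :
    ‖1 - (t : ℂ) * u‖ ≤ 1 - t * (-‖u‖) + t ^ 2 * 0 ∧
    (-‖u‖) * (1 - t * (-‖u‖) + t ^ 2 * 0) + t * ‖u‖ ^ 2 ≤ -‖u‖ - 2 * t * 0 := by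
  constructor
  · have := norm_sub_le (1 : ℂ) ((t : ℂ) * u)
    rw [norm_one, norm_mul, Complex.norm_real, Real.norm_eq_abs, abs_of_nonneg ht] at this
    linarith
  · nlinarith [norm_nonneg u]

end Pool.Agent.H250.MR
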