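import Pool.Agent.H250.MR.Maj
import Pool.Agent.H250.MR.Point
import Pool.Graph.R_seed8.W470.Sen.Rotate

set_option autoImplicit false

/-!
# Statements for the zeros near the circle (MP_172a45_an, `n (1 - |a|) ≤ C log n`)
-/

open MeasureTheory Polynomial

namespace Pool.Agent.H250.MR

/-- (ZPT). `w = (1 + a x)/x`. Proof. `‖1+ax‖ ≤ r`, so `(‖1+ax‖ + ρ r)² ≤ ‖1+ax‖² + 3 ρ r²`. Put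
`E = 2 (1 - 1/256)(r - 1) + (‖1+ax‖² - 1)/(256 r²)`. By (T2) at `κ = 1` (`T2f.T2`, file
`Pool/Agent/H250/MR/T2.lean`) `‖1+ax‖² ≤ exp E`. And `‖1+ax‖² - 1 = 2 a Re x + a² r²`,
so `(‖1+ax‖²-1)/r² = a² + 2 a Re x/r² ≥ a² - 2a/r ≥ -4` (`r ≥ 1/2`), `E ≥ 2(1 - 1/256)(r-1) - 1/64`
and `3 r² ≤ 4 exp E` (`r ≥ 1/2`). Hence `≤ exp E (1 + 4ρ) ≤ exp (E + 4ρ)`. -/
def S_ZPT : Prop :=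
  ∀ (a ρ : ℝ) (x : ℂ), 0 < a → a < 1 → 0 ≤ ρ → ρ ≤ 1 → ‖1 + (a : ℂ) * x‖ ≤ ‖x‖ →
    (‖1 + (a : ℂ) * x‖ + ρ * ‖x‖) ^ 2 ≤
      Real.exp (2 * (1 - 1 / 256) * (‖x‖ - 1) + (‖1 + (a : ℂ) * x‖ ^ 2 - 1) / (256 * ‖x‖ ^ 2) +
        4 * ρ)

/-- (PH3) as `PHf.PH` (file `Pool/Agent/H250/MR/PH.lean`), with weaker hypotheses:
`1 - t α ≥ 1/2`, `‖∏ (1 - i t β_k/(1 - t α_k)) - 1‖ ≤ exp (2 k0 ∑ |β_k|) - 1 ≤ exp (1/8) - 1 ≤ 1/2`. -/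
def S_PH3 : Prop :=
  ∀ (N : ℕ) (u : Fin N → ℂ) (k0 : ℝ), 0 ≤ k0 → (∀ k, k0 * (u k).re ≤ 1 / 2) →
    k0 * ∑ k, |(u k).im| ≤ 1 / 16 →
    (1 / 2) * (∫ t in (0:ℝ)..k0, ∏ k, (1 - t * (u k).re)) ≤
      ‖∫ t in (0:ℝ)..k0, ∏ k, (1 - (t : ℂ) * u k)‖

/-- (LOWIMP) improved majorant lemma (compare `majorant`, `far_maj` in `Maj.lean`, `lower` in
`Lower.lean`). Proof. Put `f_k = 1 - t u_k`, `g_k = 1 - t Re u_k + t² (Im u_k)²` for `k ∈ F`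
(`|f_k| ≤ g_k`, `-g_k' ≥ γ_k g_k + t |u_k|²`, `γ_k = Re u_k - 7 k0 (Im u_k)²` by `far_maj`),
`g_k = 1 + t |u_k|` for `k ∉ F` (`γ_k = - |u_k|`, equality). `f = ∏ f_k`, `G = ∏ g_k`, `hat k` = product
without `k`. `U ∫ f = 1 - f(k0) - ∫ t ∑ u_k² f_hat(k)`, `1 - G(k0) = ∫ -G' ≥ Γ ∫ G + ∫ t ∑ |u_k|² G_hat(k)`.
Subtract: `|U ∫ f| ≥ (G(k0) - |f(k0)|) + Γ ∫ G + ∫ t ∑ |u_k|² (G_hat(k) - |f_hat(k)|)`, all terms of the sum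
`≥ 0`; keep `k = j` and `t ≤ τ`: `G_hat(j) - |f_hat(j)| ≥ (∏_{F} g)(1 + t|u_i| - |1 - t u_i|)` and
`1 + t|u| - |1 - tu| ≥ 2t(|u| + Re u)/(2 (1 + t|u|)) ≥ t (|u| + Re u)/2` if `t |u| ≤ 1`. -/
def S_LOWIMP : Prop :=
  ∀ (N : ℕ) (F : Finset (Fin N)) (u : Fin N → ℂ) (k0 τ : ℝ) (i j : Fin N), 0 ≤ τ → τ ≤ k0 →
    (∀ k ∈ F, k0 * ‖u k‖ ≤ 1 / 2) → i ∉ F → j ∉ F → i ≠ j → τ * ‖u i‖ ≤ 1 →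
    (∑ k ∈ F, (u k).re - 7 * k0 * (∑ k ∈ F, (u k).im ^ 2) - ∑ k ∈ Fᶜ, ‖u k‖) *
        (∫ t in (0:ℝ)..k0, (∏ k ∈ F, (1 - t * (u k).re + t ^ 2 * (u k).im ^ 2)) *
          ∏ k ∈ Fᶜ, (1 + t * ‖u k‖)) +
      ‖u j‖ ^ 2 * (‖u i‖ + (u i).re) / 2 *
        (∫ t in (0:ℝ)..τ, t ^ 2 * ∏ k ∈ F, (1 - t * (u k).re + t ^ 2 * (u k).im ^ 2)) ≤
      ‖∑ k, u k‖ * ‖∫ t in (0:ℝ)..k0, ∏ k, (1 - (t : ℂ) * u k)‖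

/-- (ONE). Put `f = ∏ (1 - t u_k)`, `η_k = u_k - 1/2`. Integration by parts of `∫ t f'`, with
`f' = -U f - t ∑ u_k² f_hat(k)`, gives
`(u0 - U) ∫ t f = k0 f(k0) - ∫ f (1 - t u0) + ∫ t² ∑ u_k² f_hat(k)`. And
`‖f - (1 - t/2)^M‖ ≤ (1 - t/2)^M (exp (2 t ∑ ‖η‖) - 1)` (and the same for `f_hat(k)`, with `M - 1`),
`∫_0^2 t (1 - t/2)^M = 4/((M+1)(M+2)) = (M/4) ∫_0^2 t² (1 - t/2)^(M-1)`; the tails from `k0` on are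
`≤ exp (- k0 M/4)`-small. -/
def S_ONE : Prop :=
  ∀ (M : ℕ) (u : Fin M → ℂ) (u0 : ℂ) (k0 : ℝ), 10 ^ 9 ≤ M → 0 ≤ k0 → k0 ≤ 1 / 100 →
    Real.exp (-(k0 * M / 4)) ≤ 1 / (M : ℝ) ^ 6 → (∀ k, ‖u k - 1 / 2‖ ≤ 2) →
    ∑ k, ‖u k - 1 / 2‖ ≤ 1 / 10 ^ 4 * M →
    ‖∫ t in (0:ℝ)..k0, (∏ k, (1 - (t : ℂ) * u k)) * (1 - (t : ℂ) * u0)‖ ≤ 1 / (M : ℝ) ^ 3 →
    ‖u0‖ ≤ M →
    ‖u0 - ∑ k, u k - 1‖ ≤ 1 / 20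

/-- (LOCZ). With `T = t M/2`, `‖T‖ ≤ 3`: the integrand is `exp (-sT)(1 - sT)` up to `1/100`, and
`∫_0^1 exp (-sT)(1 - sT) ds = exp (-T)`, `‖exp (-T)‖ ≥ exp (-3) ≥ 1/25`. -/
def S_LOCZ : Prop :=
  ∀ (M : ℕ) (u : Fin M → ℂ) (u0 t : ℂ), 10 ^ 9 ≤ M → ‖t‖ ≤ 6 / M → (∀ k, ‖u k - 1 / 2‖ ≤ 2) →
    ∑ k, ‖u k - 1 / 2‖ ≤ 1 / 10 ^ 6 * M → ‖u0 - M / 2‖ ≤ 1 / 10 ^ 6 * M →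
    (∫ s in (0:ℝ)..1, (∏ k, (1 - (s : ℂ) * (t * u k))) * (1 - (s : ℂ) * (t * u0))) ≠ 0

/-- (ESYM2). Put `b = 1 - t`, `y_k = ‖δ_k‖`, `Y = ∑ y_k ≤ q N`, `e_2 = ((∑ δ)² - ∑ δ²)/2`. The remainder
`∏ (b - t δ_k) - b^N + t b^(N-1) ∑ δ - t² b^(N-2) e_2` is dominated by the same expression
`R_3(t) = ∏ (b + t y_k) - b^N - t b^(N-1) Y - t² b^(N-2) e_2(y)` (induction over finsets, or expand the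
product over subsets: all coefficients of degree `≥ 3` are dominated).
For `t ≤ 1/2`: `R_3 ≤ b^N (exp v - 1 - v - v²/2) ≤ b^N v³ exp v`, `v = tY/b ≤ 2 t N q`, and
`b^N exp v ≤ exp (-tN/2)`, `∫_0^∞ t³ exp (-tN/2) = 96/N⁴`.
For `t ≥ 1/2`: `R_3 ≤ R_2 = ∏ (b + t y_k) - b^N - t b^(N-1) Y ≤ N² q² (1/2 + q)^(N-2)`.
Exact integrals: `(N+1) ∫_0^1 b^N = 1`, `(N+1) ∫ t b^(N-1) = 1/N`, `(N+1) ∫ t² b^(N-2) = 2/(N(N-1))`. -/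
def S_ESYM2 : Prop :=
  ∀ (N : ℕ) (δ : Fin N → ℂ) (q : ℝ), 10 ^ 6 ≤ N → 0 ≤ q → q ≤ 1 / 100 → ∑ k, ‖δ k‖ ≤ q * N →
    ‖(N + 1 : ℂ) * (∫ t in (0:ℝ)..1, ∏ k, (1 - (t : ℂ) * (1 + δ k))) -
      (1 - (∑ k, δ k) / N + ((∑ k, δ k) ^ 2 - ∑ k, δ k ^ 2) / (N * (N - 1)))‖ ≤
      10000 * q ^ 3 + q ^ 2 / N

/-- (ID): evaluate `P'`, `P''`, `P'''` at `a` for `P = (X - a) ∏ (X - z_j)`, `P' = (N+1) ∏ (X - w_k)`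
(`Pool.Agent.H565.Pm.P`). `P'(a) = Q(a) ≠ 0`, `P''(a) = 2 Q'(a)`, `P'''(a) = 3 Q''(a)`, `Q'/Q = S1`,
`Q''/Q = S1² - S2` at `a`. -/
def S_ID : Prop :=
  ∀ (N : ℕ) (a : ℝ) (z w : Fin N → ℂ),
    (∀ x : ℂ, (derivative (Pool.Agent.H565.Pm.P a z)).eval x = (N + 1 : ℂ) * ∏ k, (x - w k)) →
    (∀ k, w k ≠ (a : ℂ)) →
    (∀ j, z j ≠ (a : ℂ)) ∧
    ∑ k, ((a : ℂ) - w k)⁻¹ = 2 * ∑ j, ((a : ℂ) - z j)⁻¹ ∧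
    ∑ k, (((a : ℂ) - w k)⁻¹) ^ 2 =
      (∑ j, ((a : ℂ) - z j)⁻¹) ^ 2 + 3 * ∑ j, (((a : ℂ) - z j)⁻¹) ^ 2

end Pool.Agent.H250.MR
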