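import Pool.Agent.H250.MR.Large
import Pool.Agent.H250.MR.Stm3

set_option autoImplicit false

/-!
# The range near the circle: context, sums
-/

open MeasureTheory

namespace Pool.Agent.H250.MR

/-- the context: `x_k = 1/(w_k - a)`, `l = log n`, `n (1 - a) ≤ 4·10¹¹ l`, contradiction hypothesis
`∑ ‖x_k‖ ≤ N` -/
structure NC (N : ℕ) (a l : ℝ) (x : Fin N → ℂ) : Prop where
  hl : 10 ^ 24 ≤ l
  hN : 10 ^ 200 * l ^ 20 ≤ N
  hln : l = Real.log (N + 1)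
  ha1 : a < 1
  hε : (N + 1) * (1 - a) ≤ 4 * 10 ^ 11 * l
  hx : ∀ k, ‖1 + (a : ℂ) * x k‖ ≤ ‖x k‖
  hS : ∑ k, ‖x k‖ ≤ N

/-- `k0 = 10¹² l / N` -/
noncomputable def kk (N : ℕ) (l : ℝ) : ℝ := 10 ^ 12 * l / N
/-- `R = 1/(100 k0)` -/
noncomputable def RR (N : ℕ) (l : ℝ) : ℝ := N / (10 ^ 14 * l)
/-- far points -/
noncomputable def FF {N : ℕ} (l : ℝ) (x : Fin N → ℂ) : Finset (Fin N) :=
  Finset.univ.filter fun k => ‖x k‖ ≤ RR N l
/-- `∑_{far} Re u_k`, `u_k = - a x_k` -/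
noncomputable def AF {N : ℕ} (a l : ℝ) (x : Fin N → ℂ) : ℝ := ∑ k ∈ FF l x, -(a * (x k).re)
noncomputable def HF {N : ℕ} (a l : ℝ) (x : Fin N → ℂ) : ℝ :=
  ∑ k ∈ FF l x, (‖x k‖ - 1 - a * (x k).re)
noncomputable def SF {N : ℕ} (l : ℝ) (x : Fin N → ℂ) : ℝ := ∑ k ∈ (FF l x)ᶜ, ‖x k‖
/-- the integral over `[0, k0]` -/
noncomputable def I0 {N : ℕ} (a l : ℝ) (x : Fin N → ℂ) : ℂ :=
  ∫ t in (0:ℝ)..(kk N l), ∏ k, (1 - (t : ℂ) * (-((a : ℂ) * x k)))

section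

variable {N : ℕ} {a l : ℝ} {x : Fin N → ℂ}

lemma NC.l0 (h : NC N a l x) : 0 < l := by have := h.hl; linarith

lemma NC.N1 (h : NC N a l x) : 10 ^ 200 * l ≤ N := by
  have h1 := h.hl
  have h2 : l ≤ l ^ 20 := le_self_pow₀ (by linarith) (by norm_num)
  have h3 := h.hN
  linarith

lemma NC.N0 (h : NC N a l x) : (0 : ℝ) < N := by
  have h1 := h.N1
  have h2 := h.l0
  exact lt_of_lt_of_le (by positivity) h1

/-- `10¹⁰⁰ l^j ≤ N` for `j ≤ 20` -/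
lemma NC.Npow (h : NC N a l x) (j : ℕ) (hj : j ≤ 20) : 10 ^ 200 * l ^ j ≤ N := by
  have h1 := h.hl
  have h2 : l ^ j ≤ l ^ 20 := pow_le_pow_right₀ (by linarith) hj
  have h3 := h.hN
  linarith

lemma NC.Nbig (h : NC N a l x) : (10 : ℝ) ^ 200 ≤ N := by
  have := h.Npow 0 (by norm_num); simpa using this

lemma NC.eps (h : NC N a l x) : (1 - a) * N ≤ 4 * 10 ^ 11 * l := by
  have h1 := h.hε
  have h2 := h.ha1
  nlinarith

lemma NC.eps1 (h : NC N a l x) : 1 - a ≤ 1 / 10 ^ 100 := by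
  have h1 := h.eps
  have h2 := h.N1
  have h3 := h.l0
  have h4 := h.ha1
  by_contra hc
  rw [not_le] at hc
  have : 1 / 10 ^ 100 * (10 ^ 200 * l) ≤ (1 - a) * N :=
    mul_le_mul hc.le h2 (by positivity) (by linarith)
  linarith

lemma NC.a0 (h : NC N a l x) : 99 / 100 ≤ a := by have := h.eps1; linarith

lemma NC.kk_pos (h : NC N a l x) : 0 < kk N l := by
  have := h.l0; have := h.N0; unfold kk; positivity

lemma NC.kkN (h : NC N a l x) : kk N l * N = 10 ^ 12 * l := by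
  have := h.N0; unfold kk; field_simp

lemma NC.kkR (h : NC N a l x) : kk N l * RR N l = 1 / 100 := by
  have := h.N0; have := h.l0; unfold kk RR; field_simp; norm_num

lemma NC.RRl (h : NC N a l x) : RR N l * (10 ^ 14 * l) = N := by
  have := h.l0; unfold RR; field_simp

lemma NC.RR_pos (h : NC N a l x) : 0 < RR N l := by
  have := h.l0; have := h.N0; unfold RR; positivity

lemma NC.RRbig (h : NC N a l x) : (10 : ℝ) ^ 100 ≤ RR N l := by
  have h1 := h.N1; have h2 := h.l0; have h3 := h.RRl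
  by_contra hc
  rw [not_le] at hc
  have : RR N l * (10 ^ 14 * l) ≤ 10 ^ 100 * (10 ^ 14 * l) :=
    mul_le_mul_of_nonneg_right hc.le (by positivity)
  linarith

lemma NC.kk_small (h : NC N a l x) : kk N l ≤ 1 / 10 ^ 100 := by
  have h1 := h.kkR; have h2 := h.RRbig; have h3 := h.kk_pos
  have : kk N l * 10 ^ 100 ≤ kk N l * RR N l := mul_le_mul_of_nonneg_left h2 h3.le
  rw [le_div_iff₀ (by positivity)]
  linarith

lemma NC.epsR (h : NC N a l x) : (1 - a) * RR N l ≤ 4 / 1000 := by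
  have h1 := h.eps
  have h2 := h.RRl
  have h3 := h.l0
  have h4 : (1 - a) * RR N l * (10 ^ 14 * l) ≤ 4 / 1000 * (10 ^ 14 * l) := by
    have : (1 - a) * RR N l * (10 ^ 14 * l) = (1 - a) * N := by rw [mul_assoc, h2]
    rw [this]; linarith
  exact le_of_mul_le_mul_right h4 (by positivity)

lemma mem_FF {k : Fin N} : k ∈ FF l x ↔ ‖x k‖ ≤ RR N l := by simp [FF]

lemma not_FF {k : Fin N} (hk : k ∈ (FF l x)ᶜ) : RR N l < ‖x k‖ := by
  rw [Finset.mem_compl, mem_FF, not_le] at hk; exact hk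

/-- `Re u ≥ 1/2 - (1-a) r²` -/
lemma NC.alpha (h : NC N a l x) (k : Fin N) :
    1 / 2 - (1 - a) * ‖x k‖ ^ 2 ≤ -(a * (x k).re) := by
  have h1 : ‖1 + (a : ℂ) * x k‖ ^ 2 ≤ ‖x k‖ ^ 2 := pow_le_pow_left₀ (norm_nonneg _) (h.hx k) 2
  rw [sq_one_add] at h1
  have h2 : (1 - a ^ 2) * ‖x k‖ ^ 2 ≤ 2 * (1 - a) * ‖x k‖ ^ 2 := by
    refine mul_le_mul_of_nonneg_right ?_ (sq_nonneg _)
    nlinarith [sq_nonneg (1 - a)]
  linarith

/-- `r ≥ 1/2` -/
lemma NC.rlow (h : NC N a l x) (k : Fin N) : 1 / 2 ≤ ‖x k‖ := by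
  have h1 := p1 (by have := h.a0; linarith) (h.hx k)
  have := h.ha1
  nlinarith [norm_nonneg (x k)]

lemma NC.HF0 (h : NC N a l x) : 0 ≤ HF a l x := Finset.sum_nonneg fun k _ => p2 (h.hx k)

lemma SF0 : 0 ≤ SF l x := Finset.sum_nonneg fun _ _ => norm_nonneg _

lemma NC.sumF (_h : NC N a l x) :
    ∑ k ∈ FF l x, (‖x k‖ - 1) = HF a l x - AF a l x := by
  unfold HF AF
  rw [← Finset.sum_sub_distrib]
  exact Finset.sum_congr rfl fun k _ => by ring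

/-- `H + S - m ≤ A` -/
lemma NC.n1 (h : NC N a l x) :
    HF a l x + SF l x - (((FF l x)ᶜ).card : ℝ) ≤ AF a l x := by
  have h1 := sum_s_nonpos h.hS
  rw [← Finset.sum_add_sum_compl (FF l x), h.sumF] at h1
  have h2 : ∑ k ∈ (FF l x)ᶜ, (‖x k‖ - 1) = SF l x - (((FF l x)ᶜ).card : ℝ) := by
    unfold SF
    rw [Finset.sum_sub_distrib, Finset.sum_const, nsmul_eq_mul, mul_one]
  rw [h2] at h1
  linarith

/-- `m R ≤ S` -/
lemma NC.mR (_h : NC N a l x) : (((FF l x)ᶜ).card : ℝ) * RR N l ≤ SF l x := by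
  unfold SF
  rw [← nsmul_eq_mul, ← Finset.sum_const]
  exact Finset.sum_le_sum fun k hk => (not_FF hk).le

lemma NC.sumFle (h : NC N a l x) : ∑ k ∈ FF l x, ‖x k‖ + SF l x ≤ N := by
  unfold SF
  rw [Finset.sum_add_sum_compl]
  exact h.hS

lemma NC.sumFle' (h : NC N a l x) : ∑ k ∈ FF l x, ‖x k‖ ≤ N := by
  have := h.sumFle; have := SF0 (l := l) (x := x); linarith

lemma NC.SFle (h : NC N a l x) : SF l x ≤ N := by
  have h1 := h.sumFle
  have h2 : 0 ≤ ∑ k ∈ FF l x, ‖x k‖ := Finset.sum_nonneg fun _ _ => norm_nonneg _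
  linarith

/-- `m ≤ 10¹⁴ l` -/
lemma NC.m_le (h : NC N a l x) : (((FF l x)ᶜ).card : ℝ) ≤ 10 ^ 14 * l := by
  have h1 := h.mR
  have h2 := h.SFle
  have h3 := h.RRl
  have h4 := h.RR_pos
  have h5 : (((FF l x)ᶜ).card : ℝ) * RR N l ≤ 10 ^ 14 * l * RR N l := by linarith
  exact le_of_mul_le_mul_right h5 h4

lemma NC.cardF (_h : NC N a l x) :
    ((FF l x).card : ℝ) + (((FF l x)ᶜ).card : ℝ) = N := by
  have := Finset.card_add_card_compl (FF l x)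
  rw [Fintype.card_fin] at this
  exact_mod_cast this

/-- `∑_{far} r² ≤ R N` -/
lemma NC.sqF (h : NC N a l x) : ∑ k ∈ FF l x, ‖x k‖ ^ 2 ≤ RR N l * N := by
  have h1 : ∑ k ∈ FF l x, ‖x k‖ ^ 2 ≤ RR N l * ∑ k ∈ FF l x, ‖x k‖ := by
    rw [Finset.mul_sum]
    refine Finset.sum_le_sum fun k hk => ?_
    have := mem_FF.1 hk
    nlinarith [norm_nonneg (x k)]
  exact h1.trans (mul_le_mul_of_nonneg_left h.sumFle' h.RR_pos.le)

/-- `A ≥ (N - m)/2 - (1-a) ∑_{far} r²` -/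
lemma NC.Alow' (h : NC N a l x) :
    (N - (((FF l x)ᶜ).card : ℝ)) / 2 - (1 - a) * ∑ k ∈ FF l x, ‖x k‖ ^ 2 ≤ AF a l x := by
  have h1 : ∑ k ∈ FF l x, (1 / 2 - (1 - a) * ‖x k‖ ^ 2) ≤ AF a l x :=
    Finset.sum_le_sum fun k _ => h.alpha k
  rw [Finset.sum_sub_distrib, Finset.sum_const, nsmul_eq_mul, ← Finset.mul_sum] at h1
  have := h.cardF
  linarith

/-- `A ≥ 0.49 N` -/
lemma NC.Alow (h : NC N a l x) : 49 / 100 * N ≤ AF a l x := by
  have h1 := h.Alow'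
  have h2 := h.sqF
  have h3 := h.m_le
  have h4 := h.N1
  have h5 := h.l0
  have h6 := h.epsR
  have h7 : (1 - a) * ∑ k ∈ FF l x, ‖x k‖ ^ 2 ≤ (1 - a) * (RR N l * N) :=
    mul_le_mul_of_nonneg_left h2 (by have := h.ha1; linarith)
  have h8 : (1 - a) * (RR N l * N) ≤ 4 / 1000 * N := by
    rw [← mul_assoc]; exact mul_le_mul_of_nonneg_right h6 h.N0.le
  linarith

lemma NC.Aup (h : NC N a l x) : AF a l x ≤ a * N := by
  have h1 : AF a l x ≤ ∑ k ∈ FF l x, a * ‖x k‖ := by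
    unfold AF
    refine Finset.sum_le_sum fun k _ => ?_
    have h2 : -(x k).re ≤ ‖x k‖ := (neg_le_abs _).trans (Complex.abs_re_le_norm (x k))
    have h3 := h.a0
    nlinarith
  rw [← Finset.mul_sum] at h1
  exact h1.trans (mul_le_mul_of_nonneg_left h.sumFle' (by have := h.a0; linarith))

/-- `∑_{far} β² ≤ 2 R H` -/
lemma NC.Bup (h : NC N a l x) :
    ∑ k ∈ FF l x, (a * (x k).im) ^ 2 ≤ 2 * RR N l * HF a l x := by
  unfold HF
  rw [Finset.mul_sum]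
  refine Finset.sum_le_sum fun k hk => (p3 (h.hx k)).trans ?_
  have h1 := mem_FF.1 hk
  exact mul_le_mul_of_nonneg_right (by linarith) (p2 (h.hx k))

lemma NC.farsmall (h : NC N a l x) {k : Fin N} (hk : k ∈ FF l x) :
    kk N l * ‖-((a : ℂ) * x k)‖ ≤ 1 / 100 := by
  have h0 : 0 < a := by have := h.a0; linarith
  rw [u_norm h0, ← h.kkR]
  refine mul_le_mul_of_nonneg_left ?_ h.kk_pos.le
  have h1 := mem_FF.1 hk
  have h2 := h.ha1
  nlinarith [norm_nonneg (x k)]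

lemma NC.near_u (h : NC N a l x) :
    ∑ k ∈ (FF l x)ᶜ, ‖-((a : ℂ) * x k)‖ = a * SF l x := by
  have h0 : 0 < a := by have := h.a0; linarith
  simp only [u_norm h0]; rw [← Finset.mul_sum]; rfl

end

end Pool.Agent.H250.MR
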