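import Pool.Agent.H250.MR.NCpoly

set_option autoImplicit false

/-!
# Near the circle: assembly
-/

open MeasureTheory Polynomial

namespace Pool.Agent.H250.MR

open Pool.Agent.H565.Pm

section

variable {N : ℕ} {a l : ℝ} {x : Fin N → ℂ}

/-- `exp l ≥ 10^200 l^20 + 1` -/
lemma growth2 {l : ℝ} (hl : 10 ^ 24 ≤ l) : 10 ^ 200 * l ^ 20 + 1 ≤ Real.exp l := by
  have hl0 : 0 < l := by linarith
  have h1 : (l / 40) ^ 40 ≤ Real.exp l := by
    have h2 : l / 40 ≤ Real.exp (l / 40) := by have := Real.add_one_le_exp (l / 40); linarith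
    have h3 : Real.exp l = Real.exp (l / 40) ^ 40 := by
      rw [← Real.exp_nat_mul]; congr 1; push_cast; ring
    rw [h3]
    exact pow_le_pow_left₀ (by positivity) h2 40
  refine le_trans ?_ h1
  have e : (l / 40) ^ 40 = (l ^ 20 / 40 ^ 40) * l ^ 20 := by ring
  rw [e]
  have h4 : (10 ^ 24 : ℝ) ^ 20 ≤ l ^ 20 := pow_le_pow_left₀ (by norm_num) hl 20
  have h5 : (10 : ℝ) ^ 201 ≤ l ^ 20 / 40 ^ 40 := by
    rw [le_div_iff₀ (by positivity)]
    refine le_trans ?_ h4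
    norm_num
  have h6 : (10 : ℝ) ^ 201 * l ^ 20 ≤ l ^ 20 / 40 ^ 40 * l ^ 20 :=
    mul_le_mul_of_nonneg_right h5 (by positivity)
  have h7 : (1 : ℝ) ≤ l ^ 20 := one_le_pow₀ (by linarith)
  refine le_trans ?_ h6
  have h8 : (10 : ℝ) ^ 201 * l ^ 20 = 10 ^ 200 * l ^ 20 + 9 * 10 ^ 200 * l ^ 20 := by ring
  rw [h8]
  have h9 : (1 : ℝ) ≤ 9 * 10 ^ 200 * l ^ 20 := by
    have : (1 : ℝ) ≤ 9 * 10 ^ 200 := by norm_num
    nlinarith
  linarith

/-- the case of a tiny integral -/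
theorem NC.partC (hONE : S_ONE) (hLI : S_LOWIMP) (hPH3 : S_PH3) (hID : S_ID) (hLOCZ : S_LOCZ)
    (hC1 : S_C1) (hC2 : S_C2) (hC1F : S_C1F)
    (h : NC N a l x) (z w : Fin N → ℂ) (hz : ∀ j, ‖z j‖ ≤ 1)
    (hw : ∀ y : ℂ, (derivative (P a z)).eval y = (N + 1 : ℂ) * ∏ k, (y - w k))
    (hne : ∀ k, w k ≠ (a : ℂ)) (hxd : ∀ k, x k = (w k - (a : ℂ))⁻¹)
    (hJ : (N + 1 : ℝ) * ‖I0 a l x‖ ≤ 1 / (N : ℝ) ^ 20) : False := by
  obtain ⟨hm, hH⟩ := h.partC0 hJ
  have hN := h.N0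
  have hinv : 1 / (N : ℝ) ≤ 1 / 100 := by
    rw [div_le_div_iff₀ hN (by norm_num)]
    have := h.Nbig
    have h2 : (100 : ℝ) ≤ 10 ^ 200 := by norm_num
    linarith
  have hml := h.m_le
  have hl := h.hl
  rcases Nat.lt_or_ge 1 ((FF l x)ᶜ).card with h1 | h1
  · exact hC2 hLI hPH3 N a l x h hJ h1 (by linarith)
  · have h2 : ((FF l x)ᶜ).card = 1 := by omega
    rw [h2, Nat.cast_one] at hH
    obtain ⟨i0, e1, e2, e3, e4⟩ := hC1 hONE N a l x h hJ h2 (by linarith)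
    exact hC1F hID hLOCZ N a l x z w i0 h hz hw hne hxd e1 e2 e3 e4

/-- zeros near the circle -/
theorem core_near (hZ : S_ZPT) (hES : S_ESYM2) (hAF : S_AF) (hONE : S_ONE) (hLI : S_LOWIMP)
    (hPH3 : S_PH3) (hID : S_ID) (hLOCZ : S_LOCZ) (hC1 : S_C1) (hC2 : S_C2) (hC1F : S_C1F)
    (hN : 1 ≤ N) (ha0 : 0 < a) (ha1 : a < 1) (z w : Fin N → ℂ)
    (hz : ∀ j, ‖z j‖ ≤ 1)
    (hw : ∀ x : ℂ, (derivative (P a z)).eval x = (N + 1 : ℂ) * ∏ k, (x - w k))
    (hne : ∀ k, w k ≠ a) (hl : 10 ^ 24 ≤ Real.log (N + 1))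
    (hε : (N + 1) * (1 - a) ≤ 4 * 10 ^ 11 * Real.log (N + 1)) :
    (N : ℝ) < ∑ k, ‖w k - (a : ℂ)‖⁻¹ := by
  by_contra hcon
  rw [not_lt] at hcon
  have hw1 := crit_norm_le ha0.le ha1.le z w hz hw
  set x : Fin N → ℂ := fun k => (w k - (a : ℂ))⁻¹ with hxdef
  have hxd : ∀ k, x k = (w k - (a : ℂ))⁻¹ := fun _ => rfl
  have hsub : ∀ k, w k - (a : ℂ) ≠ 0 := fun k => sub_ne_zero.2 (hne k)
  have hxn : ∀ k, ‖x k‖ = ‖w k - (a : ℂ)‖⁻¹ := fun k => by rw [hxdef]; exact norm_inv _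
  have hx : ∀ k, ‖1 + (a : ℂ) * x k‖ ≤ ‖x k‖ := fun k =>
    R1f.norm_le' (hw1 k) (hne k) rfl
  have hS : ∑ k, ‖x k‖ ≤ N := by simpa only [hxn] using hcon
  set l : ℝ := Real.log (N + 1) with hldef
  have hNr : 10 ^ 200 * l ^ 20 ≤ N := by
    have h1 := growth2 hl
    rw [hldef, Real.exp_log (by positivity)] at h1
    linarith
  have h : NC N a l x := ⟨hl, hNr, hldef, ha1, hε, hx, hS⟩
  have hN0 := h.N0
  have hl0 := h.l0
  have ha := h.a0
  have hwx : ∀ k, 1 + (a : ℂ) * x k = w k * x k := fun k => R1f.one_add (hne k) rfl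
  have hinv30 : 1 / (N : ℝ) ^ 30 ≤ 1 / 10 * (1 / (N : ℝ) ^ 20) := by
    have hN1 : (10 : ℝ) ≤ N := by
      have := h.Nbig
      have h2 : (10 : ℝ) ≤ 10 ^ 200 := by norm_num
      linarith
    have e : 1 / 10 * (1 / (N : ℝ) ^ 20) = 1 / (10 * (N : ℝ) ^ 20) := by field_simp
    rw [e]
    apply one_div_le_one_div_of_le (by positivity)
    have h1 : (N : ℝ) ^ 30 = N ^ 10 * N ^ 20 := by ring
    rw [h1]
    refine mul_le_mul_of_nonneg_right ?_ (by positivity)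
    exact hN1.trans (le_self_pow₀ (by linarith) (by norm_num))
  have hinv20 : 1 / (N : ℝ) ^ 20 ≤ 1 / N := by
    apply one_div_le_one_div_of_le hN0
    refine le_self_pow₀ ?_ (by norm_num)
    have := h.Nbig
    have h2 : (1 : ℝ) ≤ 10 ^ 200 := by norm_num
    linarith
  have hinv1 : 1 / (N : ℝ) ≤ 10 ^ 14 * l / N := by
    refine div_le_div_of_nonneg_right ?_ hN0.le
    linarith
  have hκ : 10 ^ 14 * l / N ≤ 1 / 100 := by
    rw [div_le_iff₀ hN0]; have := h.N1; linarith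
  have hpc : (N + 1 : ℝ) * ‖I0 a l x‖ ≤ 1 / (N : ℝ) ^ 20 → False :=
    h.partC hONE hLI hPH3 hID hLOCZ hC1 hC2 hC1F z w hz hw hne hxd
  have htest : ∀ k1 : ℝ, 0 ≤ k1 → (N + 1 : ℝ) *
      ‖∫ t in (0:ℝ)..k1, ∏ k, (1 - (t : ℂ) * (-((a : ℂ) * x k)))‖ =
      k1 * (∏ k, ‖x k‖) * ∏ j, ‖((a * (1 - k1) : ℝ) : ℂ) - z j‖ := by
    intro k1 hk1
    have := test_y ha0 z w k1 hk1 hw hne (fun k => -((a : ℂ) * x k)) (by
      intro k
      rw [hxdef]
      simp only []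
      rw [← neg_sub (w k) (a : ℂ), inv_neg, mul_neg])
    simp only [hxn]
    exact this
  have hprod : ∏ k, ‖x k‖ ≤ Real.exp (-DD x) := F9 ha0 hx hS
  have hD0 := DD_nonneg ha0 hx
  have hprod0 : 0 ≤ ∏ k, ‖x k‖ := Finset.prod_nonneg fun _ _ => norm_nonneg _
  have hprod1 : ∏ k, ‖x k‖ ≤ 1 := hprod.trans (Real.exp_le_one_iff.2 (by linarith))
  -- sum of the `Re w`
  have hsumc := sum_crit hN z w hw
  have hsumr : (N : ℝ) * (a + ∑ j, (z j).re) = (N + 1) * ∑ k, (w k).re := by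
    have h1 := congrArg Complex.re hsumc
    have e1 : ((N : ℂ) * (a + ∑ j, z j)).re = (N : ℝ) * (a + ∑ j, (z j).re) := by
      rw [← Complex.re_sum]
      have : ((N : ℂ)) = ((N : ℝ) : ℂ) := by norm_cast
      rw [this, Complex.re_ofReal_mul, Complex.add_re, Complex.ofReal_re]
    have e2 : ((N + 1 : ℂ) * ∑ k, w k).re = (N + 1) * ∑ k, (w k).re := by
      rw [← Complex.re_sum]
      have : ((N + 1 : ℂ)) = ((N + 1 : ℝ) : ℂ) := by norm_cast
      rw [this, Complex.re_ofReal_mul]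
    rw [e1, e2] at h1
    exact h1
  rcases le_or_gt (∑ k, (w k).re) (a * N / 4) with hW | hW
  · -- case (I)
    have hWsum : ∑ k, (‖1 + (a : ℂ) * x k‖ ^ 2 - 1) / ‖x k‖ ^ 2 ≤ -(a ^ 2 * N / 2) := by
      have e : ∀ k, (‖1 + (a : ℂ) * x k‖ ^ 2 - 1) / ‖x k‖ ^ 2 = 2 * a * (w k).re - a ^ 2 := by
        intro k
        have hxk : 0 < ‖x k‖ := norm_pos_of ha0 (hx k)
        have h1 : ‖w k - (a : ℂ)‖ ^ 2 = ‖w k‖ ^ 2 - 2 * a * (w k).re + a ^ 2 := by
          rw [Complex.sq_norm, Complex.sq_norm, Complex.normSq_apply, Complex.normSq_apply]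
          simp
          ring
        have h2 : ‖x k‖ ^ 2 * ‖w k - (a : ℂ)‖ ^ 2 = 1 := by
          rw [hxn, inv_pow, inv_mul_cancel₀]
          exact pow_ne_zero 2 (norm_ne_zero_iff.2 (hsub k))
        rw [hwx, norm_mul, mul_pow, div_eq_iff (by positivity)]
        rw [h1] at h2
        linear_combination h2
      simp only [e]
      rw [Finset.sum_sub_distrib, ← Finset.mul_sum]
      simp only [Finset.sum_const, Finset.card_univ, Fintype.card_fin, nsmul_eq_mul]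
      have := mul_le_mul_of_nonneg_left hW (show (0:ℝ) ≤ 2 * a by linarith)
      linarith
    have hcut := h.cut (k1 := 1) (by have := h.kk_small; linarith) le_rfl (by
      intro t h1 h2
      rcases le_total t (19 / 20) with h3 | h3
      · exact h.tail1 h1 h3
      · exact h.tail2 hWsum h3 h2)
    rw [htest 1 zero_le_one, one_mul] at hcut
    have ez : ∏ j, ‖((a * (1 - 1) : ℝ) : ℂ) - z j‖ = ∏ j, ‖z j‖ :=
      Finset.prod_congr rfl fun j _ => by
        rw [sub_self, mul_zero, Complex.ofReal_zero, zero_sub, norm_neg]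
    rw [ez] at hcut
    have hz1 : ∏ j, ‖z j‖ ≤ 1 := Finset.prod_le_one (fun _ _ => norm_nonneg _) fun j _ => hz j
    have hz0 : 0 ≤ ∏ j, ‖z j‖ := Finset.prod_nonneg fun _ _ => norm_nonneg _
    have hpz : (∏ k, ‖x k‖) * ∏ j, ‖z j‖ ≤ ∏ k, ‖x k‖ := mul_le_of_le_one_right hprod0 hz1
    rcases le_or_gt (DD x) (50 * l) with hD | hD
    · have hB := h.partB hD
      have hJ : 1 - 2 * (10 ^ 14 * l / N) ≤ (∏ k, ‖x k‖) * ∏ j, ‖z j‖ := by
        have : 1 / (N : ℝ) ^ 30 ≤ 1 / (N : ℝ) ^ 20 := by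
          have : 0 ≤ 1 / (N : ℝ) ^ 20 := by positivity
          linarith
        linarith
      have hexpD : 1 - 2 * (10 ^ 14 * l / N) ≤ Real.exp (-DD x) := by linarith
      have hDsmall : DD x ≤ 10 ^ 15 * l / N := by
        have hD1 : DD x ≤ 1 := by
          by_contra hc
          rw [not_le] at hc
          have h1 : Real.exp (-DD x) ≤ Real.exp (-1) := Real.exp_le_exp.2 (by linarith)
          have h2 : Real.exp (-1) ≤ 1 / 2 := by
            rw [Real.exp_neg, one_div]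
            apply inv_anti₀ (by norm_num)
            have := Real.add_one_le_exp (1 : ℝ)
            linarith
          linarith
        have h3 : Real.exp (-DD x) ≤ 1 - DD x / 2 := by
          have h10 := Real.quadratic_le_exp_of_nonneg hD0
          rw [Real.exp_neg, inv_le_comm₀ (Real.exp_pos _) (by linarith)]
          refine le_trans ?_ h10
          rw [inv_le_iff_one_le_mul₀ (by linarith)]
          nlinarith [mul_nonneg hD0 hD0, mul_nonneg (mul_nonneg hD0 hD0) hD0]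
        have h4 : DD x ≤ 4 * (10 ^ 14 * l / N) := by linarith
        have h5 : 4 * (10 ^ 14 * l / N) = 4 * 10 ^ 14 * l / N := by ring
        rw [h5] at h4
        refine h4.trans (div_le_div_of_nonneg_right ?_ hN0.le)
        linarith
      have hZn := h.partA1 hZ z w hz hw hne hxd hWsum hJ
      have hRe := h.partA2 z w hw hxd hDsmall hZn
      exact hAF hES N a l x z w h hz hw hne hxd hDsmall hRe
    · apply hpc
      have h1 : Real.exp (-DD x) ≤ 1 / (N : ℝ) ^ 30 := by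
        refine le_trans (Real.exp_le_exp.2 ?_) (h.exp_neg 30)
        push_cast
        linarith
      have h0 : 0 ≤ 1 / (N : ℝ) ^ 20 := by positivity
      linarith
  · -- case (II)
    have hcut := h.cut (k1 := 3 / 4) (by have := h.kk_small; linarith) (by norm_num)
      (fun t h1 h2 => h.tail1 h1 (by linarith))
    rw [htest (3 / 4) (by norm_num)] at hcut
    have hy : a * (1 - 3 / 4) = a / 4 := by ring
    rw [hy] at hcut
    have h1 := prod_zeros_le (y := a / 4) z hz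
    have h2 : a * N / 4 - 3 / 4 * a ≤ ∑ j, (z j).re := by
      have h3 : (N + 1 : ℝ) * (a * N / 4) ≤ (N : ℝ) * (a + ∑ j, (z j).re) := by
        rw [hsumr]
        exact mul_le_mul_of_nonneg_left hW.le (by positivity)
      have h4 : (N : ℝ) * (a * N / 4 - 3 / 4 * a) ≤ N * ∑ j, (z j).re := by linarith
      exact le_of_mul_le_mul_left h4 hN0
    have h3 : Real.exp ((N * (a / 4) ^ 2 - 2 * (a / 4) * ∑ j, (z j).re) / 2) ≤
        1 / (N : ℝ) ^ 30 := by
      refine le_trans (Real.exp_le_exp.2 ?_) (h.exp_neg 30)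
      have h4 : 2 * (a / 4) * (a * N / 4 - 3 / 4 * a) ≤ 2 * (a / 4) * ∑ j, (z j).re :=
        mul_le_mul_of_nonneg_left h2 (by positivity)
      have h5 : 2 * (a / 4) * (a * N / 4 - 3 / 4 * a) = a ^ 2 * N / 8 - 3 / 8 * a ^ 2 := by ring
      have h6 : (N : ℝ) * (a / 4) ^ 2 = a ^ 2 * N / 16 := by ring
      have h7 : 1 / 2 * (N : ℝ) ≤ a ^ 2 * N :=
        mul_le_mul_of_nonneg_right (by nlinarith) hN0.le
      have h8 : a ^ 2 ≤ 1 := by nlinarith
      have h9 := h.N1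
      push_cast
      linarith
    have h4 : 3 / 4 * (∏ k, ‖x k‖) * ∏ j, ‖((a / 4 : ℝ) : ℂ) - z j‖ ≤ 1 / (N : ℝ) ^ 30 := by
      calc 3 / 4 * (∏ k, ‖x k‖) * ∏ j, ‖((a / 4 : ℝ) : ℂ) - z j‖
          ≤ 1 * ∏ j, ‖((a / 4 : ℝ) : ℂ) - z j‖ := by
            refine mul_le_mul_of_nonneg_right ?_ (Finset.prod_nonneg fun _ _ => norm_nonneg _)
            linarith
        _ ≤ _ := by rw [one_mul]; exact h1.trans h3
    apply hpc
    have h0 : 0 ≤ 1 / (N : ℝ) ^ 20 := by positivity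
    linarith

end

end Pool.Agent.H250.MR
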