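import Pool.Agent.H250.MR.NCdef

set_option autoImplicit false

/-!
# The cases of the range near the circle (statements; proofs wanted)

`u_k = - a x_k`, `r_k = ‖x_k‖`, `‖u_k‖ = a r_k` (`u_norm`, `u_re`, `u_im` in `Core.lean`), `m = card (FF l x)ᶜ`.
-/

open MeasureTheory Polynomial

namespace Pool.Agent.H250.MR

/-- (C2) at least two near points. Proof (`δ0 = 10^58 l^4`, `k0 = kk N l`, `R = RR N l`, `k0 R = 1/100`).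
`Γ = A - 7 k0 ∑_F β² - a S ≥ A - 0.14 H - a S ≥ - m` (`Bup`, `n1`). Take `i ≠ j` near,
(LOWIMP) with `F = FF l x`, `τ = 1/N`. There `∫_0^{k0} G ≤ 3 k0`, as `G ≤ exp (-t(A - aS) + t² ∑ β²)`,
`A - a S ≥ -m`, `k0 m ≤ 1/2`, `k0² ∑ β² ≤ k0² 2 R H ≤ 1/2`; and for `t ≤ 1/N`, `∏_F(..) ≥ exp (-tA - t² ∑_F α²) ≥ 1/8`
(`G_lower`-like; `∑_F α² ≤ R N ≤ N²`), `‖u_j‖ ≥ R/2`. So `-3 m k0 + (R/2)² d_i/(48 N³) ≤ N ‖I0‖ ≤ 1/N`,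
`d_i = ‖u_i‖ + Re u_i`, whence `d_i ≤ δ0` for ALL near `i` (as `m ≤ 10^14 l`). Then (PH3): `Re u_i < 0` for near `i`
(`d_i ≤ δ0 < R/2 ≤ ‖u_i‖`), `k0 ‖u_k‖ ≤ 1/100` for far `k` (`farsmall`); far: `h_k ≤ H ≤ 2·10^14 l` and
`r_k (1 - (1-a) R) ≤ 1/2 + h_k` (`alpha`) give `r_k ≤ 3·10^14 l`, `∑_F β² ≤ 2·3·10^14 l·H ≤ 10^30 l²` (`p3`), and
`|β| ≤ θ/2 + β²/(2θ)` with `θ = 10^-30/l²` gives `k0 ∑_F |β| ≤ 1/100`; near: `β² ≤ 2 ‖u‖ d ≤ 2 N δ0`,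
`|β| ≤ θ N/2 + β²/(2θN)` gives `k0 ∑_near |β| ≤ 1/100`. Finally `∏ (1 - t Re u_k) ≥ exp (-tA - t² ∑_F α²)`, so
`‖I0‖ ≥ (1/2)(1/N) exp(-2) ≥ 1/(16 N)`, contradiction. -/
def S_C2 : Prop :=
  S_LOWIMP → S_PH3 → ∀ (N : ℕ) (a l : ℝ) (x : Fin N → ℂ), NC N a l x →
    (N + 1 : ℝ) * ‖I0 a l x‖ ≤ 1 / (N : ℝ) ^ 20 → 2 ≤ ((FF l x)ᶜ).card →
    HF a l x ≤ 2 * 10 ^ 14 * l → False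

/-- (C1) exactly one near point. Proof. Far `k`: `h_k ≤ H ≤ 6/5` and `r(1 - (1-a)R) ≤ 1/2 + h` give `r_k ≤ 1.71`;
`1/2 - 4(1-a) ≤ α_k ≤ r_k ≤ 1/2 + h_k + 4(1-a)` (`alpha`, `r ≤ 2`), so `∑ |α_k - 1/2| ≤ 2·10^12 l`; `β_k² ≤ 4 h_k`,
`|β| ≤ θ/2 + β²/(2θ)`, `θ = 10^-7`. So `∑_F ‖u_k - 1/2‖ ≤ 10^-7 N`, each `‖u_k - 1/2‖² = ‖u‖² - Re u + 1/4 ≤ 4`.
Then (ONE) for the `M = N - 1` far points (`Fin.succAbove`, `Fin.prod_univ_succAbove`, `N = M + 1`), `u0 = u_{i0}`. -/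
def S_C1 : Prop :=
  S_ONE → ∀ (N : ℕ) (a l : ℝ) (x : Fin N → ℂ), NC N a l x →
    (N + 1 : ℝ) * ‖I0 a l x‖ ≤ 1 / (N : ℝ) ^ 20 → ((FF l x)ᶜ).card = 1 →
    HF a l x ≤ 6 / 5 →
    ∃ i0, (FF l x)ᶜ = {i0} ∧
      ‖-((a : ℂ) * x i0) - ∑ k ∈ FF l x, -((a : ℂ) * x k) - 1‖ ≤ 1 / 20 ∧
      ∑ k ∈ FF l x, ‖-((a : ℂ) * x k) - 1 / 2‖ ≤ 1 / 10 ^ 7 * N ∧
      ∀ k ∈ FF l x, ‖-((a : ℂ) * x k) - 1 / 2‖ ≤ 2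

/-- (C1F) one near point, second order test. `ε = 1 - a`, `M = N - 1`, `U = ∑_F u_k`, `u0 = U + E`,
`|E - 1| ≤ 1/20`, `v_k = 1/(a - w_k) = u_k/a`. (i) `∑_F r_k² ≤ 0.26 N`, so `Re U ≥ M/2 - 0.26 ε N` (`alpha`), and
`a N ≥ ∑ ‖u_k‖ ≥ 2 Re U + 0.95` gives `ε N ≤ 0.105`.
(ii) (ID): `T1 = ∑ v = 2 S1`, `T2 = ∑ v² = S1² + 3 S2`, `ζ_j = 1/(a - z_j)`; so
`3 S2 = T2 - T1²/4 = (∑_F u² + U E + (3/4)E²)/a²`, `Re S2 ≥ 0.23 N`.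
(iii) `|a - z_j| ≥ 5.9/N`: `test_c` (in `SmallTest.lean`) with `k1 = |a-z_j|/a`, `ω = (a-z_j)/|a-z_j|` gives
`∫_0^{k1} ∏ (1 - tωu_k) dt = 0`; substitute `t = k1 s` and use (LOCZ) with `t = k1 ω` (far points indexed by
`Fin.succAbove i0`). So `|ζ_j| ≤ N/5.9`.
(iv) `|z_j| ≤ 1` gives `2 a Re ζ ≥ 1 - (1-a²)|ζ|²`; `e_j := a Re ζ_j - 1/2 + ε |ζ_j|² ≥ 0`; `X = ∑ |ζ_j|²`;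
`∑ Re ζ_j = Re T1/2 ≤ N/2`, so `0 ≤ ∑ e_j ≤ εX - εN/2`: `X ≥ N/2`.
(v) `(a Re ζ)² ≤ 1/4 + e_j (1 + N/5.7) + 0.02 |ζ_j|²`, `X = 2 ∑ (Re ζ)² - Re S2 ≤ 0.3 N`. Contradiction. -/
def S_C1F : Prop :=
  S_ID → S_LOCZ → ∀ (N : ℕ) (a l : ℝ) (x z w : Fin N → ℂ) (i0 : Fin N), NC N a l x →
    (∀ j, ‖z j‖ ≤ 1) →
    (∀ y : ℂ, (derivative (Pool.Agent.H565.Pm.P a z)).eval y = (N + 1 : ℂ) * ∏ k, (y - w k)) →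
    (∀ k, w k ≠ (a : ℂ)) → (∀ k, x k = (w k - (a : ℂ))⁻¹) → (FF l x)ᶜ = {i0} →
    ‖-((a : ℂ) * x i0) - ∑ k ∈ FF l x, -((a : ℂ) * x k) - 1‖ ≤ 1 / 20 →
    ∑ k ∈ FF l x, ‖-((a : ℂ) * x k) - 1 / 2‖ ≤ 1 / 10 ^ 7 * N →
    (∀ k ∈ FF l x, ‖-((a : ℂ) * x k) - 1 / 2‖ ≤ 2) → False

/-- (AF) all points close to 1. `ε = 1 - a`, `δ_k = u_k - 1`, `D = DD x`, `Y = ∑ (‖u_k‖ - Re u_k)`,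
`X = ∑ (‖u_k‖ - 1)² ≤ 8 D + 2 ε² N` (`d1`, `d2`, `r ≤ 2`), `q² N = X + 2Y = ∑ ‖δ‖²`, `q ≤ 10^-80`.
`e1 = ∑ δ`, `Re e1 = -(εN + aσ + Y)`, `σ = N - ∑ r ≥ 0`. (ESYM2) gives
`n|I| ≥ 1 + 0.9 ε + 0.9 Y/N - (Im e1)²/(N(N-1)) - 10^-50 D`, `I = ∫_0^1`; and `n|I| = ∏ r ∏ |z_j| ≤ (1 - D/2) ∏ |z_j|`
(`test_y` at `k1 = 1`, `F9`). If `(Im e1)² ≤ N Y/4`: contradiction. Otherwise, `(Im e1)² ≤ 2.2 N Y` (Cauchy-Schwarz);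
if `2.3 Y/N ≤ ε/2 + D/4`: contradiction. Otherwise `ε ≤ 5Y/N`, `D ≤ 10 Y/N`, `X ≤ Y`, `q ≤ 2s`, `s = √(Y/N)`, and
`∏ |z_j| ≥ 1 - 2.4 s²`. Test at `y = ± i s/4` (`θ = s/4`, sign = sign of `Im ∑ z_j`): `P(0) = P(y) - ∫_0^y P'`,
`|P'(ty)| ≤ n ∏ (θ + |w_k|) ≤ n (θ + 2q)^N ≤ 27 q³` (`|w_k| ≤ 2 |δ_k|`; `∏ b_k ≤ (mean)^N`),
`|P(y)| ≤ |y-a| exp (Nθ²/2 - θ |Im ∑ z|)` (`prod_zeros_c`), `|Im ∑ z| ≥ |Im ∑ w| ≥ 0.99 |Im e1| - 6Y ≥ sN/3`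
(`sum_crit`; `w = a(δ - δ²/u)`), so `∏ |z_j| ≤ (1 + s²) exp(-Y/20) + 108 s⁴ < 1 - 2.4 s²`. Contradiction. -/
def S_AF : Prop :=
  S_ESYM2 → ∀ (N : ℕ) (a l : ℝ) (x z w : Fin N → ℂ), NC N a l x →
    (∀ j, ‖z j‖ ≤ 1) →
    (∀ y : ℂ, (derivative (Pool.Agent.H565.Pm.P a z)).eval y = (N + 1 : ℂ) * ∏ k, (y - w k)) →
    (∀ k, w k ≠ (a : ℂ)) → (∀ k, x k = (w k - (a : ℂ))⁻¹) →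
    DD x ≤ 10 ^ 15 * l / N → N - 10 ^ 16 * l ≤ (∑ k, -((a : ℂ) * x k)).re → False

end Pool.Agent.H250.MR
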