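import Pool.Agent.H250.MR.NCtail
import Pool.Agent.H250.MR.NCstm

set_option autoImplicit false

/-!
# Near the circle: the polynomial
-/

open MeasureTheory Polynomial

namespace Pool.Agent.H250.MR

open Pool.Agent.H565.Pm

section

variable {N : ℕ} {a l : ℝ} {x : Fin N → ℂ}

/-- `P'` is tiny near 0 -/
lemma NC.dP (hZ : S_ZPT) (h : NC N a l x) (z w : Fin N → ℂ)
    (hw : ∀ y : ℂ, (derivative (P a z)).eval y = (N + 1 : ℂ) * ∏ k, (y - w k))
    (hne : ∀ k, w k ≠ (a : ℂ)) (hxd : ∀ k, x k = (w k - (a : ℂ))⁻¹)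
    (hW : ∑ k, (‖1 + (a : ℂ) * x k‖ ^ 2 - 1) / ‖x k‖ ^ 2 ≤ -(a ^ 2 * N / 2))
    (y : ℂ) (hy : ‖y‖ ≤ 1 / 5000) :
    ‖(derivative (P a z)).eval y‖ * ∏ k, ‖x k‖ ≤ 1 := by
  have hN := h.N0
  have ha0 := h.a0
  have ha1 := h.ha1
  have hm1 : ‖(N + 1 : ℂ)‖ = (N + 1 : ℝ) := by
    have : (N + 1 : ℂ) = ((N + 1 : ℝ) : ℂ) := by push_cast; rfl
    rw [this, Complex.norm_real, Real.norm_eq_abs, abs_of_pos (by positivity)]
  have hb : ∀ k, ‖y - w k‖ * ‖x k‖ ≤ ‖1 + (a : ℂ) * x k‖ + 1 / 5000 * ‖x k‖ := by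
    intro k
    rw [← norm_mul]
    have e : (y - w k) * x k = y * x k - (1 + (a : ℂ) * x k) := by
      rw [R1f.one_add (hne k) (hxd k)]; ring
    rw [e]
    refine (norm_sub_le _ _).trans ?_
    rw [norm_mul]
    have := mul_le_mul_of_nonneg_right hy (norm_nonneg (x k))
    linarith
  have h1 : ∀ k, ‖((‖1 + (a : ℂ) * x k‖ + 1 / 5000 * ‖x k‖ : ℝ) : ℂ)‖ ^ 2 ≤
      Real.exp (2 * (1 - 1 / 256) * (‖x k‖ - 1) +
        (‖1 + (a : ℂ) * x k‖ ^ 2 - 1) / ‖x k‖ ^ 2 / 256 + 4 * (1 / 5000)) := by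
    intro k
    have h0 : 0 ≤ ‖1 + (a : ℂ) * x k‖ + 1 / 5000 * ‖x k‖ := by positivity
    rw [Complex.norm_real, Real.norm_eq_abs, abs_of_nonneg h0]
    have h2 := hZ a (1 / 5000) (x k) (by linarith) ha1 (by norm_num) (by norm_num) (h.hx k)
    have e : (‖1 + (a : ℂ) * x k‖ ^ 2 - 1) / ‖x k‖ ^ 2 / 256 =
        (‖1 + (a : ℂ) * x k‖ ^ 2 - 1) / (256 * ‖x k‖ ^ 2) := by
      rw [div_div, mul_comm (‖x k‖ ^ 2)]
    rw [e]
    exact h2
  have h2 := prod_le_exp _ _ h1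
  rw [norm_prod] at h2
  rw [hw, norm_mul, norm_prod, hm1, mul_assoc, ← Finset.prod_mul_distrib]
  have h3 : ∏ k, (‖y - w k‖ * ‖x k‖) ≤
      ∏ k, ‖((‖1 + (a : ℂ) * x k‖ + 1 / 5000 * ‖x k‖ : ℝ) : ℂ)‖ := by
    refine Finset.prod_le_prod (fun _ _ => by positivity) fun k _ => ?_
    have h0 : 0 ≤ ‖1 + (a : ℂ) * x k‖ + 1 / 5000 * ‖x k‖ := by positivity
    rw [Complex.norm_real, Real.norm_eq_abs, abs_of_nonneg h0]
    exact hb k
  have h4 : (∑ k, (2 * (1 - 1 / 256) * (‖x k‖ - 1) +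
        (‖1 + (a : ℂ) * x k‖ ^ 2 - 1) / ‖x k‖ ^ 2 / 256 + 4 * (1 / 5000))) / 2 ≤ -l := by
    rw [Finset.sum_add_distrib, Finset.sum_add_distrib, ← Finset.mul_sum, Finset.sum_sub_distrib,
      ← Finset.sum_div]
    simp only [Finset.sum_const, Finset.card_univ, Fintype.card_fin, nsmul_eq_mul, mul_one]
    have h5 : 2 * (1 - 1 / 256) * (∑ k, ‖x k‖ - N) ≤ 0 :=
      mul_nonpos_of_nonneg_of_nonpos (by norm_num) (by have := h.hS; linarith)
    have h6 : 98 / 100 * (N : ℝ) ≤ a ^ 2 * N :=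
      mul_le_mul_of_nonneg_right (by nlinarith) hN.le
    have h7 := h.N1
    have h8 := h.l0
    linarith
  have h5 : ∏ k, (‖y - w k‖ * ‖x k‖) ≤ Real.exp (-l) :=
    h3.trans (h2.trans (Real.exp_le_exp.2 h4))
  calc (N + 1 : ℝ) * ∏ k, (‖y - w k‖ * ‖x k‖) ≤ (N + 1) * Real.exp (-l) :=
        mul_le_mul_of_nonneg_left h5 (by positivity)
    _ = 1 := by rw [← h.expl, ← Real.exp_add]; simp

lemma evalP_norm {a : ℝ} (z : Fin N → ℂ) (y : ℂ) :
    ‖(P a z).eval y‖ = ‖y - (a : ℂ)‖ * ∏ j, ‖y - z j‖ := by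
  unfold P
  simp only [eval_mul, eval_sub, eval_X, eval_C, eval_prod]
  rw [norm_mul, norm_prod]

/-- (A1) the sum of the zeros is small -/
theorem NC.partA1 (hZ : S_ZPT) (h : NC N a l x) (z w : Fin N → ℂ) (hz : ∀ j, ‖z j‖ ≤ 1)
    (hw : ∀ y : ℂ, (derivative (P a z)).eval y = (N + 1 : ℂ) * ∏ k, (y - w k))
    (hne : ∀ k, w k ≠ (a : ℂ)) (hxd : ∀ k, x k = (w k - (a : ℂ))⁻¹)
    (hW : ∑ k, (‖1 + (a : ℂ) * x k‖ ^ 2 - 1) / ‖x k‖ ^ 2 ≤ -(a ^ 2 * N / 2))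
    (hJ : 1 - 2 * (10 ^ 14 * l / N) ≤ (∏ k, ‖x k‖) * ∏ j, ‖z j‖) :
    ‖∑ j, z j‖ ≤ 10 ^ 8 * l := by
  by_contra hc
  rw [not_le] at hc
  have hN := h.N0
  have hl := h.l0
  have hl1 := h.hl
  have ha0 := h.a0
  have ha1 := h.ha1
  set Z := ∑ j, z j with hZdef
  have hZ0 : 0 < ‖Z‖ := by have : 0 < 10 ^ 8 * l := by positivity
                           linarith
  have hZc : ((‖Z‖ : ℝ) : ℂ) ≠ 0 := by exact_mod_cast hZ0.ne'
  set θ : ℝ := 10 ^ 8 * l / N with hθ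
  have hθ0 : 0 < θ := by rw [hθ]; positivity
  have hθN : θ * N = 10 ^ 8 * l := by rw [hθ]; field_simp
  have hθs : θ ≤ 1 / 5000 := by
    rw [hθ, div_le_iff₀ hN]; have := h.N1; linarith
  set y : ℂ := (θ / ‖Z‖ : ℝ) * Z with hy
  have hyn : ‖y‖ = θ := by
    rw [hy, norm_mul, Complex.norm_real, Real.norm_eq_abs, abs_of_pos (by positivity)]
    field_simp
  have hyZ : ((starRingEnd ℂ) y * Z).re = θ * ‖Z‖ := by
    have e : (starRingEnd ℂ) y * Z = ((θ / ‖Z‖ * ‖Z‖ ^ 2 : ℝ) : ℂ) := by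
      rw [hy, map_mul, Complex.conj_ofReal, mul_assoc, mul_comm ((starRingEnd ℂ) Z),
        Complex.mul_conj, Complex.normSq_eq_norm_sq]
      push_cast; ring
    rw [e, Complex.ofReal_re]
    field_simp
  have hprod1 : ∏ k, ‖x k‖ ≤ 1 :=
    (F9 (by linarith) h.hx h.hS).trans
      (Real.exp_le_one_iff.2 (by have := DD_nonneg (by linarith) h.hx; linarith))
  have hprod0 : 0 ≤ ∏ k, ‖x k‖ := Finset.prod_nonneg fun _ _ => norm_nonneg _
  -- mean value inequality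
  have hmv : (∏ k, ‖x k‖) * ‖(P a z).eval 0‖ ≤ (∏ k, ‖x k‖) * ‖(P a z).eval y‖ + θ := by
    rcases hprod0.eq_or_lt with h0 | h0
    · rw [← h0, zero_mul, zero_mul, zero_add]; exact hθ0.le
    · have hbd : ∀ v ∈ Metric.closedBall (0:ℂ) (1 / 5000),
          ‖deriv (fun v => (P a z).eval v) v‖ ≤ 1 / ∏ k, ‖x k‖ := by
        intro v hv
        rw [Polynomial.deriv, le_div_iff₀ h0]
        exact h.dP hZ z w hw hne hxd hW v (by simpa using hv)
      have hcv := Convex.norm_image_sub_le_of_norm_deriv_le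
        (f := fun v => (P a z).eval v) (fun v _ => (P a z).differentiable v) hbd
        (convex_closedBall (0:ℂ) (1 / 5000)) (x := y) (y := 0)
        (by simp only [mem_closedBall_zero_iff]; rw [hyn]; exact hθs)
        (by simp)
      rw [zero_sub, norm_neg, hyn] at hcv
      have h1 : ‖(P a z).eval 0‖ ≤ ‖(P a z).eval y‖ + 1 / (∏ k, ‖x k‖) * θ := by
        have := norm_sub_norm_le ((P a z).eval 0) ((P a z).eval y)
        linarith
      have h2 := mul_le_mul_of_nonneg_left h1 h0.le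
      have h3 : (∏ k, ‖x k‖) * (‖(P a z).eval y‖ + 1 / (∏ k, ‖x k‖) * θ) =
          (∏ k, ‖x k‖) * ‖(P a z).eval y‖ + θ := by
        have := h0.ne'
        field_simp
      rwa [h3] at h2
  rw [evalP_norm, evalP_norm] at hmv
  have e1 : ‖(0:ℂ) - (a : ℂ)‖ = a := by
    rw [zero_sub, norm_neg, Complex.norm_real, Real.norm_eq_abs, abs_of_pos (by linarith)]
  have e2 : ∏ j, ‖(0:ℂ) - z j‖ = ∏ j, ‖z j‖ :=
    Finset.prod_congr rfl fun j _ => by rw [zero_sub, norm_neg]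
  rw [e1, e2] at hmv
  have h4 : ‖y - (a : ℂ)‖ ≤ a + θ := by
    refine (norm_sub_le _ _).trans ?_
    rw [hyn, Complex.norm_real, Real.norm_eq_abs, abs_of_pos (by linarith)]
    linarith
  set s : ℝ := 10 ^ 16 * l ^ 2 / (2 * N) with hs
  have hs0 : 0 < s := by rw [hs]; positivity
  have hs1 : s ≤ 1 := by
    rw [hs, div_le_one (by positivity)]
    have := h.Npow 2 (by norm_num)
    have h0 : 0 ≤ l ^ 2 := by positivity
    linarith
  have h5 : ∏ j, ‖y - z j‖ ≤ 1 - s / 2 := by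
    refine (prod_zeros_c y z hz).trans ?_
    rw [← hZdef, hyZ, hyn]
    have h6 : (N * θ ^ 2 - 2 * (θ * ‖Z‖)) / 2 ≤ -s := by
      have h7 : θ * (10 ^ 8 * l) ≤ θ * ‖Z‖ := mul_le_mul_of_nonneg_left hc.le hθ0.le
      have h8 : (N : ℝ) * θ ^ 2 = θ * (10 ^ 8 * l) := by rw [← hθN]; ring
      have h9 : θ * (10 ^ 8 * l) = 2 * s := by rw [hθ, hs]; field_simp
      linarith
    refine (Real.exp_le_exp.2 h6).trans ?_
    have h10 := Real.quadratic_le_exp_of_nonneg hs0.le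
    rw [Real.exp_neg, inv_le_comm₀ (Real.exp_pos _) (by linarith)]
    refine le_trans ?_ h10
    rw [inv_le_iff_one_le_mul₀ (by linarith)]
    nlinarith [mul_nonneg hs0.le hs0.le]
  have h6 : 0 ≤ ∏ j, ‖y - z j‖ := Finset.prod_nonneg fun _ _ => norm_nonneg _
  have h7 : (∏ k, ‖x k‖) * (‖y - (a : ℂ)‖ * ∏ j, ‖y - z j‖) ≤ (a + θ) * (1 - s / 2) := by
    have h8 : ‖y - (a : ℂ)‖ * ∏ j, ‖y - z j‖ ≤ (a + θ) * (1 - s / 2) :=
      mul_le_mul h4 h5 h6 (by linarith)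
    have h9 : 0 ≤ ‖y - (a : ℂ)‖ * ∏ j, ‖y - z j‖ := by positivity
    calc _ ≤ 1 * (‖y - (a : ℂ)‖ * ∏ j, ‖y - z j‖) := mul_le_mul_of_nonneg_right hprod1 h9
      _ ≤ _ := by rw [one_mul]; exact h8
  have h8 : a * (1 - 2 * (10 ^ 14 * l / N)) ≤ (∏ k, ‖x k‖) * (a * ∏ j, ‖z j‖) := by
    have := mul_le_mul_of_nonneg_left hJ (show 0 ≤ a by linarith)
    calc _ ≤ a * ((∏ k, ‖x k‖) * ∏ j, ‖z j‖) := this
      _ = _ := by ring
  have h9 : a * (1 - 2 * (10 ^ 14 * l / N)) ≤ (a + θ) * (1 - s / 2) + θ := by linarith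
  have h10 : a * (s / 2) ≤ 2 * (10 ^ 14 * l / N) + 2 * θ := by
    have h11 : a * (2 * (10 ^ 14 * l / N)) ≤ 1 * (2 * (10 ^ 14 * l / N)) :=
      mul_le_mul_of_nonneg_right (by linarith) (by positivity)
    have h12 : 0 ≤ θ * (s / 2) := by positivity
    nlinarith
  have h11 : 1 / 2 * (s / 2) ≤ a * (s / 2) := mul_le_mul_of_nonneg_right (by linarith) (by positivity)
  have h12 : s = 5 * 10 ^ 15 * l ^ 2 / N := by rw [hs]; field_simp; ring
  have h13 : 1 / 4 * (5 * 10 ^ 15 * l ^ 2 / N) ≤ 3 * 10 ^ 14 * l / N := by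
    rw [← h12]
    have e : 3 * 10 ^ 14 * l / N = 2 * (10 ^ 14 * l / N) + 10 ^ 14 * l / N := by ring
    rw [e]
    have h14 : 2 * θ ≤ 10 ^ 14 * l / N := by
      have : 2 * θ = 2 * 10 ^ 8 * l / N := by rw [hθ]; ring
      rw [this]
      refine div_le_div_of_nonneg_right ?_ hN.le
      linarith
    linarith
  have h14 : 1 / 4 * (5 * 10 ^ 15 * l ^ 2 / N) = (5 / 4 * 10 ^ 15 * l ^ 2) / N := by ring
  rw [h14, div_le_div_iff_of_pos_right hN] at h13
  have h15 : 10 ^ 24 * l ≤ l ^ 2 := by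
    rw [pow_two]; exact mul_le_mul_of_nonneg_right hl1 hl.le
  linarith

/-- (A2) `Re U` is almost `N` -/
theorem NC.partA2 (h : NC N a l x) (z w : Fin N → ℂ)
    (hw : ∀ y : ℂ, (derivative (P a z)).eval y = (N + 1 : ℂ) * ∏ k, (y - w k))
    (hxd : ∀ k, x k = (w k - (a : ℂ))⁻¹)
    (hD : DD x ≤ 10 ^ 15 * l / N) (hZ : ‖∑ j, z j‖ ≤ 10 ^ 8 * l) :
    N - 10 ^ 16 * l ≤ (∑ k, -((a : ℂ) * x k)).re := by
  have hN := h.N0
  have hN1 : 1 ≤ N := by
    have : (0 : ℝ) < N := hN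
    exact_mod_cast this
  have hl := h.l0
  have hl1 := h.hl
  have ha0 := h.a0
  have ha1 := h.ha1
  have ha0' : 0 < a := by linarith
  have hDs : 10 ^ 15 * l / N ≤ 1 / 10 := by
    rw [div_le_iff₀ hN]; have := h.N1; linarith
  -- the mean of the critical points
  have hsum := sum_crit hN1 z w hw
  have hWn : ‖∑ k, w k‖ ≤ 10 ^ 9 * l := by
    have h1 := congrArg norm hsum
    rw [norm_mul, norm_mul, Complex.norm_natCast] at h1
    have hm1 : ‖(N + 1 : ℂ)‖ = (N + 1 : ℝ) := by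
      have : (N + 1 : ℂ) = ((N + 1 : ℝ) : ℂ) := by push_cast; rfl
      rw [this, Complex.norm_real, Real.norm_eq_abs, abs_of_pos (by positivity)]
    rw [hm1] at h1
    have h2 : ‖(a : ℂ) + ∑ j, z j‖ ≤ 10 ^ 9 * l := by
      refine (norm_add_le _ _).trans ?_
      rw [Complex.norm_real, Real.norm_eq_abs, abs_of_pos ha0']
      linarith
    have h3 : (N + 1 : ℝ) * ‖∑ k, w k‖ ≤ (N + 1) * (10 ^ 9 * l) := by
      rw [← h1]
      exact mul_le_mul (by linarith) h2 (norm_nonneg _) (by positivity)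
    exact le_of_mul_le_mul_left h3 (by positivity)
  have hWre : ∑ k, (w k).re ≤ 10 ^ 9 * l := by
    rw [← Complex.re_sum]
    exact (Complex.re_le_norm _).trans hWn
  -- pointwise
  have hpt : ∀ k, -(w k - (a : ℂ)).re - 3 * |‖x k‖ - 1| ≤ -(x k).re := by
    intro k
    have hr := h.rlow k
    have hr0 : 0 < ‖x k‖ := by linarith
    have hxk : x k ≠ 0 := norm_pos_iff.1 hr0
    have hwx : w k - (a : ℂ) = (x k)⁻¹ := by rw [hxd k, inv_inv]
    have h1 : (w k - (a : ℂ)).re = (x k).re / ‖x k‖ ^ 2 := by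
      rw [hwx, Complex.inv_re, Complex.normSq_eq_norm_sq]
    have h2 : (x k).re = (w k - (a : ℂ)).re * ‖x k‖ ^ 2 := by
      rw [h1]; field_simp
    have h3 : |(w k - (a : ℂ)).re| ≤ 1 / ‖x k‖ := by
      refine (Complex.abs_re_le_norm _).trans ?_
      rw [hwx, norm_inv, one_div]
    have h4 : |(w k - (a : ℂ)).re * (‖x k‖ ^ 2 - 1)| ≤ 3 * |‖x k‖ - 1| := by
      rw [abs_mul]
      have e : |‖x k‖ ^ 2 - 1| = (‖x k‖ + 1) * |‖x k‖ - 1| := by
        have : ‖x k‖ ^ 2 - 1 = (‖x k‖ + 1) * (‖x k‖ - 1) := by ring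
        rw [this, abs_mul, abs_of_pos (by linarith)]
      rw [e]
      have h5 : 1 / ‖x k‖ * (‖x k‖ + 1) ≤ 3 := by
        rw [one_div, inv_mul_le_iff₀ hr0]; linarith
      calc |(w k - (a : ℂ)).re| * ((‖x k‖ + 1) * |‖x k‖ - 1|)
          ≤ 1 / ‖x k‖ * ((‖x k‖ + 1) * |‖x k‖ - 1|) :=
            mul_le_mul_of_nonneg_right h3 (by positivity)
        _ = (1 / ‖x k‖ * (‖x k‖ + 1)) * |‖x k‖ - 1| := by ring
        _ ≤ 3 * |‖x k‖ - 1| := mul_le_mul_of_nonneg_right h5 (abs_nonneg _)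
    have h5 := (abs_le.1 h4).2
    have h6 : (x k).re = (w k - (a : ℂ)).re + (w k - (a : ℂ)).re * (‖x k‖ ^ 2 - 1) := by
      rw [h2]; ring
    linarith
  -- the sum of the |r - 1|
  have habs : ∑ k, |‖x k‖ - 1| ≤ 2 * l := by
    have h1 : ∀ k, |‖x k‖ - 1| ≤ l / N / 2 + (N / l) * (2 * (‖x k‖ - 1 - Real.log ‖x k‖)) := by
      intro k
      have hr0 := norm_pos_of ha0' (h.hx k)
      have hd0 := d0 hr0
      have hdk : ‖x k‖ - 1 - Real.log ‖x k‖ ≤ 1 / 10 := by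
        have h2 : ‖x k‖ - 1 - Real.log ‖x k‖ ≤ DD x :=
          Finset.single_le_sum (f := fun k => ‖x k‖ - 1 - Real.log ‖x k‖)
            (fun i _ => d0 (norm_pos_of ha0' (h.hx i))) (Finset.mem_univ k)
        linarith
      have hr2 : ‖x k‖ ≤ 2 := by
        by_contra hc
        rw [not_le] at hc
        have := d3 hc.le
        linarith
      have hsq : (‖x k‖ - 1) ^ 2 ≤ 4 * (‖x k‖ - 1 - Real.log ‖x k‖) := by
        rcases le_total ‖x k‖ 1 with h3 | h3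
        · have := d2 hr0 h3
          linarith
        · have h4 := d1 h3
          rw [div_le_iff₀ (by linarith)] at h4
          nlinarith
      have h5 : |‖x k‖ - 1| ≤ l / N / 2 + (N / l) * ((‖x k‖ - 1) ^ 2 / 2) := by
        have e : (‖x k‖ - 1) ^ 2 = |‖x k‖ - 1| ^ 2 := (sq_abs _).symm
        rw [e]
        set p := |‖x k‖ - 1|
        have h6 : l / N / 2 + (N / l) * (p ^ 2 / 2) - p = (l / N - p) ^ 2 / (2 * (l / N)) := by
          field_simp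
          ring
        have h7 : 0 ≤ (l / N - p) ^ 2 / (2 * (l / N)) := by positivity
        linarith
      refine h5.trans ?_
      have : (N / l) * ((‖x k‖ - 1) ^ 2 / 2) ≤
          (N / l) * (2 * (‖x k‖ - 1 - Real.log ‖x k‖)) :=
        mul_le_mul_of_nonneg_left (by linarith) (by positivity)
      linarith
    refine (Finset.sum_le_sum fun k _ => h1 k).trans ?_
    rw [Finset.sum_add_distrib, ← Finset.mul_sum, ← Finset.mul_sum]
    simp only [Finset.sum_const, Finset.card_univ, Fintype.card_fin, nsmul_eq_mul]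
    have h2 : (N : ℝ) * (l / N / 2) = l / 2 := by field_simp
    have h3 : (N / l) * (2 * ∑ k, (‖x k‖ - 1 - Real.log ‖x k‖)) ≤
        (N / l) * (2 * (10 ^ 15 * l / N)) :=
      mul_le_mul_of_nonneg_left (by have := hD; unfold DD at this; linarith) (by positivity)
    have h4 : (N / l) * (2 * (10 ^ 15 * l / N)) = 2 * 10 ^ 15 := by field_simp
    rw [h2]
    rw [h4] at h3
    linarith
  have h1 : ∑ k, (-(w k - (a : ℂ)).re - 3 * |‖x k‖ - 1|) ≤ ∑ k, -(x k).re :=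
    Finset.sum_le_sum fun k _ => hpt k
  rw [Finset.sum_sub_distrib, ← Finset.mul_sum] at h1
  have h2 : ∑ k, -(w k - (a : ℂ)).re = a * N - ∑ k, (w k).re := by
    have : ∀ k, -(w k - (a : ℂ)).re = a - (w k).re := fun k => by simp
    simp only [this]
    rw [Finset.sum_sub_distrib]
    simp [mul_comm]
  rw [h2] at h1
  have h3 : (∑ k, -((a : ℂ) * x k)).re = a * ∑ k, -(x k).re := by
    rw [Complex.re_sum, Finset.mul_sum]
    exact Finset.sum_congr rfl fun k _ => by rw [u_re]; ring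
  rw [h3]
  have h4 : a * (a * N - 2 * 10 ^ 9 * l) ≤ a * ∑ k, -(x k).re :=
    mul_le_mul_of_nonneg_left (by linarith) ha0'.le
  refine le_trans ?_ h4
  have h5 := h.eps
  nlinarith

end

end Pool.Agent.H250.MR
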