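import Pool.Agent.H250.MR.NCdef

set_option autoImplicit false

/-!
# Near the circle: tails, lower bounds
-/

open MeasureTheory Polynomial

namespace Pool.Agent.H250.MR

section

variable {N : ℕ} {a l : ℝ} {x : Fin N → ℂ}

lemma NC.expl (h : NC N a l x) : Real.exp l = N + 1 := by
  rw [h.hln, Real.exp_log]; have := h.N0; positivity

lemma NC.exp_neg (h : NC N a l x) (j : ℕ) : Real.exp (-(j * l)) ≤ 1 / (N : ℝ) ^ j := by
  have h1 : Real.exp (-(j * l)) = 1 / (N + 1 : ℝ) ^ j := by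
    rw [Real.exp_neg, Real.exp_nat_mul, h.expl, one_div]
  rw [h1]
  apply one_div_le_one_div_of_le
  · exact pow_pos h.N0 j
  · exact pow_le_pow_left₀ h.N0.le (by linarith) j

lemma NC.tail1 (h : NC N a l x) {t : ℝ} (ht : kk N l ≤ t) (ht1 : t ≤ 19 / 20) :
    ‖∏ k, (1 - (t : ℂ) * (-((a : ℂ) * x k)))‖ ≤ Real.exp (-(100 * l)) := by
  have hN := h.N0
  have hl := h.l0
  have ha0 := h.a0
  have ha1 := h.ha1
  have ht0 : 0 < t := h.kk_pos.trans_le ht
  have htN : 10 ^ 12 * l ≤ t * N := by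
    rw [← h.kkN]; exact mul_le_mul_of_nonneg_right ht hN.le
  have hε : (1 - a) / 600 ≤ t := by
    have h1 : (1 - a) / 600 * N ≤ t * N := by have := h.eps; linarith
    exact le_of_mul_le_mul_right h1 hN
  have h1 : ∀ k, ‖1 - (t : ℂ) * (-((a : ℂ) * x k))‖ ^ 2 ≤
      Real.exp (2 * t * (‖x k‖ - 1) - t * ((1 + a) * ‖x k‖ - 1) / 691200) := by
    intro k
    rw [fac_eq]
    exact T1pf.T1p a t (x k) (by linarith) ha1 hε ht1 (h.hx k)
  refine (prod_le_exp _ _ h1).trans (Real.exp_le_exp.2 ?_)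
  rw [Finset.sum_sub_distrib, ← Finset.mul_sum, Finset.sum_sub_distrib, ← Finset.sum_div,
    ← Finset.mul_sum, Finset.sum_sub_distrib, ← Finset.mul_sum]
  simp only [Finset.sum_const, Finset.card_univ, Fintype.card_fin, nsmul_eq_mul, mul_one]
  have h10 : 0 ≤ t * (N - ∑ k, ‖x k‖) := mul_nonneg ht0.le (by have := h.hS; linarith)
  have h11 : t * ((1 + a) * ∑ k, ‖x k‖ - N) =
      a * (t * N) - (1 + a) * (t * (N - ∑ k, ‖x k‖)) := by ring
  rw [h11]
  have h12 : (1 + a) * (t * (N - ∑ k, ‖x k‖)) ≤ 2 * (t * (N - ∑ k, ‖x k‖)) :=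
    mul_le_mul_of_nonneg_right (by linarith) h10
  have h13 : 1 / 2 * (t * N) ≤ a * (t * N) :=
    mul_le_mul_of_nonneg_right (by linarith) (by positivity)
  nlinarith

lemma NC.tail2 (h : NC N a l x)
    (hW : ∑ k, (‖1 + (a : ℂ) * x k‖ ^ 2 - 1) / ‖x k‖ ^ 2 ≤ -(a ^ 2 * N / 2))
    {t : ℝ} (ht : 19 / 20 ≤ t) (ht1 : t ≤ 1) :
    ‖∏ k, (1 - (t : ℂ) * (-((a : ℂ) * x k)))‖ ≤ Real.exp (-(100 * l)) := by
  have hN := h.N1
  have hl := h.l0
  have ha0 := h.a0
  have ha1 := h.ha1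
  have h1 : ∀ k, ‖1 - (t : ℂ) * (-((a : ℂ) * x k))‖ ^ 2 ≤
      Real.exp (2 * (t - 1 / 256) * (‖x k‖ - 1) +
        (‖1 + (a : ℂ) * x k‖ ^ 2 - 1) / ‖x k‖ ^ 2 / 256) := by
    intro k
    rw [fac_eq]
    have h2 := T2f.T2 a t (x k) (by linarith) ha1 ht ht1 (h.hx k)
    have e : (‖1 + (a : ℂ) * x k‖ ^ 2 - 1) / ‖x k‖ ^ 2 / 256 =
        (‖1 + (a : ℂ) * x k‖ ^ 2 - 1) / (256 * ‖x k‖ ^ 2) := by
      rw [div_div, mul_comm (‖x k‖ ^ 2)]
    rw [e]
    exact h2
  refine (prod_le_exp _ _ h1).trans (Real.exp_le_exp.2 ?_)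
  rw [Finset.sum_add_distrib, ← Finset.mul_sum, Finset.sum_sub_distrib, ← Finset.sum_div]
  simp only [Finset.sum_const, Finset.card_univ, Fintype.card_fin, nsmul_eq_mul, mul_one]
  have h5 : 2 * (t - 1 / 256) * (∑ k, ‖x k‖ - N) ≤ 0 :=
    mul_nonpos_of_nonneg_of_nonpos (by linarith) (by have := h.hS; linarith)
  have h6 : 1 / 2 * (N : ℝ) ≤ a ^ 2 * N :=
    mul_le_mul_of_nonneg_right (by nlinarith) h.N0.le
  linarith

lemma NC.cont (_h : NC N a l x) :
    Continuous (fun t : ℝ => ∏ k, (1 - (t : ℂ) * (-((a : ℂ) * x k)))) := by fun_prop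

/-- the integral over `[0,k0]` and over `[0,k1]` -/
lemma NC.cut (h : NC N a l x) {k1 : ℝ} (h1 : kk N l ≤ k1) (h2 : k1 ≤ 1)
    (h3 : ∀ t, kk N l ≤ t → t ≤ k1 →
      ‖∏ k, (1 - (t : ℂ) * (-((a : ℂ) * x k)))‖ ≤ Real.exp (-(100 * l))) :
    (N + 1 : ℝ) * ‖I0 a l x‖ ≤ (N + 1 : ℝ) *
      ‖∫ t in (0:ℝ)..k1, ∏ k, (1 - (t : ℂ) * (-((a : ℂ) * x k)))‖ + 1 / (N : ℝ) ^ 30 := by
  have h4 := int_tail h.cont h1 (by have := h.kk_pos; linarith) (Real.exp_pos _).le h3
  have h5 : (N + 1 : ℝ) * Real.exp (-(100 * l)) ≤ 1 / (N : ℝ) ^ 30 := by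
    have e : (N + 1 : ℝ) * Real.exp (-(100 * l)) = Real.exp (-(99 * l)) := by
      rw [← h.expl, ← Real.exp_add]; congr 1; ring
    rw [e]
    refine le_trans (Real.exp_le_exp.2 ?_) (h.exp_neg 30)
    have := h.l0
    push_cast
    linarith
  have h6 : (0 : ℝ) ≤ N + 1 := by have := h.N0; linarith
  have h7 := mul_le_mul_of_nonneg_left h4 h6
  rw [mul_add] at h7
  unfold I0
  linarith

/-- (B): the precise lower bound if `D ≤ 50 l` -/
theorem NC.partB (h : NC N a l x) (hD : DD x ≤ 50 * l) :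
    1 - 10 ^ 14 * l / N ≤ (N + 1 : ℝ) * ‖I0 a l x‖ := by
  have hN := h.N0
  have hl := h.l0
  have ha0 := h.a0
  have ha1 := h.ha1
  have ha0' : 0 < a := by linarith
  have hR := h.RR_pos
  have hRb := h.RRbig
  have hA := h.Alow
  have hApos : 0 < AF a l x := by linarith
  have hD0 := DD_nonneg ha0' h.hx
  -- near points
  have hS1 : SF l x ≤ 400 * l := by
    have h1 := DD_far_le ha0' h.hx (FF l x)ᶜ
    have h2 : SF l x ≤ 8 * ∑ k ∈ (FF l x)ᶜ, (‖x k‖ - 1 - Real.log ‖x k‖) := by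
      unfold SF
      rw [Finset.mul_sum]
      refine Finset.sum_le_sum fun k hk => ?_
      have h3 := not_FF hk
      have h4 : 2 ≤ ‖x k‖ := by
        have : (2 : ℝ) ≤ 10 ^ 100 := by norm_num
        linarith
      have := d3 h4
      linarith
    linarith
  have hRl : RR N l * l ≤ N / 10 ^ 14 := by
    have := h.RRl
    rw [le_div_iff₀ (by positivity)]
    linarith
  have hsq : ∑ k ∈ FF l x, ‖x k‖ ^ 2 ≤ 5 * N := by
    have h1 := DD_far_le ha0' h.hx (FF l x)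
    have h2 : ∑ k ∈ FF l x, ‖x k‖ ^ 2 ≤
        ∑ k ∈ FF l x, (4 + 8 * RR N l * (‖x k‖ - 1 - Real.log ‖x k‖)) := by
      refine Finset.sum_le_sum fun k hk => ?_
      have h3 := mem_FF.1 hk
      have hd := d0 (norm_pos_of ha0' (h.hx k))
      rcases le_total ‖x k‖ 2 with h4 | h4
      · have : 0 ≤ 8 * RR N l * (‖x k‖ - 1 - Real.log ‖x k‖) := by positivity
        nlinarith [norm_nonneg (x k)]
      · have h5 := d3 h4
        have h6 : ‖x k‖ ^ 2 ≤ RR N l * ‖x k‖ := by nlinarith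
        have h7 : RR N l * (‖x k‖ / 8) ≤ RR N l * (‖x k‖ - 1 - Real.log ‖x k‖) :=
          mul_le_mul_of_nonneg_left h5 hR.le
        nlinarith
    rw [Finset.sum_add_distrib, Finset.sum_const, nsmul_eq_mul, ← Finset.mul_sum] at h2
    have h8 : ((FF l x).card : ℝ) ≤ N := by
      have := h.cardF
      have : (0:ℝ) ≤ (((FF l x)ᶜ).card : ℝ) := Nat.cast_nonneg _
      linarith
    have h9 : 8 * RR N l * ∑ k ∈ FF l x, (‖x k‖ - 1 - Real.log ‖x k‖) ≤
        8 * RR N l * (50 * l) := mul_le_mul_of_nonneg_left (h1.trans hD) (by positivity)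
    linarith
  have hre : ∑ k ∈ FF l x, (-((a : ℂ) * x k)).re = AF a l x := by
    simp only [u_re]; rfl
  have hsq' : ∀ k, (-((a : ℂ) * x k)).re ^ 2 ≤ ‖x k‖ ^ 2 ∧ (-((a : ℂ) * x k)).im ^ 2 ≤ ‖x k‖ ^ 2 := by
    intro k
    have h1 : ‖x k‖ ^ 2 = (x k).re ^ 2 + (x k).im ^ 2 := by
      rw [Complex.sq_norm, Complex.normSq_apply]; ring
    have h2 : a ^ 2 ≤ 1 := by nlinarith
    rw [u_re, u_im, h1, neg_sq, neg_sq, mul_pow, mul_pow]
    constructor
    · have := mul_le_mul_of_nonneg_right h2 (sq_nonneg (x k).re)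
      nlinarith [sq_nonneg (x k).im]
    · have := mul_le_mul_of_nonneg_right h2 (sq_nonneg (x k).im)
      nlinarith [sq_nonneg (x k).re]
  have hQ : ∑ k ∈ FF l x, (-((a : ℂ) * x k)).re ^ 2 ≤ 5 * N :=
    (Finset.sum_le_sum fun k _ => (hsq' k).1).trans hsq
  have hB : ∑ k ∈ FF l x, (-((a : ℂ) * x k)).im ^ 2 ≤ 5 * N :=
    (Finset.sum_le_sum fun k _ => (hsq' k).2).trans hsq
  have hNl := h.N1
  have hΓ0 : 0 ≤ AF a l x - 36 * 10 ^ 12 * l := by linarith
  have hlow := lower (FF l x) (fun k => -((a : ℂ) * x k)) (k0 := kk N l) (A := AF a l x)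
    (Q := 5 * N) (Γ := AF a l x - 36 * 10 ^ 12 * l) h.kk_pos.le
    (fun k hk => by have := h.farsmall hk; linarith) hre.le hQ hΓ0
    (by
      rw [hre, h.near_u]
      have h1 : 7 * kk N l * (∑ k ∈ FF l x, (-((a : ℂ) * x k)).im ^ 2) ≤
          7 * kk N l * (5 * N) := mul_le_mul_of_nonneg_left hB (by have := h.kk_pos; positivity)
      have h2 : 7 * kk N l * (5 * N) = 35 * (10 ^ 12 * l) := by rw [← h.kkN]; ring
      have h3 : a * SF l x ≤ SF l x := by
        have := SF0 (l := l) (x := x); nlinarith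
      linarith)
  have hLB := LBf.LB (AF a l x) (5 * N) (kk N l) hApos (by positivity) h.kk_pos.le
  have hsum := sum_u_le ha0' h.hS
  have hI : ‖∫ t in (0:ℝ)..(kk N l), ∏ k, (1 - (t : ℂ) * (-((a : ℂ) * x k)))‖ = ‖I0 a l x‖ := rfl
  rw [hI] at hlow
  have hI0 : 0 ≤ ‖I0 a l x‖ := norm_nonneg _
  have hq1 : 2 * (5 * N) / AF a l x ^ 2 ≤ 42 / N := by
    rw [div_le_div_iff₀ (by positivity) hN]
    have : (49 / 100 * (N : ℝ)) ^ 2 ≤ AF a l x ^ 2 := pow_le_pow_left₀ (by positivity) hA 2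
    nlinarith
  have hq2 : Real.exp (-(kk N l * AF a l x)) ≤ 1 / N := by
    have h1 := h.exp_neg 1
    rw [Nat.cast_one, one_mul, pow_one] at h1
    refine le_trans (Real.exp_le_exp.2 ?_) h1
    have h2 : kk N l * (49 / 100 * N) ≤ kk N l * AF a l x :=
      mul_le_mul_of_nonneg_left hA h.kk_pos.le
    have h3 : kk N l * (49 / 100 * N) = 49 / 100 * (10 ^ 12 * l) := by rw [← h.kkN]; ring
    linarith
  have hNinv : 43 / (N : ℝ) ≤ 1 / 2 := by
    rw [div_le_iff₀ hN]; have := h.Nbig; linarith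
  have hone : 1 / (N : ℝ) + 42 / N = 43 / N := by ring
  have h10 : 1 - 43 / (N : ℝ) ≤ 1 - Real.exp (-(kk N l * AF a l x)) -
      2 * (5 * N) / AF a l x ^ 2 := by linarith
  have h11 : (AF a l x - 36 * 10 ^ 12 * l) * ((1 - 43 / (N : ℝ)) / AF a l x) ≤
      a * N * ‖I0 a l x‖ := by
    refine le_trans (mul_le_mul_of_nonneg_left ?_ hΓ0)
      (hlow.trans (mul_le_mul_of_nonneg_right hsum hI0))
    exact (div_le_div_of_nonneg_right h10 hApos.le).trans hLB
  have h12 : a * N * ‖I0 a l x‖ ≤ (N + 1 : ℝ) * ‖I0 a l x‖ := by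
    refine mul_le_mul_of_nonneg_right ?_ hI0
    nlinarith
  refine le_trans ?_ (h11.trans h12)
  have h13 : (AF a l x - 36 * 10 ^ 12 * l) * ((1 - 43 / (N : ℝ)) / AF a l x) =
      (1 - 36 * 10 ^ 12 * l / AF a l x) * (1 - 43 / N) := by
    field_simp
  rw [h13]
  have h14 : 36 * 10 ^ 12 * l / AF a l x ≤ 74 * 10 ^ 12 * l / N := by
    rw [div_le_div_iff₀ hApos hN]
    nlinarith
  have h15 : 0 ≤ 36 * 10 ^ 12 * l / AF a l x := by positivity
  have h16 : 0 ≤ 43 / (N : ℝ) := by positivity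
  have h17 : 43 / (N : ℝ) ≤ 43 * l / N := by
    refine div_le_div_of_nonneg_right ?_ hN.le
    have := h.hl; linarith
  have h18 : 10 ^ 14 * l / N = 74 * 10 ^ 12 * l / N + 26 * 10 ^ 12 * l / N := by ring
  have h19 : 43 * l / N ≤ 26 * 10 ^ 12 * l / N := by
    refine div_le_div_of_nonneg_right ?_ hN.le
    linarith
  nlinarith [mul_nonneg h15 h16]

/-- (C0) -/
theorem NC.partC0 (h : NC N a l x) (hJ : (N + 1 : ℝ) * ‖I0 a l x‖ ≤ 1 / (N : ℝ) ^ 20) :
    1 ≤ ((FF l x)ᶜ).card ∧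
      86 / 100 * HF a l x ≤ (((FF l x)ᶜ).card : ℝ) + 1 / N := by
  have hN := h.N0
  have hl := h.l0
  have ha0 := h.a0
  have ha1 := h.ha1
  have ha0' : 0 < a := by linarith
  have hR := h.RR_pos
  have hA := h.Alow
  have hAup := h.Aup
  have hH0 := h.HF0
  have hS0 := SF0 (l := l) (x := x)
  have hn1 := h.n1
  have hre : ∑ k ∈ FF l x, (-((a : ℂ) * x k)).re = AF a l x := by
    simp only [u_re]; rfl
  have him : ∑ k ∈ FF l x, (-((a : ℂ) * x k)).im ^ 2 = ∑ k ∈ FF l x, (a * (x k).im) ^ 2 := by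
    simp only [u_im, neg_sq]
  have hQ : ∑ k ∈ FF l x, (-((a : ℂ) * x k)).re ^ 2 ≤ (N : ℝ) ^ 2 := by
    have h1 : ∑ k ∈ FF l x, (-((a : ℂ) * x k)).re ^ 2 ≤ ∑ k ∈ FF l x, ‖x k‖ ^ 2 := by
      refine Finset.sum_le_sum fun k _ => ?_
      have h1 : ‖x k‖ ^ 2 = (x k).re ^ 2 + (x k).im ^ 2 := by
        rw [Complex.sq_norm, Complex.normSq_apply]; ring
      have h2 : a ^ 2 ≤ 1 := by nlinarith
      rw [u_re, h1, neg_sq, mul_pow]
      have := mul_le_mul_of_nonneg_right h2 (sq_nonneg (x k).re)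
      nlinarith [sq_nonneg (x k).im]
    have h2 := h.sqF
    have h3 : RR N l ≤ N := by
      have := h.RRl
      have h4 : RR N l * 1 ≤ RR N l * (10 ^ 14 * l) := by
        refine mul_le_mul_of_nonneg_left ?_ hR.le
        have := h.hl; linarith
      linarith
    have h4 : RR N l * N ≤ N * N := mul_le_mul_of_nonneg_right h3 hN.le
    rw [pow_two]
    linarith
  have hB := h.Bup
  have hkB : 7 * kk N l * (∑ k ∈ FF l x, (a * (x k).im) ^ 2) ≤ 14 / 100 * HF a l x := by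
    have h1 : 7 * kk N l * (∑ k ∈ FF l x, (a * (x k).im) ^ 2) ≤
        7 * kk N l * (2 * RR N l * HF a l x) :=
      mul_le_mul_of_nonneg_left hB (by have := h.kk_pos; positivity)
    have h2 : 7 * kk N l * (2 * RR N l * HF a l x) = 14 * (kk N l * RR N l) * HF a l x := by ring
    rw [h2, h.kkR] at h1
    linarith
  set Γ : ℝ := AF a l x - 14 / 100 * HF a l x - a * SF l x with hΓ
  have hN1 : (1 : ℝ) ≤ N := by
    have := h.Nbig
    have h2 : (1 : ℝ) ≤ 10 ^ 200 := by norm_num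
    linarith
  have hΓle : Γ ≤ 1 / N := by
    rcases le_total Γ 0 with h0 | h0
    · exact h0.trans (by positivity)
    · have hlow := lower (FF l x) (fun k => -((a : ℂ) * x k)) (k0 := kk N l) (A := AF a l x)
        (Q := (N : ℝ) ^ 2) (Γ := Γ) h.kk_pos.le
        (fun k hk => by have := h.farsmall hk; linarith) hre.le hQ h0
        (by rw [hre, h.near_u, him]; linarith)
      have hG := gauss_crude (A := AF a l x) (Q := (N : ℝ) ^ 2) (k0 := kk N l) (k2 := 1 / N)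
        (by positivity)
        (by
          unfold kk
          refine div_le_div_of_nonneg_right ?_ hN.le
          have := h.hl; linarith)
        (by
          rw [one_div, inv_mul_le_iff₀ hN, mul_one]
          nlinarith)
        (by linarith) (by positivity)
        (by
          rw [one_div, inv_pow, inv_mul_le_iff₀ (by positivity)]; linarith)
      have he2 : 1 / 8 ≤ Real.exp (-2) := by
        rw [Real.exp_neg, one_div]
        apply inv_anti₀ (Real.exp_pos _)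
        have h1 : Real.exp 2 = Real.exp 1 ^ 2 := by rw [← Real.exp_nat_mul]; norm_num
        rw [h1]
        have := Real.exp_one_lt_d9
        have h0 := Real.exp_pos 1
        nlinarith
      have hI : ‖∫ t in (0:ℝ)..(kk N l), ∏ k, (1 - (t : ℂ) * (-((a : ℂ) * x k)))‖ =
        ‖I0 a l x‖ := rfl
      rw [hI] at hlow
      have hsum := sum_u_le ha0' h.hS
      have hI0 : 0 ≤ ‖I0 a l x‖ := norm_nonneg _
      have h1 : Γ * (1 / N * (1 / 8)) ≤ 1 / (N : ℝ) ^ 20 := by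
        have h2 : 1 / (N : ℝ) * (1 / 8) ≤ 1 / N * Real.exp (-2) :=
          mul_le_mul_of_nonneg_left he2 (by positivity)
        have h3 := (mul_le_mul_of_nonneg_left (h2.trans hG) h0).trans hlow
        have h4 : ‖∑ k, -((a : ℂ) * x k)‖ * ‖I0 a l x‖ ≤ (N + 1 : ℝ) * ‖I0 a l x‖ := by
          refine mul_le_mul_of_nonneg_right (hsum.trans ?_) hI0
          nlinarith
        linarith
      have h5 : Γ = Γ * (1 / N * (1 / 8)) * (8 * N) := by field_simp
      rw [h5]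
      have h6 : Γ * (1 / N * (1 / 8)) * (8 * N) ≤ 1 / (N : ℝ) ^ 20 * (8 * N) :=
        mul_le_mul_of_nonneg_right h1 (by positivity)
      have h7 : 1 / (N : ℝ) ^ 20 * (8 * N) ≤ 1 / N := by
        rw [div_mul_eq_mul_div, div_le_div_iff₀ (by positivity) hN]
        have h8 : (N : ℝ) ^ 3 ≤ (N : ℝ) ^ 20 := pow_le_pow_right₀ hN1 (by norm_num)
        have h9 : (8 : ℝ) ≤ N := by
          have := h.Nbig
          have h2 : (8 : ℝ) ≤ 10 ^ 200 := by norm_num
          linarith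
        have h10 : (8 : ℝ) * N * N ≤ N ^ 3 := by
          have : (8 : ℝ) * (N * N) ≤ N * (N * N) := mul_le_mul_of_nonneg_right h9 (by positivity)
          nlinarith
        linarith
      exact h6.trans h7
  have h1a : 0 ≤ (1 - a) * SF l x := mul_nonneg (by linarith) hS0
  constructor
  · by_contra hc
    have hc0 : ((FF l x)ᶜ).card = 0 := by omega
    have hSz : SF l x = 0 := by
      unfold SF
      rw [Finset.card_eq_zero.1 hc0, Finset.sum_empty]
    rw [hc0, hSz] at hn1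
    rw [hSz] at hΓ
    push_cast at hn1
    have h2 : 1 / (N : ℝ) ≤ 1 := by rw [div_le_one hN]; exact hN1
    have := h.Nbig
    have h3 : (10 : ℝ) ≤ 10 ^ 200 := by norm_num
    linarith
  · linarith

end

end Pool.Agent.H250.MR
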