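import Mathlib
import Pool.Agent.H250.MR.Stm3

set_option autoImplicit false
set_option maxHeartbeats 4000000

open MeasureTheory Finset

namespace Pool.Agent.H250.MR.ONEf

variable {M : ℕ}

/-- `∏ (1 - t u_k)` -/
noncomputable def ff (u : Fin M → ℂ) (t : ℝ) : ℂ := ∏ k, (1 - (t : ℂ) * u k)

/-- the product without `k` -/
noncomputable def fh (u : Fin M → ℂ) (k : Fin M) (t : ℝ) : ℂ := ∏ j ∈ univ.erase k, (1 - (t : ℂ) * u j)

lemma ff_cont (u : Fin M → ℂ) : Continuous (ff u) := by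
  unfold ff
  exact continuous_finsetProd _ fun i _ => by fun_prop

lemma fh_cont (u : Fin M → ℂ) (k : Fin M) : Continuous (fh u k) := by
  unfold fh
  exact continuous_finsetProd _ fun i _ => by fun_prop

lemma ff_deriv (u : Fin M → ℂ) (t : ℝ) :
    HasDerivAt (ff u) (∑ k, fh u k t * (-u k)) t := by
  have h := HasDerivAt.fun_finsetProd (u := univ) (f := fun i (t : ℝ) => 1 - (t : ℂ) * u i)
    (f' := fun i => -u i) (x := t) (fun i _ => by
      have := ((hasDerivAt_id t).ofReal_comp.mul_const (u i)).const_sub 1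
      simpa using this)
  exact h

lemma ff_eq (u : Fin M → ℂ) (k : Fin M) (t : ℝ) : ff u t = (1 - (t : ℂ) * u k) * fh u k t := by
  unfold ff fh
  rw [Finset.mul_prod_erase univ (fun j => 1 - (t : ℂ) * u j) (mem_univ k)]

/-- the derivative of `t f(t)` -/
lemma tf_deriv (u : Fin M → ℂ) (t : ℝ) :
    HasDerivAt (fun t : ℝ => (t : ℂ) * ff u t)
      (ff u t - (∑ k, u k) * ((t : ℂ) * ff u t) - (t : ℂ) ^ 2 * ∑ k, u k ^ 2 * fh u k t) t := by
  have h1 := (hasDerivAt_id t).ofReal_comp.mul (ff_deriv u t)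
  refine h1.congr_deriv ?_
  have h2 : ∑ k, fh u k t * (-u k) = -((∑ k, u k) * ff u t) - (t : ℂ) * ∑ k, u k ^ 2 * fh u k t := by
    rw [Finset.sum_mul, Finset.mul_sum, ← Finset.sum_neg_distrib, ← Finset.sum_sub_distrib]
    refine Finset.sum_congr rfl fun k _ => ?_
    rw [ff_eq u k t]
    ring
  simp only [id, Complex.ofReal_one, one_mul]
  rw [h2]
  ring

/-- the main identity -/
lemma main_id (u : Fin M → ℂ) (u0 : ℂ) (k0 : ℝ) :
    (u0 - ∑ k, u k) * (∫ t in (0:ℝ)..k0, (t : ℂ) * ff u t) =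
      (k0 : ℂ) * ff u k0 - (∫ t in (0:ℝ)..k0, ff u t * (1 - (t : ℂ) * u0)) +
        ∫ t in (0:ℝ)..k0, (t : ℂ) ^ 2 * ∑ k, u k ^ 2 * fh u k t := by
  have c1 := ff_cont u
  have c3 : Continuous fun t : ℝ => (t : ℂ) ^ 2 * ∑ k, u k ^ 2 * fh u k t := by
    refine (by fun_prop : Continuous fun t : ℝ => (t : ℂ) ^ 2).mul ?_
    exact continuous_finsetSum _ fun k _ => continuous_const.mul (fh_cont u k)
  have c2 : Continuous fun t : ℝ => (t : ℂ) * ff u t := by fun_prop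
  have h1 := intervalIntegral.integral_eq_sub_of_hasDerivAt (a := 0) (b := k0)
    (fun t _ => tf_deriv u t)
    ((((c1.sub (continuous_const.mul c2)).sub c3)).intervalIntegrable _ _)
  have h2 : (∫ t in (0:ℝ)..k0, (ff u t - (∑ k, u k) * ((t : ℂ) * ff u t) -
      (t : ℂ) ^ 2 * ∑ k, u k ^ 2 * fh u k t)) =
      (∫ t in (0:ℝ)..k0, ff u t) - (∑ k, u k) * (∫ t in (0:ℝ)..k0, (t : ℂ) * ff u t) -
        ∫ t in (0:ℝ)..k0, (t : ℂ) ^ 2 * ∑ k, u k ^ 2 * fh u k t := by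
    have i4 : Continuous fun t : ℝ => (∑ k, u k) * ((t : ℂ) * ff u t) := continuous_const.mul c2
    have i5 : Continuous fun t : ℝ => ff u t - (∑ k, u k) * ((t : ℂ) * ff u t) := c1.sub i4
    rw [intervalIntegral.integral_sub (i5.intervalIntegrable 0 k0) (c3.intervalIntegrable 0 k0),
      intervalIntegral.integral_sub (c1.intervalIntegrable 0 k0) (i4.intervalIntegrable 0 k0),
      intervalIntegral.integral_const_mul]
  have h3 : (∫ t in (0:ℝ)..k0, ff u t * (1 - (t : ℂ) * u0)) =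
      (∫ t in (0:ℝ)..k0, ff u t) - u0 * ∫ t in (0:ℝ)..k0, (t : ℂ) * ff u t := by
    have i4 : Continuous fun t : ℝ => u0 * ((t : ℂ) * ff u t) := continuous_const.mul c2
    rw [← intervalIntegral.integral_const_mul, ← intervalIntegral.integral_sub
      (c1.intervalIntegrable 0 k0) (i4.intervalIntegrable 0 k0)]
    refine intervalIntegral.integral_congr fun t _ => ?_
    show ff u t * (1 - (t : ℂ) * u0) = ff u t - u0 * ((t : ℂ) * ff u t)
    ring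
  rw [h2] at h1
  rw [h3]
  simp only [Complex.ofReal_zero, zero_mul, sub_zero] at h1
  linear_combination h1

/-- `∫ t (1 - t/2)^(m+1) - ((m+1)/4) t² (1 - t/2)^m = (k0²/2) (1 - k0/2)^(m+1)` -/
lemma model_id (m : ℕ) (k0 : ℝ) :
    (∫ t in (0:ℝ)..k0, (t * (1 - t / 2) ^ (m + 1) - ((m + 1 : ℕ) : ℝ) / 4 * t ^ 2 * (1 - t / 2) ^ m)) =
      k0 ^ 2 / 2 * (1 - k0 / 2) ^ (m + 1) := by
  have hd : ∀ t : ℝ, HasDerivAt (fun t : ℝ => t ^ 2 / 2 * (1 - t / 2) ^ (m + 1))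
      (t * (1 - t / 2) ^ (m + 1) - ((m + 1 : ℕ) : ℝ) / 4 * t ^ 2 * (1 - t / 2) ^ m) t := by
    intro t
    have h1 : HasDerivAt (fun t : ℝ => t ^ 2 / 2) t t := by
      have := (hasDerivAt_pow 2 t).div_const 2
      refine this.congr_deriv ?_
      norm_num
    have h2 : HasDerivAt (fun t : ℝ => 1 - t / 2) (-(1 / 2)) t := by
      have := ((hasDerivAt_id t).div_const 2).const_sub 1
      simpa using this
    have h3 := h1.mul (h2.pow (m + 1))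
    refine h3.congr_deriv ?_
    simp only [Nat.add_sub_cancel, Pi.pow_apply]
    push_cast
    ring
  rw [intervalIntegral.integral_eq_sub_of_hasDerivAt (fun t _ => hd t)
    ((by fun_prop : Continuous fun t : ℝ => (t * (1 - t / 2) ^ (m + 1) -
      ((m + 1 : ℕ) : ℝ) / 4 * t ^ 2 * (1 - t / 2) ^ m)).intervalIntegrable _ _)]
  simp

/-- `∫ t (1 - t/2)^M` -/
lemma model_int (m : ℕ) (k0 : ℝ) :
    (∫ t in (0:ℝ)..k0, t * (1 - t / 2) ^ m) = 4 / ((m + 1) * (m + 2)) -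
      (2 * k0 / (m + 1) * (1 - k0 / 2) ^ (m + 1) + 4 / ((m + 1) * (m + 2)) * (1 - k0 / 2) ^ (m + 2)) := by
  have hm1 : (m : ℝ) + 1 ≠ 0 := by positivity
  have hm2 : (m : ℝ) + 2 ≠ 0 := by positivity
  have hd : ∀ t : ℝ, HasDerivAt (fun t : ℝ => -(2 * t / (m + 1) * (1 - t / 2) ^ (m + 1) +
      4 / ((m + 1) * (m + 2)) * (1 - t / 2) ^ (m + 2))) (t * (1 - t / 2) ^ m) t := by
    intro t
    have h2 : HasDerivAt (fun t : ℝ => 1 - t / 2) (-(1 / 2)) t := by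
      have := ((hasDerivAt_id t).div_const 2).const_sub 1
      simpa using this
    have h1 : HasDerivAt (fun t : ℝ => 2 * t / ((m : ℝ) + 1)) (2 / (m + 1)) t := by
      have := ((hasDerivAt_id t).const_mul 2).div_const ((m : ℝ) + 1)
      simpa using this
    have h3 := ((h1.mul (h2.pow (m + 1))).add ((h2.pow (m + 2)).const_mul
      (4 / (((m : ℝ) + 1) * (m + 2))))).neg
    refine h3.congr_deriv ?_
    simp only [Nat.add_sub_cancel, show m + 2 - 1 = m + 1 by omega, Pi.pow_apply]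
    push_cast
    field_simp
    ring
  rw [intervalIntegral.integral_eq_sub_of_hasDerivAt (fun t _ => hd t)
    ((by fun_prop : Continuous fun t : ℝ => t * (1 - t / 2) ^ m).intervalIntegrable _ _)]
  simp
  ring

/-- `∫ t² exp (-c t) ≤ 2/c³` -/
lemma exp_int2 {c k0 : ℝ} (hc : 0 < c) (hk : 0 ≤ k0) :
    (∫ t in (0:ℝ)..k0, t ^ 2 * Real.exp (-(c * t))) ≤ 2 / c ^ 3 := by
  have hd : ∀ t : ℝ, HasDerivAt (fun t : ℝ => -((t ^ 2 / c + 2 * t / c ^ 2 + 2 / c ^ 3) *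
      Real.exp (-(c * t)))) (t ^ 2 * Real.exp (-(c * t))) t := by
    intro t
    have h1 : HasDerivAt (fun t : ℝ => t ^ 2 / c + 2 * t / c ^ 2 + 2 / c ^ 3)
        (2 * t / c + 2 / c ^ 2) t := by
      have h1 := (hasDerivAt_pow 2 t).div_const c
      have h2 := ((hasDerivAt_id t).const_mul 2).div_const (c ^ 2)
      have h3 := (h1.add h2).add_const (2 / c ^ 3)
      refine h3.congr_deriv ?_
      norm_num
    have h2 : HasDerivAt (fun t : ℝ => Real.exp (-(c * t))) (Real.exp (-(c * t)) * (-c)) t := by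
      have := ((hasDerivAt_id t).const_mul c).neg.exp
      simpa using this
    refine (h1.mul h2).neg.congr_deriv ?_
    field_simp
    ring
  rw [intervalIntegral.integral_eq_sub_of_hasDerivAt (fun t _ => hd t)
    ((by fun_prop : Continuous fun t : ℝ => t ^ 2 * Real.exp (-(c * t))).intervalIntegrable _ _)]
  have h1 : 0 ≤ (k0 ^ 2 / c + 2 * k0 / c ^ 2 + 2 / c ^ 3) * Real.exp (-(c * k0)) := by positivity
  have h0 : -(((0:ℝ) ^ 2 / c + 2 * 0 / c ^ 2 + 2 / c ^ 3) * Real.exp (-(c * 0))) = -(2 / c ^ 3) := by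
    simp
  rw [h0]
  linarith

/-- `∫ t³ exp (-c t) ≤ 6/c⁴` -/
lemma exp_int3 {c k0 : ℝ} (hc : 0 < c) (hk : 0 ≤ k0) :
    (∫ t in (0:ℝ)..k0, t ^ 3 * Real.exp (-(c * t))) ≤ 6 / c ^ 4 := by
  have hd : ∀ t : ℝ, HasDerivAt (fun t : ℝ => -((t ^ 3 / c + 3 * t ^ 2 / c ^ 2 + 6 * t / c ^ 3 +
      6 / c ^ 4) * Real.exp (-(c * t)))) (t ^ 3 * Real.exp (-(c * t))) t := by
    intro t
    have h1 : HasDerivAt (fun t : ℝ => t ^ 3 / c + 3 * t ^ 2 / c ^ 2 + 6 * t / c ^ 3 + 6 / c ^ 4)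
        (3 * t ^ 2 / c + 6 * t / c ^ 2 + 6 / c ^ 3) t := by
      have h1 := (hasDerivAt_pow 3 t).div_const c
      have h2 := ((hasDerivAt_pow 2 t).const_mul 3).div_const (c ^ 2)
      have h3 := ((hasDerivAt_id t).const_mul 6).div_const (c ^ 3)
      have h4 := ((h1.add h2).add h3).add_const (6 / c ^ 4)
      refine h4.congr_deriv ?_
      norm_num
      ring
    have h2 : HasDerivAt (fun t : ℝ => Real.exp (-(c * t))) (Real.exp (-(c * t)) * (-c)) t := by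
      have := ((hasDerivAt_id t).const_mul c).neg.exp
      simpa using this
    refine (h1.mul h2).neg.congr_deriv ?_
    field_simp
    ring
  rw [intervalIntegral.integral_eq_sub_of_hasDerivAt (fun t _ => hd t)
    ((by fun_prop : Continuous fun t : ℝ => t ^ 3 * Real.exp (-(c * t))).intervalIntegrable _ _)]
  have h1 : 0 ≤ (k0 ^ 3 / c + 3 * k0 ^ 2 / c ^ 2 + 6 * k0 / c ^ 3 + 6 / c ^ 4) *
    Real.exp (-(c * k0)) := by positivity
  have h0 : -(((0:ℝ) ^ 3 / c + 3 * 0 ^ 2 / c ^ 2 + 6 * 0 / c ^ 3 + 6 / c ^ 4) *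
      Real.exp (-(c * 0))) = -(6 / c ^ 4) := by
    simp
  rw [h0]
  linarith

lemma exp_sub_one_le (x : ℝ) : Real.exp x - 1 ≤ x * Real.exp x := by
  have h := Real.add_one_le_exp (-x)
  have h1 : (-x + 1) * Real.exp x ≤ Real.exp (-x) * Real.exp x :=
    mul_le_mul_of_nonneg_right h (Real.exp_pos x).le
  rw [← Real.exp_add, neg_add_cancel, Real.exp_zero] at h1
  linarith

/-- estimates of the products -/
lemma prod_est (u : Fin M → ℂ) {Y t : ℝ} (S : Finset (Fin M)) (hM : 10 ^ 9 ≤ M)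
    (hY : ∑ k, ‖u k - 1 / 2‖ ≤ Y) (hYM : Y ≤ 1 / 10 ^ 4 * M) (hS : M ≤ S.card + 1)
    (ht : 0 ≤ t) (ht1 : t ≤ 1 / 100) :
    ‖∏ j ∈ S, (1 - (t : ℂ) * u j)‖ ≤ Real.exp (-(2 * M / 5 * t)) ∧
    ‖∏ j ∈ S, (1 - (t : ℂ) * u j) - ((1 - t / 2 : ℝ) : ℂ) ^ S.card‖ ≤
      2 * t * Y * Real.exp (-(2 * M / 5 * t)) := by
  have hM' : (1000000000 : ℝ) ≤ M := by
    have h : (10 ^ 9 : ℕ) = 1000000000 := by norm_num
    rw [h] at hM
    exact_mod_cast hM
  clear hM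
  have hY0 : 0 ≤ Y := (Finset.sum_nonneg fun k _ => norm_nonneg _).trans hY
  have hs : (1 : ℝ) / 2 ≤ 1 - t / 2 := by linarith
  have hs0 : (0 : ℝ) < 1 - t / 2 := by linarith
  have hsc : ((1 - t / 2 : ℝ) : ℂ) ≠ 0 := by exact_mod_cast hs0.ne'
  obtain ⟨x, hx⟩ : ∃ x : Fin M → ℂ, x = fun j => -((t : ℂ) * (u j - 1 / 2)) / ((1 - t / 2 : ℝ) : ℂ) :=
    ⟨_, rfl⟩
  have h1 : ∀ j, 1 - (t : ℂ) * u j = ((1 - t / 2 : ℝ) : ℂ) * (1 + x j) := by
    intro j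
    rw [hx]
    simp only
    rw [mul_add, mul_one, mul_div_cancel₀ _ hsc]
    push_cast
    ring
  have h2 : ∏ j ∈ S, (1 - (t : ℂ) * u j) = ((1 - t / 2 : ℝ) : ℂ) ^ S.card * ∏ j ∈ S, (1 + x j) := by
    rw [Finset.prod_congr rfl fun j _ => h1 j, Finset.prod_mul_distrib, Finset.prod_const]
  have h3 : ∀ j, ‖x j‖ ≤ 2 * t * ‖u j - 1 / 2‖ := by
    intro j
    rw [hx]
    simp only
    rw [norm_div, norm_neg, norm_mul, Complex.norm_real, Complex.norm_real, Real.norm_of_nonneg ht,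
      Real.norm_of_nonneg hs0.le, div_le_iff₀ hs0]
    nlinarith [mul_nonneg ht (norm_nonneg (u j - 1 / 2))]
  have h4 : ∑ j ∈ S, ‖x j‖ ≤ 2 * t * Y := by
    calc ∑ j ∈ S, ‖x j‖ ≤ ∑ j ∈ S, 2 * t * ‖u j - 1 / 2‖ := Finset.sum_le_sum fun j _ => h3 j
      _ ≤ ∑ j, 2 * t * ‖u j - 1 / 2‖ := Finset.sum_le_sum_of_subset_of_nonneg (subset_univ _)
          fun j _ _ => by positivity
      _ = 2 * t * ∑ j, ‖u j - 1 / 2‖ := by rw [Finset.mul_sum]
      _ ≤ 2 * t * Y := mul_le_mul_of_nonneg_left hY (by positivity)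
  have h5 : ‖∏ j ∈ S, (1 + x j) - 1‖ ≤ Real.exp (2 * t * Y) - 1 :=
    (Finset.norm_prod_one_add_sub_one_le S x).trans (by
      have := Real.exp_le_exp.2 h4
      linarith)
  have h6 : (1 - t / 2) ^ S.card ≤ Real.exp (-(S.card * (t / 2))) := by
    have h := pow_le_pow_left₀ hs0.le (Real.one_sub_le_exp_neg (t / 2)) S.card
    rwa [← Real.exp_nat_mul, mul_neg] at h
  have hcard : (M : ℝ) - 1 ≤ S.card := by
    have : (M : ℝ) ≤ S.card + 1 := by exact_mod_cast hS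
    linarith
  have h7 : (1 - t / 2) ^ S.card * Real.exp (2 * t * Y) ≤ Real.exp (-(2 * M / 5 * t)) := by
    calc (1 - t / 2) ^ S.card * Real.exp (2 * t * Y)
        ≤ Real.exp (-(S.card * (t / 2))) * Real.exp (2 * t * Y) :=
          mul_le_mul_of_nonneg_right h6 (Real.exp_pos _).le
      _ = Real.exp (-(S.card * (t / 2)) + 2 * t * Y) := (Real.exp_add _ _).symm
      _ ≤ _ := by
        refine Real.exp_le_exp.2 ?_
        have e1 : 0 ≤ t * (S.card / 2 - 2 * Y - 2 * M / 5) := by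
          refine mul_nonneg ht ?_
          norm_num at hYM
          linarith
        linarith
  have hpn : ‖((1 - t / 2 : ℝ) : ℂ) ^ S.card‖ = (1 - t / 2) ^ S.card := by
    rw [norm_pow, Complex.norm_real, Real.norm_of_nonneg hs0.le]
  have hp0 : 0 ≤ (1 - t / 2) ^ S.card := pow_nonneg hs0.le _
  constructor
  · rw [h2, norm_mul, hpn]
    refine le_trans (mul_le_mul_of_nonneg_left ?_ hp0) h7
    have : ‖∏ j ∈ S, (1 + x j)‖ ≤ ‖∏ j ∈ S, (1 + x j) - 1‖ + ‖(1 : ℂ)‖ := by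
      have := norm_add_le (∏ j ∈ S, (1 + x j) - 1) (1 : ℂ)
      rwa [sub_add_cancel] at this
    rw [norm_one] at this
    linarith
  · have e1 : ∏ j ∈ S, (1 - (t : ℂ) * u j) - ((1 - t / 2 : ℝ) : ℂ) ^ S.card =
        ((1 - t / 2 : ℝ) : ℂ) ^ S.card * (∏ j ∈ S, (1 + x j) - 1) := by
      rw [h2]; ring
    rw [e1, norm_mul, hpn]
    calc (1 - t / 2) ^ S.card * ‖∏ j ∈ S, (1 + x j) - 1‖
        ≤ (1 - t / 2) ^ S.card * (2 * t * Y * Real.exp (2 * t * Y)) :=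
          mul_le_mul_of_nonneg_left (h5.trans (exp_sub_one_le _)) hp0
      _ = 2 * t * Y * ((1 - t / 2) ^ S.card * Real.exp (2 * t * Y)) := by ring
      _ ≤ 2 * t * Y * Real.exp (-(2 * M / 5 * t)) :=
          mul_le_mul_of_nonneg_left h7 (by positivity)

theorem ONE : Pool.Agent.H250.MR.S_ONE := by
  intro M u u0 k0 hM hk0 hk1 hexp hu hY hI hu0
  obtain ⟨m, rfl⟩ : ∃ m, M = m + 1 := ⟨M - 1, by omega⟩
  obtain ⟨Y, hYdef⟩ : ∃ Y : ℝ, Y = ∑ k, ‖u k - 1 / 2‖ := ⟨_, rfl⟩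
  rw [← hYdef] at hY
  have hYle : ∑ k, ‖u k - 1 / 2‖ ≤ Y := hYdef.ge
  have hY0 : 0 ≤ Y := by rw [hYdef]; exact Finset.sum_nonneg fun k _ => norm_nonneg _
  have hM' : (1000000000 : ℝ) ≤ ((m + 1 : ℕ) : ℝ) := by
    have h : (10 ^ 9 : ℕ) = 1000000000 := by norm_num
    have h' := hM
    rw [h] at h'
    exact_mod_cast h'
  obtain ⟨R, hR⟩ : ∃ R : ℝ, R = ((m + 1 : ℕ) : ℝ) := ⟨_, rfl⟩
  rw [← hR] at hM' hY hexp hI hu0
  have hR0 : 0 < R := by linarith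
  obtain ⟨c, hc⟩ : ∃ c : ℝ, c = 2 * R / 5 := ⟨_, rfl⟩
  have hc0 : 0 < c := by rw [hc]; positivity
  -- pointwise estimates
  have hf : ∀ t : ℝ, 0 ≤ t → t ≤ k0 → ‖ff u t‖ ≤ Real.exp (-(c * t)) ∧
      ‖ff u t - ((1 - t / 2 : ℝ) : ℂ) ^ (m + 1)‖ ≤ 2 * t * Y * Real.exp (-(c * t)) := by
    intro t ht ht1
    have h := prod_est u univ hM hYle (by rw [← hR]; exact hY) (by simp) ht (ht1.trans hk1)
    rw [Finset.card_univ, Fintype.card_fin, ← hR, ← hc] at h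
    exact h
  have hh : ∀ k, ∀ t : ℝ, 0 ≤ t → t ≤ k0 → ‖fh u k t‖ ≤ Real.exp (-(c * t)) ∧
      ‖fh u k t - ((1 - t / 2 : ℝ) : ℂ) ^ m‖ ≤ 2 * t * Y * Real.exp (-(c * t)) := by
    intro k t ht ht1
    have hcard : (univ.erase k : Finset (Fin (m + 1))).card = m := by
      rw [Finset.card_erase_of_mem (mem_univ k), Finset.card_univ, Fintype.card_fin]
      rfl
    have h := prod_est u (univ.erase k) hM hYle (by rw [← hR]; exact hY) (by rw [hcard]) ht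
      (ht1.trans hk1)
    rw [hcard, ← hR, ← hc] at h
    exact h
  clear hM
  -- the integrals
  have c1 := ff_cont u
  have c2 : Continuous fun t : ℝ => (t : ℂ) * ff u t := by fun_prop
  have c3 : Continuous fun t : ℝ => (t : ℂ) ^ 2 * ∑ k, u k ^ 2 * fh u k t := by
    refine (by fun_prop : Continuous fun t : ℝ => (t : ℂ) ^ 2).mul ?_
    exact continuous_finsetSum _ fun k _ => continuous_const.mul (fh_cont u k)
  obtain ⟨J, hJ⟩ : ∃ J : ℂ, J = ∫ t in (0:ℝ)..k0, (t : ℂ) * ff u t := ⟨_, rfl⟩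
  obtain ⟨I, hIdef⟩ : ∃ I : ℂ, I = ∫ t in (0:ℝ)..k0, ff u t * (1 - (t : ℂ) * u0) := ⟨_, rfl⟩
  have hIn : ‖I‖ ≤ 1 / R ^ 3 := by rw [hIdef]; exact hI
  have hmodel : (∫ t in (0:ℝ)..k0, ((t * (1 - t / 2) ^ (m + 1) -
      ((m + 1 : ℕ) : ℝ) / 4 * t ^ 2 * (1 - t / 2) ^ m : ℝ) : ℂ)) =
      ((k0 ^ 2 / 2 * (1 - k0 / 2) ^ (m + 1) : ℝ) : ℂ) := by
    rw [intervalIntegral.integral_ofReal, model_id]
  rw [← hR] at hmodel
  have c4 : Continuous fun t : ℝ => ((t * (1 - t / 2) ^ (m + 1) -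
      R / 4 * t ^ 2 * (1 - t / 2) ^ m : ℝ) : ℂ) := by fun_prop
  have hid : (u0 - ∑ k, u k - 1) * J = (k0 : ℂ) * ff u k0 - I +
      (∫ t in (0:ℝ)..k0, ((t : ℂ) ^ 2 * (∑ k, u k ^ 2 * fh u k t) - (t : ℂ) * ff u t +
        ((t * (1 - t / 2) ^ (m + 1) - R / 4 * t ^ 2 * (1 - t / 2) ^ m : ℝ) : ℂ))) -
        ((k0 ^ 2 / 2 * (1 - k0 / 2) ^ (m + 1) : ℝ) : ℂ) := by
    have h1 := main_id u u0 k0
    rw [← hJ, ← hIdef] at h1
    have h2 : (∫ t in (0:ℝ)..k0, ((t : ℂ) ^ 2 * (∑ k, u k ^ 2 * fh u k t) - (t : ℂ) * ff u t +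
        ((t * (1 - t / 2) ^ (m + 1) - R / 4 * t ^ 2 * (1 - t / 2) ^ m : ℝ) : ℂ))) =
        (∫ t in (0:ℝ)..k0, (t : ℂ) ^ 2 * (∑ k, u k ^ 2 * fh u k t)) - J +
          ((k0 ^ 2 / 2 * (1 - k0 / 2) ^ (m + 1) : ℝ) : ℂ) := by
      have c5 : Continuous fun t : ℝ => (t : ℂ) ^ 2 * (∑ k, u k ^ 2 * fh u k t) -
        (t : ℂ) * ff u t := c3.sub c2
      rw [intervalIntegral.integral_add (c5.intervalIntegrable 0 k0) (c4.intervalIntegrable 0 k0),
        intervalIntegral.integral_sub (c3.intervalIntegrable 0 k0) (c2.intervalIntegrable 0 k0),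
        hmodel, ← hJ]
    rw [h2]
    linear_combination h1
  -- the error integral
  have hb : ∀ t : ℝ, 0 ≤ t → t ≤ k0 →
      ‖(t : ℂ) ^ 2 * (∑ k, u k ^ 2 * fh u k t) - (t : ℂ) * ff u t +
        ((t * (1 - t / 2) ^ (m + 1) - R / 4 * t ^ 2 * (1 - t / 2) ^ m : ℝ) : ℂ)‖ ≤
      5 * Y * (t ^ 2 * Real.exp (-(c * t))) + R * Y / 2 * (t ^ 3 * Real.exp (-(c * t))) := by
    intro t ht ht1
    obtain ⟨e, he⟩ : ∃ e : ℝ, e = Real.exp (-(c * t)) := ⟨_, rfl⟩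
    have he0 : 0 < e := by rw [he]; exact Real.exp_pos _
    have h1 : (t : ℂ) ^ 2 * (∑ k, u k ^ 2 * fh u k t) - (t : ℂ) * ff u t +
        ((t * (1 - t / 2) ^ (m + 1) - R / 4 * t ^ 2 * (1 - t / 2) ^ m : ℝ) : ℂ) =
        (t : ℂ) ^ 2 * (∑ k, (u k ^ 2 * fh u k t - 1 / 4 * ((1 - t / 2 : ℝ) : ℂ) ^ m)) -
          (t : ℂ) * (ff u t - ((1 - t / 2 : ℝ) : ℂ) ^ (m + 1)) := by
      rw [Finset.sum_sub_distrib, Finset.sum_const, Finset.card_univ, Fintype.card_fin, hR,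
        nsmul_eq_mul]
      push_cast
      ring
    rw [h1]
    have h2 : ∀ k, ‖u k ^ 2 * fh u k t - 1 / 4 * ((1 - t / 2 : ℝ) : ℂ) ^ m‖ ≤
        3 * ‖u k - 1 / 2‖ * e + 1 / 4 * (2 * t * Y * e) := by
      intro k
      have h3 : u k ^ 2 * fh u k t - 1 / 4 * ((1 - t / 2 : ℝ) : ℂ) ^ m =
          (u k - 1 / 2) * (u k - 1 / 2 + 1) * fh u k t +
            1 / 4 * (fh u k t - ((1 - t / 2 : ℝ) : ℂ) ^ m) := by ring
      rw [h3]
      obtain ⟨g1, g2⟩ := hh k t ht ht1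
      rw [← he] at g1 g2
      have h4 : ‖u k - 1 / 2 + 1‖ ≤ 3 := by
        have := norm_add_le (u k - 1 / 2) (1 : ℂ)
        rw [norm_one] at this
        linarith [hu k]
      refine (norm_add_le _ _).trans (add_le_add ?_ ?_)
      · rw [norm_mul, norm_mul]
        calc ‖u k - 1 / 2‖ * ‖u k - 1 / 2 + 1‖ * ‖fh u k t‖ ≤ ‖u k - 1 / 2‖ * 3 * e := by gcongr
          _ = 3 * ‖u k - 1 / 2‖ * e := by ring
      · rw [norm_mul]
        have : ‖(1 / 4 : ℂ)‖ = 1 / 4 := by norm_num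
        rw [this]
        gcongr
    have h5 : ‖∑ k, (u k ^ 2 * fh u k t - 1 / 4 * ((1 - t / 2 : ℝ) : ℂ) ^ m)‖ ≤
        3 * Y * e + R * (1 / 4 * (2 * t * Y * e)) := by
      refine (norm_sum_le _ _).trans ((Finset.sum_le_sum fun k _ => h2 k).trans (le_of_eq ?_))
      rw [Finset.sum_add_distrib, Finset.sum_const, Finset.card_univ, Fintype.card_fin,
        nsmul_eq_mul, ← hR, ← Finset.sum_mul, ← Finset.mul_sum, ← hYdef]
    obtain ⟨-, g2⟩ := hf t ht ht1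
    rw [← he] at g2
    refine (norm_sub_le _ _).trans ?_
    rw [norm_mul, norm_mul, norm_pow, Complex.norm_real, Real.norm_of_nonneg ht, ← he]
    calc t ^ 2 * ‖∑ k, (u k ^ 2 * fh u k t - 1 / 4 * ((1 - t / 2 : ℝ) : ℂ) ^ m)‖ +
          t * ‖ff u t - ((1 - t / 2 : ℝ) : ℂ) ^ (m + 1)‖
        ≤ t ^ 2 * (3 * Y * e + R * (1 / 4 * (2 * t * Y * e))) + t * (2 * t * Y * e) := by gcongr
      _ = 5 * Y * (t ^ 2 * e) + R * Y / 2 * (t ^ 3 * e) := by ring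
  have hE : ‖∫ t in (0:ℝ)..k0, ((t : ℂ) ^ 2 * (∑ k, u k ^ 2 * fh u k t) - (t : ℂ) * ff u t +
        ((t * (1 - t / 2) ^ (m + 1) - R / 4 * t ^ 2 * (1 - t / 2) ^ m : ℝ) : ℂ))‖ ≤
      5 * Y * (2 / c ^ 3) + R * Y / 2 * (6 / c ^ 4) := by
    have i1 : Continuous fun t : ℝ => 5 * Y * (t ^ 2 * Real.exp (-(c * t))) := by fun_prop
    have i2 : Continuous fun t : ℝ => R * Y / 2 * (t ^ 3 * Real.exp (-(c * t))) := by fun_prop
    refine (intervalIntegral.norm_integral_le_of_norm_le hk0 (ae_of_all _ fun t ht =>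
      hb t ht.1.le ht.2) ((i1.add i2).intervalIntegrable 0 k0)).trans ?_
    rw [intervalIntegral.integral_add (i1.intervalIntegrable 0 k0) (i2.intervalIntegrable 0 k0),
      intervalIntegral.integral_const_mul, intervalIntegral.integral_const_mul]
    have := exp_int2 hc0 hk0
    have := exp_int3 hc0 hk0
    gcongr
  obtain ⟨Ei, hEi⟩ : ∃ Ei : ℂ, Ei = ∫ t in (0:ℝ)..k0, ((t : ℂ) ^ 2 * (∑ k, u k ^ 2 * fh u k t) -
      (t : ℂ) * ff u t +
        ((t * (1 - t / 2) ^ (m + 1) - R / 4 * t ^ 2 * (1 - t / 2) ^ m : ℝ) : ℂ)) := ⟨_, rfl⟩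
  rw [← hEi] at hE hid
  clear hEi hmodel hb hh
  -- lower bound of `J`
  have hexpc : Real.exp (-(c * k0)) ≤ 1 / R ^ 6 := by
    refine le_trans (Real.exp_le_exp.2 ?_) hexp
    rw [hc]
    nlinarith [mul_nonneg hk0 hR0.le]
  have hs0 : 0 ≤ 1 - k0 / 2 := by linarith
  have hs1 : 1 - k0 / 2 ≤ 1 := by linarith
  have hpow : (1 - k0 / 2) ^ (m + 1) ≤ 1 / R ^ 6 := by
    have h := pow_le_pow_left₀ hs0 (Real.one_sub_le_exp_neg (k0 / 2)) (m + 1)
    rw [← Real.exp_nat_mul, ← hR] at h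
    refine h.trans (le_trans (Real.exp_le_exp.2 ?_) hexp)
    nlinarith [mul_nonneg hk0 hR0.le]
  have hmu : ((∫ t in (0:ℝ)..k0, t * (1 - t / 2) ^ (m + 1) : ℝ)) ≥ 3.9 / R ^ 2 := by
    rw [model_int]
    have hmR : ((m + 1 : ℕ) : ℝ) = R := hR.symm
    rw [hmR]
    have hp2 : (1 - k0 / 2) ^ (m + 1 + 1) ≤ 1 / R ^ 6 :=
      (pow_le_pow_of_le_one hs0 hs1 (by omega)).trans hpow
    have hp3 : (1 - k0 / 2) ^ (m + 1 + 2) ≤ 1 / R ^ 6 :=
      (pow_le_pow_of_le_one hs0 hs1 (by omega)).trans hpow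
    have e1 : 2 * k0 / (R + 1) * (1 - k0 / 2) ^ (m + 1 + 1) ≤ 1 / R ^ 6 := by
      refine le_trans (mul_le_of_le_one_left (pow_nonneg hs0 _) ?_) hp2
      rw [div_le_one (by linarith)]
      linarith
    have e2 : 4 / ((R + 1) * (R + 2)) * (1 - k0 / 2) ^ (m + 1 + 2) ≤ 1 / R ^ 6 := by
      refine le_trans (mul_le_of_le_one_left (pow_nonneg hs0 _) ?_) hp3
      rw [div_le_one (by positivity)]
      nlinarith
    have e3 : 3.9 / R ^ 2 + 2 / R ^ 6 ≤ 4 / ((R + 1) * (R + 2)) := by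
      have f1 : 2 / R ^ 6 ≤ 0.01 / R ^ 2 := by
        rw [div_le_div_iff₀ (by positivity) (by positivity)]
        have : 200 ≤ R ^ 4 := by
          have h200 : (200:ℝ) ≤ R := by linarith
          calc (200:ℝ) ≤ R := h200
            _ = R ^ 1 := (pow_one R).symm
            _ ≤ R ^ 4 := pow_le_pow_right₀ (by linarith) (by norm_num)
        have h6 : R ^ 6 = R ^ 4 * R ^ 2 := by ring
        rw [h6]
        nlinarith [sq_nonneg R]
      have f2 : 3.91 / R ^ 2 ≤ 4 / ((R + 1) * (R + 2)) := by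
        rw [div_le_div_iff₀ (by positivity) (by positivity)]
        norm_num
        nlinarith
      have f3 : 3.9 / R ^ 2 + 0.01 / R ^ 2 = 3.91 / R ^ 2 := by
        rw [← add_div]; norm_num
      linarith
    have e4 : 1 / R ^ 6 + 1 / R ^ 6 = 2 / R ^ 6 := by ring
    show 3.9 / R ^ 2 ≤ _
    linarith
  have hJd : ‖J - ((∫ t in (0:ℝ)..k0, t * (1 - t / 2) ^ (m + 1) : ℝ) : ℂ)‖ ≤
      2 * Y * (2 / c ^ 3) := by
    have c6 : Continuous fun t : ℝ => ((t * (1 - t / 2) ^ (m + 1) : ℝ) : ℂ) := by fun_prop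
    rw [hJ, ← intervalIntegral.integral_ofReal, ← intervalIntegral.integral_sub
      (c2.intervalIntegrable 0 k0) (c6.intervalIntegrable 0 k0)]
    have i1 : Continuous fun t : ℝ => 2 * Y * (t ^ 2 * Real.exp (-(c * t))) := by fun_prop
    refine (intervalIntegral.norm_integral_le_of_norm_le hk0 (ae_of_all _ fun t ht => ?_)
      (i1.intervalIntegrable 0 k0)).trans ?_
    · show ‖(t : ℂ) * ff u t - ((t * (1 - t / 2) ^ (m + 1) : ℝ) : ℂ)‖ ≤
        2 * Y * (t ^ 2 * Real.exp (-(c * t)))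
      obtain ⟨-, g2⟩ := hf t ht.1.le ht.2
      have e1 : (t : ℂ) * ff u t - ((t * (1 - t / 2) ^ (m + 1) : ℝ) : ℂ) =
          (t : ℂ) * (ff u t - ((1 - t / 2 : ℝ) : ℂ) ^ (m + 1)) := by
        push_cast; ring
      rw [e1, norm_mul, Complex.norm_real, Real.norm_of_nonneg ht.1.le]
      calc t * ‖ff u t - ((1 - t / 2 : ℝ) : ℂ) ^ (m + 1)‖
          ≤ t * (2 * t * Y * Real.exp (-(c * t))) := mul_le_mul_of_nonneg_left g2 ht.1.le
        _ = _ := by ring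
    · rw [intervalIntegral.integral_const_mul]
      have := exp_int2 hc0 hk0
      gcongr
  -- numerics
  have hc3 : 1 / c ^ 3 = 125 / 8 / R ^ 3 := by
    rw [hc]; field_simp; norm_num
  have hc4 : 1 / c ^ 4 = 625 / 16 / R ^ 4 := by
    rw [hc]; field_simp; norm_num
  have hYR : Y / R ^ 3 ≤ 1 / 10 ^ 4 / R ^ 2 := by
    rw [div_le_div_iff₀ (by positivity) (by positivity)]
    calc Y * R ^ 2 ≤ (1 / 10 ^ 4 * R) * R ^ 2 := mul_le_mul_of_nonneg_right hY (by positivity)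
      _ = 1 / 10 ^ 4 * R ^ 3 := by ring
  have n1 : 5 * Y * (2 / c ^ 3) + R * Y / 2 * (6 / c ^ 4) ≤ 0.03 / R ^ 2 := by
    have e1 : 5 * Y * (2 / c ^ 3) + R * Y / 2 * (6 / c ^ 4) = 10 * Y * (1 / c ^ 3) +
      3 * R * Y * (1 / c ^ 4) := by ring
    rw [e1, hc3, hc4]
    have e2 : 10 * Y * (125 / 8 / R ^ 3) + 3 * R * Y * (625 / 16 / R ^ 4) =
        (1250 / 8 + 1875 / 16) * (Y / R ^ 3) := by
      field_simp
      ring
    rw [e2]
    calc (1250 / 8 + 1875 / 16) * (Y / R ^ 3) ≤ (1250 / 8 + 1875 / 16) * (1 / 10 ^ 4 / R ^ 2) :=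
          mul_le_mul_of_nonneg_left hYR (by norm_num)
      _ ≤ 0.03 / R ^ 2 := by
        rw [← mul_div_assoc]
        exact div_le_div_of_nonneg_right (by norm_num) (by positivity)
  have n2 : 2 * Y * (2 / c ^ 3) ≤ 0.01 / R ^ 2 := by
    have e1 : 2 * Y * (2 / c ^ 3) = 4 * Y * (1 / c ^ 3) := by ring
    rw [e1, hc3]
    have e2 : 4 * Y * (125 / 8 / R ^ 3) = 125 / 2 * (Y / R ^ 3) := by
      field_simp
      ring
    rw [e2]
    calc 125 / 2 * (Y / R ^ 3) ≤ 125 / 2 * (1 / 10 ^ 4 / R ^ 2) :=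
          mul_le_mul_of_nonneg_left hYR (by norm_num)
      _ ≤ 0.01 / R ^ 2 := by
        rw [← mul_div_assoc]
        exact div_le_div_of_nonneg_right (by norm_num) (by positivity)
  have hJlow : 3 / R ^ 2 ≤ ‖J‖ := by
    obtain ⟨μ, hμ⟩ : ∃ μ : ℝ, μ = ∫ t in (0:ℝ)..k0, t * (1 - t / 2) ^ (m + 1) := ⟨_, rfl⟩
    rw [← hμ] at hmu hJd
    have hμ0 : 0 ≤ μ := le_trans (by positivity) hmu
    have h1 : ‖(μ : ℂ)‖ ≤ ‖J‖ + ‖J - (μ : ℂ)‖ := by
      have := norm_sub_le J (J - (μ : ℂ))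
      rwa [sub_sub_cancel] at this
    rw [Complex.norm_real, Real.norm_of_nonneg hμ0] at h1
    have h2 : 3 / R ^ 2 + 0.9 / R ^ 2 = 3.9 / R ^ 2 := by rw [← add_div]; norm_num
    have h3 : 0.01 / R ^ 2 ≤ 0.9 / R ^ 2 :=
      div_le_div_of_nonneg_right (by norm_num) (by positivity)
    have h4 : μ ≥ 3.9 / R ^ 2 := hmu
    linarith
  have hR2 : 1 / R ^ 3 ≤ 0.01 / R ^ 2 := by
    rw [div_le_div_iff₀ (by positivity) (by positivity)]
    have : R ^ 3 = R * R ^ 2 := by ring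
    rw [this]
    have h100 : 100 ≤ R := by linarith
    nlinarith [sq_nonneg R]
  have hR6 : 1 / R ^ 6 ≤ 1 / R ^ 3 := by
    refine div_le_div_of_nonneg_left zero_le_one (by positivity) ?_
    exact pow_le_pow_right₀ (by linarith) (by norm_num)
  have hfin : ‖u0 - ∑ k, u k - 1‖ * ‖J‖ ≤ 0.06 / R ^ 2 := by
    rw [← norm_mul, hid]
    have g1 : ‖(k0 : ℂ) * ff u k0‖ ≤ 1 / R ^ 6 := by
      rw [norm_mul, Complex.norm_real, Real.norm_of_nonneg hk0]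
      calc k0 * ‖ff u k0‖ ≤ 1 * ‖ff u k0‖ :=
            mul_le_mul_of_nonneg_right (by linarith) (norm_nonneg _)
        _ ≤ 1 / R ^ 6 := by rw [one_mul]; exact ((hf k0 hk0 le_rfl).1).trans hexpc
    have g2 : ‖((k0 ^ 2 / 2 * (1 - k0 / 2) ^ (m + 1) : ℝ) : ℂ)‖ ≤ 1 / R ^ 6 := by
      rw [Complex.norm_real, Real.norm_of_nonneg (by positivity)]
      refine le_trans (mul_le_of_le_one_left (pow_nonneg hs0 _) ?_) hpow
      nlinarith
    have g3 := norm_sub_le ((k0 : ℂ) * ff u k0 - I + Ei)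
        ((k0 ^ 2 / 2 * (1 - k0 / 2) ^ (m + 1) : ℝ) : ℂ)
    have g4 := norm_add_le ((k0 : ℂ) * ff u k0 - I) Ei
    have g5 := norm_sub_le ((k0 : ℂ) * ff u k0) I
    have h6 : 0.06 / R ^ 2 = 0.03 / R ^ 2 + 0.01 / R ^ 2 + 0.01 / R ^ 2 + 0.01 / R ^ 2 := by
      rw [← add_div, ← add_div, ← add_div]; norm_num
    rw [h6]
    linarith
  by_contra hcon
  push Not at hcon
  have h7 : 1 / 20 * (3 / R ^ 2) < 0.06 / R ^ 2 := by
    calc 1 / 20 * (3 / R ^ 2) < ‖u0 - ∑ k, u k - 1‖ * (3 / R ^ 2) :=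
          mul_lt_mul_of_pos_right hcon (by positivity)
      _ ≤ ‖u0 - ∑ k, u k - 1‖ * ‖J‖ := mul_le_mul_of_nonneg_left hJlow (norm_nonneg _)
      _ ≤ _ := hfin
  have h8 : 0.06 / R ^ 2 ≤ 1 / 20 * (3 / R ^ 2) := by
    rw [← mul_div_assoc]
    exact div_le_div_of_nonneg_right (by norm_num) (by positivity)
  linarith

end Pool.Agent.H250.MR.ONEf
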