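import Pool.Agent.H250.MR.SmallTest

set_option autoImplicit false

/-!
# Small zeros: sums and pointwise bounds
-/

open MeasureTheory

namespace Pool.Agent.H250.MR

section

variable {N : ℕ} {a : ℝ} {x : Fin N → ℂ}

lemma s_far_norm (ha1 : a ≤ 1 / 1000) {k : Fin N} (hk : k ∈ Far a x) : ‖x k‖ ≤ 5 / 2 := by
  have h1 := mem_far.1 hk
  have h2 : 0 < 1 - a := by linarith
  rw [le_div_iff₀ h2] at h1
  nlinarith [norm_nonneg (x k)]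

lemma s_sq (ha1 : a ≤ 1 / 1000) (hS : ∑ k, ‖x k‖ ≤ N) :
    ∑ k ∈ Far a x, (a * ‖x k‖) ^ 2 ≤ 3 * (a ^ 2 * N) := by
  have h1 : ∑ k ∈ Far a x, (a * ‖x k‖) ^ 2 ≤ a ^ 2 * (5 / 2) * ∑ k ∈ Far a x, ‖x k‖ := by
    rw [Finset.mul_sum]
    refine Finset.sum_le_sum fun k hk => ?_
    have h2 := s_far_norm ha1 hk
    have h3 : ‖x k‖ ^ 2 ≤ 5 / 2 * ‖x k‖ := by nlinarith [norm_nonneg (x k)]
    have := mul_le_mul_of_nonneg_left h3 (sq_nonneg a)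
    linarith
  have h2 : ∑ k ∈ Far a x, ‖x k‖ ≤ ∑ k, ‖x k‖ :=
    Finset.sum_le_sum_of_subset_of_nonneg (Finset.subset_univ _) fun _ _ _ => norm_nonneg _
  have h3 : a ^ 2 * (5 / 2) * ∑ k ∈ Far a x, ‖x k‖ ≤ a ^ 2 * (5 / 2) * N :=
    mul_le_mul_of_nonneg_left (h2.trans hS) (by positivity)
  have h4 : 0 ≤ a ^ 2 * N := by positivity
  linarith

lemma s_im (ha0 : 0 < a) (ha1 : a ≤ 1 / 1000) (hx : ∀ k, ‖1 + (a : ℂ) * x k‖ ≤ ‖x k‖)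
    (hS : ∑ k, ‖x k‖ ≤ N) : ∑ k ∈ Far a x, (a * (x k).im) ^ 2 ≤ 5 * AA a x := by
  have h1 := F5 (a := a) (by linarith) hx
  obtain ⟨hA, hHA, _⟩ := F3 ha0 (by linarith) hx hS
  have hH := HH_nonneg hx
  have h2 : 4 / (1 - a) ≤ 5 := by
    rw [div_le_iff₀ (by linarith)]; linarith
  have h3 := mul_le_mul_of_nonneg_right h2 hH
  linarith

lemma s_re (ha1 : a ≤ 1 / 1000) (hS : ∑ k, ‖x k‖ ≤ N) :
    ∑ k ∈ Far a x, (a * (x k).re) ^ 2 ≤ 3 * (a ^ 2 * N) := by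
  refine le_trans (Finset.sum_le_sum fun k _ => ?_) (s_sq ha1 hS)
  rw [mul_pow, mul_pow]
  refine mul_le_mul_of_nonneg_left ?_ (sq_nonneg a)
  rw [Complex.sq_norm, Complex.normSq_apply]; nlinarith [sq_nonneg (x k).im]

lemma s_near (ha0 : 0 < a) (ha1 : a ≤ 1 / 1000) (hx : ∀ k, ‖1 + (a : ℂ) * x k‖ ≤ ‖x k‖)
    (hS : ∑ k, ‖x k‖ ≤ N) : a * SS a x ≤ AA a x / 500 := by
  obtain ⟨hA, _, hSA⟩ := F3 ha0 (by linarith) hx hS
  have h0 : 0 ≤ SS a x := SS_nonneg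
  have h1 : a * SS a x ≤ 1 / 1000 * SS a x := mul_le_mul_of_nonneg_right ha1 h0
  linarith

lemma near_norm (ha0 : 0 < a) : ∑ k ∈ (Far a x)ᶜ, ‖-((a : ℂ) * x k)‖ = a * SS a x := by
  simp only [u_norm ha0]; rw [← Finset.mul_sum]; rfl

lemma s_ReU (ha0 : 0 < a) (ha1 : a ≤ 1 / 1000) (hx : ∀ k, ‖1 + (a : ℂ) * x k‖ ≤ ‖x k‖)
    (hS : ∑ k, ‖x k‖ ≤ N) :
    AA a x * (499 / 500) ≤ (∑ k, -((a : ℂ) * x k)).re ∧
      (∑ k, -((a : ℂ) * x k)).re ≤ AA a x * (501 / 500) := by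
  have h1 := s_near ha0 ha1 hx hS
  have h2 : (∑ k, -((a : ℂ) * x k)).re = AA a x + ∑ k ∈ (Far a x)ᶜ, (-((a : ℂ) * x k)).re := by
    rw [Complex.re_sum, ← Finset.sum_add_sum_compl (Far a x)]
    congr 1
    unfold AA
    exact Finset.sum_congr rfl fun k _ => u_re _
  have h3 : |∑ k ∈ (Far a x)ᶜ, (-((a : ℂ) * x k)).re| ≤ a * SS a x := by
    rw [← near_norm ha0]
    refine (Finset.abs_sum_le_sum_abs _ _).trans (Finset.sum_le_sum fun k _ => ?_)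
    exact Complex.abs_re_le_norm _
  have h4 := abs_le.1 h3
  rw [h2]
  constructor <;> linarith

lemma sum_s_nonpos (hS : ∑ k, ‖x k‖ ≤ N) : ∑ k, (‖x k‖ - 1) ≤ 0 := by
  rw [Finset.sum_sub_distrib]; simp; exact hS

/-- (T3) summed -/
lemma s_tail1 (hT3 : S_T3) (ha0 : 0 < a) (ha1 : a ≤ 1 / 1000)
    (hx : ∀ k, ‖1 + (a : ℂ) * x k‖ ≤ ‖x k‖)
    (hS : ∑ k, ‖x k‖ ≤ N) {t : ℝ} (ht0 : 0 ≤ t) (ht1 : t ≤ 1) :
    ‖∏ k, (1 - (t : ℂ) * (-((a : ℂ) * x k)))‖ ≤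
      Real.exp (-(t * (1 - t) * (∑ k, -((a : ℂ) * x k)).re / 60)) := by
  have h1 : ∀ k, ‖1 - (t : ℂ) * (-((a : ℂ) * x k))‖ ^ 2 ≤
      Real.exp (2 * t * (‖x k‖ - 1) - t * (1 - t) * (‖x k‖ - 1 - a * (x k).re) / 30) := by
    intro k
    rw [fac_eq]
    exact hT3 a t (x k) ha0 (by linarith) ht0 ht1 (hx k)
  refine (prod_le_exp _ _ h1).trans (Real.exp_le_exp.2 ?_)
  rw [Finset.sum_sub_distrib, ← Finset.mul_sum, ← Finset.sum_div, ← Finset.mul_sum,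
    Finset.sum_sub_distrib (s := Finset.univ) (fun k => ‖x k‖ - 1) (fun k => a * (x k).re)]
  have h2 : (∑ k, -((a : ℂ) * x k)).re = -∑ k, a * (x k).re := by
    rw [Complex.re_sum, ← Finset.sum_neg_distrib]
    exact Finset.sum_congr rfl fun k _ => u_re _
  have h3 := sum_s_nonpos hS
  rw [h2]
  set s := ∑ k, (‖x k‖ - 1) with hs
  set V := ∑ k, a * (x k).re with hV
  have h4 : (2 * t * s - t * (1 - t) * (s - V) / 30) / 2 =
      -(t * (1 - t) * -V / 60) + t * s * (1 - (1 - t) / 60) := by ring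
  rw [h4]
  have h5 : t * s * (1 - (1 - t) / 60) ≤ 0 :=
    mul_nonpos_of_nonpos_of_nonneg (mul_nonpos_of_nonneg_of_nonpos ht0 h3) (by linarith)
  linarith

lemma prod_le_exp' (v : Fin N → ℂ) (e : Fin N → ℝ) (h : ∀ k, ‖v k‖ ≤ Real.exp (e k)) :
    ‖∏ k, v k‖ ≤ Real.exp (∑ k, e k) := by
  rw [norm_prod, Real.exp_sum]
  exact Finset.prod_le_prod (fun _ _ => norm_nonneg _) fun k _ => h k

lemma exp_gauss {v : ℝ} (h1 : -(1 / 2) ≤ v) (h2 : v ≤ 2) : 1 + v ≤ Real.exp (v - v ^ 2 / 8) := by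
  refine le_trans ?_ (T1f.exp_lb _ (by nlinarith))
  have e : v - v ^ 2 / 8 = v * (1 - v / 8) := by ring
  have h3 : 9 / 20 ≤ (1 - v / 8) ^ 2 := by nlinarith
  have h4 : v ^ 2 * (9 / 20) ≤ v ^ 2 * (1 - v / 8) ^ 2 :=
    mul_le_mul_of_nonneg_left h3 (sq_nonneg v)
  rw [e, mul_pow]
  nlinarith

/-- the elementary bound `‖1 + t a x‖ ≤ 1 + t s` summed -/
lemma s_tail2 (hS2 : S_S2) (ha0 : 0 < a) (ha1 : a ≤ 1 / 1000)
    (hx : ∀ k, ‖1 + (a : ℂ) * x k‖ ≤ ‖x k‖)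
    (hS : ∑ k, ‖x k‖ ≤ N) {t : ℝ} (ht0 : 0 ≤ t) (ht1 : t ≤ 1) :
    ‖∏ k, (1 - (t : ℂ) * (-((a : ℂ) * x k)))‖ ≤
      Real.exp (-(t ^ 2 * (a ^ 2 * N - 3 * AA a x) / 8)) := by
  have h0 := hS2 N a x ha0 (by linarith) hx hS
  have h1 : ∀ k, ‖1 - (t : ℂ) * (-((a : ℂ) * x k))‖ ≤
      Real.exp (t * (‖x k‖ - 1) - (if k ∈ Far a x then t ^ 2 * (‖x k‖ - 1) ^ 2 / 8 else 0)) := by
    intro k
    have h2 : ‖1 - (t : ℂ) * (-((a : ℂ) * x k))‖ ≤ 1 + t * (‖x k‖ - 1) := by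
      have e : 1 - (t : ℂ) * (-((a : ℂ) * x k)) =
          ((1 - t : ℝ) : ℂ) + (t : ℂ) * (1 + (a : ℂ) * x k) := by push_cast; ring
      rw [e]
      refine (norm_add_le _ _).trans ?_
      rw [norm_mul, Complex.norm_real, Complex.norm_real, Real.norm_eq_abs, Real.norm_eq_abs,
        abs_of_nonneg ht0, abs_of_nonneg (by linarith : (0:ℝ) ≤ 1 - t)]
      have := mul_le_mul_of_nonneg_left (hx k) ht0
      linarith
    refine h2.trans ?_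
    split_ifs with hk
    · have h3 := s_far_norm ha1 hk
      have h4 := p1 ha0.le (hx k)
      have h5 : -(1 / 2) ≤ ‖x k‖ - 1 := by nlinarith [norm_nonneg (x k)]
      have h6 : -(1 / 2) ≤ t * (‖x k‖ - 1) := by nlinarith
      have h7 : t * (‖x k‖ - 1) ≤ 2 := by nlinarith
      have h8 := exp_gauss h6 h7
      have e : (t * (‖x k‖ - 1)) ^ 2 / 8 = t ^ 2 * (‖x k‖ - 1) ^ 2 / 8 := by ring
      rwa [e] at h8
    · rw [sub_zero]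
      have := Real.add_one_le_exp (t * (‖x k‖ - 1))
      linarith
  refine (prod_le_exp' _ _ h1).trans (Real.exp_le_exp.2 ?_)
  rw [Finset.sum_sub_distrib, ← Finset.mul_sum, Finset.sum_ite_mem, Finset.univ_inter,
    ← Finset.sum_div, ← Finset.mul_sum]
  have h3 := sum_s_nonpos hS
  have h4 := mul_nonpos_of_nonneg_of_nonpos ht0 h3
  have h5 := mul_le_mul_of_nonneg_left h0 (sq_nonneg t)
  linarith

/-- the direct bound -/
lemma s_tail3 (ha0 : 0 < a) (ha1 : a ≤ 1 / 1000)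
    (hx : ∀ k, ‖1 + (a : ℂ) * x k‖ ≤ ‖x k‖)
    (hS : ∑ k, ‖x k‖ ≤ N) {t : ℝ} (ht0 : 0 ≤ t) (ht1 : t ≤ 1) :
    ‖∏ k, (1 - (t : ℂ) * (-((a : ℂ) * x k)))‖ ≤
      Real.exp (-(t * (AA a x * (499 / 500) - 2 * (a ^ 2 * N)))) := by
  have h1 : ∀ k, ‖1 - (t : ℂ) * (-((a : ℂ) * x k))‖ ^ 2 ≤
      Real.exp (if k ∈ Far a x then -(2 * t * -(a * (x k).re)) + t ^ 2 * (a * ‖x k‖) ^ 2
        else 2 * t * ‖-((a : ℂ) * x k)‖) := by
    intro k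
    split_ifs with hk
    · rw [fac_eq, sq_one_add]
      refine le_trans (le_of_eq ?_) (Real.add_one_le_exp _)
      ring
    · have h2 : ‖1 - (t : ℂ) * (-((a : ℂ) * x k))‖ ≤ 1 + t * ‖-((a : ℂ) * x k)‖ := by
        refine (norm_sub_le _ _).trans ?_
        rw [norm_one, norm_mul, Complex.norm_real, Real.norm_eq_abs, abs_of_nonneg ht0]
      have h3 : 1 + t * ‖-((a : ℂ) * x k)‖ ≤ Real.exp (t * ‖-((a : ℂ) * x k)‖) := by
        have := Real.add_one_le_exp (t * ‖-((a : ℂ) * x k)‖)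
        linarith
      have e : Real.exp (2 * t * ‖-((a : ℂ) * x k)‖) = Real.exp (t * ‖-((a : ℂ) * x k)‖) ^ 2 := by
        rw [← Real.exp_nat_mul]; push_cast; ring_nf
      rw [e]
      exact pow_le_pow_left₀ (norm_nonneg _) (h2.trans h3) 2
  refine (prod_le_exp _ _ h1).trans (Real.exp_le_exp.2 ?_)
  rw [← Finset.sum_add_sum_compl (Far a x)]
  have e1 : ∑ k ∈ Far a x, (if k ∈ Far a x then -(2 * t * -(a * (x k).re)) +
      t ^ 2 * (a * ‖x k‖) ^ 2 else 2 * t * ‖-((a : ℂ) * x k)‖) =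
      -(2 * t * AA a x) + t ^ 2 * ∑ k ∈ Far a x, (a * ‖x k‖) ^ 2 := by
    unfold AA
    rw [Finset.mul_sum, Finset.mul_sum, ← Finset.sum_neg_distrib, ← Finset.sum_add_distrib]
    exact Finset.sum_congr rfl fun k hk => by rw [if_pos hk]
  have e2 : ∑ k ∈ (Far a x)ᶜ, (if k ∈ Far a x then -(2 * t * -(a * (x k).re)) +
      t ^ 2 * (a * ‖x k‖) ^ 2 else 2 * t * ‖-((a : ℂ) * x k)‖) = 2 * t * (a * SS a x) := by
    rw [← near_norm ha0, Finset.mul_sum]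
    exact Finset.sum_congr rfl fun k hk => by rw [if_neg (Finset.mem_compl.1 hk)]
  rw [e1, e2]
  have h2 := s_sq ha1 hS
  have h3 := s_near ha0 ha1 hx hS
  have h4 : t ^ 2 * ∑ k ∈ Far a x, (a * ‖x k‖) ^ 2 ≤ t * (3 * (a ^ 2 * N)) := by
    have h5 : t ^ 2 * ∑ k ∈ Far a x, (a * ‖x k‖) ^ 2 ≤ t ^ 2 * (3 * (a ^ 2 * N)) :=
      mul_le_mul_of_nonneg_left h2 (sq_nonneg t)
    have h6 : t ^ 2 * (3 * (a ^ 2 * N)) ≤ t * (3 * (a ^ 2 * N)) :=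
      mul_le_mul_of_nonneg_right (by nlinarith) (by positivity)
    linarith
  have h7 := mul_le_mul_of_nonneg_left h3 ht0
  have h8 : 0 ≤ t * (a ^ 2 * N) := by positivity
  linarith

/-- the lower bound for the beginning of the integral -/
lemma s_lower (ha0 : 0 < a) (ha1 : a ≤ 1 / 1000)
    (hx : ∀ k, ‖1 + (a : ℂ) * x k‖ ≤ ‖x k‖) (hS : ∑ k, ‖x k‖ ≤ N) :
    AA a x / 2 * (∫ t in (0:ℝ)..(1 / 120), Real.exp (-(t * AA a x) - t ^ 2 * (3 * (a ^ 2 * N)))) ≤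
      ‖∑ k, -((a : ℂ) * x k)‖ *
        ‖∫ t in (0:ℝ)..(1 / 120), ∏ k, (1 - (t : ℂ) * (-((a : ℂ) * x k)))‖ := by
  obtain ⟨hA0, _, _⟩ := F3 ha0 (by linarith) hx hS
  have hre : ∑ k ∈ Far a x, (-((a : ℂ) * x k)).re = AA a x := by
    simp only [u_re]; rfl
  have him : ∑ k ∈ Far a x, (-((a : ℂ) * x k)).im ^ 2 = ∑ k ∈ Far a x, (a * (x k).im) ^ 2 := by
    simp only [u_im, neg_sq]
  have hre2 : ∑ k ∈ Far a x, (-((a : ℂ) * x k)).re ^ 2 = ∑ k ∈ Far a x, (a * (x k).re) ^ 2 := by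
    simp only [u_re, neg_sq]
  refine lower (Far a x) (fun k => -((a : ℂ) * x k)) (k0 := 1 / 120) (A := AA a x)
    (Q := 3 * (a ^ 2 * N)) (Γ := AA a x / 2) (by norm_num) (fun k hk => ?_) hre.le
    (by rw [hre2]; exact s_re ha1 hS) (by linarith) ?_
  · rw [u_norm ha0]
    have := s_far_norm ha1 hk
    nlinarith [norm_nonneg (x k)]
  · rw [hre, him, near_norm ha0]
    have h1 := s_im ha0 ha1 hx hS
    have h2 := s_near ha0 ha1 hx hS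
    linarith

end

end Pool.Agent.H250.MR
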