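import Pool.Agent.H250.MR.Small0

set_option autoImplicit false

/-!
# Small zeros: the test and the cases (S1), (S2)
-/

open Polynomial MeasureTheory

namespace Pool.Agent.H250.MR

open Pool.Agent.H565.Pm

section

variable {N : ℕ} {a : ℝ} {x : Fin N → ℂ}

/-- what the polynomial gives: the test at `y = a (1 - k1 ω)`, and the value of `∏ (a - z_j)` -/
def Tst (N : ℕ) (a : ℝ) (x : Fin N → ℂ) : Prop :=
  (∀ (k1 : ℝ) (ω : ℂ), 0 ≤ k1 → ‖ω‖ = 1 →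
    (N + 1 : ℝ) * ‖∫ t in (0:ℝ)..k1, ∏ k, (1 - (t : ℂ) * (ω * -((a : ℂ) * x k)))‖ ≤
      k1 * Real.exp (a ^ 2 * N * ‖1 - k1 * ω‖ ^ 2 / 2 +
        ((1 - k1 * ω) * ∑ k, -((a : ℂ) * x k)).re +
        ‖1 - k1 * ω‖ * (13 * (a ^ 2 * N) + AA a x + 1))) ∧
  (N + 1 : ℝ) ≤ Real.exp (a ^ 2 * N / 2 + (∑ k, -((a : ℂ) * x k)).re +
        (13 * (a ^ 2 * N) + AA a x + 1)) ∧
  (N + 1 : ℝ) * ‖∫ t in (0:ℝ)..1, ∏ k, (1 - (t : ℂ) * (-((a : ℂ) * x k)))‖ ≤ 1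

theorem tst_of (hR1 : S_R1) (hN : 1 ≤ N) (ha0 : 0 < a) (ha1 : a ≤ 1 / 1000)
    (z w : Fin N → ℂ) (hz : ∀ j, ‖z j‖ ≤ 1)
    (hw : ∀ x : ℂ, (derivative (P a z)).eval x = (N + 1 : ℂ) * ∏ k, (x - w k))
    (hw1 : ∀ k, ‖w k‖ ≤ 1) (hne : ∀ k, w k ≠ (a : ℂ)) (hxd : ∀ k, x k = (w k - (a : ℂ))⁻¹)
    (hx : ∀ k, ‖1 + (a : ℂ) * x k‖ ≤ ‖x k‖)
    (hS : ∑ k, ‖x k‖ ≤ N) : Tst N a x := by
  have hsum := sum_zeros_U hR1 hN ha0 (by linarith) z w x hw hw1 hne hxd hS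
  set U := ∑ k, -((a : ℂ) * x k) with hU
  set E : ℂ := (a : ℂ) * ∑ j, z j + (starRingEnd ℂ) U with hE
  set M : ℝ := 13 * (a ^ 2 * N) + AA a x + 1 with hM
  have hu : ∀ k, -((a : ℂ) * x k) = (a : ℂ) * ((a : ℂ) - w k)⁻¹ := by
    intro k
    rw [hxd k, ← neg_sub (w k) (a : ℂ), inv_neg, mul_neg]
  have hxn : ∀ k, ‖x k‖ = ‖w k - (a : ℂ)‖⁻¹ := fun k => by rw [hxd k]; exact norm_inv _
  have hprod1 : ∏ k, ‖w k - (a : ℂ)‖⁻¹ ≤ 1 := by
    simp only [← hxn]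
    exact (F9 ha0 hx hS).trans (Real.exp_le_one_iff.2 (by have := DD_nonneg ha0 hx; linarith))
  have hprod0 : 0 ≤ ∏ k, ‖w k - (a : ℂ)‖⁻¹ :=
    Finset.prod_nonneg fun _ _ => inv_nonneg.2 (norm_nonneg _)
  -- the exponent
  have hexp : ∀ q : ℂ, (N * ‖(a : ℂ) * q‖ ^ 2 -
      2 * ((starRingEnd ℂ) ((a : ℂ) * q) * ∑ j, z j).re) / 2 ≤
      a ^ 2 * N * ‖q‖ ^ 2 / 2 + (q * U).re + ‖q‖ * M := by
    intro q
    have e1 : (starRingEnd ℂ) ((a : ℂ) * q) * ∑ j, z j =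
        (starRingEnd ℂ) q * E - (starRingEnd ℂ) (q * U) := by
      rw [hE, map_mul, map_mul, Complex.conj_ofReal]; ring
    have e2 : ((starRingEnd ℂ) (q * U)).re = (q * U).re := Complex.conj_re _
    have e3 : -((starRingEnd ℂ) q * E).re ≤ ‖q‖ * M := by
      have h1 : -((starRingEnd ℂ) q * E).re ≤ ‖(starRingEnd ℂ) q * E‖ :=
        (neg_le_abs _).trans (Complex.abs_re_le_norm _)
      rw [norm_mul, Complex.norm_conj] at h1
      exact h1.trans (mul_le_mul_of_nonneg_left hsum (norm_nonneg _))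
    rw [e1, Complex.sub_re, e2, norm_mul, Complex.norm_real, Real.norm_eq_abs, mul_pow, sq_abs]
    linarith
  refine ⟨?_, ?_, ?_⟩
  · intro k1 ω hk1 hω
    rw [test_c ha0 z w k1 hk1 ω hω hw hne _ hu]
    have h1 := prod_zeros_c ((a : ℂ) * (1 - k1 * ω)) z hz
    have h2 := h1.trans (Real.exp_le_exp.2 (hexp (1 - k1 * ω)))
    have h3 : 0 ≤ ∏ j, ‖(a : ℂ) * (1 - k1 * ω) - z j‖ :=
      Finset.prod_nonneg fun _ _ => norm_nonneg _
    calc k1 * (∏ k, ‖w k - (a : ℂ)‖⁻¹) * ∏ j, ‖(a : ℂ) * (1 - k1 * ω) - z j‖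
        ≤ k1 * 1 * ∏ j, ‖(a : ℂ) * (1 - k1 * ω) - z j‖ :=
          mul_le_mul_of_nonneg_right (mul_le_mul_of_nonneg_left hprod1 hk1) h3
      _ ≤ _ := by rw [mul_one]; exact mul_le_mul_of_nonneg_left h2 hk1
  · have h1 := prod_zeros_c ((a : ℂ) * 1) z hz
    have h2 := h1.trans (Real.exp_le_exp.2 (hexp 1))
    rw [mul_one, norm_one, one_pow, mul_one, one_mul, one_mul, prod_at z w hw] at h2
    refine le_trans ?_ h2
    have h4 : 1 ≤ ∏ k, ‖(a : ℂ) - w k‖ := by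
      have h5 : (∏ k, ‖w k - (a : ℂ)‖⁻¹) * ∏ k, ‖(a : ℂ) - w k‖ = 1 := by
        rw [← Finset.prod_mul_distrib]
        refine Finset.prod_eq_one fun k _ => ?_
        rw [norm_sub_rev (w k), inv_mul_cancel₀]
        exact norm_ne_zero_iff.2 (sub_ne_zero.2 (hne k).symm)
      have h6 : 0 ≤ ∏ k, ‖(a : ℂ) - w k‖ := Finset.prod_nonneg fun _ _ => norm_nonneg _
      have h7 := mul_le_mul_of_nonneg_right hprod1 h6
      linarith
    exact le_mul_of_one_le_right (by positivity) h4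
  · have h := test_y ha0 z w 1 zero_le_one hw hne _ hu
    rw [h, one_mul]
    refine mul_le_one₀ hprod1 (Finset.prod_nonneg fun _ _ => norm_nonneg _) ?_
    refine Finset.prod_le_one (fun _ _ => norm_nonneg _) fun j _ => ?_
    simp only [sub_self, mul_zero, Complex.ofReal_zero, zero_sub, norm_neg]
    exact hz j

/-- `log n ≤ 14 L + 3 A + 1` -/
theorem star (ha0 : 0 < a) (ha1 : a ≤ 1 / 1000)
    (hx : ∀ k, ‖1 + (a : ℂ) * x k‖ ≤ ‖x k‖) (hS : ∑ k, ‖x k‖ ≤ N) (hT : Tst N a x) :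
    Real.log (N + 1) ≤ 14 * (a ^ 2 * N) + 3 * AA a x + 1 := by
  have h1 := hT.2.1
  obtain ⟨hA0, _, _⟩ := F3 ha0 (by linarith) hx hS
  have h3 : Real.log (N + 1) ≤ a ^ 2 * N / 2 + (∑ k, -((a : ℂ) * x k)).re +
        (13 * (a ^ 2 * N) + AA a x + 1) := by
    rw [Real.log_le_iff_le_exp (by positivity)]; exact h1
  have h4 := (s_ReU ha0 ha1 hx hS).2
  have h5 : 0 ≤ a ^ 2 * N := by positivity
  linarith

/-- the tail of an integral -/
lemma int_tail {f : ℝ → ℂ} (hcf : Continuous f) {k0 k1 T : ℝ} (h1 : k0 ≤ k1) (h2 : k1 ≤ k0 + 1)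
    (hT : 0 ≤ T) (h3 : ∀ t, k0 ≤ t → t ≤ k1 → ‖f t‖ ≤ T) :
    ‖∫ t in (0:ℝ)..k0, f t‖ ≤ ‖∫ t in (0:ℝ)..k1, f t‖ + T := by
  have h4 : (∫ t in (0:ℝ)..k0, f t) = (∫ t in (0:ℝ)..k1, f t) - ∫ t in k0..k1, f t := by
    rw [← intervalIntegral.integral_add_adjacent_intervals (hcf.intervalIntegrable 0 k0)
      (hcf.intervalIntegrable k0 k1)]
    ring
  have h5 : ‖∫ t in k0..k1, f t‖ ≤ T * |k1 - k0| := by
    apply intervalIntegral.norm_integral_le_of_norm_le_const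
    intro t ht
    rw [Set.uIoc_of_le h1] at ht
    exact h3 t ht.1.le ht.2
  have h6 : T * |k1 - k0| ≤ T * 1 := by
    refine mul_le_mul_of_nonneg_left ?_ hT
    rw [abs_of_nonneg (by linarith)]; linarith
  rw [h4]
  refine (norm_sub_le _ _).trans ?_
  linarith

/-- (S1) -/
theorem caseS1 (hN : 1 ≤ N) (ha0 : 0 < a) (ha1 : a ≤ 1 / 1000)
    (hx : ∀ k, ‖1 + (a : ℂ) * x k‖ ≤ ‖x k‖) (hS : ∑ k, ‖x k‖ ≤ N) (hT : Tst N a x)
    (h240 : 1000 * Real.log (N + 1) ≤ AA a x) (hA1 : 1000 ≤ AA a x)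
    (h50 : 50 * (a ^ 2 * N) ≤ AA a x) : False := by
  have hN0 : (0 : ℝ) < N := by exact_mod_cast hN
  have hA : 0 < AA a x := by linarith
  have hlow := s_lower ha0 ha1 hx hS
  have hL0 : 0 ≤ a ^ 2 * N := by positivity
  have hLB := LBf.LB (AA a x) (3 * (a ^ 2 * N)) (1 / 120) hA (by positivity) (by norm_num)
  have hq1 : 2 * (3 * (a ^ 2 * N)) / AA a x ^ 2 ≤ 1 / 4 := by
    rw [div_le_iff₀ (by positivity)]
    nlinarith
  have hq2 : Real.exp (-(1 / 120 * AA a x)) ≤ 1 / 4 := by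
    have h1 : Real.exp (-(1 / 120 * AA a x)) ≤ Real.exp (-3) := Real.exp_le_exp.2 (by linarith)
    have h2 : Real.exp (-3) ≤ 1 / 4 := by
      rw [Real.exp_neg, one_div]
      apply inv_anti₀ (by norm_num)
      have := Real.add_one_le_exp (3 : ℝ)
      linarith
    exact h1.trans h2
  have h10 : 1 / 2 / AA a x ≤ ∫ t in (0:ℝ)..(1 / 120),
      Real.exp (-(t * AA a x) - t ^ 2 * (3 * (a ^ 2 * N))) := by
    refine le_trans ?_ hLB
    exact div_le_div_of_nonneg_right (by linarith) hA.le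
  have h11 : 1 / 4 ≤ AA a x / 2 * ∫ t in (0:ℝ)..(1 / 120),
      Real.exp (-(t * AA a x) - t ^ 2 * (3 * (a ^ 2 * N))) := by
    have h12 := mul_le_mul_of_nonneg_left h10 (show 0 ≤ AA a x / 2 by linarith)
    have h13 : AA a x / 2 * (1 / 2 / AA a x) = 1 / 4 := by field_simp; norm_num
    rwa [h13] at h12
  set f : ℝ → ℂ := fun t => ∏ k, (1 - (t : ℂ) * (-((a : ℂ) * x k))) with hf
  have hcf : Continuous f := by rw [hf]; fun_prop
  have hsum := sum_u_le ha0 hS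
  have hI0 : 0 ≤ ‖∫ t in (0:ℝ)..(1 / 120), f t‖ := norm_nonneg _
  have h14 : 1 / 4 ≤ a * N * ‖∫ t in (0:ℝ)..(1 / 120), f t‖ :=
    (h11.trans hlow).trans (mul_le_mul_of_nonneg_right hsum hI0)
  have h15 : 250 ≤ N * ‖∫ t in (0:ℝ)..(1 / 120), f t‖ := by
    have h16 : a * (N * ‖∫ t in (0:ℝ)..(1 / 120), f t‖) ≤
        1 / 1000 * (N * ‖∫ t in (0:ℝ)..(1 / 120), f t‖) :=
      mul_le_mul_of_nonneg_right ha1 (by positivity)
    linarith
  -- the tail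
  set T : ℝ := Real.exp (-Real.log (N + 1)) with hTdef
  have hTn : (N + 1 : ℝ) * T = 1 := by
    rw [hTdef, Real.exp_neg, Real.exp_log (by positivity)]
    field_simp
  have htail := int_tail hcf (k0 := 1 / 120) (k1 := 1) (T := T) (by norm_num) (by norm_num)
    (Real.exp_pos _).le (fun t h1 h2 => by
      refine (s_tail3 ha0 ha1 hx hS (by linarith) h2).trans (Real.exp_le_exp.2 ?_)
      have h3 : AA a x * (9 / 10) ≤ AA a x * (499 / 500) - 2 * (a ^ 2 * N) := by linarith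
      have h4 : 1 / 120 * (AA a x * (9 / 10)) ≤
          t * (AA a x * (499 / 500) - 2 * (a ^ 2 * N)) :=
        mul_le_mul h1 h3 (by positivity) (by linarith)
      linarith)
  have h17 := hT.2.2
  have h18 : (N + 1 : ℝ) * ‖∫ t in (0:ℝ)..(1 / 120), f t‖ ≤
      (N + 1) * (‖∫ t in (0:ℝ)..1, f t‖ + T) := mul_le_mul_of_nonneg_left htail (by positivity)
  have h19 : (N + 1 : ℝ) * ‖∫ t in (0:ℝ)..1, f t‖ ≤ 1 := h17
  nlinarith

/-- (S2) -/
theorem caseS2 (hN : 1 ≤ N) (ha0 : 0 < a) (ha1 : a ≤ 1 / 1000)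
    (hx : ∀ k, ‖1 + (a : ℂ) * x k‖ ≤ ‖x k‖) (hS : ∑ k, ‖x k‖ ≤ N) (hT : Tst N a x)
    {l : ℝ} (hl : 1 ≤ l) (hL : a ^ 2 * N ≤ 2 * 10 ^ 11 * l) (hA : AA a x ≤ 10 ^ 13 * l)
    (hU : 10 ^ 17 * l ≤ ‖∑ k, -((a : ℂ) * x k)‖) : False := by
  have hN0 : (0 : ℝ) < N := by exact_mod_cast hN
  obtain ⟨hA0, _, _⟩ := F3 ha0 (by linarith) hx hS
  have hL0 : 0 ≤ a ^ 2 * N := by positivity
  have hsumU := sum_u_le ha0 hS
  have hReU := s_ReU ha0 ha1 hx hS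
  set U := ∑ k, -((a : ℂ) * x k) with hUdef
  set Y : ℝ := ‖U‖ with hY
  have hY0 : 0 < Y := by linarith
  have hYc : (Y : ℂ) ≠ 0 := by exact_mod_cast hY0.ne'
  set ω : ℂ := (starRingEnd ℂ) U / Y with hω
  have hωn : ‖ω‖ = 1 := by
    rw [hω, norm_div, Complex.norm_conj, Complex.norm_real, Real.norm_eq_abs, abs_of_pos hY0,
      ← hY, div_self hY0.ne']
  have hωU : ω * U = (Y : ℂ) := by
    rw [hω, div_mul_eq_mul_div, mul_comm, Complex.mul_conj, Complex.normSq_eq_norm_sq, ← hY]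
    push_cast
    field_simp
  set k0 : ℝ := 10 ^ 14 * l / Y with hk0
  have hk0pos : 0 < k0 := by rw [hk0]; positivity
  have hk0Y : k0 * Y = 10 ^ 14 * l := by rw [hk0]; field_simp
  have hk01 : k0 ≤ 1 / 1000 := by
    rw [hk0, div_le_iff₀ hY0]; linarith
  -- the lower bound
  have hsumω : ∑ k, ω * -((a : ℂ) * x k) = (Y : ℂ) := by
    rw [← Finset.mul_sum]; exact hωU
  have hnorm : ∀ k, ‖ω * -((a : ℂ) * x k)‖ = a * ‖x k‖ := fun k => by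
    rw [norm_mul, hωn, one_mul, u_norm ha0]
  have hnear : ∑ k ∈ (Far a x)ᶜ, ‖ω * -((a : ℂ) * x k)‖ = a * SS a x := by
    simp only [hnorm]; rw [← Finset.mul_sum]; rfl
  have hnear2 := s_near ha0 ha1 hx hS
  have hre : |∑ k ∈ Far a x, (ω * -((a : ℂ) * x k)).re - Y| ≤ a * SS a x := by
    have h1 : ∑ k ∈ Far a x, (ω * -((a : ℂ) * x k)).re +
        ∑ k ∈ (Far a x)ᶜ, (ω * -((a : ℂ) * x k)).re = Y := by
      rw [Finset.sum_add_sum_compl, ← Complex.re_sum, hsumω, Complex.ofReal_re]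
    have h2 : ∑ k ∈ Far a x, (ω * -((a : ℂ) * x k)).re - Y =
        -∑ k ∈ (Far a x)ᶜ, (ω * -((a : ℂ) * x k)).re := by linarith
    rw [h2, abs_neg, ← hnear]
    refine (Finset.abs_sum_le_sum_abs _ _).trans (Finset.sum_le_sum fun k _ => ?_)
    exact Complex.abs_re_le_norm _
  have hre' := abs_le.1 hre
  have hsq := s_sq ha1 hS
  have hQ : ∑ k ∈ Far a x, (ω * -((a : ℂ) * x k)).re ^ 2 ≤ 3 * (a ^ 2 * N) := by
    refine le_trans (Finset.sum_le_sum fun k _ => ?_) hsq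
    rw [← hnorm k]
    rw [Complex.sq_norm, Complex.normSq_apply]
    nlinarith [sq_nonneg (ω * -((a : ℂ) * x k)).im]
  have hQi : ∑ k ∈ Far a x, (ω * -((a : ℂ) * x k)).im ^ 2 ≤ 3 * (a ^ 2 * N) := by
    refine le_trans (Finset.sum_le_sum fun k _ => ?_) hsq
    rw [← hnorm k]
    rw [Complex.sq_norm, Complex.normSq_apply]
    nlinarith [sq_nonneg (ω * -((a : ℂ) * x k)).re]
  have hlow := lower (Far a x) (fun k => ω * -((a : ℂ) * x k)) (k0 := k0) (A := 2 * Y)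
    (Q := 3 * (a ^ 2 * N)) (Γ := Y / 2) hk0pos.le
    (fun k hk => by
      rw [hnorm]
      have h1 := s_far_norm ha1 hk
      have h2 : a * ‖x k‖ ≤ 1 / 2 := by nlinarith [norm_nonneg (x k)]
      have h3 : 0 ≤ a * ‖x k‖ := mul_nonneg ha0.le (norm_nonneg _)
      nlinarith)
    (by linarith) hQ (by linarith)
    (by
      rw [hnear]
      have h1 : 7 * k0 * (∑ k ∈ Far a x, (ω * -((a : ℂ) * x k)).im ^ 2) ≤
          7 * k0 * (3 * (a ^ 2 * N)) := mul_le_mul_of_nonneg_left hQi (by positivity)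
      have h2 : 7 * k0 * (3 * (a ^ 2 * N)) ≤ 7 * k0 * (3 * (2 * 10 ^ 11 * l)) :=
        mul_le_mul_of_nonneg_left (by linarith) (by positivity)
      have h3 : 7 * k0 * (3 * (2 * 10 ^ 11 * l)) ≤ 7 * (1 / 1000) * (3 * (2 * 10 ^ 11 * l)) :=
        mul_le_mul_of_nonneg_right (by linarith) (by positivity)
      linarith)
  rw [hsumω, Complex.norm_real, Real.norm_eq_abs, abs_of_pos hY0] at hlow
  have hLB := LBf.LB (2 * Y) (3 * (a ^ 2 * N)) k0 (by linarith) (by positivity) hk0pos.le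
  have hq1 : 2 * (3 * (a ^ 2 * N)) / (2 * Y) ^ 2 ≤ 1 / 4 := by
    rw [div_le_iff₀ (by positivity)]
    have h1 : (10 ^ 17 * l) * (10 ^ 17 * l) ≤ Y * Y := mul_le_mul hU hU (by positivity) hY0.le
    nlinarith
  have hq2 : Real.exp (-(k0 * (2 * Y))) ≤ 1 / 4 := by
    have h1 : Real.exp (-(k0 * (2 * Y))) ≤ Real.exp (-3) := Real.exp_le_exp.2 (by
      have : k0 * (2 * Y) = 2 * (k0 * Y) := by ring
      rw [this, hk0Y]; linarith)
    have h2 : Real.exp (-3) ≤ 1 / 4 := by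
      rw [Real.exp_neg, one_div]
      apply inv_anti₀ (by norm_num)
      have := Real.add_one_le_exp (3 : ℝ)
      linarith
    exact h1.trans h2
  have h10 : 1 / 2 / (2 * Y) ≤ ∫ t in (0:ℝ)..k0,
      Real.exp (-(t * (2 * Y)) - t ^ 2 * (3 * (a ^ 2 * N))) := by
    refine le_trans ?_ hLB
    exact div_le_div_of_nonneg_right (by linarith) (by linarith)
  set I := ‖∫ t in (0:ℝ)..k0, ∏ k, (1 - (t : ℂ) * (ω * -((a : ℂ) * x k)))‖ with hI
  have hI0 : 0 ≤ I := norm_nonneg _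
  have h11 : 1 / 8 ≤ Y * I := by
    have h12 := mul_le_mul_of_nonneg_left h10 (show 0 ≤ Y / 2 by linarith)
    have h13 : Y / 2 * (1 / 2 / (2 * Y)) = 1 / 8 := by field_simp; norm_num
    rw [h13] at h12
    exact h12.trans hlow
  have h14 : 1 / 8 ≤ a * N * I := h11.trans (mul_le_mul_of_nonneg_right hsumU hI0)
  have h15 : 125 ≤ N * I := by
    have h16 : a * (N * I) ≤ 1 / 1000 * (N * I) := mul_le_mul_of_nonneg_right ha1 (by positivity)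
    linarith
  -- the test
  have htest := hT.1 k0 ω hk0pos.le hωn
  rw [← hUdef, ← hI] at htest
  have hq : ‖1 - (k0 : ℂ) * ω‖ ≤ 2 := by
    refine (norm_sub_le _ _).trans ?_
    rw [norm_one, norm_mul, hωn, mul_one, Complex.norm_real, Real.norm_eq_abs,
      abs_of_pos hk0pos]
    linarith
  have hq0 : 0 ≤ ‖1 - (k0 : ℂ) * ω‖ := norm_nonneg _
  have hre2 : ((1 - (k0 : ℂ) * ω) * U).re = U.re - k0 * Y := by
    have : (1 - (k0 : ℂ) * ω) * U = U - (k0 : ℂ) * (ω * U) := by ring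
    rw [this, hωU, Complex.sub_re, ← Complex.ofReal_mul, Complex.ofReal_re]
  have hexp : a ^ 2 * N * ‖1 - (k0 : ℂ) * ω‖ ^ 2 / 2 + ((1 - (k0 : ℂ) * ω) * U).re +
      ‖1 - (k0 : ℂ) * ω‖ * (13 * (a ^ 2 * N) + AA a x + 1) ≤ 0 := by
    rw [hre2, hk0Y]
    have h1 : ‖1 - (k0 : ℂ) * ω‖ ^ 2 ≤ 4 := by nlinarith
    have h2 : a ^ 2 * N * ‖1 - (k0 : ℂ) * ω‖ ^ 2 ≤ a ^ 2 * N * 4 :=
      mul_le_mul_of_nonneg_left h1 hL0
    have h3 : ‖1 - (k0 : ℂ) * ω‖ * (13 * (a ^ 2 * N) + AA a x + 1) ≤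
        2 * (13 * (a ^ 2 * N) + AA a x + 1) :=
      mul_le_mul_of_nonneg_right hq (by positivity)
    linarith [hReU.2]
  have h20 : (N + 1 : ℝ) * I ≤ k0 * 1 :=
    htest.trans (mul_le_mul_of_nonneg_left (Real.exp_le_one_iff.2 hexp) hk0pos.le)
  nlinarith

end

end Pool.Agent.H250.MR
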