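import Pool.Agent.H250.MR.Small1

set_option autoImplicit false

/-!
# Small zeros: the case (S3)
-/

open MeasureTheory

namespace Pool.Agent.H250.MR

section

variable {N : ℕ} {a : ℝ} {x : Fin N → ℂ}

/-- in the case (S3): the integrand is `≤ exp (- 10⁻²⁰ l)` on `[1/120, 1 - 10⁻¹⁵]` -/
theorem s3_tail (hT3 : S_T3) (hS2 : S_S2) (ha0 : 0 < a) (ha1 : a ≤ 1 / 1000)
    (hx : ∀ k, ‖1 + (a : ℂ) * x k‖ ≤ ‖x k‖) (hS : ∑ k, ‖x k‖ ≤ N)
    {l : ℝ} (hl : 1 ≤ l) (hLA : l / 20 ≤ a ^ 2 * N + AA a x)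
    {t : ℝ} (ht0 : 1 / 120 ≤ t) (ht1 : t ≤ 1 - 1 / 10 ^ 15) :
    ‖∏ k, (1 - (t : ℂ) * (-((a : ℂ) * x k)))‖ ≤ Real.exp (-(l / 10 ^ 20)) := by
  obtain ⟨hA0, _, _⟩ := F3 ha0 (by linarith) hx hS
  have hL0 : 0 ≤ a ^ 2 * N := by positivity
  rcases le_total (AA a x) (a ^ 2 * N / 6) with h | h
  · refine (s_tail2 hS2 ha0 ha1 hx hS (by linarith) (by linarith)).trans
      (Real.exp_le_exp.2 ?_)
    have h1 : l / 24 ≤ a ^ 2 * N := by linarith
    have h2 : l / 48 ≤ a ^ 2 * N - 3 * AA a x := by linarith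
    have h3 : (1 / 120) ^ 2 ≤ t ^ 2 := pow_le_pow_left₀ (by norm_num) ht0 2
    have h4 : (1 / 120) ^ 2 * (l / 48) ≤ t ^ 2 * (a ^ 2 * N - 3 * AA a x) :=
      mul_le_mul h3 h2 (by positivity) (by positivity)
    linarith
  · refine (s_tail1 hT3 ha0 ha1 hx hS (by linarith) (by linarith)).trans
      (Real.exp_le_exp.2 ?_)
    have h1 : l / 140 ≤ AA a x := by linarith
    have h2 := (s_ReU ha0 ha1 hx hS).1
    have h3 : l / 150 ≤ (∑ k, -((a : ℂ) * x k)).re := by linarith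
    have h4 : 1 / 10 ^ 15 / 2 ≤ t * (1 - t) := by
      rcases le_total t (1 / 2) with h5 | h5
      · nlinarith
      · have : 1 / 2 * (1 / 10 ^ 15) ≤ t * (1 - t) :=
          mul_le_mul h5 (by linarith) (by positivity) (by linarith)
        linarith
    have h5 : 1 / 10 ^ 15 / 2 * (l / 150) ≤ t * (1 - t) * (∑ k, -((a : ℂ) * x k)).re :=
      mul_le_mul h4 h3 (by positivity) (by nlinarith)
    linarith

/-- in the case (S3): the integral over `[0, 1/120]` is tiny -/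
theorem s3_small (hT3 : S_T3) (hS2 : S_S2) (ha0 : 0 < a) (ha1 : a ≤ 1 / 1000)
    (hx : ∀ k, ‖1 + (a : ℂ) * x k‖ ≤ ‖x k‖) (hS : ∑ k, ‖x k‖ ≤ N) (hT : Tst N a x)
    {l : ℝ} (hl : 10 ^ 3 ≤ l) (hln : l = Real.log (N + 1)) (hL : a ^ 2 * N ≤ 2 * 10 ^ 11 * l)
    (hA : AA a x ≤ 10 ^ 13 * l) :
    ‖∫ t in (0:ℝ)..(1 / 120), ∏ k, (1 - (t : ℂ) * (-((a : ℂ) * x k)))‖ ≤
      2 * Real.exp (-(l / 10 ^ 20)) := by
  obtain ⟨hA0, _, _⟩ := F3 ha0 (by linarith) hx hS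
  have hL0 : 0 ≤ a ^ 2 * N := by positivity
  have hst := star ha0 ha1 hx hS hT
  rw [← hln] at hst
  have hLA : l / 20 ≤ a ^ 2 * N + AA a x := by linarith
  set f : ℝ → ℂ := fun t => ∏ k, (1 - (t : ℂ) * (-((a : ℂ) * x k))) with hf
  have hcf : Continuous f := by rw [hf]; fun_prop
  have htail := int_tail hcf (k0 := 1 / 120) (k1 := 1 - 1 / 10 ^ 15)
    (T := Real.exp (-(l / 10 ^ 20))) (by norm_num) (by norm_num) (Real.exp_pos _).le
    (fun t h1 h2 => s3_tail hT3 hS2 ha0 ha1 hx hS (by linarith) hLA h1 h2)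
  have h1 : ‖∫ t in (0:ℝ)..(1 - 1 / 10 ^ 15), f t‖ ≤ Real.exp (-(l / 10 ^ 20)) := by
    have h2 := hT.1 (1 - 1 / 10 ^ 15) 1 (by norm_num) norm_one
    have e1 : (fun t : ℝ => ∏ k, (1 - (t : ℂ) * (1 * -((a : ℂ) * x k)))) = f := by
      rw [hf]; funext t; simp only [one_mul]
    rw [e1] at h2
    have e2 : (1 : ℂ) - ((1 - 1 / 10 ^ 15 : ℝ) : ℂ) * 1 = ((1 / 10 ^ 15 : ℝ) : ℂ) := by
      push_cast; ring
    rw [e2, Complex.norm_real, Real.norm_eq_abs,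
      abs_of_nonneg (by positivity : (0:ℝ) ≤ 1 / 10 ^ 15), Complex.re_ofReal_mul] at h2
    have hReU := (s_ReU ha0 ha1 hx hS).2
    have hReU0 := (s_ReU ha0 ha1 hx hS).1
    set V := (∑ k, -((a : ℂ) * x k)).re with hV
    have h3 : a ^ 2 * N * (1 / 10 ^ 15) ^ 2 / 2 + 1 / 10 ^ 15 * V +
        1 / 10 ^ 15 * (13 * (a ^ 2 * N) + AA a x + 1) ≤ l / 2 := by
      have h30 : a ^ 2 * N * (1 / 10 ^ 15) ^ 2 ≤ a ^ 2 * N * (1 / 10 ^ 15) :=
        mul_le_mul_of_nonneg_left (by norm_num) hL0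
      linarith
    have h4 : (N + 1 : ℝ) = Real.exp l := by rw [hln, Real.exp_log (by positivity)]
    have h5 : (1 - 1 / 10 ^ 15) * Real.exp (a ^ 2 * N * (1 / 10 ^ 15) ^ 2 / 2 + 1 / 10 ^ 15 * V +
        1 / 10 ^ 15 * (13 * (a ^ 2 * N) + AA a x + 1)) ≤ Real.exp (l / 2) := by
      refine le_trans ?_ (Real.exp_le_exp.2 h3)
      exact mul_le_of_le_one_left (Real.exp_pos _).le (by norm_num)
    have h6 := h2.trans h5
    rw [h4] at h6
    have h7 : Real.exp l * Real.exp (-(l / 2)) = Real.exp (l / 2) := by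
      rw [← Real.exp_add]; congr 1; ring
    rw [← h7] at h6
    have h8 := le_of_mul_le_mul_left h6 (Real.exp_pos l)
    refine h8.trans (Real.exp_le_exp.2 ?_)
    linarith
  have h9 : ‖∫ t in (0:ℝ)..(1 / 120), f t‖ ≤ Real.exp (-(l / 10 ^ 20)) +
      Real.exp (-(l / 10 ^ 20)) := by linarith
  linarith

/-- (S3) -/
theorem caseS3 (hT3 : S_T3) (hS2 : S_S2) (hOSC : S_OSC) (hPH2 : S_PH2) (ha0 : 0 < a)
    (ha1 : a ≤ 1 / 1000)
    (hx : ∀ k, ‖1 + (a : ℂ) * x k‖ ≤ ‖x k‖) (hS : ∑ k, ‖x k‖ ≤ N) (hT : Tst N a x)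
    {l σ : ℝ} (hl : 10 ^ 3 ≤ l) (hln : l = Real.log (N + 1)) (hL : a ^ 2 * N ≤ 2 * 10 ^ 11 * l)
    (hA : AA a x ≤ 10 ^ 13 * l) (hU : ‖∑ k, -((a : ℂ) * x k)‖ ≤ 10 ^ 17 * l)
    (hσ0 : 0 < σ) (hσ : σ ^ 4 = Real.exp (-(l / 10 ^ 20))) (hσL : σ * (10 ^ 100 * l ^ 5) ≤ 1) :
    False := by
  have hσl : σ * (10 ^ 50 * l ^ 5) ≤ 1 := by
    have hl' : 0 ≤ l := by linarith
    have h1 : (10 : ℝ) ^ 50 * l ^ 5 ≤ 10 ^ 100 * l ^ 5 :=
      mul_le_mul_of_nonneg_right (by norm_num) (by positivity)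
    exact (mul_le_mul_of_nonneg_left h1 hσ0.le).trans hσL
  obtain ⟨hA0, _, _⟩ := F3 ha0 (by linarith) hx hS
  have hL0 : 0 ≤ a ^ 2 * N := by positivity
  have hl0 : 0 < l := by linarith
  have hl1 : 1 ≤ l := by linarith
  have hst := star ha0 ha1 hx hS hT
  rw [← hln] at hst
  have hI := s3_small hT3 hS2 ha0 ha1 hx hS hT hl hln hL hA
  rw [← hσ] at hI
  set I := ‖∫ t in (0:ℝ)..(1 / 120), ∏ k, (1 - (t : ℂ) * (-((a : ℂ) * x k)))‖ with hIdef
  have hI0 : 0 ≤ I := norm_nonneg _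
  set k2 : ℝ := 1 / (10 ^ 17 * l) with hk2
  have hk2pos : 0 < k2 := by rw [hk2]; positivity
  have hk2l : k2 * (10 ^ 17 * l) = 1 := by rw [hk2]; field_simp
  have hk2' : k2 ≤ 1 / 10 ^ 17 := by
    rw [hk2]
    apply one_div_le_one_div_of_le (by positivity)
    linarith
  have he2 : 1 / 8 ≤ Real.exp (-2) := by
    rw [Real.exp_neg, one_div]
    apply inv_anti₀ (Real.exp_pos _)
    have h1 : Real.exp 2 = Real.exp 1 ^ 2 := by rw [← Real.exp_nat_mul]; norm_num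
    rw [h1]
    have := Real.exp_one_lt_d9
    have h0 := Real.exp_pos 1
    nlinarith
  -- powers of `σ`
  have hσ1 : σ ≤ 1 / 10 ^ 50 := by
    have h1 : (1 : ℝ) ≤ l ^ 5 := one_le_pow₀ hl1
    have h2 : σ * (10 ^ 50 * 1) ≤ σ * (10 ^ 50 * l ^ 5) :=
      mul_le_mul_of_nonneg_left (by linarith) hσ0.le
    rw [le_div_iff₀ (by positivity)]
    linarith
  -- `k2² Q ≤ 1`
  have hk2Q : k2 ^ 2 * (3 * (a ^ 2 * N)) ≤ 1 := by
    have h1 : k2 * (3 * (a ^ 2 * N)) ≤ k2 * (10 ^ 17 * l) :=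
      mul_le_mul_of_nonneg_left (by linarith) hk2pos.le
    have h2 : k2 ^ 2 * (3 * (a ^ 2 * N)) = k2 * (k2 * (3 * (a ^ 2 * N))) := by ring
    rw [h2]
    have h3 : k2 * (k2 * (3 * (a ^ 2 * N))) ≤ k2 * 1 :=
      mul_le_mul_of_nonneg_left (by linarith) hk2pos.le
    linarith
  -- `A` is tiny
  have hAt : AA a x ≤ 10 ^ 36 * l ^ 2 * σ ^ 4 := by
    have hlow := s_lower ha0 ha1 hx hS
    have hG := gauss_crude (A := AA a x) (Q := 3 * (a ^ 2 * N)) (k0 := 1 / 120) (k2 := k2)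
      hk2pos.le (by linarith)
      (by
        have : k2 * AA a x ≤ k2 * (10 ^ 17 * l) :=
          mul_le_mul_of_nonneg_left (by linarith) hk2pos.le
        linarith)
      hA0 (by positivity) hk2Q
    have h1 : k2 * (1 / 8) ≤ k2 * Real.exp (-2) := mul_le_mul_of_nonneg_left he2 hk2pos.le
    have h2 : AA a x / 2 * (k2 * (1 / 8)) ≤ 10 ^ 17 * l * (2 * σ ^ 4) :=
      ((mul_le_mul_of_nonneg_left (h1.trans hG) (by linarith)).trans hlow).trans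
        (mul_le_mul hU hI hI0 (by positivity))
    have h3 : AA a x = AA a x / 2 * (k2 * (1 / 8)) * (16 * (10 ^ 17 * l)) := by
      have : AA a x / 2 * (k2 * (1 / 8)) * (16 * (10 ^ 17 * l)) =
          AA a x * (k2 * (10 ^ 17 * l)) := by ring
      rw [this, hk2l, mul_one]
    rw [h3]
    have h4 : AA a x / 2 * (k2 * (1 / 8)) * (16 * (10 ^ 17 * l)) ≤
        10 ^ 17 * l * (2 * σ ^ 4) * (16 * (10 ^ 17 * l)) :=
      mul_le_mul_of_nonneg_right h2 (by positivity)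
    have h5 : 10 ^ 17 * l * (2 * σ ^ 4) * (16 * (10 ^ 17 * l)) = 32 * 10 ^ 34 * l ^ 2 * σ ^ 4 := by
      ring
    rw [h5] at h4
    have h6 : 0 ≤ l ^ 2 * σ ^ 4 := by positivity
    linarith
  -- `σ l^5 10^50 ≤ 1` gives small quantities
  have hp1 : σ * l ^ 5 ≤ 1 / 10 ^ 50 := by
    rw [le_div_iff₀ (by positivity)]; linarith
  have hll : l ^ 2 ≤ l ^ 5 := pow_le_pow_right₀ hl1 (by norm_num)
  have hσl2 : σ * l ^ 2 ≤ 1 / 10 ^ 50 :=
    (mul_le_mul_of_nonneg_left hll hσ0.le).trans hp1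
  have hσl2' : l ^ 2 * σ ^ 4 ≤ 1 / 10 ^ 50 * (1 / 10 ^ 50) * σ ^ 2 := by
    have h1 : l ^ 2 * σ ^ 4 = (σ * l ^ 2) * σ * σ ^ 2 := by ring
    rw [h1]
    refine mul_le_mul_of_nonneg_right ?_ (by positivity)
    exact mul_le_mul hσl2 hσ1 hσ0.le (by positivity)
  have hσ2 : σ ^ 2 ≤ 1 / 10 ^ 100 := by
    have h1 : σ ^ 2 ≤ (1 / 10 ^ 50) ^ 2 := pow_le_pow_left₀ hσ0.le hσ1 2
    refine h1.trans ?_
    norm_num
  have hA1 : AA a x ≤ 1 / 10 ^ 64 * σ ^ 2 := by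
    have h2 : 10 ^ 36 * l ^ 2 * σ ^ 4 = 10 ^ 36 * (l ^ 2 * σ ^ 4) := by ring
    rw [h2] at hAt
    have h3 : (10:ℝ) ^ 36 * (1 / 10 ^ 50 * (1 / 10 ^ 50) * σ ^ 2) = 1 / 10 ^ 64 * σ ^ 2 := by
      ring
    have h4 := mul_le_mul_of_nonneg_left hσl2' (show (0:ℝ) ≤ 10 ^ 36 by positivity)
    linarith
  have hA2 : AA a x ≤ 1 / 10 := by
    have : 1 / 10 ^ 64 * σ ^ 2 ≤ 1 / 10 ^ 64 * (1 / 10 ^ 100) :=
      mul_le_mul_of_nonneg_left hσ2 (by positivity)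
    linarith
  -- no near points
  have hcard := near_card (x := x) (a := a) (by linarith) ha0
  obtain ⟨_, _, hSA⟩ := F3 ha0 (by linarith) hx hS
  have hc0 : ((Far a x)ᶜ).card = 0 := by
    by_contra hc
    have : (1 : ℝ) ≤ (((Far a x)ᶜ).card : ℝ) := by exact_mod_cast Nat.one_le_iff_ne_zero.2 hc
    linarith
  have hF : Far a x = Finset.univ := by
    rw [← Finset.compl_eq_empty_iff]
    exact Finset.card_eq_zero.1 hc0
  have hmem : ∀ k, k ∈ Far a x := fun k => by rw [hF]; exact Finset.mem_univ k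
  have hunorm : ∀ k, ‖-((a : ℂ) * x k)‖ ≤ 1 / 2 := fun k => by
    rw [u_norm ha0]
    have := s_far_norm ha1 (hmem k)
    nlinarith [norm_nonneg (x k)]
  have hB2 := s_im ha0 ha1 hx hS
  rw [hF] at hB2
  have hV2 := s_re ha1 hS
  rw [hF] at hV2
  have hre : ∀ k, (-((a : ℂ) * x k)).re = -(a * (x k).re) := fun k => u_re _
  have him : ∀ k, (-((a : ℂ) * x k)).im = -(a * (x k).im) := fun k => u_im _
  -- lower bound for `∑ α²`
  have hVlow : l / 50 ≤ ∑ k, (a * (x k).re) ^ 2 := by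
    have h1 : ∀ k, a ^ 2 * (9 / 10) ≤ (a * (x k).re) ^ 2 + (a * (x k).im) ^ 2 := by
      intro k
      have h2 := p1 ha0.le (hx k)
      have h3 : 98 / 100 ≤ ‖x k‖ := by nlinarith [norm_nonneg (x k)]
      have h4 : 9 / 10 ≤ ‖x k‖ ^ 2 := by nlinarith
      have h5 : (a * (x k).re) ^ 2 + (a * (x k).im) ^ 2 = a ^ 2 * ‖x k‖ ^ 2 := by
        rw [Complex.sq_norm, Complex.normSq_apply]; ring
      rw [h5]
      exact mul_le_mul_of_nonneg_left h4 (sq_nonneg a)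
    have h6 : ∑ _k : Fin N, a ^ 2 * (9 / 10) ≤
        ∑ k, ((a * (x k).re) ^ 2 + (a * (x k).im) ^ 2) := Finset.sum_le_sum fun k _ => h1 k
    rw [Finset.sum_add_distrib, Finset.sum_const, Finset.card_univ, Fintype.card_fin,
      nsmul_eq_mul] at h6
    linarith
  -- PH2
  have hsumre : 0 ≤ ∑ k, (-((a : ℂ) * x k)).re := by
    have := (s_ReU ha0 ha1 hx hS).1
    rw [Complex.re_sum] at this
    linarith
  have hReU2 := (s_ReU ha0 ha1 hx hS).2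
  rw [Complex.re_sum] at hReU2
  set R : ℝ := 10 ^ 13 * l * σ with hR
  have hR0 : 0 ≤ R := by rw [hR]; positivity
  have hσl1 : l * σ ≤ 1 / 10 ^ 50 := by
    have h1 : l ≤ l ^ 5 := le_self_pow₀ hl1 (by norm_num)
    have h2 : l * σ ≤ l ^ 5 * σ := mul_le_mul_of_nonneg_right h1 hσ0.le
    linarith
  have hR1 : R ≤ 1 := by
    have : R = 10 ^ 13 * (l * σ) := by rw [hR]; ring
    rw [this]; linarith
  have hRsum : 2 * ∑ k, |(-((a : ℂ) * x k)).re| * |(-((a : ℂ) * x k)).im| +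
      4 * ∑ k, (-((a : ℂ) * x k)).im ^ 2 ≤ R := by
    have h1 : ∀ k, |(-((a : ℂ) * x k)).re| * |(-((a : ℂ) * x k)).im| ≤
        σ * (a * (x k).re) ^ 2 + (1 / σ) * (a * (x k).im) ^ 2 := by
      intro k
      rw [hre, him, abs_neg, abs_neg]
      have e1 : (a * (x k).re) ^ 2 = |a * (x k).re| ^ 2 := (sq_abs _).symm
      have e2 : (a * (x k).im) ^ 2 = |a * (x k).im| ^ 2 := (sq_abs _).symm
      rw [e1, e2]
      set p := |a * (x k).re|
      set q := |a * (x k).im|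
      have h3 : σ * p ^ 2 + 1 / σ * q ^ 2 - 2 * (p * q) = (σ * p - q) ^ 2 / σ := by
        field_simp; ring
      have h4 : 0 ≤ (σ * p - q) ^ 2 / σ := by positivity
      have h5 : 0 ≤ p * q := mul_nonneg (abs_nonneg _) (abs_nonneg _)
      linarith
    have h2 : ∑ k, |(-((a : ℂ) * x k)).re| * |(-((a : ℂ) * x k)).im| ≤
        σ * ∑ k, (a * (x k).re) ^ 2 + (1 / σ) * ∑ k, (a * (x k).im) ^ 2 := by
      rw [Finset.mul_sum, Finset.mul_sum, ← Finset.sum_add_distrib]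
      exact Finset.sum_le_sum fun k _ => h1 k
    have e3 : ∑ k, (-((a : ℂ) * x k)).im ^ 2 = ∑ k, (a * (x k).im) ^ 2 := by
      simp only [him, neg_sq]
    rw [e3]
    have h3 : ∑ k, (a * (x k).im) ^ 2 ≤ 5 * (1 / 10 ^ 64 * σ ^ 2) := by linarith
    have h4 : (1 / σ) * ∑ k, (a * (x k).im) ^ 2 ≤ (1 / σ) * (5 * (1 / 10 ^ 64 * σ ^ 2)) :=
      mul_le_mul_of_nonneg_left h3 (by positivity)
    have h5 : (1 / σ) * (5 * (1 / 10 ^ 64 * σ ^ 2)) = 5 / 10 ^ 64 * σ := by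
      field_simp
    rw [h5] at h4
    have h6 : σ * ∑ k, (a * (x k).re) ^ 2 ≤ σ * (6 * 10 ^ 11 * l) :=
      mul_le_mul_of_nonneg_left (by linarith) hσ0.le
    have h7 : σ ^ 2 ≤ σ * 1 := by
      rw [pow_two]; exact mul_le_mul_of_nonneg_left (by linarith) hσ0.le
    have h8 : σ * 1 ≤ σ * l := mul_le_mul_of_nonneg_left hl1 hσ0.le
    rw [hR]
    linarith
  have hph := hPH2 N (fun k => -((a : ℂ) * x k)) (1 / 120) R (by norm_num) (by norm_num)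
    (fun k => by have := hunorm k; have h0 := norm_nonneg (-((a : ℂ) * x k)); linarith)
    hunorm hsumre hRsum hR1
  -- OSC
  set B : ℝ := ∑ k, (-((a : ℂ) * x k)).im with hB
  have hBU : |B| ≤ 10 ^ 17 * l := by
    have h1 := Complex.abs_im_le_norm (∑ k, -((a : ℂ) * x k))
    rw [Complex.im_sum] at h1
    exact h1.trans hU
  have hosc := hOSC N (fun k => (-((a : ℂ) * x k)).re) (1 / 120) k2 (l / 50) B hk2pos.le
    (by linarith) (by norm_num)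
    (fun k => by
      have h1 := hunorm k
      have h2 := Complex.abs_re_le_norm (-((a : ℂ) * x k))
      have h3 := abs_nonneg ((-((a : ℂ) * x k)).re)
      linarith)
    hsumre (by positivity)
    (by simp only [hre, neg_sq]; exact hVlow)
    (by
      have h1 : k2 * ∑ k, (-((a : ℂ) * x k)).re ≤ 1 / 10 ^ 17 * 1 :=
        mul_le_mul hk2' (by linarith) hsumre (by positivity)
      linarith)
    (by
      simp only [hre, neg_sq]
      have h1 : k2 ^ 2 * ∑ k, (a * (x k).re) ^ 2 ≤ k2 ^ 2 * (3 * (a ^ 2 * N)) :=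
        mul_le_mul_of_nonneg_left hV2 (by positivity)
      linarith)
    (by
      have : k2 * |B| ≤ k2 * (10 ^ 17 * l) := mul_le_mul_of_nonneg_left hBU hk2pos.le
      linarith)
  set J := ‖∫ t in (0:ℝ)..(1 / 120), Complex.exp (-(Complex.I * (t * B : ℝ))) *
        ((∏ k, (1 - t * (-((a : ℂ) * x k)).re) : ℝ) : ℂ)‖ with hJ
  -- `J` is tiny
  have hJ1 : J ≤ 10 ^ 14 * l * σ := by
    have h1 : J ≤ I + 2 * R := hph
    have h2 : 2 * σ ^ 4 ≤ 10 ^ 13 * l * σ := by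
      have h3 : σ ^ 4 ≤ σ := by
        have : σ ^ 4 ≤ σ ^ 1 := pow_le_pow_of_le_one hσ0.le (by linarith) (by norm_num)
        rwa [pow_one] at this
      have h8 : σ * 1 ≤ σ * l := mul_le_mul_of_nonneg_left hl1 hσ0.le
      linarith
    rw [hR] at h1
    have h0 : 0 ≤ l * σ := by positivity
    linarith
  -- lower bound
  have hJ2 : k2 ^ 4 / 10 ^ 4 ≤ J := by
    have hk24 : k2 ^ 4 ≤ k2 := by
      have : k2 ^ 4 ≤ k2 ^ 1 := pow_le_pow_of_le_one hk2pos.le (by linarith) (by norm_num)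
      rwa [pow_one] at this
    rcases le_or_gt |B| 1 with h | h
    · have := hosc.1 h
      linarith
    · have h1 := hosc.2 (by linarith)
      have h2 : 1 * (l / 50) * k2 ^ 4 ≤ |B| * (l / 50) * k2 ^ 4 := by
        refine mul_le_mul_of_nonneg_right ?_ (by positivity)
        exact mul_le_mul_of_nonneg_right h.le (by positivity)
      have h3 : 1 * k2 ^ 4 ≤ l * k2 ^ 4 := mul_le_mul_of_nonneg_right hl1 (by positivity)
      linarith
  have h1 : k2 ^ 4 ≤ 10 ^ 18 * l * σ := by linarith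
  have h2 : k2 ^ 4 * (10 ^ 17 * l) ^ 4 = 1 := by rw [← mul_pow, hk2l, one_pow]
  have h3 : k2 ^ 4 * (10 ^ 17 * l) ^ 4 ≤ 10 ^ 18 * l * σ * (10 ^ 17 * l) ^ 4 :=
    mul_le_mul_of_nonneg_right h1 (by positivity)
  have h4 : 10 ^ 18 * l * σ * (10 ^ 17 * l) ^ 4 = 10 ^ 86 * (σ * l ^ 5) := by ring
  rw [h2, h4] at h3
  have h5 : 0 < σ * l ^ 5 := by positivity
  have h6 : 10 ^ 100 * (σ * l ^ 5) ≤ 1 := by linarith
  linarith

end

end Pool.Agent.H250.MR
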