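import Pool.Agent.H250.MR.Point

set_option autoImplicit false

/-!
# Sums over the far and the near points
-/

namespace Pool.Agent.H250.MR

/-- far points -/
noncomputable def Far {N : ℕ} (a : ℝ) (x : Fin N → ℂ) : Finset (Fin N) :=
  Finset.univ.filter fun k => ‖x k‖ ≤ 2 / (1 - a)

noncomputable def AA {N : ℕ} (a : ℝ) (x : Fin N → ℂ) : ℝ := ∑ k ∈ Far a x, -(a * (x k).re)

noncomputable def HH {N : ℕ} (a : ℝ) (x : Fin N → ℂ) : ℝ :=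
  ∑ k ∈ Far a x, (‖x k‖ - 1 - a * (x k).re)

noncomputable def SS {N : ℕ} (a : ℝ) (x : Fin N → ℂ) : ℝ := ∑ k ∈ (Far a x)ᶜ, ‖x k‖

noncomputable def DD {N : ℕ} (x : Fin N → ℂ) : ℝ := ∑ k, (‖x k‖ - 1 - Real.log ‖x k‖)

section

variable {N : ℕ} {a : ℝ} {x : Fin N → ℂ}

lemma mem_far {k : Fin N} : k ∈ Far a x ↔ ‖x k‖ ≤ 2 / (1 - a) := by simp [Far]

lemma near_lt {k : Fin N} (hk : k ∈ (Far a x)ᶜ) : 2 / (1 - a) < ‖x k‖ := by
  rw [Finset.mem_compl, mem_far, not_le] at hk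
  exact hk

lemma near_lt' {k : Fin N} (ha1 : a < 1) (hk : k ∈ (Far a x)ᶜ) : 2 < (1 - a) * ‖x k‖ := by
  have := near_lt hk
  rw [div_lt_iff₀ (by linarith)] at this
  linarith

lemma HH_nonneg (hx : ∀ k, ‖1 + (a : ℂ) * x k‖ ≤ ‖x k‖) : 0 ≤ HH a x :=
  Finset.sum_nonneg fun k _ => p2 (hx k)

lemma SS_nonneg : 0 ≤ SS a x := Finset.sum_nonneg fun _ _ => norm_nonneg _

lemma F1 (hS : ∑ k, ‖x k‖ ≤ N) :
    HH a x + ∑ k ∈ (Far a x)ᶜ, (‖x k‖ - 1) ≤ AA a x := by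
  have h1 : ∑ k, (‖x k‖ - 1) ≤ 0 := by
    rw [Finset.sum_sub_distrib]; simp; exact hS
  rw [← Finset.sum_add_sum_compl (Far a x)] at h1
  have h2 : ∑ k ∈ Far a x, (‖x k‖ - 1) = HH a x - AA a x := by
    unfold HH AA
    rw [← Finset.sum_sub_distrib]
    exact Finset.sum_congr rfl fun k _ => by ring
  linarith

lemma F2 (ha1 : a < 1) (hS : ∑ k, ‖x k‖ ≤ N) :
    HH a x + SS a x * ((1 + a) / 2) ≤ AA a x := by
  refine le_trans ?_ (F1 hS)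
  have : SS a x * ((1 + a) / 2) ≤ ∑ k ∈ (Far a x)ᶜ, (‖x k‖ - 1) := by
    unfold SS
    rw [Finset.sum_mul]
    refine Finset.sum_le_sum fun k hk => ?_
    have := near_lt' ha1 hk
    nlinarith
  linarith

lemma F3 (ha0 : 0 < a) (ha1 : a < 1) (hx : ∀ k, ‖1 + (a : ℂ) * x k‖ ≤ ‖x k‖)
    (hS : ∑ k, ‖x k‖ ≤ N) : 0 ≤ AA a x ∧ HH a x ≤ AA a x ∧ SS a x ≤ 2 * AA a x := by
  have h1 := F2 ha1 hS
  have h2 := HH_nonneg hx
  have h3 : 0 ≤ SS a x := SS_nonneg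
  refine ⟨?_, ?_, ?_⟩
  · nlinarith [mul_nonneg h3 ha0.le]
  · nlinarith [mul_nonneg h3 ha0.le]
  · nlinarith [mul_nonneg h3 ha0.le]

lemma F4 (ha0 : 0 < a) (ha1 : a < 1) (hx : ∀ k, ‖1 + (a : ℂ) * x k‖ ≤ ‖x k‖)
    (hS : ∑ k, ‖x k‖ ≤ N) : HH a x ≤ AA a x - a * SS a x ∧
      (1 - a) / 2 * AA a x ≤ AA a x - a * SS a x := by
  have h1 := F1 (a := a) hS
  have h2 := F2 ha1 hS
  have hH := HH_nonneg hx
  obtain ⟨hA, _, _⟩ := F3 ha0 ha1 hx hS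
  constructor
  · have : a * SS a x ≤ ∑ k ∈ (Far a x)ᶜ, (‖x k‖ - 1) := by
      unfold SS
      rw [Finset.mul_sum]
      refine Finset.sum_le_sum fun k hk => ?_
      have := near_lt' ha1 hk
      linarith
    linarith
  · -- `S (1+a)/2 ≤ A`
    have h3 : SS a x * (1 + a) ≤ 2 * AA a x := by linarith
    have h4 : 0 ≤ SS a x := SS_nonneg
    -- want `a S ≤ (1+a)/2 A`
    have h5 : a * SS a x ≤ (1 + a) / 2 * AA a x := by
      have h6 : a * SS a x * (1 + a) ≤ a * (2 * AA a x) := by nlinarith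
      have h7 : a * (2 * AA a x) ≤ (1 + a) / 2 * AA a x * (1 + a) := by
        nlinarith [mul_nonneg hA (sq_nonneg (1 - a))]
      have h8 : 0 < 1 + a := by linarith
      exact le_of_mul_le_mul_right (h6.trans h7) h8
    linarith

/-- crude bound for the sum of the `β²` -/
lemma F5 (ha1 : a < 1) (hx : ∀ k, ‖1 + (a : ℂ) * x k‖ ≤ ‖x k‖) :
    ∑ k ∈ Far a x, (a * (x k).im) ^ 2 ≤ 4 / (1 - a) * HH a x := by
  unfold HH
  rw [Finset.mul_sum]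
  refine Finset.sum_le_sum fun k hk => (p3 (hx k)).trans ?_
  have h1 := mem_far.1 hk
  have h2 := p2 (hx k)
  have h3 : 2 * ‖x k‖ ≤ 4 / (1 - a) := by
    have : 4 / (1 - a) = 2 * (2 / (1 - a)) := by ring
    rw [this]; linarith
  exact mul_le_mul_of_nonneg_right h3 h2

lemma norm_pos_of (ha0 : 0 < a) {y : ℂ} (hy : ‖1 + (a : ℂ) * y‖ ≤ ‖y‖) : 0 < ‖y‖ := by
  have h1 := p1 ha0.le hy
  by_contra hc
  have : ‖y‖ = 0 := le_antisymm (not_lt.1 hc) (norm_nonneg _)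
  rw [this] at h1; linarith

lemma DD_far_le (ha0 : 0 < a) (hx : ∀ k, ‖1 + (a : ℂ) * x k‖ ≤ ‖x k‖) (F : Finset (Fin N)) :
    ∑ k ∈ F, (‖x k‖ - 1 - Real.log ‖x k‖) ≤ DD x :=
  Finset.sum_le_sum_of_subset_of_nonneg (Finset.subset_univ _)
    fun k _ _ => d0 (norm_pos_of ha0 (hx k))

lemma DD_nonneg (ha0 : 0 < a) (hx : ∀ k, ‖1 + (a : ℂ) * x k‖ ≤ ‖x k‖) : 0 ≤ DD x :=
  Finset.sum_nonneg fun k _ => d0 (norm_pos_of ha0 (hx k))

lemma F6a (ha0 : 0 < a) (ha1 : a < 1) (hx : ∀ k, ‖1 + (a : ℂ) * x k‖ ≤ ‖x k‖) :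
    SS a x ≤ 8 * DD x := by
  have h1 := DD_far_le ha0 hx (Far a x)ᶜ
  have h2 : SS a x ≤ 8 * ∑ k ∈ (Far a x)ᶜ, (‖x k‖ - 1 - Real.log ‖x k‖) := by
    unfold SS
    rw [Finset.mul_sum]
    refine Finset.sum_le_sum fun k hk => ?_
    have h3 := near_lt' ha1 hk
    have h4 : 2 ≤ ‖x k‖ := by nlinarith [norm_nonneg (x k)]
    have := d3 h4
    linarith
  linarith

lemma F6b (ha0 : 0 < a) (ha1 : a < 1) (hx : ∀ k, ‖1 + (a : ℂ) * x k‖ ≤ ‖x k‖) :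
    ∑ k ∈ Far a x, (a * (x k).im) ^ 2 ≤ 4 * HH a x + 16 * a ^ 2 / (1 - a) * DD x := by
  have h1 := DD_far_le ha0 hx (Far a x)
  have h2 : ∑ k ∈ Far a x, (a * (x k).im) ^ 2 ≤ 4 * HH a x +
      8 * a ^ 2 * (2 / (1 - a)) * ∑ k ∈ Far a x, (‖x k‖ - 1 - Real.log ‖x k‖) := by
    unfold HH
    rw [Finset.mul_sum, Finset.mul_sum, ← Finset.sum_add_distrib]
    exact Finset.sum_le_sum fun k hk => pB ha0.le (mem_far.1 hk) (hx k)
  have h3 : 16 * a ^ 2 / (1 - a) = 8 * a ^ 2 * (2 / (1 - a)) := by ring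
  rw [h3]
  have h4 : 0 ≤ 8 * a ^ 2 * (2 / (1 - a)) := by
    have : 0 < 1 - a := by linarith
    positivity
  have := mul_le_mul_of_nonneg_left h1 h4
  linarith

lemma F6c (ha0 : 0 < a) (ha1 : a < 1) (hx : ∀ k, ‖1 + (a : ℂ) * x k‖ ≤ ‖x k‖) :
    ∑ k ∈ Far a x, (a * (x k).re) ^ 2 ≤ 4 * a ^ 2 * N + 16 * a ^ 2 / (1 - a) * DD x := by
  have h1 := DD_far_le ha0 hx (Far a x)
  have h2 : ∑ k ∈ Far a x, (a * (x k).re) ^ 2 ≤ ∑ _k ∈ Far a x, 4 * a ^ 2 +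
      8 * a ^ 2 * (2 / (1 - a)) * ∑ k ∈ Far a x, (‖x k‖ - 1 - Real.log ‖x k‖) := by
    rw [Finset.mul_sum, ← Finset.sum_add_distrib]
    exact Finset.sum_le_sum fun k hk => pA ha0.le (mem_far.1 hk) (hx k)
  have h3 : 16 * a ^ 2 / (1 - a) = 8 * a ^ 2 * (2 / (1 - a)) := by ring
  rw [h3]
  have h4 : 0 ≤ 8 * a ^ 2 * (2 / (1 - a)) := by
    have : 0 < 1 - a := by linarith
    positivity
  have h5 := mul_le_mul_of_nonneg_left h1 h4
  have h6 : ∑ _k ∈ Far a x, 4 * a ^ 2 ≤ 4 * a ^ 2 * N := by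
    rw [Finset.sum_const, nsmul_eq_mul, mul_comm]
    have : ((Far a x).card : ℝ) ≤ N := by
      have := Finset.card_le_univ (Far a x)
      rw [Fintype.card_fin] at this
      exact_mod_cast this
    exact mul_le_mul_of_nonneg_left this (by positivity)
  linarith

/-- crude bound for the sum of the `α²` -/
lemma F7 (ha0 : 0 < a) (ha1 : a < 1) (hS : ∑ k, ‖x k‖ ≤ N) :
    ∑ k ∈ Far a x, (a * (x k).re) ^ 2 ≤ 2 * N / (1 - a) := by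
  have h1 : ∑ k ∈ Far a x, (a * (x k).re) ^ 2 ≤ 2 / (1 - a) * ∑ k ∈ Far a x, ‖x k‖ := by
    rw [Finset.mul_sum]
    refine Finset.sum_le_sum fun k hk => ?_
    have h2 := mem_far.1 hk
    have hre : (a * (x k).re) ^ 2 ≤ ‖x k‖ ^ 2 := by
      rw [mul_pow]
      have e : (x k).re ^ 2 ≤ ‖x k‖ ^ 2 := by
        rw [Complex.sq_norm, Complex.normSq_apply]; nlinarith [sq_nonneg (x k).im]
      have e2 : a ^ 2 ≤ 1 := by nlinarith
      nlinarith [sq_nonneg (x k).re]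
    nlinarith [norm_nonneg (x k)]
  have h2 : ∑ k ∈ Far a x, ‖x k‖ ≤ ∑ k, ‖x k‖ :=
    Finset.sum_le_sum_of_subset_of_nonneg (Finset.subset_univ _) fun _ _ _ => norm_nonneg _
  have h3 : 0 ≤ 2 / (1 - a) := by
    have : 0 < 1 - a := by linarith
    positivity
  calc _ ≤ _ := h1
    _ ≤ 2 / (1 - a) * N := mul_le_mul_of_nonneg_left (h2.trans hS) h3
    _ = _ := by ring

/-- number of near points -/
lemma near_card (ha1 : a < 1) (_ha0 : 0 < a) : (((Far a x)ᶜ).card : ℝ) * 2 ≤ SS a x := by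
  unfold SS
  rw [← nsmul_eq_mul, ← Finset.sum_const]
  refine Finset.sum_le_sum fun k hk => ?_
  have h3 := near_lt' ha1 hk
  nlinarith [norm_nonneg (x k)]

lemma F8 (ha0 : 0 < a) (ha1 : a < 1) (hx : ∀ k, ‖1 + (a : ℂ) * x k‖ ≤ ‖x k‖)
    (hS : ∑ k, ‖x k‖ ≤ N) : a ^ 2 * N / 4 - 9 / 4 * AA a x ≤ 2 * DD x := by
  obtain ⟨hA, hHA, hSA⟩ := F3 ha0 ha1 hx hS
  have h1 := DD_far_le ha0 hx (Far a x)
  have h2 : ∑ _k ∈ Far a x, a ^ 2 / 4 ≤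
      2 * ∑ k ∈ Far a x, (‖x k‖ - 1 - Real.log ‖x k‖) + 2 * HH a x := by
    unfold HH
    rw [Finset.mul_sum, Finset.mul_sum, ← Finset.sum_add_distrib]
    exact Finset.sum_le_sum fun k hk => pE ha0.le ha1.le (hx k)
  rw [Finset.sum_const, nsmul_eq_mul] at h2
  have h3 : ((Far a x).card : ℝ) + (((Far a x)ᶜ).card : ℝ) = N := by
    have := Finset.card_add_card_compl (Far a x)
    rw [Fintype.card_fin] at this
    exact_mod_cast this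
  have h4 := near_card (x := x) ha1 ha0
  have h5 : (((Far a x)ᶜ).card : ℝ) ≤ AA a x := by linarith
  have h6 : ((Far a x).card : ℝ) * (a ^ 2 / 4) =
      a ^ 2 * N / 4 - a ^ 2 / 4 * (((Far a x)ᶜ).card : ℝ) := by
    rw [← h3]; ring
  have h7 : a ^ 2 / 4 * (((Far a x)ᶜ).card : ℝ) ≤ 1 / 4 * AA a x := by
    refine mul_le_mul (by nlinarith) h5 (Nat.cast_nonneg _) (by norm_num)
  linarith

lemma F9 (ha0 : 0 < a) (hx : ∀ k, ‖1 + (a : ℂ) * x k‖ ≤ ‖x k‖)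
    (hS : ∑ k, ‖x k‖ ≤ N) : ∏ k, ‖x k‖ ≤ Real.exp (-DD x) := by
  have h1 : ∏ k, ‖x k‖ = Real.exp (∑ k, Real.log ‖x k‖) := by
    rw [Real.exp_sum]
    exact Finset.prod_congr rfl fun k _ => (Real.exp_log (norm_pos_of ha0 (hx k))).symm
  rw [h1]
  apply Real.exp_le_exp.2
  unfold DD
  rw [Finset.sum_sub_distrib, Finset.sum_sub_distrib]
  simp
  exact hS

lemma F11 (ha0 : 0 < a) (ha1 : a < 1) (hS : ∑ k, ‖x k‖ ≤ N) : AA a x ≤ N := by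
  have h1 : AA a x ≤ ∑ k ∈ Far a x, ‖x k‖ := by
    unfold AA
    refine Finset.sum_le_sum fun k _ => ?_
    have h2 : -(x k).re ≤ ‖x k‖ := by
      have := Complex.abs_re_le_norm (x k)
      exact (neg_le_abs _).trans this
    have h3 := norm_nonneg (x k)
    nlinarith
  have h2 : ∑ k ∈ Far a x, ‖x k‖ ≤ ∑ k, ‖x k‖ :=
    Finset.sum_le_sum_of_subset_of_nonneg (Finset.subset_univ _) fun _ _ _ => norm_nonneg _
  linarith

end

end Pool.Agent.H250.MR
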