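import Pool.Graph.R_seed8.H565.Pm.Basic

set_option autoImplicit false

/-!
# The test at `y = a (1 - κ₁)`, the sum of the critical points, Gauss-Lucas
-/

open Polynomial MeasureTheory

namespace Pool.Agent.H250.MR

open Pool.Agent.H565.Pm

/-- the value of `P` at `y = a (1 - k1)` -/
lemma test_y {m : ℕ} {a : ℝ} (ha0 : 0 < a) (z w : Fin m → ℂ) (k1 : ℝ) (hk1 : 0 ≤ k1)
    (hw : ∀ x : ℂ, (derivative (P a z)).eval x = (m + 1 : ℂ) * ∏ k, (x - w k))
    (hne : ∀ k, w k ≠ a) (u : Fin m → ℂ) (hu : ∀ k, u k = (a : ℂ) * ((a : ℂ) - w k)⁻¹) :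
    (m + 1 : ℝ) * ‖∫ t in (0:ℝ)..k1, ∏ k, (1 - (t : ℂ) * u k)‖ =
      k1 * (∏ k, ‖w k - (a : ℂ)‖⁻¹) * ∏ j, ‖((a * (1 - k1) : ℝ) : ℂ) - z j‖ := by
  have hac : (a : ℂ) ≠ 0 := by exact_mod_cast ha0.ne'
  have hd : ∀ t ∈ Set.uIcc (0:ℝ) k1, HasDerivAt (fun t : ℝ => (P a z).eval (a + t * (-a : ℂ)))
      ((-a : ℂ) * (derivative (P a z)).eval (a + t * (-a : ℂ))) t := by
    intro t _
    have h1 : HasDerivAt (fun s : ℂ => (P a z).eval (a + s * (-a : ℂ)))
        ((derivative (P a z)).eval (a + (t:ℂ) * (-a : ℂ)) * (-a : ℂ)) (t : ℂ) := by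
      have h2 : HasDerivAt (fun s : ℂ => (a : ℂ) + s * (-a : ℂ)) (-a : ℂ) (t : ℂ) := by
        simpa using ((hasDerivAt_id (t : ℂ)).mul_const (-a : ℂ)).const_add (a : ℂ)
      exact ((P a z).hasDerivAt _).comp (t : ℂ) h2
    have h3 := h1.comp_ofReal
    rw [mul_comm (-a : ℂ)]
    exact h3
  have hint : IntervalIntegrable
      (fun t : ℝ => (-a : ℂ) * (derivative (P a z)).eval (a + t * (-a : ℂ))) volume 0 k1 := by
    apply Continuous.intervalIntegrable
    exact continuous_const.mul ((derivative (P a z)).continuous.comp (by fun_prop))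
  have hF := intervalIntegral.integral_eq_sub_of_hasDerivAt hd hint
  simp only [Complex.ofReal_zero, zero_mul, add_zero] at hF
  have e1 : (a : ℂ) + k1 * (-a : ℂ) = ((a * (1 - k1) : ℝ) : ℂ) := by push_cast; ring
  have e2 : (P a z).eval (a : ℂ) = 0 := by unfold P; simp
  have e3 : (P a z).eval ((a * (1 - k1) : ℝ) : ℂ) =
      (-a : ℂ) * k1 * ∏ j, (((a * (1 - k1) : ℝ) : ℂ) - z j) := by
    unfold P
    simp only [eval_mul, eval_sub, eval_X, eval_C, eval_prod]
    push_cast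
    ring
  rw [e1, e2, e3, sub_zero, intervalIntegral.integral_const_mul, mul_assoc (-a : ℂ)] at hF
  have hF' := mul_left_cancel₀ (neg_ne_zero.2 hac) hF
  have hL : ∀ k, (a : ℂ) - w k ≠ 0 := fun k => sub_ne_zero.2 (hne k).symm
  have e4 : ∫ t in (0:ℝ)..k1, (derivative (P a z)).eval ((a : ℂ) + t * (-a : ℂ)) =
      (∏ k, ((a : ℂ) - w k)) *
        ((m + 1 : ℂ) * ∫ t in (0:ℝ)..k1, ∏ k, (1 - (t : ℂ) * u k)) := by
    rw [← intervalIntegral.integral_const_mul, ← intervalIntegral.integral_const_mul]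
    apply intervalIntegral.integral_congr
    intro t _
    simp only []
    rw [hw, mul_left_comm]
    congr 1
    rw [← Finset.prod_mul_distrib]
    refine Finset.prod_congr rfl fun k _ => ?_
    rw [hu k]
    have := hL k
    field_simp
    ring
  rw [e4] at hF'
  have hn := congrArg norm hF'
  have hm1 : ‖(m + 1 : ℂ)‖ = (m + 1 : ℝ) := by
    have : (m + 1 : ℂ) = ((m + 1 : ℝ) : ℂ) := by push_cast; rfl
    rw [this, Complex.norm_real, Real.norm_eq_abs, abs_of_pos (by positivity)]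
  rw [norm_mul, norm_mul, norm_mul, hm1, Complex.norm_real, Real.norm_eq_abs, abs_of_nonneg hk1,
    norm_prod, norm_prod] at hn
  have e6 : (∏ k, ‖w k - (a : ℂ)‖⁻¹) * ∏ k, ‖(a : ℂ) - w k‖ = 1 := by
    rw [← Finset.prod_mul_distrib]
    refine Finset.prod_eq_one fun k _ => ?_
    rw [norm_sub_rev (w k), inv_mul_cancel₀ (norm_ne_zero_iff.2 (hL k))]
  calc (m + 1 : ℝ) * ‖∫ t in (0:ℝ)..k1, ∏ k, (1 - (t : ℂ) * u k)‖
      = (∏ k, ‖w k - (a : ℂ)‖⁻¹) * ((∏ k, ‖(a : ℂ) - w k‖) *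
          ((m + 1 : ℝ) * ‖∫ t in (0:ℝ)..k1, ∏ k, (1 - (t : ℂ) * u k)‖)) := by
        rw [← mul_assoc, e6, one_mul]
    _ = _ := by rw [hn]; ring

/-- sum of the critical points -/
lemma sum_crit {m : ℕ} (hm : 1 ≤ m) {a : ℝ} (z w : Fin m → ℂ)
    (hw : ∀ x : ℂ, (derivative (P a z)).eval x = (m + 1 : ℂ) * ∏ k, (x - w k)) :
    (m : ℂ) * (a + ∑ j, z j) = (m + 1 : ℂ) * ∑ k, w k := by
  have hpoly : derivative (P a z) = C (m + 1 : ℂ) * ∏ k, (X - C (w k)) := by
    refine Polynomial.funext fun x => ?_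
    rw [hw x, eval_mul, eval_C, eval_prod]
    simp
  have hnc : (P a z).nextCoeff = -(a : ℂ) + -∑ j, z j := by
    unfold P
    rw [(monic_X_sub_C (a : ℂ)).nextCoeff_mul (monic_prod_of_monic _ _ fun _ _ => monic_X_sub_C _),
      nextCoeff_X_sub_C, prod_X_sub_C_nextCoeff]
  have hdeg := P_natDegree a z
  have hc1 : (P a z).coeff m = -(a : ℂ) + -∑ j, z j := by
    rw [← hnc, nextCoeff_of_natDegree_pos (by omega), hdeg, Nat.add_sub_cancel]
  have hc2 : (∏ k, (X - C (w k))).coeff (m - 1) = -∑ k, w k := by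
    have h := prod_X_sub_C_coeff_card_pred (Finset.univ : Finset (Fin m)) w (by rw [Finset.card_univ, Fintype.card_fin]; omega)
    simpa using h
  have h1 := congrArg (fun q : ℂ[X] => q.coeff (m - 1)) hpoly
  simp only [coeff_derivative, coeff_C_mul] at h1
  rw [hc2, Nat.sub_add_cancel hm, hc1] at h1
  have h2 : ((m - 1 : ℕ) : ℂ) + 1 = m := by
    rw [← Nat.cast_succ, Nat.succ_eq_add_one, Nat.sub_add_cancel hm]
  rw [h2] at h1
  linear_combination -h1

/-- Gauss-Lucas for the unit disc -/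
lemma crit_norm_le {m : ℕ} {a : ℝ} (ha0 : 0 ≤ a) (ha1 : a ≤ 1) (z w : Fin m → ℂ)
    (hz : ∀ j, ‖z j‖ ≤ 1)
    (hw : ∀ x : ℂ, (derivative (P a z)).eval x = (m + 1 : ℂ) * ∏ k, (x - w k)) (k : Fin m) :
    ‖w k‖ ≤ 1 := by
  have hdeg : 0 < (P a z).degree := by
    rw [← natDegree_pos_iff_degree_pos, P_natDegree]; omega
  have hd0 : derivative (P a z) ≠ 0 := by
    intro h
    have := dP_lead a z
    rw [h, leadingCoeff_zero] at this
    exact Nat.cast_add_one_ne_zero m this.symm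
  have hsub := rootSet_derivative_subset_convexHull_rootSet hdeg
  have hmem : w k ∈ (derivative (P a z)).rootSet ℂ := by
    rw [mem_rootSet]
    refine ⟨hd0, ?_⟩
    rw [coe_aeval_eq_eval, hw]
    rw [Finset.prod_eq_zero (Finset.mem_univ k) (sub_self _), mul_zero]
  have h1 := hsub hmem
  have h2 : (P a z).rootSet ℂ ⊆ Metric.closedBall (0:ℂ) 1 := by
    intro x hx
    rw [mem_rootSet] at hx
    have hx2 := hx.2
    rw [coe_aeval_eq_eval] at hx2
    unfold P at hx2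
    rw [eval_mul, eval_sub, eval_X, eval_C, eval_prod, mul_eq_zero] at hx2
    rw [mem_closedBall_zero_iff]
    rcases hx2 with hx2 | hx2
    · rw [sub_eq_zero.1 hx2, Complex.norm_real, Real.norm_eq_abs, abs_of_nonneg ha0]; exact ha1
    · rw [Finset.prod_eq_zero_iff] at hx2
      obtain ⟨j, _, hj⟩ := hx2
      rw [eval_sub, eval_X, eval_C, sub_eq_zero] at hj
      rw [hj]; exact hz j
  have h3 := convexHull_min h2 (convex_closedBall (0:ℂ) 1) h1
  simpa using h3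

end Pool.Agent.H250.MR
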