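import Pool.Agent.H250.MR.Stm3
import Pool.Agent.H250.MR.T2

set_option autoImplicit false

/-!
# The pointwise inequality (ZPT)
-/

namespace Pool.Agent.H250.MR.ZPTf

open Pool.Agent.H250.MR

theorem ZPT : S_ZPT := by
  intro a ρ x ha ha1 hρ hρ1 hx
  have hT := Pool.Agent.H250.MR.T2f.T2 a 1 x ha ha1 (by norm_num) le_rfl hx
  rw [one_mul] at hT
  obtain ⟨r, hr⟩ : ∃ r : ℝ, r = ‖x‖ := ⟨_, rfl⟩
  obtain ⟨p, hp⟩ : ∃ p : ℝ, p = ‖1 + (a : ℂ) * x‖ := ⟨_, rfl⟩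
  have h1 := p1 ha.le hx
  rw [← hr] at hx hT h1
  rw [← hp] at hx hT
  rw [← hr, ← hp]
  have hp0 : 0 ≤ p := by rw [hp]; exact norm_nonneg _
  have hr00 : 0 ≤ r := by rw [hr]; exact norm_nonneg _
  have hr12 : 1 / 2 ≤ r := by nlinarith
  have hr0 : 0 < r := by linarith
  obtain ⟨E, hE⟩ : ∃ E : ℝ, E = 2 * (1 - 1 / 256) * (r - 1) + (p ^ 2 - 1) / (256 * r ^ 2) :=
    ⟨_, rfl⟩
  rw [← hE] at hT
  rw [← hE, Real.exp_add]
  -- lower bound for the exponent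
  have h2 : -(1 / 64) ≤ (p ^ 2 - 1) / (256 * r ^ 2) := by
    rw [le_div_iff₀ (by positivity)]
    have : (1 / 2 : ℝ) ^ 2 ≤ r ^ 2 := pow_le_pow_left₀ (by norm_num) hr12 2
    have : 0 ≤ p ^ 2 := sq_nonneg p
    nlinarith
  have h3 : 2 * ((255 * r - 1) / 256 - 1) ≤ E := by
    rw [hE]; linarith
  have h4 : ((255 * r - 1) / 256) ^ 2 ≤ Real.exp E := by
    have h5 : (255 * r - 1) / 256 ≤ Real.exp ((255 * r - 1) / 256 - 1) := by
      have := Real.add_one_le_exp ((255 * r - 1) / 256 - 1)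
      linarith
    have h6 : 0 ≤ (255 * r - 1) / 256 := by linarith
    have h7 := pow_le_pow_left₀ h6 h5 2
    rw [← Real.exp_nat_mul] at h7
    refine h7.trans (Real.exp_le_exp.2 ?_)
    push_cast
    exact h3
  have h8 : 3 * r ^ 2 ≤ 4 * Real.exp E := by
    have h9 : (253 / 256) * r ≤ (255 * r - 1) / 256 := by linarith
    have h10 := pow_le_pow_left₀ (by positivity) h9 2
    have h11 : ((253 / 256 : ℝ) * r) ^ 2 = (253 / 256) ^ 2 * r ^ 2 := by ring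
    rw [h11] at h10
    have : 0 ≤ r ^ 2 := sq_nonneg r
    nlinarith
  have h12 : (p + ρ * r) ^ 2 ≤ p ^ 2 + ρ * (3 * r ^ 2) := by
    have k1 : p * r ≤ r ^ 2 := by nlinarith
    have k2 : ρ * (p * r) ≤ ρ * r ^ 2 := mul_le_mul_of_nonneg_left k1 hρ
    have k3 : ρ ^ 2 ≤ ρ := by nlinarith
    have k4 : ρ ^ 2 * r ^ 2 ≤ ρ * r ^ 2 := mul_le_mul_of_nonneg_right k3 (sq_nonneg r)
    nlinarith
  have h13 : ρ * (3 * r ^ 2) ≤ ρ * (4 * Real.exp E) := mul_le_mul_of_nonneg_left h8 hρ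
  have h14 : 1 + 4 * ρ ≤ Real.exp (4 * ρ) := by
    have := Real.add_one_le_exp (4 * ρ)
    linarith
  calc (p + ρ * r) ^ 2 ≤ Real.exp E + ρ * (4 * Real.exp E) := by linarith
    _ = Real.exp E * (1 + 4 * ρ) := by ring
    _ ≤ Real.exp E * Real.exp (4 * ρ) := mul_le_mul_of_nonneg_left h14 (Real.exp_pos _).le

end Pool.Agent.H250.MR.ZPTf
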